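import Mathlib

/-!
# Abstract high-temperature expansions, the switching principle and Griffiths' inequality
-/

open Finset

namespace Pool.Agent.Hhelper76.DC

/-- State of an edge: (open?, odd for the first current?, odd for the second current?). -/
abbrev St : Type := Bool × Bool × Bool

open Classical in
/-- indicator of a proposition. -/
noncomputable def ind (p : Prop) : ℝ := if p then 1 else 0

lemma ind_pos {p : Prop} (h : p) : ind p = 1 := by simp [ind, h]
lemma ind_neg {p : Prop} (h : ¬ p) : ind p = 0 := by simp [ind, h]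
lemma ind_nonneg (p : Prop) : 0 ≤ ind p := by unfold ind; split_ifs <;> norm_num
lemma ind_le_one (p : Prop) : ind p ≤ 1 := by unfold ind; split_ifs <;> norm_num
lemma ind_congr {p q : Prop} (h : p ↔ q) : ind p = ind q := by rw [propext h]
lemma ind_and (p q : Prop) : ind (p ∧ q) = ind p * ind q := by
  by_cases hp : p <;> by_cases hq : q <;> simp [ind, hp, hq]
lemma ind_mono {p q : Prop} (h : p → q) : ind p ≤ ind q := by
  by_cases hp : p
  · rw [ind_pos hp, ind_pos (h hp)]
  · rw [ind_neg hp]; exact ind_nonneg q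

section Alg

variable {ι M : Type*} [DecidableEq ι] [AddCommGroup M]

/-- Boundary of a finite set of indices. -/
def bd (C : ι → M) (S : Finset ι) : M := ∑ i ∈ S, C i

/-- High temperature expansion. -/
noncomputable def Z (C : ι → M) (u : ι → ℝ) (J : Finset ι) (A : M) : ℝ :=
  ∑ S ∈ J.powerset, ind (bd C S = A) * ∏ i ∈ S, u i

/-- Configuration read off from three sets. -/
def cf (p : Finset ι × Finset ι × Finset ι) (i : ι) : St :=
  (decide (i ∈ p.1), decide (i ∈ p.2.1), decide (i ∈ p.2.2))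

/-- triples of subsets of `J`. -/
def T3 (J : Finset ι) : Finset (Finset ι × Finset ι × Finset ι) :=
  J.powerset ×ˢ (J.powerset ×ˢ J.powerset)

/-- Two-copy expectation functional. -/
noncomputable def Ex (C : ι → M) (v : ι → St → ℝ) (J : Finset ι) (A B : M)
    (F : (ι → St) → ℝ) : ℝ :=
  ∑ p ∈ T3 J, (∏ i ∈ J, v i (cf p i)) *
    (ind (bd C p.2.1 = A) * ind (bd C p.2.2 = B) * F (cf p))

/-- `m` if `b`, else `0`. -/
def sc (b : Bool) (m : M) : M := if b then m else 0

@[simp] lemma sc_true (m : M) : sc true m = m := rfl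
@[simp] lemma sc_false (m : M) : sc false m = 0 := rfl

/-- insert `e` if `b`. -/
def ins (b : Bool) (e : ι) (S : Finset ι) : Finset ι := if b then insert e S else S

/-- insert `e` in the three sets according to `s`. -/
def ins3 (s : St) (e : ι) (p : Finset ι × Finset ι × Finset ι) :
    Finset ι × Finset ι × Finset ι := (ins s.1 e p.1, ins s.2.1 e p.2.1, ins s.2.2 e p.2.2)

lemma sum_powerset_ins {e : ι} {J : Finset ι} (he : e ∉ J) {R : Type*} [AddCommMonoid R]
    (G : Finset ι → R) :
    ∑ S ∈ (insert e J).powerset, G S = ∑ b : Bool, ∑ S ∈ J.powerset, G (ins b e S) := by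
  rw [Finset.sum_powerset_insert he]
  simp [ins, add_comm]

lemma sum_T3_ins {e : ι} {J : Finset ι} (he : e ∉ J) {R : Type*} [AddCommMonoid R]
    (G : Finset ι × Finset ι × Finset ι → R) :
    ∑ p ∈ T3 (insert e J), G p = ∑ s : St, ∑ p ∈ T3 J, G (ins3 s e p) := by
  unfold T3
  simp only [Finset.sum_product, sum_powerset_ins he, Fintype.sum_prod_type, Fintype.sum_bool,
    Finset.sum_add_distrib, ins3]

lemma bd_ins (C : ι → M) {e : ι} {S : Finset ι} (he : e ∉ S) (b : Bool) :
    bd C (ins b e S) = bd C S + sc b (C e) := by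
  cases b
  · simp [ins]
  · simp [ins, bd, Finset.sum_insert he, add_comm]

omit [DecidableEq ι] in
lemma mem_T3 {J : Finset ι} {p : Finset ι × Finset ι × Finset ι} :
    p ∈ T3 J ↔ p.1 ⊆ J ∧ p.2.1 ⊆ J ∧ p.2.2 ⊆ J := by
  simp [T3]

lemma cf_ins {e : ι} {J : Finset ι} (he : e ∉ J) {p : Finset ι × Finset ι × Finset ι}
    (hp : p ∈ T3 J) (s : St) :
    cf (ins3 s e p) = Function.update (cf p) e s := by
  rw [mem_T3] at hp
  obtain ⟨h0, h1, h2⟩ := hp
  have g0 : e ∉ p.1 := fun h => he (h0 h)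
  have g1 : e ∉ p.2.1 := fun h => he (h1 h)
  have g2 : e ∉ p.2.2 := fun h => he (h2 h)
  obtain ⟨b₀, b₁, b₂⟩ := s
  funext i
  by_cases hi : i = e
  · subst hi
    cases b₀ <;> cases b₁ <;> cases b₂ <;> simp [cf, ins, ins3, g0, g1, g2]
  · cases b₀ <;> cases b₁ <;> cases b₂ <;> simp [cf, ins, ins3, hi]

variable (h2 : ∀ m : M, m + m = 0)

include h2 in
lemma add_eq_iff_char2 (a b c : M) : a + b = c ↔ a = c + b := by
  constructor
  · rintro rfl
    rw [add_assoc, h2, add_zero]
  · rintro rfl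
    rw [add_assoc, h2, add_zero]

include h2 in
lemma Z_insert (C : ι → M) (u : ι → ℝ) {e : ι} {J : Finset ι} (he : e ∉ J) (A : M) :
    Z C u (insert e J) A = Z C u J A + u e * Z C u J (A + C e) := by
  unfold Z
  rw [Finset.sum_powerset_insert he, Finset.mul_sum]
  congr 1
  refine Finset.sum_congr rfl fun S hS => ?_
  have heS : e ∉ S := fun h => he (Finset.mem_powerset.1 hS h)
  have hb : bd C (insert e S) = bd C S + C e := by
    simp [bd, Finset.sum_insert heS, add_comm]
  rw [hb, ind_congr (add_eq_iff_char2 h2 _ _ _), Finset.prod_insert heS]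
  ring

include h2 in
/-- one-edge recursion for the two-copy functional. -/
lemma Ex_insert (C : ι → M) (v : ι → St → ℝ) {e : ι} {J : Finset ι} (he : e ∉ J) (A B : M)
    (F : (ι → St) → ℝ) :
    Ex C v (insert e J) A B F =
      ∑ s : St, v e s * Ex C v J (A + sc s.2.1 (C e)) (B + sc s.2.2 (C e))
        (fun c => F (Function.update c e s)) := by
  unfold Ex
  rw [sum_T3_ins he]
  refine Finset.sum_congr rfl fun s _ => ?_
  rw [Finset.mul_sum]
  refine Finset.sum_congr rfl fun p hp => ?_
  have hp' := mem_T3.1 hp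
  have g1 : e ∉ p.2.1 := fun h => he (hp'.2.1 h)
  have g2 : e ∉ p.2.2 := fun h => he (hp'.2.2 h)
  rw [cf_ins he hp, Finset.prod_insert he, Function.update_self, mul_assoc]
  have hprod : ∏ i ∈ J, v i (Function.update (cf p) e s i) = ∏ i ∈ J, v i (cf p i) := by
    refine Finset.prod_congr rfl fun i hi => ?_
    rw [Function.update_of_ne]
    rintro rfl
    exact he hi
  rw [hprod]
  have hb1 : bd C (ins3 s e p).2.1 = bd C p.2.1 + sc s.2.1 (C e) := bd_ins C g1 _
  have hb2 : bd C (ins3 s e p).2.2 = bd C p.2.2 + sc s.2.2 (C e) := bd_ins C g2 _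
  rw [hb1, hb2, ind_congr (add_eq_iff_char2 h2 (bd C p.2.1) _ A),
    ind_congr (add_eq_iff_char2 h2 (bd C p.2.2) _ B)]

lemma Ex_empty (C : ι → M) (v : ι → St → ℝ) (A B : M) (F : (ι → St) → ℝ) :
    Ex C v ∅ A B F = ind (0 = A) * ind (0 = B) * F (cf (∅, ∅, ∅)) := by
  have : T3 (∅ : Finset ι) = {(∅, ∅, ∅)} := by
    ext p
    simp [mem_T3, Prod.ext_iff]
  unfold Ex
  rw [this]
  simp [bd]

omit [DecidableEq ι] in
lemma Z_empty (C : ι → M) (u : ι → ℝ) (A : M) : Z C u ∅ A = ind (0 = A) := by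
  simp [Z, bd]

/-- the two copies have couplings `a`, `b`. -/
def HasCoupling (v : ι → St → ℝ) (a b : ι → ℝ) (J : Finset ι) : Prop :=
  ∀ i ∈ J, ∀ s₁ s₂ : Bool, v i (true, s₁, s₂) + v i (false, s₁, s₂) =
    (if s₁ then a i else 1) * (if s₂ then b i else 1)

include h2 in
lemma Ex_one (C : ι → M) (v : ι → St → ℝ) (a b : ι → ℝ) (J : Finset ι)
    (hv : HasCoupling v a b J) (A B : M) :
    Ex C v J A B (fun _ => 1) = Z C a J A * Z C b J B := by
  classical
  induction J using Finset.induction_on generalizing A B with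
  | empty => rw [Ex_empty, Z_empty, Z_empty, mul_one]
  | insert e J he ih =>
    have hv' : HasCoupling v a b J := fun i hi => hv i (Finset.mem_insert_of_mem hi)
    have hve := hv e (Finset.mem_insert_self e J)
    rw [Ex_insert h2 C v he, Z_insert h2 C a he, Z_insert h2 C b he]
    simp only [ih hv', Fintype.sum_prod_type, Fintype.sum_bool, sc_true, sc_false, add_zero]
    have e1 := hve true true
    have e2 := hve true false
    have e3 := hve false true
    have e4 := hve false false
    simp only [if_true, Bool.false_eq_true, if_false, mul_one, one_mul] at e1 e2 e3 e4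
    linear_combination (Z C a J (A + C e) * Z C b J (B + C e)) * e1 +
      (Z C a J (A + C e) * Z C b J B) * e2 + (Z C a J A * Z C b J (B + C e)) * e3 +
      (Z C a J A * Z C b J B) * e4

/-! ### Cylinder events -/

/-- boundary of the first current of a pattern on `T`. -/
def bd₁ (C : ι → M) (T : Finset ι) (m : ι → St) : M := ∑ i ∈ T, sc (m i).2.1 (C i)
/-- boundary of the second current of a pattern on `T`. -/
def bd₂ (C : ι → M) (T : Finset ι) (m : ι → St) : M := ∑ i ∈ T, sc (m i).2.2 (C i)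

lemma Ex_congr (C : ι → M) (v : ι → St → ℝ) (J : Finset ι) (A B : M)
    {F G : (ι → St) → ℝ} (h : ∀ c, F c = G c) : Ex C v J A B F = Ex C v J A B G := by
  unfold Ex
  simp only [h]

lemma Ex_zero (C : ι → M) (v : ι → St → ℝ) (J : Finset ι) (A B : M)
    {F : (ι → St) → ℝ} (h : ∀ c, F c = 0) : Ex C v J A B F = 0 := by
  unfold Ex
  simp only [h, mul_zero, Finset.sum_const_zero]

lemma Ex_mul_left (C : ι → M) (v : ι → St → ℝ) (J : Finset ι) (A B : M)
    (r : ℝ) (F : (ι → St) → ℝ) : Ex C v J A B (fun c => r * F c) = r * Ex C v J A B F := by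
  unfold Ex
  rw [Finset.mul_sum]
  refine Finset.sum_congr rfl fun p _ => by ring

lemma Ex_add (C : ι → M) (v : ι → St → ℝ) (J : Finset ι) (A B : M)
    (F G : (ι → St) → ℝ) :
    Ex C v J A B (fun c => F c + G c) = Ex C v J A B F + Ex C v J A B G := by
  unfold Ex
  rw [← Finset.sum_add_distrib]
  refine Finset.sum_congr rfl fun p _ => by ring

lemma Ex_sum (C : ι → M) (v : ι → St → ℝ) (J : Finset ι) (A B : M) {κ : Type*} (K : Finset κ)
    (F : κ → (ι → St) → ℝ) :
    Ex C v J A B (fun c => ∑ k ∈ K, F k c) = ∑ k ∈ K, Ex C v J A B (F k) := by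
  classical
  induction K using Finset.induction_on with
  | empty => simp [Ex_zero]
  | insert k K hk ih =>
    rw [Finset.sum_insert hk, ← ih, ← Ex_add]
    exact Ex_congr _ _ _ _ _ fun c => by rw [Finset.sum_insert hk]

include h2 in
/-- fixing the state of one edge. -/
lemma Ex_single (C : ι → M) (v : ι → St → ℝ) {e : ι} {J : Finset ι} (he : e ∈ J) (A B : M)
    (s : St) (F : (ι → St) → ℝ) :
    Ex C v J A B (fun c => ind (c e = s) * F c) =
      v e s * Ex C v (J.erase e) (A + sc s.2.1 (C e)) (B + sc s.2.2 (C e))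
        (fun c => F (Function.update c e s)) := by
  classical
  conv_lhs => rw [← Finset.insert_erase he]
  rw [Ex_insert h2 C v (Finset.notMem_erase e J)]
  rw [Finset.sum_eq_single s]
  · congr 1
    refine Ex_congr _ _ _ _ _ fun c => ?_
    rw [Function.update_self, ind_pos rfl, one_mul]
  · intro s' _ hs'
    rw [Ex_zero, mul_zero]
    intro c
    rw [Function.update_self, ind_neg hs', zero_mul]
  · intro h
    exact (h (Finset.mem_univ s)).elim

include h2 in
lemma Ex_cyl (C : ι → M) (v : ι → St → ℝ) (T : Finset ι) (m : ι → St) :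
    ∀ {J : Finset ι}, T ⊆ J → ∀ (A B : M),
    Ex C v J A B (fun c => ind (∀ i ∈ T, c i = m i)) =
      (∏ i ∈ T, v i (m i)) * Ex C v (J \ T) (A + bd₁ C T m) (B + bd₂ C T m) (fun _ => 1) := by
  classical
  induction T using Finset.induction_on with
  | empty =>
    intro J _ A B
    simp only [Finset.prod_empty, one_mul, bd₁, bd₂, Finset.sum_empty, add_zero,
      Finset.sdiff_empty]
    exact Ex_congr _ _ _ _ _ fun c => ind_pos (by simp)
  | insert e T he ih =>
    intro J hJ A B
    have heJ : e ∈ J := hJ (Finset.mem_insert_self e T)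
    have hTJ : T ⊆ J.erase e := fun i hi =>
      Finset.mem_erase.2 ⟨fun h => he (h ▸ hi), hJ (Finset.mem_insert_of_mem hi)⟩
    have h1 : Ex C v J A B (fun c => ind (∀ i ∈ insert e T, c i = m i)) =
        Ex C v J A B (fun c => ind (c e = m e) * ind (∀ i ∈ T, c i = m i)) := by
      refine Ex_congr _ _ _ _ _ fun c => ?_
      rw [← ind_and]
      exact ind_congr (by simp)
    rw [h1, Ex_single h2 C v heJ]
    have h3 : Ex C v (J.erase e) (A + sc (m e).2.1 (C e)) (B + sc (m e).2.2 (C e))
        (fun c => ind (∀ i ∈ T, Function.update c e (m e) i = m i)) =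
        Ex C v (J.erase e) (A + sc (m e).2.1 (C e)) (B + sc (m e).2.2 (C e))
        (fun c => ind (∀ i ∈ T, c i = m i)) := by
      refine Ex_congr _ _ _ _ _ fun c => ind_congr ?_
      refine forall₂_congr fun i hi => ?_
      rw [Function.update_of_ne]
      rintro rfl
      exact he hi
    rw [h3, ih hTJ]
    have h4 : J.erase e \ T = J \ insert e T := by
      ext i; simp only [Finset.mem_sdiff, Finset.mem_erase, Finset.mem_insert]; tauto
    rw [h4, Finset.prod_insert he, bd₁, bd₂, bd₁, bd₂, Finset.sum_insert he,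
      Finset.sum_insert he]
    simp only [add_assoc, mul_assoc]

/-! ### The switching principle -/

/-- `F` depends on the open edges only. -/
def TrDep (F : (ι → St) → ℝ) : Prop := ∀ c c' : ι → St, (∀ i, (c i).1 = (c' i).1) → F c = F c'

/-- there is a set of open edges in `J` with boundary `D`. -/
def Reach (C : ι → M) (J : Finset ι) (D : M) (c : ι → St) : Prop :=
  ∃ K ⊆ J, (∀ i ∈ K, (c i).1 = true) ∧ bd C K = D

/-- the weights allow switching. -/
def Switchable (v : ι → St → ℝ) : Prop :=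
  ∀ i s₁ s₂, v i (true, !s₁, !s₂) = v i (true, s₁, s₂)

include h2 in
lemma bd_symmDiff (C : ι → M) (S K : Finset ι) : bd C (symmDiff S K) = bd C S + bd C K := by
  have e1 : bd C (symmDiff S K) + bd C (S ∩ K) + bd C (S ∩ K) = bd C S + bd C K := by
    have a1 : bd C S = bd C (S \ K) + bd C (S ∩ K) := by
      unfold bd
      rw [← Finset.sum_union]
      · congr 1
        ext i; simp only [Finset.mem_union, Finset.mem_sdiff, Finset.mem_inter]; tauto
      · rw [Finset.disjoint_left]; intro i; simp only [Finset.mem_sdiff, Finset.mem_inter]; tauto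
    have a2 : bd C K = bd C (K \ S) + bd C (S ∩ K) := by
      unfold bd
      rw [← Finset.sum_union]
      · congr 1
        ext i; simp only [Finset.mem_union, Finset.mem_sdiff, Finset.mem_inter]; tauto
      · rw [Finset.disjoint_left]; intro i; simp only [Finset.mem_sdiff, Finset.mem_inter]; tauto
    have a3 : bd C (symmDiff S K) = bd C (S \ K) + bd C (K \ S) := by
      unfold bd
      rw [← Finset.sum_union]
      · rfl
      · rw [Finset.disjoint_left]; intro i; simp only [Finset.mem_sdiff]; tauto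
    rw [a1, a2, a3]; abel
  rw [add_assoc, h2, add_zero] at e1
  exact e1

include h2 in
/-- **Switching principle**. -/
lemma switch (C : ι → M) (v : ι → St → ℝ) (hs : Switchable v) (J : Finset ι) (A B D : M)
    (F : (ι → St) → ℝ) (hF : TrDep F) (hR : ∀ c, F c ≠ 0 → Reach C J D c) :
    Ex C v J A B F = Ex C v J (A + D) (B + D) F := by
  classical
  unfold Ex T3
  rw [Finset.sum_product, Finset.sum_product]
  refine Finset.sum_congr rfl fun ω hω => ?_
  have hωJ : ω ⊆ J := Finset.mem_powerset.1 hω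
  by_cases h0 : F (cf (ω, ∅, ∅)) = 0
  · have : ∀ q : Finset ι × Finset ι, F (cf (ω, q)) = 0 := by
      intro q
      rw [← h0]
      exact hF _ _ fun i => rfl
    simp [this]
  · obtain ⟨K, hKJ, hKω, hbd⟩ := hR _ h0
    have hKω' : K ⊆ ω := fun i hi => by simpa [cf] using hKω i hi
    have hsub : ∀ S ∈ J.powerset, symmDiff S K ∈ J.powerset := by
      intro S hS
      rw [Finset.mem_powerset] at hS ⊢
      intro i hi
      rw [Finset.mem_symmDiff] at hi
      rcases hi with hi | hi
      · exact hS hi.1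
      · exact hKJ hi.1
    refine Finset.sum_nbij' (fun q => (symmDiff q.1 K, symmDiff q.2 K))
      (fun q => (symmDiff q.1 K, symmDiff q.2 K)) ?_ ?_ ?_ ?_ ?_
    · intro q hq
      rw [Finset.mem_product] at hq ⊢
      exact ⟨hsub _ hq.1, hsub _ hq.2⟩
    · intro q hq
      rw [Finset.mem_product] at hq ⊢
      exact ⟨hsub _ hq.1, hsub _ hq.2⟩
    · intro q _
      simp
    · intro q _
      simp
    · intro q _
      have hF' : F (cf (ω, q)) = F (cf (ω, symmDiff q.1 K, symmDiff q.2 K)) :=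
        hF _ _ fun i => rfl
      have hprod : ∏ i ∈ J, v i (cf (ω, q) i) =
          ∏ i ∈ J, v i (cf (ω, symmDiff q.1 K, symmDiff q.2 K) i) := by
        refine Finset.prod_congr rfl fun i _ => ?_
        by_cases hi : i ∈ K
        · have hiω := hKω' hi
          have e1 : cf (ω, symmDiff q.1 K, symmDiff q.2 K) i =
              (true, !decide (i ∈ q.1), !decide (i ∈ q.2)) := by
            simp [cf, hiω, Finset.mem_symmDiff, hi]
          have e2 : cf (ω, q) i = (true, decide (i ∈ q.1), decide (i ∈ q.2)) := by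
            simp [cf, hiω]
          rw [e1, e2, hs]
        · have e1 : cf (ω, symmDiff q.1 K, symmDiff q.2 K) i = cf (ω, q) i := by
            simp [cf, Finset.mem_symmDiff, hi]
          rw [e1]
      simp only [bd_symmDiff h2, hbd, hF', hprod]
      have c1 : ∀ X Y : M, ind (X + D = Y + D) = ind (X = Y) := fun X Y =>
        ind_congr (add_left_inj D)
      rw [c1, c1]

/-- edges which are odd for the second current are open. -/
def OddOpen (v : ι → St → ℝ) : Prop := ∀ i s₁, v i (false, s₁, true) = 0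

lemma Ex_reach (C : ι → M) (v : ι → St → ℝ) (ho : OddOpen v) (J : Finset ι) (A B : M)
    (F : (ι → St) → ℝ) :
    Ex C v J A B F = Ex C v J A B (fun c => ind (Reach C J B c) * F c) := by
  unfold Ex
  refine Finset.sum_congr rfl fun p hp => ?_
  rw [mem_T3] at hp
  by_cases hB : bd C p.2.2 = B
  · by_cases hsub : p.2.2 ⊆ p.1
    · have : Reach C J B (cf p) := ⟨p.2.2, hp.2.2, fun i hi => by simpa [cf] using hsub hi, hB⟩
      beta_reduce
      rw [ind_pos this, one_mul]
    · obtain ⟨i, hi, hi'⟩ := Finset.not_subset.1 hsub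
      have : ∏ i ∈ J, v i (cf p i) = 0 := by
        refine Finset.prod_eq_zero (hp.2.2 hi) ?_
        have : cf p i = (false, decide (i ∈ p.2.1), true) := by simp [cf, hi, hi']
        rw [this, ho]
      rw [this, zero_mul, zero_mul]
  · rw [ind_neg hB]; ring

omit [DecidableEq ι] in
lemma trDep_reach (C : ι → M) (J : Finset ι) (D : M) :
    TrDep (fun c => ind (Reach C J D c)) := by
  intro c c' h
  refine ind_congr ?_
  unfold Reach
  simp only [h]

omit [DecidableEq ι] in
lemma TrDep.mul {F G : (ι → St) → ℝ} (hF : TrDep F) (hG : TrDep G) :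
    TrDep (fun c => F c * G c) := fun c c' h => by
  show F c * G c = F c' * G c'
  rw [hF c c' h, hG c c' h]

include h2 in
/-- moving all sources of the second current to the first one. -/
lemma Ex_switch_all (C : ι → M) (v : ι → St → ℝ) (hs : Switchable v) (ho : OddOpen v)
    (J : Finset ι) (A B : M) (F : (ι → St) → ℝ) (hF : TrDep F) :
    Ex C v J A B F = Ex C v J (A + B) 0 (fun c => ind (Reach C J B c) * F c) := by
  rw [Ex_reach C v ho J A B F]
  rw [switch h2 C v hs J A B B _ ((trDep_reach C J B).mul hF), h2]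
  intro c hc
  by_contra h
  exact hc (by rw [ind_neg h, zero_mul])

lemma Ex_mono (C : ι → M) (v : ι → St → ℝ) (hv : ∀ i s, 0 ≤ v i s) (J : Finset ι) (A B : M)
    {F G : (ι → St) → ℝ} (h : ∀ c, F c ≤ G c) : Ex C v J A B F ≤ Ex C v J A B G := by
  unfold Ex
  refine Finset.sum_le_sum fun p _ => ?_
  refine mul_le_mul_of_nonneg_left ?_ (Finset.prod_nonneg fun i _ => hv i _)
  exact mul_le_mul_of_nonneg_left (h _) (mul_nonneg (ind_nonneg _) (ind_nonneg _))

lemma Ex_nonneg (C : ι → M) (v : ι → St → ℝ) (hv : ∀ i s, 0 ≤ v i s) (J : Finset ι) (A B : M)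
    {F : (ι → St) → ℝ} (h : ∀ c, 0 ≤ F c) : 0 ≤ Ex C v J A B F := by
  have := Ex_mono C v hv J A B (F := fun _ => 0) (G := F) h
  rwa [Ex_zero _ _ _ _ _ (fun _ => rfl)] at this

/-! ### Griffiths' inequalities -/

/-- symmetric weights for the coupling `u`. -/
noncomputable def vv (u : ℝ) (s : St) : ℝ :=
  if s.1 then (if s.2.1 = s.2.2 then u ^ 2 else u)
  else (if s.2.1 ∨ s.2.2 then 0 else 1 - u ^ 2)

lemma vv_nonneg {u : ℝ} (h0 : 0 ≤ u) (h1 : u ≤ 1) (s : St) : 0 ≤ vv u s := by
  unfold vv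
  have : u ^ 2 ≤ 1 := by nlinarith
  split_ifs <;> first | positivity | linarith

lemma vv_coupling (u : ι → ℝ) (J : Finset ι) : HasCoupling (fun i => vv (u i)) u u J := by
  intro i _ s₁ s₂
  cases s₁ <;> cases s₂ <;> simp [vv] <;> ring

lemma vv_switchable (u : ι → ℝ) : Switchable (fun i => vv (u i)) := by
  intro i s₁ s₂
  cases s₁ <;> cases s₂ <;> simp [vv]

lemma vv_oddOpen (u : ι → ℝ) : OddOpen (fun i => vv (u i)) := by
  intro i s₁
  cases s₁ <;> simp [vv]

include h2 in
/-- **Griffiths' second inequality**. -/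
lemma gks2 (C : ι → M) (u : ι → ℝ) (h0 : ∀ i, 0 ≤ u i) (h1 : ∀ i, u i ≤ 1) (J : Finset ι)
    (A B : M) : Z C u J A * Z C u J B ≤ Z C u J (A + B) * Z C u J 0 := by
  rw [← Ex_one h2 C (fun i => vv (u i)) u u J (vv_coupling u J),
    ← Ex_one h2 C (fun i => vv (u i)) u u J (vv_coupling u J),
    Ex_switch_all h2 C _ (vv_switchable u) (vv_oddOpen u) J A B _ (fun _ _ _ => rfl)]
  refine Ex_mono C _ (fun i s => vv_nonneg (h0 i) (h1 i) s) J _ _ fun c => ?_
  rw [mul_one]
  exact ind_le_one _

omit [DecidableEq ι] in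
lemma Z_nonneg (C : ι → M) (u : ι → ℝ) (h0 : ∀ i, 0 ≤ u i) (J : Finset ι) (A : M) :
    0 ≤ Z C u J A :=
  Finset.sum_nonneg fun S _ => mul_nonneg (ind_nonneg _) (Finset.prod_nonneg fun i _ => h0 i)

omit [DecidableEq ι] in
lemma one_le_Z (C : ι → M) (u : ι → ℝ) (h0 : ∀ i, 0 ≤ u i) (J : Finset ι) :
    1 ≤ Z C u J 0 := by
  have : ind (bd C (∅ : Finset ι) = 0) * ∏ i ∈ (∅ : Finset ι), u i ≤ Z C u J 0 :=
    Finset.single_le_sum
      (f := fun S : Finset ι => ind (bd C S = 0) * ∏ i ∈ S, u i)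
      (fun S _ => mul_nonneg (ind_nonneg _) (Finset.prod_nonneg fun i _ => h0 i))
      (Finset.empty_mem_powerset J)
  simpa [bd, ind] using this

/-- correlation function -/
noncomputable def cor (C : ι → M) (u : ι → ℝ) (J : Finset ι) (A : M) : ℝ :=
  Z C u J A / Z C u J 0

include h2 in
lemma Z_le_Z_zero (C : ι → M) (u : ι → ℝ) (h0 : ∀ i, 0 ≤ u i) (h1 : ∀ i, u i ≤ 1)
    (J : Finset ι) (A : M) : Z C u J A ≤ Z C u J 0 := by
  have := gks2 h2 C u h0 h1 J A A
  rw [h2] at this
  exact abs_le_of_sq_le_sq' (by nlinarith) (Z_nonneg C u h0 J 0) |>.2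

omit [DecidableEq ι] in
lemma cor_nonneg (C : ι → M) (u : ι → ℝ) (h0 : ∀ i, 0 ≤ u i) (J : Finset ι) (A : M) :
    0 ≤ cor C u J A := div_nonneg (Z_nonneg C u h0 J A) (Z_nonneg C u h0 J 0)

include h2 in
lemma cor_le_one (C : ι → M) (u : ι → ℝ) (h0 : ∀ i, 0 ≤ u i) (h1 : ∀ i, u i ≤ 1)
    (J : Finset ι) (A : M) : cor C u J A ≤ 1 :=
  div_le_one_of_le₀ (Z_le_Z_zero h2 C u h0 h1 J A) (Z_nonneg C u h0 J 0)

include h2 in
lemma cor_mul_le (C : ι → M) (u : ι → ℝ) (h0 : ∀ i, 0 ≤ u i) (h1 : ∀ i, u i ≤ 1)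
    (J : Finset ι) (A B : M) : cor C u J A * cor C u J B ≤ cor C u J (A + B) := by
  have hpos : 0 < Z C u J 0 := lt_of_lt_of_le one_pos (one_le_Z C u h0 J)
  unfold cor
  rw [div_mul_div_comm, div_le_div_iff₀ (mul_pos hpos hpos) hpos]
  have := gks2 h2 C u h0 h1 J A B
  nlinarith

include h2 in
/-- monotonicity in the set of interactions, one at a time. -/
lemma cor_insert (C : ι → M) (u : ι → ℝ) (h0 : ∀ i, 0 ≤ u i) (h1 : ∀ i, u i ≤ 1)
    {e : ι} {J : Finset ι} (he : e ∉ J) (A : M) : cor C u J A ≤ cor C u (insert e J) A := by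
  have hpos : 0 < Z C u J 0 := lt_of_lt_of_le one_pos (one_le_Z C u h0 J)
  have hpos' : 0 < Z C u (insert e J) 0 := lt_of_lt_of_le one_pos (one_le_Z C u h0 _)
  unfold cor
  rw [div_le_div_iff₀ hpos hpos', Z_insert h2 C u he, Z_insert h2 C u he, zero_add]
  have := mul_le_mul_of_nonneg_left (gks2 h2 C u h0 h1 J A (C e)) (h0 e)
  nlinarith

include h2 in
lemma cor_mono (C : ι → M) (u : ι → ℝ) (h0 : ∀ i, 0 ≤ u i) (h1 : ∀ i, u i ≤ 1)
    {J J' : Finset ι} (hJ : J ⊆ J') (A : M) : cor C u J A ≤ cor C u J' A := by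
  have : ∀ K : Finset ι, Disjoint K J → cor C u J A ≤ cor C u (K ∪ J) A := by
    intro K
    induction K using Finset.induction_on with
    | empty => intro _; simp
    | insert e K he ih =>
      intro hd
      rw [Finset.disjoint_insert_left] at hd
      rw [Finset.insert_union]
      refine (ih hd.2).trans (cor_insert h2 C u h0 h1 ?_ A)
      simp [he, hd.1]
  have h := this (J' \ J) Finset.sdiff_disjoint
  rwa [Finset.sdiff_union_of_subset hJ] at h

/-- changing the coupling at one index. -/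
lemma Z_congr (C : ι → M) {u u' : ι → ℝ} {J : Finset ι} (h : ∀ i ∈ J, u i = u' i) (A : M) :
    Z C u J A = Z C u' J A := by
  unfold Z
  refine Finset.sum_congr rfl fun S hS => ?_
  congr 1
  exact Finset.prod_congr rfl fun i hi => h i (Finset.mem_powerset.1 hS hi)

include h2 in
lemma cor_update (C : ι → M) (u : ι → ℝ) (h0 : ∀ i, 0 ≤ u i) (h1 : ∀ i, u i ≤ 1)
    (e : ι) (x : ℝ) (hx : u e ≤ x) (J : Finset ι) (A : M) :
    cor C u J A ≤ cor C (Function.update u e x) J A := by
  have hx0 : 0 ≤ x := (h0 e).trans hx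
  by_cases he : e ∈ J
  · obtain ⟨J, he', rfl⟩ : ∃ J', e ∉ J' ∧ insert e J' = J :=
      ⟨J.erase e, Finset.notMem_erase e J, Finset.insert_erase he⟩
    have hu : ∀ B, Z C (Function.update u e x) J B = Z C u J B := fun B =>
      Z_congr C (fun i hi => Function.update_of_ne (by rintro rfl; exact he' hi) _ _) B
    have h0' : ∀ i, 0 ≤ Function.update u e x i := by
      intro i
      by_cases hi : i = e
      · subst hi; simpa using hx0
      · rw [Function.update_of_ne hi]; exact h0 i
    have hpos : 0 < Z C u (insert e J) 0 := lt_of_lt_of_le one_pos (one_le_Z C u h0 _)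
    have hpos' : 0 < Z C (Function.update u e x) (insert e J) 0 :=
      lt_of_lt_of_le one_pos (one_le_Z C _ h0' _)
    unfold cor
    rw [div_le_div_iff₀ hpos hpos', Z_insert h2 C u he', Z_insert h2 C u he',
      Z_insert h2 C _ he', Z_insert h2 C _ he', hu, hu, hu, hu, Function.update_self, zero_add]
    have := mul_le_mul_of_nonneg_left (gks2 h2 C u h0 h1 J A (C e)) (sub_nonneg.2 hx)
    nlinarith
  · have hu : ∀ B, Z C (Function.update u e x) J B = Z C u J B := fun B =>
      Z_congr C (fun i hi => Function.update_of_ne (by rintro rfl; exact he hi) _ _) B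
    unfold cor
    rw [hu, hu]

include h2 in
lemma cor_mono_coupling (C : ι → M) (u u' : ι → ℝ) (h0 : ∀ i, 0 ≤ u i) (h1 : ∀ i, u' i ≤ 1)
    (huu : ∀ i, u i ≤ u' i) (J : Finset ι) (A : M) : cor C u J A ≤ cor C u' J A := by
  have key : ∀ D : Finset ι, cor C u J A ≤ cor C (D.piecewise u' u) J A := by
    intro D
    induction D using Finset.induction_on with
    | empty => simp
    | insert e D he ih =>
      refine ih.trans ?_
      have : (insert e D).piecewise u' u = Function.update (D.piecewise u' u) e (u' e) := by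
        rw [Finset.piecewise_insert]
      rw [this]
      refine cor_update h2 C _ ?_ ?_ e (u' e) ?_ J A
      · intro i
        by_cases hi : i ∈ D
        · rw [Finset.piecewise_eq_of_mem _ _ _ hi]; exact (h0 i).trans (huu i)
        · rw [Finset.piecewise_eq_of_notMem _ _ _ hi]; exact h0 i
      · intro i
        by_cases hi : i ∈ D
        · rw [Finset.piecewise_eq_of_mem _ _ _ hi]; exact h1 i
        · rw [Finset.piecewise_eq_of_notMem _ _ _ hi]; exact (huu i).trans (h1 i)
      · rw [Finset.piecewise_eq_of_notMem _ _ _ he]; exact huu e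
  refine (key J).trans (le_of_eq ?_)
  unfold cor
  have : ∀ B, Z C (J.piecewise u' u) J B = Z C u' J B := fun B =>
    Z_congr C (fun i hi => Finset.piecewise_eq_of_mem _ _ _ hi) B
  rw [this, this]

/-! ### Removing edges -/

/-- linear operator expressing the removal of the edges in `T`, all with coupling `u`. -/
noncomputable def Rl (C : ι → M) (u : ℝ) (f : M → ℝ) (A : M) (T : Finset ι) : ℝ :=
  ((1 - u ^ 2) ^ T.card)⁻¹ * ∑ S ∈ T.powerset, (-u) ^ S.card * f (A + bd C S)

omit [DecidableEq ι] in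
lemma Rl_empty (C : ι → M) (u : ℝ) (f : M → ℝ) (A : M) : Rl C u f A ∅ = f A := by
  simp [Rl, bd]

lemma Rl_insert (C : ι → M) (u : ℝ) (f : M → ℝ) (A : M) {e : ι} {T : Finset ι}
    (he : e ∉ T) (hu : 1 - u ^ 2 ≠ 0) :
    Rl C u f A (insert e T) = (Rl C u f A T - u * Rl C u f (A + C e) T) / (1 - u ^ 2) := by
  unfold Rl
  rw [Finset.sum_powerset_insert he, Finset.card_insert_of_notMem he, pow_succ, mul_inv]
  have h : ∑ S ∈ T.powerset, (-u) ^ (insert e S).card * f (A + bd C (insert e S)) =
      -(u * ∑ S ∈ T.powerset, (-u) ^ S.card * f (A + C e + bd C S)) := by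
    rw [Finset.mul_sum, ← Finset.sum_neg_distrib]
    refine Finset.sum_congr rfl fun S hS => ?_
    have heS : e ∉ S := fun h => he (Finset.mem_powerset.1 hS h)
    rw [Finset.card_insert_of_notMem heS]
    have : bd C (insert e S) = C e + bd C S := by simp [bd, Finset.sum_insert heS]
    rw [this, ← add_assoc]
    ring
  rw [h]
  field_simp
  ring

include h2 in
lemma Rl_split (C : ι → M) (u : ℝ) (f : M → ℝ) (A : M) {e : ι} {T : Finset ι}
    (he : e ∉ T) (hu : 1 - u ^ 2 ≠ 0) :
    Rl C u f A T = Rl C u f A (insert e T) + u * Rl C u f (A + C e) (insert e T) := by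
  rw [Rl_insert C u f A he hu, Rl_insert C u f (A + C e) he hu, add_assoc A, h2, add_zero]
  field_simp
  ring

include h2 in
lemma Z_sdiff (C : ι → M) (u : ι → ℝ) (x : ℝ) (hx : 1 - x ^ 2 ≠ 0) (J : Finset ι) (T : Finset ι)
    (hT : T ⊆ J) (hu : ∀ i ∈ T, u i = x) (f : M → ℝ) (K : ℝ)
    (hf : ∀ A, Z C u J A = f A * K) (A : M) :
    Z C u (J \ T) A = Rl C x f A T * K := by
  classical
  induction T using Finset.induction_on generalizing A with
  | empty => rw [Finset.sdiff_empty, Rl_empty, hf]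
  | insert e T he ih =>
    have hT' : T ⊆ J := fun i hi => hT (Finset.mem_insert_of_mem hi)
    have ih' := ih hT' (fun i hi => hu i (Finset.mem_insert_of_mem hi))
    have heJ : e ∈ J := hT (Finset.mem_insert_self e T)
    have e1 : J \ T = insert e (J \ insert e T) := by
      ext i
      simp only [Finset.mem_sdiff, Finset.mem_insert]
      constructor
      · rintro ⟨h1, h2⟩
        by_cases h : i = e
        · exact Or.inl h
        · exact Or.inr ⟨h1, by tauto⟩
      · rintro (rfl | ⟨h1, h2⟩)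
        · exact ⟨heJ, he⟩
        · exact ⟨h1, by tauto⟩
    have hne : e ∉ J \ insert e T := by simp
    have hue : u e = x := hu e (Finset.mem_insert_self e T)
    have a1 := ih' A
    have a2 := ih' (A + C e)
    rw [e1, Z_insert h2 C u hne, hue] at a1 a2
    rw [add_assoc A, h2, add_zero] at a2
    rw [Rl_insert C x f A he hx]
    field_simp
    linear_combination a1 - x * a2

include h2 in
lemma cor_sdiff (C : ι → M) (u : ι → ℝ) (h0 : ∀ i, 0 ≤ u i) (x : ℝ) (hx : 1 - x ^ 2 ≠ 0)
    (J : Finset ι) (T : Finset ι)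
    (hT : T ⊆ J) (hu : ∀ i ∈ T, u i = x) (A : M) :
    Z C u (J \ T) A / Z C u J 0 = Rl C x (cor C u J) A T := by
  have hpos : 0 < Z C u J 0 := lt_of_lt_of_le one_pos (one_le_Z C u h0 J)
  rw [Z_sdiff h2 C u x hx J T hT hu (cor C u J) (Z C u J 0)
    (fun B => (div_mul_cancel₀ _ hpos.ne').symm) A, mul_div_assoc, div_self hpos.ne', mul_one]

omit [DecidableEq ι] in
lemma Z_mono (C : ι → M) (u : ι → ℝ) (h0 : ∀ i, 0 ≤ u i) {J J' : Finset ι} (h : J ⊆ J') (A : M) :
    Z C u J A ≤ Z C u J' A :=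
  Finset.sum_le_sum_of_subset_of_nonneg (Finset.powerset_mono.2 h) fun S _ _ =>
    mul_nonneg (ind_nonneg _) (Finset.prod_nonneg fun i _ => h0 i)

include h2 in
/-- sandwich for the removal of edges. -/
lemma Rl_cor_sandwich (C : ι → M) (u : ι → ℝ) (h0 : ∀ i, 0 ≤ u i) (h1 : ∀ i, u i ≤ 1) (x : ℝ)
    (hx : 1 - x ^ 2 ≠ 0) (J J₀ T : Finset ι) (hT : T ⊆ J) (hJ₀ : J₀ ⊆ J \ T)
    (hu : ∀ i ∈ T, u i = x) (A : M) :
    |Rl C x (cor C u J) A T - cor C u J A * Rl C x (cor C u J) 0 T| ≤
      cor C u J A - cor C u J₀ A := by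
  rw [← cor_sdiff h2 C u h0 x hx J T hT hu A, ← cor_sdiff h2 C u h0 x hx J T hT hu 0]
  have hpos : 0 < Z C u J 0 := lt_of_lt_of_le one_pos (one_le_Z C u h0 J)
  have hpos' : 0 < Z C u (J \ T) 0 := lt_of_lt_of_le one_pos (one_le_Z C u h0 _)
  have e1 : Z C u (J \ T) A / Z C u J 0 =
      cor C u (J \ T) A * (Z C u (J \ T) 0 / Z C u J 0) := by
    unfold cor
    field_simp
  rw [e1, ← sub_mul, abs_mul]
  have b1 : cor C u (J \ T) A ≤ cor C u J A :=
    cor_mono h2 C u h0 h1 Finset.sdiff_subset A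
  have b2 : cor C u J₀ A ≤ cor C u (J \ T) A := cor_mono h2 C u h0 h1 hJ₀ A
  have b3 : Z C u (J \ T) 0 / Z C u J 0 ≤ 1 :=
    div_le_one_of_le₀ (Z_mono C u h0 Finset.sdiff_subset 0) hpos.le
  have b4 : 0 ≤ Z C u (J \ T) 0 / Z C u J 0 := by positivity
  rw [abs_of_nonneg b4, abs_of_nonpos (by linarith)]
  nlinarith

omit [DecidableEq ι] in
/-- invariance under relabelling. -/
lemma Z_map {κ N : Type*} [AddCommGroup N] (φ : ι ↪ κ) (ψ : M →+ N)
    (hψ : Function.Injective ψ) (C : ι → M) (C' : κ → N) (hC : ∀ i, C' (φ i) = ψ (C i))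
    (u : ι → ℝ) (u' : κ → ℝ) (hu : ∀ i, u' (φ i) = u i) (J : Finset ι) (A : M) :
    Z C' u' (J.map φ) (ψ A) = Z C u J A := by
  classical
  unfold Z
  have hbd : ∀ S : Finset ι, bd C' (S.map φ) = ψ (bd C S) := by
    intro S
    unfold bd
    rw [Finset.sum_map, map_sum]
    exact Finset.sum_congr rfl fun i _ => hC i
  symm
  refine Finset.sum_bij (fun S _ => S.map φ) ?_ ?_ ?_ ?_
  · intro S hS
    rw [Finset.mem_powerset] at hS ⊢
    exact Finset.map_subset_map.2 hS
  · intro S _ S' _ h
    exact Finset.map_injective φ h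
  · intro S hS
    rw [Finset.mem_powerset] at hS
    refine ⟨J.filter fun i => φ i ∈ S, by simp, ?_⟩
    ext k
    simp only [Finset.mem_map, Finset.mem_filter]
    constructor
    · rintro ⟨i, ⟨_, hi⟩, rfl⟩; exact hi
    · intro hk
      obtain ⟨i, hi, rfl⟩ := Finset.mem_map.1 (hS hk)
      exact ⟨i, ⟨hi, hk⟩, rfl⟩
  · intro S _
    rw [hbd, Finset.prod_map]
    congr 1
    · exact ind_congr ⟨fun h => by rw [h], fun h => hψ h⟩
    · exact Finset.prod_congr rfl fun i _ => (hu i).symm

end Alg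

end Pool.Agent.Hhelper76.DC
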