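import Mathlib

/-!
# The combinatorial lemma of Burton and Keane
-/

open Finset

namespace Pool.Agent.Hhelper76.DC

/-- the counting lemma: `Z` is a set of branching points, `Y` a set of leaves, `f z u` is the
branch at `z` containing `u`, `act z` is the set of branches attached to `z`. -/
lemma branch_count {U K : Type*} [DecidableEq U] (f : U → U → K) (act : U → Set K) :
    ∀ (n : ℕ) (Z Y : Finset U), Z.card = n → Disjoint Z Y →
    (∀ z ∈ Z, ∀ z' ∈ Z, z ≠ z' → ∀ u ∈ Z ∪ Y, u ≠ z → u ≠ z' → f z u ∈ act z →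
      f z u ≠ f z z' → f z' u = f z' z) →
    (∀ z ∈ Z, ∃ y₁ ∈ Y, ∃ y₂ ∈ Y, ∃ y₃ ∈ Y, f z y₁ ∈ act z ∧ f z y₂ ∈ act z ∧
      f z y₃ ∈ act z ∧ f z y₁ ≠ f z y₂ ∧ f z y₁ ≠ f z y₃ ∧ f z y₂ ≠ f z y₃) →
    n = 0 ∨ n + 2 ≤ Y.card := by
  classical
  intro n
  induction n with
  | zero => intro _ _ _ _ _ _; exact Or.inl rfl
  | succ n ih =>
    intro Z Y hZ hd hT hH
    right
    have hne : Z.Nonempty := Finset.card_pos.1 (by omega)
    obtain ⟨z₀, hz₀⟩ := hne
    obtain ⟨y₀, _⟩ := hH z₀ hz₀
    -- the function to be minimised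
    let cnt : U × K → ℕ := fun q => ((Z ∪ Y).filter fun u => u ≠ q.1 ∧ f q.1 u ∈ act q.1 ∧
      f q.1 u ≠ q.2).card
    obtain ⟨⟨z, c₀⟩, hz, hmin⟩ : ∃ q : U × K, q.1 ∈ Z ∧ ∀ q' : U × K, q'.1 ∈ Z → cnt q ≤ cnt q' := by
      have hS : ({m | ∃ q : U × K, q.1 ∈ Z ∧ cnt q = m} : Set ℕ).Nonempty :=
        ⟨_, (z₀, f z₀ z₀), hz₀, rfl⟩
      obtain ⟨q, hq, hq'⟩ := Nat.sInf_mem hS
      refine ⟨q, hq, fun q' h' => ?_⟩
      rw [hq']
      exact Nat.sInf_le ⟨q', h', rfl⟩
    simp only at hz
    -- purity
    have hpure : ∀ z' ∈ Z, z' ≠ z → ¬ (f z z' ∈ act z ∧ f z z' ≠ c₀) := by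
      rintro z' hz' hne ⟨ha, hc⟩
      have hlt : cnt (z', f z' z) < cnt (z, c₀) := by
        refine Finset.card_lt_card ?_
        rw [Finset.ssubset_iff_of_subset]
        · refine ⟨z', ?_, ?_⟩
          · rw [Finset.mem_filter]
            exact ⟨Finset.mem_union_left _ hz', hne, ha, hc⟩
          · rw [Finset.mem_filter]
            simp
        · intro u hu
          rw [Finset.mem_filter] at hu ⊢
          obtain ⟨hu1, hu2, hu3, hu4⟩ := hu
          simp only at hu2 hu3 hu4
          have huz : u ≠ z := by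
            rintro rfl
            exact hu4 rfl
          have := hT z' hz' z hz hne u hu1 hu2 huz hu3 hu4
          refine ⟨hu1, huz, ?_, ?_⟩
          · simp only; rw [this]; exact ha
          · simp only; rw [this]; exact hc
      exact absurd (hmin (z', f z' z) hz') (not_le.2 hlt)
    set B := Y.filter fun y => f z y ∈ act z ∧ f z y ≠ c₀ with hB
    obtain ⟨y₁, h1, y₂, h2, y₃, h3, a1, a2, a3, n12, n13, n23⟩ := hH z hz
    have hBcard : 2 ≤ B.card := by
      by_cases e1 : f z y₁ = c₀
      · have m2 : y₂ ∈ B := Finset.mem_filter.2 ⟨h2, a2, fun h => n12 (e1.trans h.symm)⟩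
        have m3 : y₃ ∈ B := Finset.mem_filter.2 ⟨h3, a3, fun h => n13 (e1.trans h.symm)⟩
        have hne : y₂ ≠ y₃ := by rintro rfl; exact n23 rfl
        calc 2 = ({y₂, y₃} : Finset U).card := (Finset.card_pair hne).symm
          _ ≤ B.card := Finset.card_le_card (by
            intro u hu
            rw [Finset.mem_insert, Finset.mem_singleton] at hu
            rcases hu with rfl | rfl
            · exact m2
            · exact m3)
      · have m1 : y₁ ∈ B := Finset.mem_filter.2 ⟨h1, a1, e1⟩
        by_cases e2 : f z y₂ = c₀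
        · have m3 : y₃ ∈ B := Finset.mem_filter.2 ⟨h3, a3, fun h => n23 (e2.trans h.symm)⟩
          have hne : y₁ ≠ y₃ := by rintro rfl; exact n13 rfl
          calc 2 = ({y₁, y₃} : Finset U).card := (Finset.card_pair hne).symm
            _ ≤ B.card := Finset.card_le_card (by
              intro u hu
              rw [Finset.mem_insert, Finset.mem_singleton] at hu
              rcases hu with rfl | rfl
              · exact m1
              · exact m3)
        · have m2 : y₂ ∈ B := Finset.mem_filter.2 ⟨h2, a2, e2⟩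
          have hne : y₁ ≠ y₂ := by rintro rfl; exact n12 rfl
          calc 2 = ({y₁, y₂} : Finset U).card := (Finset.card_pair hne).symm
            _ ≤ B.card := Finset.card_le_card (by
              intro u hu
              rw [Finset.mem_insert, Finset.mem_singleton] at hu
              rcases hu with rfl | rfl
              · exact m1
              · exact m2)
    have hzY : z ∉ Y := fun h => Finset.disjoint_left.1 hd hz h
    have hcardZ : (Z.erase z).card = n := by
      rw [Finset.card_erase_of_mem hz, hZ]; rfl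
    have hBY : B ⊆ Y := Finset.filter_subset _ _
    have hcardY : (insert z (Y \ B)).card + B.card = Y.card + 1 := by
      rw [Finset.card_insert_of_notMem (fun h => hzY (Finset.mem_sdiff.1 h).1),
        Finset.card_sdiff_of_subset hBY]
      have := Finset.card_le_card hBY
      omega
    have hsub : ∀ u, u ∈ Z.erase z ∪ insert z (Y \ B) → u ∈ Z ∪ Y := by
      intro u hu
      rw [Finset.mem_union, Finset.mem_erase, Finset.mem_insert, Finset.mem_sdiff] at hu
      rw [Finset.mem_union]
      rcases hu with hu | hu | hu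
      · exact Or.inl hu.2
      · rw [hu]; exact Or.inl hz
      · exact Or.inr hu.1
    have hd' : Disjoint (Z.erase z) (insert z (Y \ B)) := by
      rw [Finset.disjoint_left]
      intro u hu hu'
      rw [Finset.mem_erase] at hu
      rw [Finset.mem_insert, Finset.mem_sdiff] at hu'
      rcases hu' with hu' | hu'
      · exact hu.1 hu'
      · exact Finset.disjoint_left.1 hd hu.2 hu'.1
    -- replacement of leaves
    have hrep : ∀ z₁ ∈ Z, z₁ ≠ z → ∀ y ∈ Y, ∃ y' ∈ insert z (Y \ B), f z₁ y' = f z₁ y := by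
      intro z₁ hz₁ hne y hy
      by_cases hyB : y ∈ B
      · refine ⟨z, Finset.mem_insert_self _ _, ?_⟩
        obtain ⟨_, hya, hyc⟩ := Finset.mem_filter.1 hyB
        have hyz : y ≠ z := by rintro rfl; exact hzY hy
        have hyz₁ : y ≠ z₁ := by
          rintro rfl
          exact Finset.disjoint_left.1 hd hz₁ hy
        have hcol : f z y ≠ f z z₁ := by
          intro h
          refine hpure z₁ hz₁ hne ⟨?_, ?_⟩
          · rw [← h]; exact hya
          · rw [← h]; exact hyc
        exact (hT z hz z₁ hz₁ hne.symm y (Finset.mem_union_right _ hy) hyz hyz₁ hya hcol).symm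
      · exact ⟨y, Finset.mem_insert_of_mem (Finset.mem_sdiff.2 ⟨hy, hyB⟩), rfl⟩
    have hIH := ih (Z.erase z) (insert z (Y \ B)) hcardZ hd' ?_ ?_
    · rcases hIH with h0 | h0
      · -- only one branching point
        subst h0
        have q12 : y₁ ≠ y₂ := by rintro rfl; exact n12 rfl
        have q13 : y₁ ≠ y₃ := by rintro rfl; exact n13 rfl
        have q23 : y₂ ≠ y₃ := by rintro rfl; exact n23 rfl
        have : ({y₁, y₂, y₃} : Finset U).card = 3 := by
          rw [Finset.card_insert_of_notMem, Finset.card_pair q23]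
          simp [q12, q13]
        calc 0 + 1 + 2 = ({y₁, y₂, y₃} : Finset U).card := this.symm
          _ ≤ Y.card := Finset.card_le_card (by
            intro u hu
            simp only [Finset.mem_insert, Finset.mem_singleton] at hu
            rcases hu with rfl | rfl | rfl
            · exact h1
            · exact h2
            · exact h3)
      · omega
    · intro z₁ hz₁ z₂ hz₂ hne u hu
      exact hT z₁ (Finset.mem_of_mem_erase hz₁) z₂ (Finset.mem_of_mem_erase hz₂) hne u (hsub u hu)
    · intro z₁ hz₁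
      rw [Finset.mem_erase] at hz₁
      obtain ⟨x₁, g1, x₂, g2, x₃, g3, b1, b2, b3, m12, m13, m23⟩ := hH z₁ hz₁.2
      obtain ⟨x₁', g1', e1⟩ := hrep z₁ hz₁.2 hz₁.1 x₁ g1
      obtain ⟨x₂', g2', e2⟩ := hrep z₁ hz₁.2 hz₁.1 x₂ g2
      obtain ⟨x₃', g3', e3⟩ := hrep z₁ hz₁.2 hz₁.1 x₃ g3
      refine ⟨x₁', g1', x₂', g2', x₃', g3', ?_, ?_, ?_, ?_, ?_, ?_⟩
      · rw [e1]; exact b1
      · rw [e2]; exact b2
      · rw [e3]; exact b3
      · rw [e1, e2]; exact m12
      · rw [e1, e3]; exact m13
      · rw [e2, e3]; exact m23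

end Pool.Agent.Hhelper76.DC
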