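import Pool.Agent.Hhelper76.DC.Perc
import Pool.Agent.Hhelper76.DC.Branch

/-!
# The Burton-Keane argument
-/

open Finset Filter Topology MeasureTheory

namespace Pool.Agent.Hhelper76.DC

variable {d : ℕ}

/-- the box of radius `k` around `z`. -/
noncomputable def bx (z : Vtx d) (k : ℕ) : Finset (Vtx d) :=
  Fintype.piFinset fun i => Finset.Icc (z i - k) (z i + k)

/-- edges of the box of radius `k` around `z`. -/
noncomputable def Ebx (z : Vtx d) (k : ℕ) : Finset (Edg d) :=
  (bx z k ×ˢ Finset.univ).filter fun e => tgt e ∈ bx z k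

lemma mem_bx {z : Vtx d} {k : ℕ} {x : Vtx d} :
    x ∈ bx z k ↔ ∀ i, z i - k ≤ x i ∧ x i ≤ z i + k := by
  simp [bx]

lemma mem_Ebx {z : Vtx d} {k : ℕ} {e : Edg d} :
    e ∈ Ebx z k ↔ src e ∈ bx z k ∧ tgt e ∈ bx z k := by
  simp [Ebx, src]

lemma bx_zero (k : ℕ) : bx (0 : Vtx d) k = box d k := by
  ext x
  simp [mem_bx, mem_box]

lemma self_mem_bx (z : Vtx d) (k : ℕ) : z ∈ bx z k := by
  rw [mem_bx]; intro i; constructor <;> omega

/-! ### Boxes are connected -/

lemma tgt_eq (e : Edg d) (j : Fin d) : tgt e j = src e j + if j = e.2 then 1 else 0 := by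
  simp only [tgt, src, Pi.add_apply, Pi.single_apply]

lemma bx_conn_aux (z : Vtx d) (k : ℕ) : ∀ (n : ℕ) (x : Vtx d), nrm (x - z) = n → x ∈ bx z k →
    Conn (Ebx z k : Set (Edg d)) x z := by
  intro n
  induction n with
  | zero =>
    intro x hx _
    have : x = z := by
      funext i
      have := le_nrm (x - z) i
      rw [hx] at this
      simp only [Pi.sub_apply] at this
      omega
    rw [this]
    exact Conn.refl _ _
  | succ n ih =>
    intro x hx hxb
    obtain ⟨i, hi⟩ : ∃ i, x i ≠ z i := by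
      by_contra hcon
      push Not at hcon
      have : x = z := funext hcon
      rw [this] at hx
      simp [nrm] at hx
    rw [mem_bx] at hxb
    rcases lt_or_gt_of_ne hi with hlt | hgt
    · -- move up
      let e : Edg d := (x, i)
      have ht : ∀ j, tgt e j = x j + if j = i then 1 else 0 := fun j => tgt_eq e j
      have h1 : tgt e ∈ bx z k := by
        rw [mem_bx]
        intro j
        rw [ht j]
        have := hxb j
        by_cases hj : j = i
        · subst hj; rw [if_pos rfl]; omega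
        · rw [if_neg hj]; omega
      have h2 : nrm (tgt e - z) = n := by
        have e1 : nrm (x - z) = ∑ j ∈ Finset.univ.erase i, ((x - z) j).natAbs +
            ((x - z) i).natAbs := (Finset.sum_erase_add _ _ (Finset.mem_univ i)).symm
        have e2 : nrm (tgt e - z) = ∑ j ∈ Finset.univ.erase i, ((tgt e - z) j).natAbs +
            ((tgt e - z) i).natAbs := (Finset.sum_erase_add _ _ (Finset.mem_univ i)).symm
        have e3 : ∑ j ∈ Finset.univ.erase i, ((tgt e - z) j).natAbs =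
            ∑ j ∈ Finset.univ.erase i, ((x - z) j).natAbs := by
          refine Finset.sum_congr rfl fun j hj => ?_
          rw [Pi.sub_apply, Pi.sub_apply, ht j, if_neg (Finset.ne_of_mem_erase hj), add_zero]
        have e4 : ((tgt e - z) i).natAbs + 1 = ((x - z) i).natAbs := by
          rw [Pi.sub_apply, Pi.sub_apply, ht i, if_pos rfl]; omega
        omega
      have h3 := ih (tgt e) h2 h1
      refine Relation.ReflTransGen.head ⟨e, ?_, Or.inl ⟨rfl, rfl⟩⟩ h3
      exact mem_Ebx.2 ⟨mem_bx.2 hxb, h1⟩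
    · -- move down
      let x' : Vtx d := x - Pi.single i 1
      let e : Edg d := (x', i)
      have hx' : ∀ j, x' j = x j - if j = i then 1 else 0 := by
        intro j; simp only [x', Pi.sub_apply, Pi.single_apply]
      have ht : tgt e = x := by
        simp only [tgt, e, x', sub_add_cancel]
      have h1 : x' ∈ bx z k := by
        rw [mem_bx]
        intro j
        rw [hx' j]
        have := hxb j
        by_cases hj : j = i
        · subst hj; rw [if_pos rfl]; omega
        · rw [if_neg hj]; omega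
      have h2 : nrm (x' - z) = n := by
        have e1 : nrm (x - z) = ∑ j ∈ Finset.univ.erase i, ((x - z) j).natAbs +
            ((x - z) i).natAbs := (Finset.sum_erase_add _ _ (Finset.mem_univ i)).symm
        have e2 : nrm (x' - z) = ∑ j ∈ Finset.univ.erase i, ((x' - z) j).natAbs +
            ((x' - z) i).natAbs := (Finset.sum_erase_add _ _ (Finset.mem_univ i)).symm
        have e3 : ∑ j ∈ Finset.univ.erase i, ((x' - z) j).natAbs =
            ∑ j ∈ Finset.univ.erase i, ((x - z) j).natAbs := by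
          refine Finset.sum_congr rfl fun j hj => ?_
          rw [Pi.sub_apply, Pi.sub_apply, hx' j, if_neg (Finset.ne_of_mem_erase hj), sub_zero]
        have e4 : ((x' - z) i).natAbs + 1 = ((x - z) i).natAbs := by
          rw [Pi.sub_apply, Pi.sub_apply, hx' i, if_pos rfl]; omega
        omega
      have h3 := ih x' h2 h1
      refine Relation.ReflTransGen.head ⟨e, ?_, Or.inr ⟨rfl, ht⟩⟩ h3
      refine mem_Ebx.2 ⟨h1, ?_⟩
      rw [ht]
      exact mem_bx.2 hxb

lemma bx_conn {z : Vtx d} {k : ℕ} {x y : Vtx d} (hx : x ∈ bx z k) (hy : y ∈ bx z k) :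
    Conn (Ebx z k : Set (Edg d)) x y :=
  (bx_conn_aux z k _ x rfl hx).trans (bx_conn_aux z k _ y rfl hy).symm

/-! ### Counting trifurcation boxes -/

/-- three distinct infinite components touch the box when its edges are removed. -/
def Tri3 (k : ℕ) (z : Vtx d) (ω : Set (Edg d)) : Prop :=
  ∃ x₁ ∈ bx z k, ∃ x₂ ∈ bx z k, ∃ x₃ ∈ bx z k,
    InfC (ω \ Ebx z k) x₁ ∧ InfC (ω \ Ebx z k) x₂ ∧ InfC (ω \ Ebx z k) x₃ ∧
    ¬ Conn (ω \ Ebx z k) x₁ x₂ ∧ ¬ Conn (ω \ Ebx z k) x₁ x₃ ∧ ¬ Conn (ω \ Ebx z k) x₂ x₃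

/-- the box is a trifurcation box. -/
def Tri (k : ℕ) (z : Vtx d) (ω : Set (Edg d)) : Prop :=
  (Ebx z k : Set (Edg d)) ⊆ ω ∧ Tri3 k z ω

lemma ad_box {ω : Set (Edg d)} {v w : Vtx d} (h : Ad ω v w) {N : ℕ} (hv : v ∈ box d N) :
    w ∈ box d (N + 1) := by
  obtain ⟨e, _, h⟩ := h
  rw [mem_box] at hv ⊢
  intro j
  have h1 := tgt_eq e j
  have h2 := hv j
  push_cast
  rcases h with ⟨h3, h4⟩ | ⟨h3, h4⟩
  · rw [h3, h4] at h1
    split_ifs at h1 <;> omega
  · rw [h3, h4] at h1
    split_ifs at h1 <;> omega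

lemma exit_box {ω : Set (Edg d)} {x : Vtx d} {N : ℕ} (hx : x ∈ box d N) (hinf : InfC ω x) :
    ∃ y ∈ box d (N + 1) \ box d N, Conn (ω ∩ (boxE d (N + 1) : Set (Edg d))) x y := by
  obtain ⟨v, hv, hc⟩ := infC_iff.1 hinf N
  have key : ∀ v, Conn ω x v →
      (v ∈ box d N ∧ Conn (ω ∩ (boxE d (N + 1) : Set (Edg d))) x v) ∨
      ∃ y ∈ box d (N + 1) \ box d N, Conn (ω ∩ (boxE d (N + 1) : Set (Edg d))) x y := by
    intro v hc
    induction hc with
    | refl => exact Or.inl ⟨hx, Conn.refl _ _⟩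
    | @tail v w _ hst ih =>
      rcases ih with ⟨hv, hc⟩ | h
      · have hw : w ∈ box d (N + 1) := ad_box hst hv
        have hv' : v ∈ box d (N + 1) := box_mono (Nat.le_succ N) hv
        have hst' : Ad (ω ∩ (boxE d (N + 1) : Set (Edg d))) v w := by
          obtain ⟨e, he, hst⟩ := hst
          refine ⟨e, ⟨he, ?_⟩, hst⟩
          rw [Finset.mem_coe, mem_boxE]
          rcases hst with ⟨h3, h4⟩ | ⟨h3, h4⟩
          · rw [h3, h4]; exact ⟨hv', hw⟩
          · rw [h3, h4]; exact ⟨hw, hv'⟩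
        have hc' := Relation.ReflTransGen.tail hc hst'
        by_cases hwN : w ∈ box d N
        · exact Or.inl ⟨hwN, hc'⟩
        · exact Or.inr ⟨w, Finset.mem_sdiff.2 ⟨hw, hwN⟩, hc'⟩
      · exact Or.inr h
  rcases key v hc with ⟨hv', _⟩ | h
  · exact absurd hv' hv
  · exact h

lemma tri_count (ω : Set (Edg d)) (k N : ℕ) (Zc : Finset (Vtx d))
    (hin : ∀ z ∈ Zc, bx z k ⊆ box d N)
    (hdis : ∀ z ∈ Zc, ∀ z' ∈ Zc, z ≠ z' → Disjoint (bx z k) (bx z' k))
    (htri : ∀ z ∈ Zc, Tri k z ω) : Zc.card ≤ (box d (N + 1) \ box d N).card := by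
  classical
  let H : Vtx d → Set (Edg d) := fun z => (ω \ Ebx z k) ∩ (boxE d (N + 1) : Set (Edg d))
  let f : Vtx d → Vtx d → Set (Vtx d) := fun z u => {v | Conn (H z) u v}
  let act : Vtx d → Set (Set (Vtx d)) := fun z => {s | ∃ x ∈ bx z k, x ∈ s}
  have hf : ∀ z u u', f z u = f z u' ↔ Conn (H z) u u' := by
    intro z u u'
    constructor
    · intro h
      have : u' ∈ f z u' := Conn.refl _ _
      rw [← h] at this
      exact this
    · intro h
      ext v
      exact ⟨fun hv => h.symm.trans hv, fun hv => h.trans hv⟩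
  -- edges of another box
  have hEb : ∀ z ∈ Zc, ∀ z' ∈ Zc, z ≠ z' → (Ebx z' k : Set (Edg d)) ⊆ H z := by
    intro z hz z' hz' hne e he
    rw [Finset.mem_coe] at he
    refine ⟨⟨(htri z' hz').1 he, fun he' => ?_⟩, ?_⟩
    · rw [Finset.mem_coe, mem_Ebx] at he'
      exact Finset.disjoint_left.1 (hdis z hz z' hz' hne) he'.1 (mem_Ebx.1 he).1
    · rw [Finset.mem_coe, mem_boxE]
      have := mem_Ebx.1 he
      exact ⟨box_mono (Nat.le_succ N) (hin z' hz' this.1),
        box_mono (Nat.le_succ N) (hin z' hz' this.2)⟩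
  have main := branch_count f act Zc.card Zc (box d (N + 1) \ box d N) rfl ?_ ?_ ?_
  · rcases main with h | h
    · rw [h]; exact Nat.zero_le _
    · omega
  · rw [Finset.disjoint_left]
    intro z hz hz'
    exact (Finset.mem_sdiff.1 hz').2 (hin z hz (self_mem_bx z k))
  · intro z hz z' hz' hne u _ _ _ hact hcol
    obtain ⟨x, hx, hux⟩ := hact
    have hnot : ¬ Conn (H z) u z' := fun h => hcol ((hf z u z').2 h)
    rw [hf]
    have key : ∀ v, Conn (H z) u v → Conn (H z') u v := by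
      intro v hv
      induction hv with
      | refl => exact Conn.refl _ _
      | @tail v w huv hst ih =>
        obtain ⟨e, he, hst⟩ := hst
        by_cases heb : e ∈ Ebx z' k
        · exfalso
          apply hnot
          have hv : v ∈ bx z' k := by
            rcases hst with ⟨h3, _⟩ | ⟨_, h4⟩
            · rw [← h3]; exact (mem_Ebx.1 heb).1
            · rw [← h4]; exact (mem_Ebx.1 heb).2
          exact Conn.trans huv ((bx_conn hv (self_mem_bx z' k)).mono (hEb z hz z' hz' hne))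
        · refine Relation.ReflTransGen.tail ih ⟨e, ⟨⟨he.1.1, ?_⟩, he.2⟩, hst⟩
          rw [Finset.mem_coe]; exact heb
    exact (key x hux).trans ((bx_conn hx (self_mem_bx z k)).mono (hEb z' hz' z hz hne.symm))
  · intro z hz
    obtain ⟨x₁, h1, x₂, h2, x₃, h3, i1, i2, i3, n12, n13, n23⟩ := (htri z hz).2
    obtain ⟨y₁, g1, c1⟩ := exit_box (hin z hz h1) i1
    obtain ⟨y₂, g2, c2⟩ := exit_box (hin z hz h2) i2
    obtain ⟨y₃, g3, c3⟩ := exit_box (hin z hz h3) i3
    have hsub : H z ⊆ ω \ Ebx z k := Set.inter_subset_left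
    refine ⟨y₁, g1, y₂, g2, y₃, g3, ⟨x₁, h1, Conn.symm c1⟩, ⟨x₂, h2, Conn.symm c2⟩,
      ⟨x₃, h3, Conn.symm c3⟩, ?_, ?_, ?_⟩
    · intro h
      exact n12 (((Conn.trans c1 ((hf _ _ _).1 h)).trans (Conn.symm c2)).mono hsub)
    · intro h
      exact n13 (((Conn.trans c1 ((hf _ _ _).1 h)).trans (Conn.symm c3)).mono hsub)
    · intro h
      exact n23 (((Conn.trans c2 ((hf _ _ _).1 h)).trans (Conn.symm c3)).mono hsub)

/-! ### Translations -/

/-- translated edge set. -/
def tω (z : Vtx d) (ω : Set (Edg d)) : Set (Edg d) := {e | trE z e ∈ ω}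

lemma src_trE (z : Vtx d) (e : Edg d) : src (trE z e) = src e + z := rfl

lemma tgt_trE (z : Vtx d) (e : Edg d) : tgt (trE z e) = tgt e + z := tgt_tr z e

lemma conn_tω_imp {z : Vtx d} {ω : Set (Edg d)} {x y : Vtx d} (h : Conn (tω z ω) x y) :
    Conn ω (x + z) (y + z) := by
  induction h with
  | refl => exact Conn.refl _ _
  | tail _ hst ih =>
    obtain ⟨e, he, hst⟩ := hst
    refine Relation.ReflTransGen.tail ih ⟨trE z e, he, ?_⟩
    rw [src_trE, tgt_trE]
    rcases hst with ⟨h3, h4⟩ | ⟨h3, h4⟩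
    · exact Or.inl ⟨by rw [h3], by rw [h4]⟩
    · exact Or.inr ⟨by rw [h3], by rw [h4]⟩

lemma tω_tω (z : Vtx d) (ω : Set (Edg d)) : tω (-z) (tω z ω) = ω := by
  ext e
  simp only [tω, Set.mem_ofPred_eq, trE_neg']

lemma conn_tω {z : Vtx d} {ω : Set (Edg d)} {x y : Vtx d} :
    Conn (tω z ω) x y ↔ Conn ω (x + z) (y + z) := by
  refine ⟨conn_tω_imp, fun h => ?_⟩
  rw [← tω_tω z ω] at h
  have := conn_tω_imp h
  simpa using this

lemma infC_tω {z : Vtx d} {ω : Set (Edg d)} {x : Vtx d} :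
    InfC (tω z ω) x ↔ InfC ω (x + z) := by
  have h1 : ∀ (z : Vtx d) (ω : Set (Edg d)) (x : Vtx d), InfC (tω z ω) x → InfC ω (x + z) := by
    intro z ω x h
    have : {y | Conn (tω z ω) x y} = (fun y => y + z) ⁻¹' {y | Conn ω (x + z) y} := by
      ext y
      exact conn_tω
    rw [InfC, this] at h
    intro hfin
    exact h (hfin.preimage (add_left_injective z).injOn)
  refine ⟨h1 z ω x, fun h => ?_⟩
  rw [← tω_tω z ω] at h
  have := h1 (-z) _ _ (by
    have h2 := h
    exact h2)
  simpa using this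

end Pool.Agent.Hhelper76.DC
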