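import Pool.Agent.Hhelper76.DC.BK

/-!
# At most two infinite components after a finite deletion
-/

open Finset Filter Topology MeasureTheory

namespace Pool.Agent.Hhelper76.DC

variable {d : ℕ}

lemma om_sh (z : Vtx d) (c : Om d) : om (sh z c) = tω z (om c) := rfl

lemma mem_bx_tr {z : Vtx d} {k : ℕ} {x : Vtx d} : x + z ∈ bx z k ↔ x ∈ bx (0 : Vtx d) k := by
  rw [mem_bx, mem_bx]
  refine forall_congr' fun i => ?_
  simp only [Pi.add_apply, Pi.zero_apply]
  constructor <;> rintro ⟨h1, h2⟩ <;> constructor <;> linarith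

lemma mem_Ebx_tr {z : Vtx d} {k : ℕ} {e : Edg d} :
    trE z e ∈ Ebx z k ↔ e ∈ Ebx (0 : Vtx d) k := by
  rw [mem_Ebx, mem_Ebx, src_trE, tgt_trE, mem_bx_tr, mem_bx_tr]

lemma tω_sdiff (z : Vtx d) (k : ℕ) (ω : Set (Edg d)) :
    tω z (ω \ Ebx z k) = tω z ω \ Ebx (0 : Vtx d) k := by
  ext e
  simp only [tω, Set.mem_ofPred_eq, Set.mem_sdiff, Finset.mem_coe, mem_Ebx_tr]

lemma tri_tω {k : ℕ} {z : Vtx d} {ω : Set (Edg d)} : Tri k z ω ↔ Tri k 0 (tω z ω) := by
  have hx : ∀ x ∈ bx z k, x - z ∈ bx (0 : Vtx d) k := by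
    intro x hx
    rw [← mem_bx_tr (z := z), sub_add_cancel]
    exact hx
  unfold Tri Tri3
  rw [← tω_sdiff]
  constructor
  · rintro ⟨h0, x₁, h1, x₂, h2, x₃, h3, i1, i2, i3, n12, n13, n23⟩
    refine ⟨?_, x₁ - z, hx _ h1, x₂ - z, hx _ h2, x₃ - z, hx _ h3, ?_⟩
    · intro e he
      exact h0 (mem_Ebx_tr.2 he)
    · simp only [infC_tω, conn_tω, sub_add_cancel]
      exact ⟨i1, i2, i3, n12, n13, n23⟩
  · rintro ⟨h0, x₁, h1, x₂, h2, x₃, h3, hh⟩
    refine ⟨?_, x₁ + z, mem_bx_tr.2 h1, x₂ + z, mem_bx_tr.2 h2, x₃ + z, mem_bx_tr.2 h3, ?_⟩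
    · intro e he
      have h4 : trE (-z) e ∈ Ebx (0 : Vtx d) k := by
        rw [← mem_Ebx_tr (z := z), trE_neg']
        exact he
      have h5 : trE z (trE (-z) e) ∈ ω := h0 h4
      rwa [trE_neg'] at h5
    · simpa only [infC_tω, conn_tω] using hh

/-! ### Measurability -/

lemma measurableSet_subset_om (F : Finset (Edg d)) :
    MeasurableSet {c : Om d | (F : Set (Edg d)) ⊆ om c} := by
  have : {c : Om d | (F : Set (Edg d)) ⊆ om c} = ⋂ e ∈ F, {c | e ∈ om c} := by
    ext c
    simp only [Set.mem_ofPred_eq, Set.mem_iInter]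
    exact ⟨fun h e he => h he, fun h e he => h e he⟩
  rw [this]
  exact Finset.measurableSet_biInter _ fun e _ => mset_om e

lemma measurableSet_tri3 (k : ℕ) (z : Vtx d) : MeasurableSet {c : Om d | Tri3 k z (om c)} := by
  have hm : MSet (fun c : Om d => om c \ (Ebx z k : Set (Edg d))) := mset_om.sdiff _
  have : {c : Om d | Tri3 k z (om c)} = ⋃ x₁ ∈ bx z k, ⋃ x₂ ∈ bx z k, ⋃ x₃ ∈ bx z k,
      ({c : Om d | InfC (om c \ (Ebx z k : Set (Edg d))) x₁} ∩
      ({c : Om d | InfC (om c \ (Ebx z k : Set (Edg d))) x₂} ∩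
      ({c : Om d | InfC (om c \ (Ebx z k : Set (Edg d))) x₃} ∩
      ({c : Om d | Conn (om c \ (Ebx z k : Set (Edg d))) x₁ x₂}ᶜ ∩
      ({c : Om d | Conn (om c \ (Ebx z k : Set (Edg d))) x₁ x₃}ᶜ ∩
      {c : Om d | Conn (om c \ (Ebx z k : Set (Edg d))) x₂ x₃}ᶜ))))) := by
    ext c
    simp only [Tri3, Set.mem_ofPred_eq, Set.mem_iUnion, Set.mem_inter_iff, Set.mem_compl_iff,
      exists_prop]
  rw [this]
  refine Finset.measurableSet_biUnion _ fun x₁ _ => Finset.measurableSet_biUnion _ fun x₂ _ =>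
    Finset.measurableSet_biUnion _ fun x₃ _ => ?_
  exact (hm.infC x₁).inter ((hm.infC x₂).inter ((hm.infC x₃).inter
    ((hm.conn x₁ x₂).compl.inter ((hm.conn x₁ x₃).compl.inter (hm.conn x₂ x₃).compl))))

lemma measurableSet_tri (k : ℕ) (z : Vtx d) : MeasurableSet {c : Om d | Tri k z (om c)} :=
  (measurableSet_subset_om _).inter (measurableSet_tri3 k z)

/-! ### Opening edges -/

open Classical in
/-- open all edges of `F`. -/
noncomputable def opn (F : Finset (Edg d)) (c : Om d) : Om d := fun e =>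
  if e ∈ F then (true, (c e).2) else c e

lemma om_opn (F : Finset (Edg d)) (c : Om d) : om (opn F c) = om c ∪ F := by
  ext e
  by_cases he : e ∈ F <;> simp [om, opn, he]

section

variable {u : ℝ} {P : Measure (Om d)} (hP : IsP u P)

include hP

lemma IsP.ac_opn (F : Finset (Edg d)) {S : Set (Om d)} (hS : MeasurableSet S) (h0 : P S = 0) :
    P (opn F ⁻¹' S) = 0 := by
  refine hP.ac F (opn F) ?_ ?_ ?_ ?_ ?_ hS h0
  · intro c e he
    simp [opn, he]
  · intro c c' h e he
    simp [opn, he, h e he]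
  · intro c
    unfold B1
    exact Finset.sum_congr rfl fun e he => by simp [opn, he]
  · intro c
    unfold B2
    exact Finset.sum_congr rfl fun e he => by simp [opn, he]
  · intro c _
    unfold vT
    rw [Finset.prod_ne_zero_iff]
    intro e he
    have := hP.u0
    simp only [opn, he, if_true, vv]
    split_ifs <;> positivity

lemma IsP.tri_translate (k : ℕ) (z : Vtx d) :
    P {c | Tri k z (om c)} = P {c | Tri k 0 (om c)} := by
  have h1 : {c : Om d | Tri k z (om c)} = sh z ⁻¹' {c | Tri k 0 (om c)} := by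
    ext c
    simp only [Set.mem_ofPred_eq, Set.mem_preimage, om_sh]
    exact tri_tω
  rw [h1, ← Measure.map_apply (measurable_sh z) (measurableSet_tri k 0), hP.map_sh]

/-- trifurcation boxes do not exist. -/
theorem IsP.tri_null (hd : 0 < d) (k : ℕ) : P {c | Tri k 0 (om c)} = 0 := by
  classical
  have := hP.prob
  by_contra hne
  set p := P.real {c : Om d | Tri k 0 (om c)} with hp
  have hp0 : 0 < p := by
    rw [hp, measureReal_def]
    exact ENNReal.toReal_pos hne (measure_ne_top _ _)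
  -- the bound for every `m`
  have key : ∀ m : ℕ, (2 * m + 1 : ℝ) * p ≤ 2 * d * (2 * k + 3) ^ (d - 1) := by
    intro m
    let g : Vtx d → Vtx d := fun w i => (2 * (k : ℤ) + 1) * w i
    have hg : Function.Injective g := by
      intro w w' h
      funext i
      have := congrFun h i
      have h2 : (2 * (k : ℤ) + 1) ≠ 0 := by omega
      exact mul_left_cancel₀ h2 this
    set N := (2 * k + 1) * m + k with hN
    let Zc : Finset (Vtx d) := (box d m).image g
    have hin : ∀ z ∈ Zc, bx z k ⊆ box d N := by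
      intro z hz x hx
      obtain ⟨w, hw, rfl⟩ := Finset.mem_image.1 hz
      rw [mem_bx] at hx
      rw [mem_box] at hw ⊢
      intro i
      have h1 := hx i
      have h2 := hw i
      simp only [g] at h1
      have h3 : (2 * (k : ℤ) + 1) * w i ≤ (2 * (k : ℤ) + 1) * m :=
        mul_le_mul_of_nonneg_left h2.2 (by omega)
      have h4 : (2 * (k : ℤ) + 1) * (-(m : ℤ)) ≤ (2 * (k : ℤ) + 1) * w i :=
        mul_le_mul_of_nonneg_left h2.1 (by omega)
      have h5 : ((N : ℕ) : ℤ) = (2 * (k : ℤ) + 1) * m + k := by rw [hN]; push_cast; ring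
      rw [h5]
      constructor <;> linarith [h1.1, h1.2]
    have hdis : ∀ z ∈ Zc, ∀ z' ∈ Zc, z ≠ z' → Disjoint (bx z k) (bx z' k) := by
      intro z hz z' hz' hne
      obtain ⟨w, hw, rfl⟩ := Finset.mem_image.1 hz
      obtain ⟨w', hw', rfl⟩ := Finset.mem_image.1 hz'
      rw [Finset.disjoint_left]
      intro x hx hx'
      apply hne
      congr 1
      funext i
      rw [mem_bx] at hx hx'
      have h1 := hx i
      have h2 := hx' i
      simp only [g] at h1 h2
      by_contra hwi
      rcases lt_or_gt_of_ne hwi with h | h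
      · have h3 : (2 * (k : ℤ) + 1) * (w i + 1) ≤ (2 * (k : ℤ) + 1) * w' i :=
          mul_le_mul_of_nonneg_left (by omega) (by omega)
        linarith [h1.2, h2.1]
      · have h3 : (2 * (k : ℤ) + 1) * (w' i + 1) ≤ (2 * (k : ℤ) + 1) * w i :=
          mul_le_mul_of_nonneg_left (by omega) (by omega)
        linarith [h1.1, h2.2]
    have hcard : Zc.card = (2 * m + 1) ^ d := by
      rw [Finset.card_image_of_injective _ hg]
      simp only [box, Fintype.card_piFinset, Int.card_Icc, Finset.prod_const, Finset.card_univ,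
        Fintype.card_fin]
      congr 1
      omega
    have hcardY : ((box d (N + 1) \ box d N).card : ℝ) ≤ 2 * d * (2 * N + 3) ^ (d - 1) := by
      rw [Finset.card_sdiff_of_subset (box_mono (Nat.le_succ N))]
      have hb : ∀ n : ℕ, (box d n).card = (2 * n + 1) ^ d := by
        intro n
        simp only [box, Fintype.card_piFinset, Int.card_Icc, Finset.prod_const, Finset.card_univ,
          Fintype.card_fin]
        congr 1
        omega
      rw [hb, hb, Nat.cast_sub (Nat.pow_le_pow_left (by omega) d)]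
      push_cast
      have h1 : ((2 * ((N : ℝ) + 1) + 1) ^ d - (2 * (N : ℝ) + 1) ^ d) ≤
          d * (2 * ((N : ℝ) + 1) + 1) ^ (d - 1) * ((2 * ((N : ℝ) + 1) + 1) - (2 * (N : ℝ) + 1)) := by
        have := Real.rpow_natCast
        have hxy : (0 : ℝ) ≤ 2 * (N : ℝ) + 1 := by positivity
        have hle : 2 * (N : ℝ) + 1 ≤ 2 * ((N : ℝ) + 1) + 1 := by linarith
        rw [← geom_sum₂_mul]
        have hs : ∑ i ∈ Finset.range d, (2 * ((N : ℝ) + 1) + 1) ^ i *
            (2 * (N : ℝ) + 1) ^ (d - 1 - i) ≤ d * (2 * ((N : ℝ) + 1) + 1) ^ (d - 1) := by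
          calc _ ≤ ∑ i ∈ Finset.range d, (2 * ((N : ℝ) + 1) + 1) ^ (d - 1) := by
                refine Finset.sum_le_sum fun i hi => ?_
                have hi' := Finset.mem_range.1 hi
                calc (2 * ((N : ℝ) + 1) + 1) ^ i * (2 * (N : ℝ) + 1) ^ (d - 1 - i)
                    ≤ (2 * ((N : ℝ) + 1) + 1) ^ i * (2 * ((N : ℝ) + 1) + 1) ^ (d - 1 - i) := by
                      gcongr
                  _ = _ := by rw [← pow_add]; congr 1; omega
            _ = _ := by simp
        exact mul_le_mul_of_nonneg_right hs (by linarith)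
      have h2 : (2 * ((N : ℝ) + 1) + 1) - (2 * (N : ℝ) + 1) = 2 := by ring
      rw [h2] at h1
      calc _ ≤ _ := h1
        _ = _ := by ring
    -- sum of the probabilities
    have hsum : ∑ z ∈ Zc, P {c | Tri k z (om c)} ≤ ((box d (N + 1) \ box d N).card : ENNReal) := by
      calc ∑ z ∈ Zc, P {c | Tri k z (om c)}
          = ∑ z ∈ Zc, ∫⁻ c, Set.indicator {c | Tri k z (om c)} 1 c ∂P := by
            refine Finset.sum_congr rfl fun z _ => ?_
            rw [lintegral_indicator_one (measurableSet_tri k z)]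
        _ = ∫⁻ c, ∑ z ∈ Zc, Set.indicator {c | Tri k z (om c)} 1 c ∂P := by
            rw [lintegral_finsetSum]
            intro z _
            exact measurable_one.indicator (measurableSet_tri k z)
        _ ≤ ∫⁻ _, ((box d (N + 1) \ box d N).card : ENNReal) ∂P := by
            refine lintegral_mono fun c => ?_
            have h1 : ∑ z ∈ Zc, Set.indicator {c | Tri k z (om c)} (1 : Om d → ENNReal) c =
                ((Zc.filter fun z => Tri k z (om c)).card : ENNReal) := by
              rw [Finset.card_filter, Nat.cast_sum]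
              refine Finset.sum_congr rfl fun z _ => ?_
              by_cases hz : Tri k z (om c)
              · rw [Set.indicator_of_mem (by exact hz), if_pos hz]; simp
              · rw [Set.indicator_of_notMem (by exact hz), if_neg hz]; simp
            rw [h1]
            have h2 := tri_count (om c) k N (Zc.filter fun z => Tri k z (om c))
              (fun z hz => hin z (Finset.mem_filter.1 hz).1)
              (fun z hz z' hz' => hdis z (Finset.mem_filter.1 hz).1 z' (Finset.mem_filter.1 hz').1)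
              (fun z hz => (Finset.mem_filter.1 hz).2)
            exact Nat.cast_le.2 h2
        _ = _ := by simp
    rw [Finset.sum_congr rfl fun z _ => hP.tri_translate k z, Finset.sum_const, nsmul_eq_mul,
      hcard] at hsum
    have hreal : ((2 * m + 1 : ℝ)) ^ d * p ≤ ((box d (N + 1) \ box d N).card : ℝ) := by
      have h3 := ENNReal.toReal_mono (by simp) hsum
      rw [ENNReal.toReal_mul, ENNReal.toReal_natCast, ENNReal.toReal_natCast] at h3
      push_cast at h3
      exact h3
    have hd' : d = (d - 1) + 1 := by omega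
    have hm : (0 : ℝ) < (2 * m + 1 : ℝ) ^ (d - 1) := by positivity
    have hN3 : (2 * (N : ℝ) + 3) ≤ (2 * k + 3) * (2 * m + 1) := by
      rw [hN]; push_cast
      have : (0 : ℝ) ≤ m := by positivity
      nlinarith
    have h5 : (2 * (N : ℝ) + 3) ^ (d - 1) ≤ (2 * k + 3) ^ (d - 1) * (2 * m + 1) ^ (d - 1) := by
      rw [← mul_pow]
      exact pow_le_pow_left₀ (by positivity) hN3 _
    have h6 : (2 * m + 1 : ℝ) ^ (d - 1) * ((2 * m + 1) * p) ≤
        (2 * m + 1 : ℝ) ^ (d - 1) * (2 * d * (2 * k + 3) ^ (d - 1)) := by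
      calc (2 * m + 1 : ℝ) ^ (d - 1) * ((2 * m + 1) * p) = (2 * m + 1 : ℝ) ^ d * p := by
            conv_rhs => rw [hd', pow_succ]
            ring
        _ ≤ 2 * d * (2 * N + 3) ^ (d - 1) := hreal.trans hcardY
        _ ≤ 2 * d * ((2 * k + 3) ^ (d - 1) * (2 * m + 1) ^ (d - 1)) := by gcongr
        _ = _ := by ring
    exact le_of_mul_le_mul_left h6 hm
  -- contradiction
  obtain ⟨m, hm⟩ := exists_nat_gt (2 * d * (2 * k + 3) ^ (d - 1) / p)
  have h1 := key m
  rw [div_lt_iff₀ hp0] at hm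
  have : (0 : ℝ) ≤ m := by positivity
  nlinarith

theorem IsP.tri3_null (hd : 0 < d) (k : ℕ) : P {c | Tri3 k 0 (om c)} = 0 := by
  have h := hP.ac_opn (Ebx 0 k) (measurableSet_tri k 0) (hP.tri_null hd k)
  refine measure_mono_null (fun c hc => ?_) h
  simp only [Set.mem_preimage, Set.mem_ofPred_eq, Tri, om_opn]
  refine ⟨Set.subset_union_right, ?_⟩
  have : (om c ∪ (Ebx (0 : Vtx d) k : Set (Edg d))) \ (Ebx (0 : Vtx d) k : Set (Edg d)) =
      om c \ (Ebx (0 : Vtx d) k : Set (Edg d)) := by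
    ext e
    simp only [Set.mem_sdiff, Set.mem_union]
    tauto
  unfold Tri3
  rw [this]
  exact hc

/-- **Burton-Keane**: almost surely, after deleting finitely many edges there are at most two
infinite components. -/
theorem IsP.bk (hd : 0 < d) : ∀ᵐ c ∂P, ∀ (S : Finset (Edg d)) (x y z : Vtx d),
    InfC (om c \ S) x → InfC (om c \ S) y → InfC (om c \ S) z →
    Conn (om c \ S) x y ∨ Conn (om c \ S) x z ∨ Conn (om c \ S) y z := by
  have h1 : ∀ᵐ c ∂P, ∀ k : ℕ, ¬ Tri3 k 0 (om c) := by
    rw [ae_all_iff]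
    intro k
    rw [ae_iff]
    simpa using hP.tri3_null hd k
  filter_upwards [h1] with c hc S x y z hx hy hz
  by_contra hcon
  push Not at hcon
  obtain ⟨n1, n2, n3⟩ := hcon
  obtain ⟨k₀, hk₀⟩ := (eventually_subset_boxE S).exists
  set k := max k₀ (max (nrm x) (max (nrm y) (nrm z))) with hk
  have hS : S ⊆ Ebx 0 k := by
    intro e he
    rw [mem_Ebx, bx_zero]
    exact mem_boxE.1 (boxE_mono (le_max_left _ _) (hk₀ he))
  have hxk : x ∈ bx 0 k := by
    rw [bx_zero]; exact box_mono (by simp [hk]) (mem_box_nrm x)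
  have hyk : y ∈ bx 0 k := by
    rw [bx_zero]; exact box_mono (by simp [hk]) (mem_box_nrm y)
  have hzk : z ∈ bx 0 k := by
    rw [bx_zero]; exact box_mono (by simp [hk]) (mem_box_nrm z)
  have hF : ∀ e ∈ (Ebx (0 : Vtx d) k : Set (Edg d)), src e ∈ bx (0 : Vtx d) k ∧
      tgt e ∈ bx (0 : Vtx d) k := fun e he => mem_Ebx.1 he
  have hEq : (om c \ (S : Set (Edg d))) \ (Ebx (0 : Vtx d) k : Set (Edg d)) =
      om c \ (Ebx (0 : Vtx d) k : Set (Edg d)) := by
    rw [Set.sdiff_sdiff, Set.union_eq_self_of_subset_left]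
    exact_mod_cast hS
  obtain ⟨x', hx', cx, ix⟩ := exists_infC hx _ (bx 0 k) hxk hF
  obtain ⟨y', hy', cy, iy⟩ := exists_infC hy _ (bx 0 k) hyk hF
  obtain ⟨z', hz', cz, iz⟩ := exists_infC hz _ (bx 0 k) hzk hF
  rw [hEq] at ix iy iz
  have hsub : om c \ (Ebx (0 : Vtx d) k : Set (Edg d)) ⊆ om c \ (S : Set (Edg d)) :=
    Set.sdiff_subset_sdiff_right (by exact_mod_cast hS)
  refine hc k ⟨x', hx', y', hy', z', hz', ix, iy, iz, ?_, ?_, ?_⟩
  · intro h
    exact n1 ((cx.trans (h.mono hsub)).trans cy.symm)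
  · intro h
    exact n2 ((cx.trans (h.mono hsub)).trans cz.symm)
  · intro h
    exact n3 ((cy.trans (h.mono hsub)).trans cz.symm)

end

end Pool.Agent.Hhelper76.DC
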