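import Pool.Agent.Hhelper76.DC.Conv

/-!
# Sums over currents
-/

open Finset Filter Topology MeasureTheory

namespace Pool.Agent.Hhelper76.DC

/-- product of sums over a finite index type. -/
lemma tsum_pi_prod (ι : Type) [Fintype ι] (f : ι → ℕ → ENNReal) :
    ∑' c : ι → ℕ, ∏ i, f i (c i) = ∏ i, ∑' k, f i k := by
  classical
  revert f
  refine Fintype.induction_empty_option (P := fun ι _ => ∀ f : ι → ℕ → ENNReal,
    ∑' c : ι → ℕ, ∏ i, f i (c i) = ∏ i, ∑' k, f i k) ?_ ?_ ?_ ι
  · intro α β _ e h f
    letI := Fintype.ofEquiv β e.symm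
    have h1 := h (fun a => f (e a))
    rw [← (Equiv.arrowCongr e (Equiv.refl ℕ)).tsum_eq]
    have h2 : ∀ c : α → ℕ, ∏ i, f i ((Equiv.arrowCongr e (Equiv.refl ℕ)) c i) =
        ∏ a, f (e a) (c a) := by
      intro c
      rw [← Equiv.prod_comp e]
      exact Finset.prod_congr rfl fun a _ => by simp
    simp_rw [h2]
    rw [h1, ← Equiv.prod_comp e]
  · intro f
    rw [Finset.univ_eq_empty, Finset.prod_empty]
    simp
  · intro α _ h f
    rw [← (Equiv.piOptionEquivProd (β := fun _ : Option α => ℕ)).symm.tsum_eq, Fintype.prod_option,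
      ← h]
    have h2 : ∀ p : ℕ × (α → ℕ), ∏ i, f i
        ((Equiv.piOptionEquivProd (β := fun _ : Option α => ℕ)).symm p i) =
        f none p.1 * ∏ i, f (some i) (p.2 i) := by
      intro p
      rw [Fintype.prod_option]
      rfl
    simp_rw [h2]
    rw [ENNReal.tsum_prod (f := fun (a : ℕ) (b : α → ℕ) => f none a * ∏ i, f (some i) (b i))]
    simp_rw [ENNReal.tsum_mul_left]
    rw [ENNReal.tsum_mul_right]

section

variable {ι : Type} [Fintype ι] [DecidableEq ι] {M : Type} [AddCommGroup M]

/-- the odd part. -/
def oddS (c : ι → ℕ) : Finset ι := Finset.univ.filter fun i => Odd (c i)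

open Classical in
/-- grouping by parities. -/
lemma tsum_parity (C : ι → M) (A : M) (f : ι → ℕ → ENNReal) :
    ∑' c : ι → ℕ, (if bd C (oddS c) = A then ∏ i, f i (c i) else 0) =
      ∑ S : Finset ι, if bd C S = A then
        ∏ i, ∑' k, (if (Odd k ↔ i ∈ S) then f i k else 0) else 0 := by
  have h1 : ∀ c : ι → ℕ, (if bd C (oddS c) = A then ∏ i, f i (c i) else 0) =
      ∑ S : Finset ι, if bd C S = A then
        ∏ i, (if (Odd (c i) ↔ i ∈ S) then f i (c i) else 0) else 0 := by
    intro c
    rw [Finset.sum_eq_single (oddS c)]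
    · by_cases h : bd C (oddS c) = A
      · rw [if_pos h, if_pos h]
        refine Finset.prod_congr rfl fun i _ => ?_
        rw [if_pos]
        simp [oddS]
      · rw [if_neg h, if_neg h]
    · intro S _ hS
      by_cases h : bd C S = A
      · rw [if_pos h]
        have : ∃ i, ¬ (Odd (c i) ↔ i ∈ S) := by
          by_contra hcon
          push Not at hcon
          apply hS
          ext i
          simp only [oddS, Finset.mem_filter, Finset.mem_univ, true_and]
          exact (hcon i).symm
        obtain ⟨i, hi⟩ := this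
        exact Finset.prod_eq_zero (Finset.mem_univ i) (if_neg hi)
      · rw [if_neg h]
    · intro h
      exact absurd (Finset.mem_univ _) h
  simp_rw [h1]
  rw [Summable.tsum_finsetSum fun _ _ => ENNReal.summable]
  refine Finset.sum_congr rfl fun S _ => ?_
  by_cases h : bd C S = A
  · simp only [if_pos h]
    exact tsum_pi_prod ι fun i k => if (Odd k ↔ i ∈ S) then f i k else 0
  · simp only [if_neg h, tsum_zero]

end

/-! ### Exponential series -/

lemma term_nonneg {x : ℝ} (hx : 0 ≤ x) (k : ℕ) : 0 ≤ x ^ k / (Nat.factorial k : ℝ) := by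
  positivity

lemma hasSum_even (x : ℝ) :
    HasSum (fun k : ℕ => if Odd k then 0 else x ^ k / (Nat.factorial k : ℝ)) (Real.cosh x) := by
  set g : ℕ → ℝ := fun k => if Odd k then 0 else x ^ k / (Nat.factorial k : ℝ) with hg
  have e1 : (fun k : ℕ => g (2 * k)) = fun k => x ^ (2 * k) / (Nat.factorial (2 * k) : ℝ) := by
    funext k
    have : ¬ Odd (2 * k) := by rw [Nat.not_odd_iff_even]; exact even_two_mul k
    exact if_neg this
  have e2 : (fun k : ℕ => g (2 * k + 1)) = fun _ => 0 := by
    funext k
    have : Odd (2 * k + 1) := ⟨k, rfl⟩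
    exact if_pos this
  have h1 : HasSum (fun k : ℕ => g (2 * k)) (Real.cosh x) := by
    rw [e1]; exact Real.hasSum_cosh x
  have h2 : HasSum (fun k : ℕ => g (2 * k + 1)) 0 := by
    rw [e2]; exact hasSum_zero
  have h3 := HasSum.even_add_odd h1 h2
  rw [add_zero] at h3
  exact h3

lemma hasSum_odd (x : ℝ) :
    HasSum (fun k : ℕ => if Odd k then x ^ k / (Nat.factorial k : ℝ) else 0) (Real.sinh x) := by
  set g : ℕ → ℝ := fun k => if Odd k then x ^ k / (Nat.factorial k : ℝ) else 0 with hg
  have e1 : (fun k : ℕ => g (2 * k)) = fun _ => 0 := by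
    funext k
    have : ¬ Odd (2 * k) := by rw [Nat.not_odd_iff_even]; exact even_two_mul k
    exact if_neg this
  have e2 : (fun k : ℕ => g (2 * k + 1)) =
      fun k => x ^ (2 * k + 1) / (Nat.factorial (2 * k + 1) : ℝ) := by
    funext k
    have : Odd (2 * k + 1) := ⟨k, rfl⟩
    exact if_pos this
  have h1 : HasSum (fun k : ℕ => g (2 * k)) 0 := by
    rw [e1]; exact hasSum_zero
  have h2 : HasSum (fun k : ℕ => g (2 * k + 1)) (Real.sinh x) := by
    rw [e2]; exact Real.hasSum_sinh x
  have h3 := HasSum.even_add_odd h1 h2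
  rw [zero_add] at h3
  exact h3

section

variable {ι : Type} [Fintype ι] [DecidableEq ι] {M : Type} [AddCommGroup M]

open Classical in
/-- the sum over currents on an abstract finite index set. -/
lemma cur_abs (C : ι → M) (A : M) (x : ι → ℝ) (hx : ∀ i, 0 ≤ x i) (W : Finset ι) :
    ∑' c : ι → ℕ, ENNReal.ofReal (if bd C (oddS c) = A ∧ ∀ i ∈ W, c i = 0 then
      ∏ i, x i ^ c i / (Nat.factorial (c i) : ℝ) else 0) =
    ENNReal.ofReal ((∏ i, if i ∈ W then 1 else Real.cosh (x i)) *
      Z C (fun i => if i ∈ W then 0 else Real.tanh (x i)) Finset.univ A) := by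
  set f : ι → ℕ → ENNReal := fun i k => ENNReal.ofReal
    (if (i ∈ W → k = 0) then x i ^ k / (Nat.factorial k : ℝ) else 0) with hf
  set Er : ι → ℝ := fun i => if i ∈ W then 1 else Real.cosh (x i) with hE
  set u' : ι → ℝ := fun i => if i ∈ W then 0 else Real.tanh (x i) with hu'
  have hE0 : ∀ i, 0 ≤ Er i := by
    intro i
    simp only [hE]
    split_ifs
    · exact zero_le_one
    · exact (Real.cosh_pos _).le
  have hu0 : ∀ i, 0 ≤ u' i := by
    intro i
    simp only [hu']
    split_ifs
    · exact le_rfl
    · rw [Real.tanh_eq_sinh_div_cosh]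
      exact div_nonneg (Real.sinh_nonneg_iff.2 (hx i)) (Real.cosh_pos _).le
  have h1 : ∀ c : ι → ℕ, ENNReal.ofReal (if bd C (oddS c) = A ∧ ∀ i ∈ W, c i = 0 then
      ∏ i, x i ^ c i / (Nat.factorial (c i) : ℝ) else 0) =
      if bd C (oddS c) = A then ∏ i, f i (c i) else 0 := by
    intro c
    by_cases h : bd C (oddS c) = A
    · rw [if_pos h]
      by_cases h2 : ∀ i ∈ W, c i = 0
      · rw [if_pos ⟨h, h2⟩, ENNReal.ofReal_prod_of_nonneg fun i _ => term_nonneg (hx i) _]
        refine Finset.prod_congr rfl fun i _ => ?_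
        simp only [hf]
        rw [if_pos (h2 i)]
      · rw [if_neg (fun h' => h2 h'.2), ENNReal.ofReal_zero]
        push Not at h2
        obtain ⟨i, hi, hi'⟩ := h2
        symm
        refine Finset.prod_eq_zero (Finset.mem_univ i) ?_
        simp only [hf]
        rw [if_neg (fun h' => hi' (h' hi)), ENNReal.ofReal_zero]
    · rw [if_neg h, if_neg (fun h' => h h'.1), ENNReal.ofReal_zero]
  simp_rw [h1]
  rw [tsum_parity C A f]
  have h2 : ∀ (S : Finset ι) (i : ι), ∑' k, (if (Odd k ↔ i ∈ S) then f i k else 0) =
      ENNReal.ofReal (Er i * (if i ∈ S then u' i else 1)) := by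
    intro S i
    by_cases hS : i ∈ S
    · have e1 : (fun k => if (Odd k ↔ i ∈ S) then f i k else 0) =
          fun k => if Odd k then f i k else 0 := by
        funext k
        simp only [hS, iff_true]
      rw [e1, if_pos hS]
      by_cases hW : i ∈ W
      · have e2 : (fun k => if Odd k then f i k else 0) = fun _ => 0 := by
          funext k
          by_cases hk : Odd k
          · have hk0 : k ≠ 0 := by rintro rfl; exact absurd hk (by decide)
            rw [if_pos hk]
            simp only [hf]
            rw [if_neg (fun h => hk0 (h hW)), ENNReal.ofReal_zero]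
          · rw [if_neg hk]
        rw [e2, tsum_zero]
        simp only [hu', if_pos hW, mul_zero, ENNReal.ofReal_zero]
      · have e2 : (fun k => if Odd k then f i k else 0) = fun k => ENNReal.ofReal
            (if Odd k then x i ^ k / (Nat.factorial k : ℝ) else 0) := by
          funext k
          by_cases hk : Odd k
          · rw [if_pos hk, if_pos hk]
            simp only [hf]
            rw [if_pos (fun h => absurd h hW)]
          · rw [if_neg hk, if_neg hk, ENNReal.ofReal_zero]
        rw [e2, ← ENNReal.ofReal_tsum_of_nonneg _ (hasSum_odd (x i)).summable,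
          (hasSum_odd (x i)).tsum_eq]
        · simp only [hE, hu', if_neg hW]
          rw [Real.tanh_eq_sinh_div_cosh, mul_div_cancel₀ _ (Real.cosh_pos _).ne']
        · intro k
          split_ifs
          · exact term_nonneg (hx i) k
          · exact le_rfl
    · have e1 : (fun k => if (Odd k ↔ i ∈ S) then f i k else 0) =
          fun k => if Odd k then 0 else f i k := by
        funext k
        by_cases hk : Odd k
        · rw [if_pos hk, if_neg (fun h => hS (h.1 hk))]
        · rw [if_neg hk, if_pos ⟨fun h => absurd h hk, fun h => absurd h hS⟩]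
      rw [e1, if_neg hS, mul_one]
      by_cases hW : i ∈ W
      · rw [tsum_eq_single 0]
        · simp only [hf, hE, if_pos hW]
          simp
        · intro k hk
          by_cases hk' : Odd k
          · rw [if_pos hk']
          · rw [if_neg hk']
            simp only [hf]
            rw [if_neg (fun h => hk (h hW)), ENNReal.ofReal_zero]
      · have e2 : (fun k => if Odd k then 0 else f i k) = fun k => ENNReal.ofReal
            (if Odd k then 0 else x i ^ k / (Nat.factorial k : ℝ)) := by
          funext k
          by_cases hk : Odd k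
          · rw [if_pos hk, if_pos hk, ENNReal.ofReal_zero]
          · rw [if_neg hk, if_neg hk]
            simp only [hf]
            rw [if_pos (fun h => absurd h hW)]
        rw [e2, ← ENNReal.ofReal_tsum_of_nonneg _ (hasSum_even (x i)).summable,
          (hasSum_even (x i)).tsum_eq]
        · simp only [hE, if_neg hW]
        · intro k
          split_ifs
          · exact le_rfl
          · exact term_nonneg (hx i) k
  have h3 : ∀ S : Finset ι, (if bd C S = A then ∏ i, ∑' k, (if (Odd k ↔ i ∈ S) then f i k else 0)
      else 0) = ENNReal.ofReal ((∏ i, Er i) * (ind (bd C S = A) * ∏ i ∈ S, u' i)) := by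
    intro S
    by_cases h : bd C S = A
    · rw [if_pos h, ind_pos h, one_mul]
      simp_rw [h2]
      rw [← ENNReal.ofReal_prod_of_nonneg]
      · rw [Finset.prod_mul_distrib]
        congr 2
        rw [Finset.prod_ite_mem, Finset.univ_inter]
      · intro i _
        refine mul_nonneg (hE0 i) ?_
        split_ifs
        · exact hu0 i
        · exact zero_le_one
    · rw [if_neg h, ind_neg h, zero_mul, mul_zero, ENNReal.ofReal_zero]
  simp_rw [h3]
  rw [← ENNReal.ofReal_sum_of_nonneg]
  · rw [← Finset.mul_sum]
    congr 2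
  · intro S _
    exact mul_nonneg (Finset.prod_nonneg fun i _ => hE0 i) (mul_nonneg (ind_nonneg _)
      (Finset.prod_nonneg fun i _ => hu0 i))

end

end Pool.Agent.Hhelper76.DC
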