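import Pool.Agent.Hhelper76.DC.Br1

/-!
# Sums over currents in a box
-/

open Finset Filter Topology MeasureTheory

namespace Pool.Agent.Hhelper76.DC

variable {d : ℕ}

lemma Z_off {ι M : Type*} [DecidableEq ι] [AddCommGroup M] (C : ι → M) (u u' : ι → ℝ)
    (J W : Finset ι) (h0 : ∀ i ∈ W, u' i = 0) (h1 : ∀ i ∈ J, i ∉ W → u' i = u i) (A : M) :
    Z C u' J A = Z C u (J \ W) A := by
  unfold Z
  symm
  have hsub : (J \ W).powerset ⊆ J.powerset :=
    Finset.powerset_mono.2 Finset.sdiff_subset
  rw [← Finset.sum_subset hsub]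
  · refine Finset.sum_congr rfl fun S hS => ?_
    rw [Finset.mem_powerset] at hS
    congr 1
    refine Finset.prod_congr rfl fun i hi => ?_
    have := Finset.mem_sdiff.1 (hS hi)
    exact (h1 i this.1 this.2).symm
  · intro S hS hS'
    rw [Finset.mem_powerset] at hS hS'
    have : ∃ i ∈ S, i ∈ W := by
      by_contra hcon
      push Not at hcon
      exact hS' fun i hi => Finset.mem_sdiff.2 ⟨hS hi, hcon i hi⟩
    obtain ⟨i, hi, hiW⟩ := this
    rw [Finset.prod_eq_zero hi (h0 i hiW), mul_zero]

/-- index type of the currents. -/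
abbrev IX (d n : ℕ) : Type := ↥(boxE d n) ⊕ ↥(box d n)

/-- boundary map. -/
def CX (d n : ℕ) : IX d n → Srs d := Sum.elim (fun e => cE e.1) (fun x => dl x.1)

/-- embedding in the set of all indices. -/
def phX (d n : ℕ) : IX d n ↪ Idx d where
  toFun := Sum.map Subtype.val Subtype.val
  inj' := Sum.map_injective.2 ⟨Subtype.val_injective, Subtype.val_injective⟩

lemma map_phX (n : ℕ) : (Finset.univ : Finset (IX d n)).map (phX d n) = JJ d n := by
  ext i
  rw [Finset.mem_map]
  rcases i with e | x
  · rw [inl_mem_JJ]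
    constructor
    · rintro ⟨i, _, hi⟩
      rcases i with e' | x'
      · have : e'.1 = e := Sum.inl.inj hi
        rw [← this]; exact e'.2
      · exact absurd hi (by simp [phX])
    · intro he
      exact ⟨Sum.inl ⟨e, he⟩, Finset.mem_univ _, rfl⟩
  · rw [inr_mem_JJ]
    constructor
    · rintro ⟨i, _, hi⟩
      rcases i with e' | x'
      · exact absurd hi (by simp [phX])
      · have : x'.1 = x := Sum.inr.inj hi
        rw [← this]; exact x'.2
    · intro hx
      exact ⟨Sum.inr ⟨x, hx⟩, Finset.mem_univ _, rfl⟩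

lemma cast_eq_ite (a : ℕ) : (a : ZMod 2) = if Odd a then 1 else 0 := by
  by_cases h : Odd a
  · rw [if_pos h]
    exact (ZMod.natCast_eq_one_iff_odd).2 h
  · rw [if_neg h]
    rw [Nat.not_odd_iff_even] at h
    exact (ZMod.natCast_eq_zero_iff_even).2 h

lemma cE_apply (e : Edg d) (y : Vtx d) :
    cE e y = if src e = y ∨ tgt e = y then 1 else 0 := by
  rw [bC_inl, Pi.add_apply]
  have hne := src_ne_tgt e
  by_cases h1 : src e = y
  · have h2 : tgt e ≠ y := fun h => hne (h1.trans h.symm)
    rw [if_pos (Or.inl h1), h1, dl_apply_self, dl_apply_ne h2, add_zero]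
  · by_cases h2 : tgt e = y
    · rw [if_pos (Or.inr h2), h2, dl_apply_self, dl_apply_ne h1, zero_add]
    · rw [if_neg (by tauto), dl_apply_ne h1, dl_apply_ne h2, add_zero]

lemma deg_cast {n : ℕ} (c : IX d n → ℕ) (x : box d n) :
    ((Current.deg (n := n) (c ∘ Sum.inl, c ∘ Sum.inr) x : ℕ) : ZMod 2) =
      bd (CX d n) (oddS c) x.1 := by
  classical
  unfold Current.deg bd oddS
  rw [Finset.sum_apply, Finset.sum_filter, Fintype.sum_sum_type]
  push_cast
  congr 1
  · refine Finset.sum_congr rfl fun e _ => ?_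
    simp only [CX, Sum.elim_inl, Function.comp]
    rw [cE_apply]
    by_cases h : src e.1 = x.1 ∨ tgt e.1 = x.1
    · rw [if_pos h, if_pos h, cast_eq_ite]
    · rw [if_neg h, if_neg h]
      simp
  · simp only [CX, Sum.elim_inr, Function.comp]
    rw [Finset.sum_eq_single x]
    · rw [dl_apply_self, cast_eq_ite]
    · intro y _ hy
      have : y.1 ≠ x.1 := fun h => hy (Subtype.ext h)
      rw [dl_apply_ne this]
      simp
    · intro h
      exact absurd (Finset.mem_univ x) h

lemma sourceless_iff {n : ℕ} (c : IX d n → ℕ) :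
    Sourceless (n := n) (c ∘ Sum.inl, c ∘ Sum.inr) ↔ bd (CX d n) (oddS c) = 0 := by
  classical
  unfold Sourceless
  have h1 : ∀ x : box d n, Even (Current.deg (n := n) (c ∘ Sum.inl, c ∘ Sum.inr) x) ↔
      bd (CX d n) (oddS c) x.1 = 0 := by
    intro x
    rw [← deg_cast]
    exact (ZMod.natCast_eq_zero_iff_even).symm
  simp_rw [h1]
  constructor
  · intro h
    funext y
    by_cases hy : y ∈ box d n
    · exact h ⟨y, hy⟩
    · unfold bd
      rw [Finset.sum_apply, Pi.zero_apply]
      refine Finset.sum_eq_zero fun i _ => ?_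
      rcases i with e | x
      · simp only [CX, Sum.elim_inl]
        rw [cE_apply, if_neg]
        rintro (h | h)
        · rw [← h] at hy; exact hy (mem_boxE.1 e.2).1
        · rw [← h] at hy; exact hy (mem_boxE.1 e.2).2
      · simp only [CX, Sum.elim_inr]
        refine dl_apply_ne ?_
        rintro h
        rw [← h] at hy; exact hy x.2
  · intro h x
    rw [h]
    rfl

/-- coupling constants. -/
noncomputable def xX (d n : ℕ) (β h : ℝ) : IX d n → ℝ := Sum.elim (fun _ => β) (fun _ => β * h)

lemma weight_eq {n : ℕ} (β h : ℝ) (c : IX d n → ℕ) :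
    weight (n := n) β h (c ∘ Sum.inl, c ∘ Sum.inr) =
      ∏ i, xX d n β h i ^ c i / (Nat.factorial (c i) : ℝ) := by
  unfold weight
  rw [Fintype.prod_sum_type]
  rfl

/-- the normalising factor. -/
noncomputable def fac (d n : ℕ) (β h : ℝ) (W : Finset (Edg d)) : ℝ :=
  (∏ e ∈ boxE d n, if e ∈ W then 1 else Real.cosh β) * Real.cosh (β * h) ^ (box d n).card

lemma fac_pos (n : ℕ) (β h : ℝ) (W : Finset (Edg d)) : 0 < fac d n β h W := by
  unfold fac
  refine mul_pos (Finset.prod_pos fun e _ => ?_) (pow_pos (Real.cosh_pos _) _)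
  split_ifs
  · exact one_pos
  · exact Real.cosh_pos _

open Classical in
/-- sum over the sourceless currents vanishing on `W`. -/
lemma cur_sum {n : ℕ} {β h : ℝ} (hβ : 0 ≤ β) (hh : 0 ≤ h) (W : Finset (Edg d)) :
    ∑' c : Current d n, ENNReal.ofReal (if Sourceless c ∧
      (∀ e : boxE d n, e.1 ∈ W → c.1 e = 0) then weight β h c else 0) =
    ENNReal.ofReal (fac d n β h W *
      Z bC (cpl (Real.tanh β) (Real.tanh (β * h))) (JJ d n \ TT W) 0) := by
  set W' : Finset (IX d n) := Finset.univ.filter fun i => phX d n i ∈ TT W with hW'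
  have hx : ∀ i, 0 ≤ xX d n β h i := by
    intro i
    rcases i with e | x
    · exact hβ
    · exact mul_nonneg hβ hh
  have main := cur_abs (CX d n) 0 (xX d n β h) hx W'
  have hW1 : ∀ e : boxE d n, Sum.inl e ∈ W' ↔ e.1 ∈ W := by
    intro e
    simp only [hW', Finset.mem_filter, Finset.mem_univ, true_and]
    constructor
    · intro h
      obtain ⟨e', he', h'⟩ := Finset.mem_map.1 h
      have : e' = e.1 := Sum.inl.inj h'
      rw [← this]; exact he'
    · intro h
      exact Finset.mem_map.2 ⟨e.1, h, rfl⟩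
  have hW2 : ∀ x : box d n, Sum.inr x ∉ W' := by
    intro x h
    simp only [hW', Finset.mem_filter, Finset.mem_univ, true_and] at h
    obtain ⟨e', _, h'⟩ := Finset.mem_map.1 h
    exact absurd h' (by simp [phX])
  rw [← (Equiv.sumArrowEquivProdArrow ↥(boxE d n) ↥(box d n) ℕ).tsum_eq]
  have e1 : ∀ c : IX d n → ℕ, ENNReal.ofReal (if Sourceless (n := n)
      ((Equiv.sumArrowEquivProdArrow ↥(boxE d n) ↥(box d n) ℕ) c) ∧
      (∀ e : boxE d n, e.1 ∈ W →
        ((Equiv.sumArrowEquivProdArrow ↥(boxE d n) ↥(box d n) ℕ) c).1 e = 0) then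
        weight (n := n) β h ((Equiv.sumArrowEquivProdArrow ↥(boxE d n) ↥(box d n) ℕ) c)
        else 0) =
      ENNReal.ofReal (if bd (CX d n) (oddS c) = 0 ∧ ∀ i ∈ W', c i = 0 then
      ∏ i, xX d n β h i ^ c i / (Nat.factorial (c i) : ℝ) else 0) := by
    intro c
    have q1 : (Equiv.sumArrowEquivProdArrow ↥(boxE d n) ↥(box d n) ℕ) c =
      (c ∘ Sum.inl, c ∘ Sum.inr) := rfl
    rw [q1, sourceless_iff, weight_eq]
    have q2 : (∀ e : boxE d n, e.1 ∈ W → (c ∘ Sum.inl) e = 0) ↔ ∀ i ∈ W', c i = 0 := by
      constructor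
      · intro h i hi
        rcases i with e | x
        · exact h e ((hW1 e).1 hi)
        · exact absurd hi (hW2 x)
      · intro h e he
        exact h _ ((hW1 e).2 he)
    congr 1
    exact if_congr (and_congr_right fun _ => q2) rfl rfl
  rw [tsum_congr e1, main]
  congr 1
  congr 1
  · unfold fac
    rw [Fintype.prod_sum_type]
    congr 1
    · rw [← Finset.prod_coe_sort (boxE d n) (fun e => if e ∈ W then (1 : ℝ) else Real.cosh β)]
      refine Finset.prod_congr rfl fun e _ => ?_
      by_cases he : e.1 ∈ W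
      · rw [if_pos ((hW1 e).2 he), if_pos he]
      · rw [if_neg (fun h => he ((hW1 e).1 h)), if_neg he]
        rfl
    · have : ∀ x : box d n, (if (Sum.inr x : IX d n) ∈ W' then (1 : ℝ) else
          Real.cosh (xX d n β h (Sum.inr x))) = Real.cosh (β * h) := by
        intro x
        rw [if_neg (hW2 x)]
        rfl
      rw [Finset.prod_congr rfl fun x _ => this x, Finset.prod_const, Finset.card_univ,
        Fintype.card_coe]
  · have hz := Z_map (phX d n) (AddMonoidHom.id (Srs d)) Function.injective_id (CX d n) bC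
      (fun i => by rcases i with e | x <;> rfl)
      (fun i => if i ∈ W' then 0 else Real.tanh (xX d n β h i))
      (fun i => if i ∈ TT W then 0 else cpl (Real.tanh β) (Real.tanh (β * h)) i)
      (fun i => by
        rcases i with e | x
        · by_cases he : e.1 ∈ W
          · have m : (phX d n) (Sum.inl e) ∈ TT W := Finset.mem_map.2 ⟨e.1, he, rfl⟩
            rw [if_pos ((hW1 e).2 he), if_pos m]
          · have m : (phX d n) (Sum.inl e) ∉ TT W := by
              intro h
              obtain ⟨e', he', h'⟩ := Finset.mem_map.1 h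
              have : e' = e.1 := Sum.inl.inj h'
              rw [this] at he'
              exact he he'
            rw [if_neg (fun h => he ((hW1 e).1 h)), if_neg m]
            rfl
        · have m : (phX d n) (Sum.inr x) ∉ TT W := by
            intro h
            obtain ⟨e', _, h'⟩ := Finset.mem_map.1 h
            exact absurd h' (by simp [phX])
          rw [if_neg (hW2 x), if_neg m]
          rfl)
      Finset.univ 0
    rw [← hz, map_phX]
    have := Z_off bC (cpl (Real.tanh β) (Real.tanh (β * h)))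
      (fun i => if i ∈ TT W then 0 else cpl (Real.tanh β) (Real.tanh (β * h)) i) (JJ d n) (TT W)
      (fun i hi => if_pos hi) (fun i _ hi => if_neg hi) (0 : Srs d)
    rw [← this]
    simp

end Pool.Agent.Hhelper76.DC
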