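import Pool.Agent.Hhelper76.DC.Br2

/-!
# The trace of the two currents and the triple model
-/

open Finset Filter Topology MeasureTheory

namespace Pool.Agent.Hhelper76.DC

variable {d : ℕ}

lemma weight_nonneg {n : ℕ} {β h : ℝ} (hβ : 0 ≤ β) (hh : 0 ≤ h) (c : Current d n) :
    0 ≤ weight β h c := by
  unfold weight
  refine mul_nonneg (Finset.prod_nonneg fun e _ => term_nonneg hβ _)
    (Finset.prod_nonneg fun e _ => term_nonneg (mul_nonneg hβ hh) _)

lemma tsum_toReal {α : Type*} (f : α → ℝ) (hf : ∀ a, 0 ≤ f a) :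
    ∑' a, f a = (∑' a, ENNReal.ofReal (f a)).toReal := by
  rw [ENNReal.tsum_toReal_eq fun _ => ENNReal.ofReal_ne_top]
  exact tsum_congr fun a => (ENNReal.toReal_ofReal (hf a)).symm

/-- shorthand for the partition function. -/
noncomputable def ZW (d n : ℕ) (β h : ℝ) (W : Finset (Edg d)) : ℝ :=
  Z bC (cpl (Real.tanh β) (Real.tanh (β * h))) (JJ d n \ TT W) 0

lemma adm_tanh {β h : ℝ} (hβ : 0 < β) (hh : 0 ≤ h) :
    Adm (Real.tanh β) (Real.tanh (β * h)) where
  u0 := by
    rw [Real.tanh_eq_sinh_div_cosh]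
    exact div_pos (Real.sinh_pos_iff.2 hβ) (Real.cosh_pos _)
  u1 := Real.tanh_lt_one _
  t0 := by
    rw [Real.tanh_eq_sinh_div_cosh]
    exact div_nonneg (Real.sinh_nonneg_iff.2 (mul_nonneg hβ.le hh)) (Real.cosh_pos _).le
  t1 := (Real.tanh_lt_one _).le

lemma ZW_pos {β h : ℝ} (hβ : 0 < β) (hh : 0 ≤ h) (n : ℕ) (W : Finset (Edg d)) :
    0 < ZW d n β h W := Zpos (adm_tanh hβ hh) _

open Classical in
lemma totalWeight_eq {β h : ℝ} (hβ : 0 < β) (hh : 0 ≤ h) (n : ℕ) :
    totalWeight d n β h = fac d n β h ∅ * ZW d n β h ∅ := by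
  unfold totalWeight
  have h1 : ∀ c : Current d n, (if Sourceless c then weight β h c else 0) =
      if Sourceless c ∧ (∀ e : boxE d n, e.1 ∈ (∅ : Finset (Edg d)) → c.1 e = 0) then
        weight β h c else 0 := by
    intro c
    simp
  rw [tsum_congr h1, tsum_toReal, cur_sum hβ.le hh, ENNReal.toReal_ofReal]
  · rfl
  · exact (mul_pos (fac_pos _ _ _ _) (ZW_pos hβ hh _ _)).le
  · intro c
    split_ifs
    · exact weight_nonneg hβ.le hh c
    · exact le_rfl

lemma totalWeight_pos {β h : ℝ} (hβ : 0 < β) (hh : 0 ≤ h) (n : ℕ) :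
    0 < totalWeight d n β h := by
  rw [totalWeight_eq hβ hh]
  exact mul_pos (fac_pos _ _ _ _) (ZW_pos hβ hh _ _)

open Classical in
/-- the law of the trace as a measure. -/
noncomputable def PM (d n : ℕ) (β h : ℝ) : Measure (Set (Edg d)) :=
  ENNReal.ofReal (totalWeight d n β h * totalWeight d n β 0)⁻¹ •
    Measure.sum (fun p : Current d n × Current d n => ENNReal.ofReal
      (if Sourceless p.1 ∧ Sourceless p.2 then weight β h p.1 * weight β 0 p.2 else 0) •
        Measure.dirac (trace p))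

open Classical in
lemma PM_real {β h : ℝ} (hβ : 0 < β) (hh : 0 ≤ h) (n : ℕ) {S : Set (Set (Edg d))}
    (hS : MeasurableSet S) :
    (PM d n β h).real S = pairProb β h {p : Current d n × Current d n | trace p ∈ S} := by
  have hpos := mul_pos (totalWeight_pos (d := d) hβ hh n) (totalWeight_pos (d := d) hβ le_rfl n)
  unfold PM pairProb
  rw [Measure.real, Measure.smul_apply, Measure.sum_apply _ hS, smul_eq_mul, ENNReal.toReal_mul,
    ENNReal.toReal_ofReal (inv_nonneg.2 hpos.le)]
  rw [mul_comm, ← div_eq_mul_inv]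
  congr 1
  have h1 : ∀ p : Current d n × Current d n, (ENNReal.ofReal
      (if Sourceless p.1 ∧ Sourceless p.2 then weight β h p.1 * weight β 0 p.2 else 0) •
        Measure.dirac (trace p)) S = ENNReal.ofReal
      (if Sourceless p.1 ∧ Sourceless p.2 ∧ p ∈ {p : Current d n × Current d n | trace p ∈ S}
        then weight β h p.1 * weight β 0 p.2 else 0) := by
    intro p
    rw [Measure.smul_apply, Measure.dirac_apply' _ hS, smul_eq_mul]
    by_cases hp : trace p ∈ S
    · rw [Set.indicator_of_mem hp, Pi.one_apply, mul_one]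
      congr 1
      exact if_congr ⟨fun h => ⟨h.1, h.2, hp⟩, fun h => ⟨h.1, h.2.1⟩⟩ rfl rfl
    · rw [Set.indicator_of_notMem hp, mul_zero, if_neg (fun h => hp h.2.2), ENNReal.ofReal_zero]
  rw [tsum_congr h1, ← tsum_toReal]
  intro p
  split_ifs
  · exact mul_nonneg (weight_nonneg hβ.le hh _) (weight_nonneg hβ.le le_rfl _)
  · exact le_rfl

lemma trace_closed {n : ℕ} (p : Current d n × Current d n) (W : Finset (Edg d)) :
    trace p ∈ cU W (∅ : Set (Edg d)) ↔ (∀ e : boxE d n, e.1 ∈ W → p.1.1 e = 0) ∧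
      (∀ e : boxE d n, e.1 ∈ W → p.2.1 e = 0) := by
  simp only [cU, Set.mem_ofPred_eq, Set.eq_empty_iff_forall_notMem, Set.mem_inter_iff, trace,
    Finset.mem_coe, not_and, forall_exists_index]
  constructor
  · intro h
    constructor
    · intro e he
      by_contra hne
      exact h e.1 e.2 (by have := Nat.pos_of_ne_zero hne; exact Nat.add_pos_left this _) he
    · intro e he
      by_contra hne
      exact h e.1 e.2 (by have := Nat.pos_of_ne_zero hne; exact Nat.add_pos_right _ this) he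
  · rintro ⟨h1, h2⟩ e he hpos heW
    have a1 := h1 ⟨e, he⟩ heW
    have a2 := h2 ⟨e, he⟩ heW
    rw [a1, a2] at hpos
    exact absurd hpos (lt_irrefl _)

open Classical in
lemma PM_closed {β h : ℝ} (hβ : 0 < β) (hh : 0 ≤ h) (n : ℕ) (W : Finset (Edg d)) :
    (PM d n β h).real (cU W ∅) =
      (fac d n β h W * ZW d n β h W * (fac d n β 0 W * ZW d n β 0 W)) /
      (fac d n β h ∅ * ZW d n β h ∅ * (fac d n β 0 ∅ * ZW d n β 0 ∅)) := by
  rw [PM_real hβ hh n (measurableSet_cU W ∅)]
  unfold pairProb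
  rw [totalWeight_eq hβ hh, totalWeight_eq hβ le_rfl]
  congr 1
  set F : Current d n → ℝ := fun c => if Sourceless c ∧
      (∀ e : boxE d n, e.1 ∈ W → c.1 e = 0) then weight β h c else 0 with hF
  set G : Current d n → ℝ := fun c => if Sourceless c ∧
      (∀ e : boxE d n, e.1 ∈ W → c.1 e = 0) then weight β 0 c else 0 with hG
  have hF0 : ∀ c, 0 ≤ F c := by
    intro c
    simp only [hF]
    split_ifs
    · exact weight_nonneg hβ.le hh c
    · exact le_rfl
  have hG0 : ∀ c, 0 ≤ G c := by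
    intro c
    simp only [hG]
    split_ifs
    · exact weight_nonneg hβ.le le_rfl c
    · exact le_rfl
  have h1 : ∀ p : Current d n × Current d n, (if Sourceless p.1 ∧ Sourceless p.2 ∧
      p ∈ {p : Current d n × Current d n | trace p ∈ cU W (∅ : Set (Edg d))}
        then weight β h p.1 * weight β 0 p.2 else 0) = F p.1 * G p.2 := by
    intro p
    have ht : (p ∈ {p : Current d n × Current d n | trace p ∈ cU W (∅ : Set (Edg d))}) ↔
        (∀ e : boxE d n, e.1 ∈ W → p.1.1 e = 0) ∧ (∀ e : boxE d n, e.1 ∈ W → p.2.1 e = 0) :=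
      trace_closed p W
    simp only [hF, hG]
    by_cases a : Sourceless p.1 ∧ ∀ e : boxE d n, e.1 ∈ W → p.1.1 e = 0
    · by_cases b : Sourceless p.2 ∧ ∀ e : boxE d n, e.1 ∈ W → p.2.1 e = 0
      · rw [if_pos a, if_pos b, if_pos ⟨a.1, b.1, ht.2 ⟨a.2, b.2⟩⟩]
      · rw [if_neg b, mul_zero, if_neg (fun h => b ⟨h.2.1, (ht.1 h.2.2).2⟩)]
    · rw [if_neg a, zero_mul, if_neg (fun h => a ⟨h.1, (ht.1 h.2.2).1⟩)]
  rw [tsum_congr h1, tsum_toReal _ fun p => mul_nonneg (hF0 _) (hG0 _)]
  have h2 : ∀ p : Current d n × Current d n, ENNReal.ofReal (F p.1 * G p.2) =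
      (fun a b => ENNReal.ofReal (F a) * ENNReal.ofReal (G b)) p.1 p.2 := fun p =>
    ENNReal.ofReal_mul (hF0 _)
  rw [tsum_congr h2, ENNReal.tsum_prod (f := fun a b => ENNReal.ofReal (F a) * ENNReal.ofReal (G b))]
  simp_rw [ENNReal.tsum_mul_left]
  rw [ENNReal.tsum_mul_right, cur_sum hβ.le hh W, cur_sum hβ.le le_rfl W, ENNReal.toReal_mul,
    ENNReal.toReal_ofReal, ENNReal.toReal_ofReal]
  · rfl
  · exact (mul_pos (fac_pos _ _ _ _) (ZW_pos hβ le_rfl _ _)).le
  · exact (mul_pos (fac_pos _ _ _ _) (ZW_pos hβ hh _ _)).le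

/-! ### The triple model side -/

lemma one_sub_tanh_sq (β : ℝ) : 1 - Real.tanh β ^ 2 = 1 / Real.cosh β ^ 2 := by
  have h := (Real.cosh_pos β).ne'
  rw [Real.tanh_eq_sinh_div_cosh, div_pow, Real.sinh_sq]
  field_simp
  ring

lemma fac_empty (n : ℕ) (β h : ℝ) (W : Finset (Edg d)) :
    fac d n β h ∅ = fac d n β h W * Real.cosh β ^ (boxE d n ∩ W).card := by
  classical
  unfold fac
  have h1 : ∏ e ∈ boxE d n, (if e ∈ (∅ : Finset (Edg d)) then (1 : ℝ) else Real.cosh β) =
      (∏ e ∈ boxE d n, if e ∈ W then (1 : ℝ) else Real.cosh β) *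
        ∏ e ∈ boxE d n, if e ∈ W then Real.cosh β else 1 := by
    rw [← Finset.prod_mul_distrib]
    refine Finset.prod_congr rfl fun e _ => ?_
    by_cases he : e ∈ W <;> simp [he]
  rw [h1, Finset.prod_ite_mem, Finset.prod_const]
  ring

lemma JJ_sdiff_TT (n : ℕ) (W : Finset (Edg d)) :
    JJ d n \ TT (boxE d n ∩ W) = JJ d n \ TT W := by
  ext i
  simp only [Finset.mem_sdiff]
  refine and_congr_right fun hi => not_congr ?_
  rcases i with e | x
  · rw [inl_mem_JJ] at hi
    constructor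
    · intro h
      obtain ⟨e', he', h'⟩ := Finset.mem_map.1 h
      exact Finset.mem_map.2 ⟨e', (Finset.mem_inter.1 he').2, h'⟩
    · intro h
      obtain ⟨e', he', h'⟩ := Finset.mem_map.1 h
      have : e' = e := Sum.inl.inj h'
      subst this
      exact Finset.mem_map.2 ⟨e', Finset.mem_inter.2 ⟨hi, he'⟩, rfl⟩
  · constructor
    · intro h
      obtain ⟨e', _, h'⟩ := Finset.mem_map.1 h
      exact absurd h' (by simp)
    · intro h
      obtain ⟨e', _, h'⟩ := Finset.mem_map.1 h
      exact absurd h' (by simp)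

lemma isLoc_closed (W : Finset (Edg d)) : IsLoc W {c : Om d | om c ∈ cU W ∅} := by
  intro c c' h hc
  simp only [cU, Set.mem_ofPred_eq, Set.eq_empty_iff_forall_notMem, Set.mem_inter_iff, om,
    Finset.mem_coe, not_and] at hc ⊢
  intro e he heW
  rw [← h e heW] at he
  exact hc e he heW

lemma Qm_closed {u t : ℝ} (h : Adm u t) (n : ℕ) (W : Finset (Edg d)) :
    (Qm u t n).real {c : Om d | om c ∈ cU W ∅} = (1 - u ^ 2) ^ (boxE d n ∩ W).card *
      ((Z bC (cpl u t) (JJ d n \ TT W) 0 / Z bC (cpl u t) (JJ d n) 0) *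
      (Z bC (cpl u 0) (JJ d n \ TT W) 0 / Z bC (cpl u 0) (JJ d n) 0)) := by
  classical
  rw [Qm_real h n (isLoc_closed W).measurableSet]
  have h1 : En u t n (fun c : Om d => ind (c ∈ {c : Om d | om c ∈ cU W (∅ : Set (Edg d))})) =
      En u t n (fun c : Om d => ind (c ∈ cyl (boxE d n ∩ W) (fun _ => s0))) := by
    rw [En_eq, En_eq]
    refine Finset.sum_congr rfl fun p hp => ?_
    rw [mem_T3] at hp
    by_cases hw : wt u t n p = 0
    · rw [hw, zero_mul, zero_mul]
    · congr 1
      refine ind_congr ?_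
      simp only [cU, Set.mem_ofPred_eq, Set.eq_empty_iff_forall_notMem, Set.mem_inter_iff, om,
        Finset.mem_coe, not_and, cyl, Finset.mem_inter]
      have hprod : ∏ i ∈ JJ d n, vm u t i (cf p i) ≠ 0 := by
        intro h0
        apply hw
        unfold wt
        rw [h0, zero_mul, zero_div]
      rw [Finset.prod_ne_zero_iff] at hprod
      constructor
      · intro hc e he
        have h3 := hprod (Sum.inl e) (inl_mem_JJ.2 he.1)
        have h4 : (rs (cf p) e).1 = false := by
          by_contra h5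
          rw [Bool.not_eq_false] at h5
          exact hc e h5 he.2
        rcases hq : rs (cf p) e with ⟨b1, b2, b3⟩
        rw [hq] at h4
        have h5 : cf p (Sum.inl e) = (b1, b2, b3) := hq
        simp only at h4
        subst h4
        rw [h5] at h3
        cases b2 <;> cases b3
        · rfl
        · simp [vm, vv] at h3
        · simp [vm, vv] at h3
        · simp [vm, vv] at h3
      · intro hc e he heW
        by_cases heb : e ∈ boxE d n
        · rw [hc e ⟨heb, heW⟩] at he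
          exact absurd he (by decide)
        · have : Sum.inl e ∉ p.1 := fun h' => heb (inl_mem_JJ.1 (hp.1 h'))
          simp [rs, cf, this] at he
  rw [h1, En_cyl h n _ Finset.inter_subset_left]
  have hTJ : TT (boxE d n ∩ W) ⊆ JJ d n := TT_sub fun e he =>
    inl_mem_JJ.2 (Finset.mem_inter.1 he).1
  have hu : ∀ s : ℝ, ∀ i ∈ TT (boxE d n ∩ W), cpl u s i = u := by
    intro s i hi
    obtain ⟨e, he, rfl⟩ := Finset.mem_map.1 hi
    rfl
  have b1 : B1 (boxE d n ∩ W) (fun _ => s0) = 0 := by simp [B1]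
  have b2 : B2 (boxE d n ∩ W) (fun _ => s0) = 0 := by simp [B2]
  unfold pcyl
  rw [b1, b2]
  have c1 := cor_sdiff char2 bC _ h.c0 u h.ne _ _ hTJ (hu t) (0 : Srs d)
  have c2 := cor_sdiff char2 bC _ h.zero.c0 u h.ne _ _ hTJ (hu 0) (0 : Srs d)
  unfold cn
  rw [← c1, ← c2, JJ_sdiff_TT, Finset.prod_const, vv_s0]

lemma measurable_om : Measurable (om : Om d → Set (Edg d)) := by
  rw [measurable_set_iff]
  intro e
  exact measurableSet_setOfPred.1 (mset_om e)

lemma generateFrom_close : (Set.instMeasurableSpace : MeasurableSpace (Set (Edg d))) =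
    MeasurableSpace.generateFrom {S | ∃ T, cU T ∅ = S} := by
  apply le_antisymm
  · have h1 : @Measurable _ _ (MeasurableSpace.generateFrom {S | ∃ T, cU (d := d) T ∅ = S})
        Set.instMeasurableSpace (id : Set (Edg d) → Set (Edg d)) := by
      rw [@measurable_set_iff _ _ (MeasurableSpace.generateFrom {S | ∃ T, cU (d := d) T ∅ = S})]
      intro e
      have h2 : @MeasurableSet _ (MeasurableSpace.generateFrom
          {S | ∃ T, cU (d := d) T ∅ = S}) {ω : Set (Edg d) | e ∉ ω} := by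
        apply MeasurableSpace.measurableSet_generateFrom
        refine ⟨{e}, ?_⟩
        ext ω
        simp only [cU, Set.mem_ofPred_eq, Finset.coe_singleton, Set.inter_singleton_eq_empty]
      have h3 : @MeasurableSet _ (MeasurableSpace.generateFrom
          {S | ∃ T, cU (d := d) T ∅ = S}) {ω : Set (Edg d) | e ∈ ω} := by
        have := @MeasurableSet.compl _ _ (MeasurableSpace.generateFrom
          {S | ∃ T, cU (d := d) T ∅ = S}) h2
        have e1 : {ω : Set (Edg d) | e ∉ ω}ᶜ = {ω : Set (Edg d) | e ∈ ω} := by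
          ext ω; simp
        rwa [e1] at this
      exact (@measurableSet_setOfPred (Set (Edg d)) (MeasurableSpace.generateFrom
          {S | ∃ T, cU (d := d) T ∅ = S}) (fun ω => e ∈ ω)).1 h3
    intro S hS
    exact h1 hS
  · refine MeasurableSpace.generateFrom_le ?_
    rintro _ ⟨T, rfl⟩
    exact measurableSet_cU T ∅

lemma isPiSystem_close : IsPiSystem {S | ∃ T, cU (d := d) T ∅ = S} := by
  classical
  rintro _ ⟨T, rfl⟩ _ ⟨T', rfl⟩ _
  refine ⟨T ∪ T', ?_⟩
  ext ω
  simp only [cU, Set.mem_ofPred_eq, Set.mem_inter_iff, Finset.coe_union,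
    Set.inter_union_distrib_left, Set.union_empty_iff]

lemma ext_close {μ ν : Measure (Set (Edg d))} [IsProbabilityMeasure μ] [IsProbabilityMeasure ν]
    (h : ∀ T, μ.real (cU T ∅) = ν.real (cU T ∅)) : μ = ν := by
  refine ext_of_generate_finite _ generateFrom_close isPiSystem_close ?_ ?_
  · rintro _ ⟨T, rfl⟩
    have h1 := h T
    rw [Measure.real, Measure.real] at h1
    exact (ENNReal.toReal_eq_toReal_iff' (measure_ne_top _ _) (measure_ne_top _ _)).1 h1
  · simp

lemma PM_prob {β h : ℝ} (hβ : 0 < β) (hh : 0 ≤ h) (n : ℕ) :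
    IsProbabilityMeasure (PM d n β h) := by
  have h1 : (PM d n β h).real Set.univ = 1 := by
    have : (Set.univ : Set (Set (Edg d))) = cU ∅ ∅ := by
      ext ω; simp [cU]
    rw [this, PM_closed hβ hh]
    refine div_self (ne_of_gt ?_)
    exact mul_pos (mul_pos (fac_pos _ _ _ _) (ZW_pos hβ hh _ _))
      (mul_pos (fac_pos _ _ _ _) (ZW_pos hβ le_rfl _ _))
  constructor
  have h2 : (PM d n β h) Set.univ ≠ ⊤ := by
    intro htop
    rw [Measure.real, htop] at h1
    simp at h1
  rw [Measure.real] at h1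
  rw [← ENNReal.ofReal_toReal h2, h1, ENNReal.ofReal_one]

/-- **the trace of the two currents has the law of the open edges of the triple model**. -/
theorem map_om_eq {β h : ℝ} (hβ : 0 < β) (hh : 0 ≤ h) (n : ℕ) :
    (Qm (Real.tanh β) (Real.tanh (β * h)) n).map om = PM d n β h := by
  have hadm := adm_tanh hβ hh
  have p1 := Qm_prob (d := d) hadm n
  have p2 := PM_prob (d := d) hβ hh n
  have p3 : IsProbabilityMeasure ((Qm (Real.tanh β) (Real.tanh (β * h)) n).map
      (om : Om d → Set (Edg d))) :=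
    Measure.isProbabilityMeasure_map measurable_om.aemeasurable
  refine ext_close fun W => ?_
  rw [map_measureReal_apply measurable_om (measurableSet_cU W ∅), PM_closed hβ hh]
  have e1 : om ⁻¹' cU W (∅ : Set (Edg d)) = {c : Om d | om c ∈ cU W ∅} := rfl
  rw [e1, Qm_closed hadm n W, one_sub_tanh_sq]
  have q1 : Z bC (cpl (Real.tanh β) (Real.tanh (β * h))) (JJ d n \ TT W) 0 = ZW d n β h W := rfl
  have q2 : Z bC (cpl (Real.tanh β) (Real.tanh (β * h))) (JJ d n) 0 = ZW d n β h ∅ := by
    unfold ZW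
    simp [TT]
  have q3 : Z bC (cpl (Real.tanh β) 0) (JJ d n \ TT W) 0 = ZW d n β 0 W := by
    unfold ZW
    simp
  have q4 : Z bC (cpl (Real.tanh β) 0) (JJ d n) 0 = ZW d n β 0 ∅ := by
    unfold ZW
    simp [TT]
  have q5 : (1 / Real.cosh β ^ 2) ^ (boxE d n ∩ W).card =
      1 / (Real.cosh β ^ (boxE d n ∩ W).card) ^ 2 := by
    rw [one_div_pow, ← pow_mul, ← pow_mul, mul_comm]
  rw [q1, q2, q3, q4, fac_empty n β h W, fac_empty n β 0 W, q5]
  have c0 := (Real.cosh_pos β).ne'
  have f1 := (fac_pos (d := d) n β h W).ne'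
  have f2 := (fac_pos (d := d) n β 0 W).ne'
  have z1 := (ZW_pos (d := d) hβ hh n ∅).ne'
  have z2 := (ZW_pos (d := d) hβ le_rfl n ∅).ne'
  field_simp

/-- finite-dimensional distributions. -/
theorem finDim_eq {β h : ℝ} (hβ : 0 < β) (hh : 0 ≤ h) (n : ℕ) (T : Finset (Edg d))
    (U : Set (Edg d)) : finDim β h n T U =
      (Qm (Real.tanh β) (Real.tanh (β * h)) n).real {c : Om d | om c ∈ cU T U} := by
  have h1 := PM_real hβ hh n (measurableSet_cU T U)
  rw [← map_om_eq hβ hh, map_measureReal_apply measurable_om (measurableSet_cU T U)] at h1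
  exact h1.symm

end Pool.Agent.Hhelper76.DC
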