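import Pool.Agent.Hhelper76.DC.Src

/-!
# Connectivity: adding an edge, finite paths, exits from boxes
-/

open Finset Filter Topology MeasureTheory

namespace Pool.Agent.Hhelper76.DC

variable {d : ℕ}

/-- adding one edge. -/
lemma conn_ins {ω : Set (Edg d)} {e : Edg d} {x y : Vtx d} (h : Conn (insert e ω) x y) :
    Conn ω x y ∨ (Conn ω x (src e) ∧ Conn ω (tgt e) y) ∨
      (Conn ω x (tgt e) ∧ Conn ω (src e) y) := by
  induction h with
  | refl => exact Or.inl (Conn.refl _ _)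
  | @tail y z _ hst ih =>
    obtain ⟨e', he', hst⟩ := hst
    rcases he' with rfl | he'
    · rcases hst with ⟨h1, h2⟩ | ⟨h1, h2⟩
      · -- y = src, z = tgt
        subst h1 h2
        rcases ih with h | ⟨h, _⟩ | ⟨h, _⟩
        · exact Or.inr (Or.inl ⟨h, Conn.refl _ _⟩)
        · exact Or.inr (Or.inl ⟨h, Conn.refl _ _⟩)
        · exact Or.inl h
      · subst h1 h2
        rcases ih with h | ⟨h, _⟩ | ⟨h, _⟩
        · exact Or.inr (Or.inr ⟨h, Conn.refl _ _⟩)
        · exact Or.inl h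
        · exact Or.inr (Or.inr ⟨h, Conn.refl _ _⟩)
    · have had : Ad ω y z := ⟨e', he', hst⟩
      rcases ih with h | ⟨h, h'⟩ | ⟨h, h'⟩
      · exact Or.inl (Relation.ReflTransGen.tail h had)
      · exact Or.inr (Or.inl ⟨h, Relation.ReflTransGen.tail h' had⟩)
      · exact Or.inr (Or.inr ⟨h, Relation.ReflTransGen.tail h' had⟩)

lemma insert_sdiff_self {ω : Set (Edg d)} {e : Edg d} (he : e ∈ ω) :
    insert e (ω \ {e}) = ω := by
  ext e'
  simp only [Set.mem_insert_iff, Set.mem_sdiff, Set.mem_singleton_iff]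
  constructor
  · rintro (rfl | h)
    · exact he
    · exact h.1
  · intro h
    by_cases h' : e' = e
    · exact Or.inl h'
    · exact Or.inr ⟨h, h'⟩

/-- removing one edge. -/
lemma conn_del {ω : Set (Edg d)} {e : Edg d} {x y : Vtx d} (h : Conn ω x y) :
    Conn (ω \ {e}) x y ∨ (e ∈ ω ∧ Conn (ω \ {e}) x (src e) ∧ Conn (ω \ {e}) (tgt e) y) ∨
      (e ∈ ω ∧ Conn (ω \ {e}) x (tgt e) ∧ Conn (ω \ {e}) (src e) y) := by
  by_cases he : e ∈ ω
  · have h' : Conn (insert e (ω \ {e})) x y := by rw [insert_sdiff_self he]; exact h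
    rcases conn_ins h' with h | h | h
    · exact Or.inl h
    · exact Or.inr (Or.inl ⟨he, h⟩)
    · exact Or.inr (Or.inr ⟨he, h⟩)
  · left
    rwa [Set.sdiff_singleton_eq_self he]

/-- paths are finite. -/
lemma conn_finite {ω : Set (Edg d)} {x y : Vtx d} (h : Conn ω x y) :
    ∃ k, Conn (ω ∩ (boxE d k : Set (Edg d))) x y := by
  induction h with
  | refl => exact ⟨0, Conn.refl _ _⟩
  | @tail y z _ hst ih =>
    obtain ⟨k, hk⟩ := ih
    obtain ⟨e, he, hst⟩ := hst
    obtain ⟨k', hk'⟩ := (eventually_subset_boxE {e}).exists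
    refine ⟨max k k', Relation.ReflTransGen.tail (hk.mono ?_) ⟨e, ⟨he, ?_⟩, hst⟩⟩
    · exact Set.inter_subset_inter_right _ (by exact_mod_cast boxE_mono (le_max_left _ _))
    · exact_mod_cast boxE_mono (le_max_right _ _) (hk' (Finset.mem_singleton_self e))

/-- algebraic form of a path. -/
lemma exists_K {ω : Set (Edg d)} {a b : Vtx d} (h : Conn ω a b) :
    ∃ K : Finset (Edg d), (∀ e ∈ K, e ∈ ω) ∧ ∑ e ∈ K, cE e = dl a + dl b := by
  classical
  induction h with
  | refl => exact ⟨∅, by simp, by simp [char2]⟩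
  | @tail y z _ hst ih =>
    obtain ⟨K, hK, hD⟩ := ih
    obtain ⟨e, he, hst⟩ := hst
    refine ⟨symmDiff K {e}, ?_, ?_⟩
    · intro e' he'
      rw [Finset.mem_symmDiff, Finset.mem_singleton] at he'
      rcases he' with he' | he'
      · exact hK _ he'.1
      · rw [he'.1]; exact he
    · have h1 := bd_symmDiff char2 (cE (d := d)) K {e}
      unfold bd at h1
      rw [h1, hD, Finset.sum_singleton, bC_inl]
      rcases hst with ⟨h1, h2⟩ | ⟨h1, h2⟩
      · rw [h1, h2, add_assoc, ← add_assoc (dl y), char2, zero_add]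
      · rw [h1, h2, add_comm (dl z), add_assoc, ← add_assoc (dl y), char2, zero_add]

/-- connection to the outside of a box. -/
def Esc (ω : Set (Edg d)) (k : ℕ) (x : Vtx d) : Prop := ∃ w, w ∉ box d k ∧ Conn ω x w

lemma Esc.mono {ω ω' : Set (Edg d)} (h : ω ⊆ ω') {k : ℕ} {x : Vtx d} (hx : Esc ω k x) :
    Esc ω' k x := by
  obtain ⟨w, hw, hc⟩ := hx
  exact ⟨w, hw, hc.mono h⟩

lemma Esc.anti {ω : Set (Edg d)} {k k' : ℕ} (h : k ≤ k') {x : Vtx d} (hx : Esc ω k' x) :
    Esc ω k x := by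
  obtain ⟨w, hw, hc⟩ := hx
  exact ⟨w, fun h' => hw (box_mono h h'), hc⟩

lemma infC_iff_esc {ω : Set (Edg d)} {x : Vtx d} : InfC ω x ↔ ∀ k, Esc ω k x := infC_iff

lemma esc_iff {ω : Set (Edg d)} {k : ℕ} {x : Vtx d} :
    Esc ω k x ↔ Esc (ω ∩ (boxE d (k + 1) : Set (Edg d))) k x := by
  refine ⟨?_, fun h => h.mono Set.inter_subset_left⟩
  rintro ⟨w, hw, hc⟩
  by_cases hx : x ∈ box d k
  · have key : ∀ v, Conn ω x v →
        (v ∈ box d k ∧ Conn (ω ∩ (boxE d (k + 1) : Set (Edg d))) x v) ∨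
        Esc (ω ∩ (boxE d (k + 1) : Set (Edg d))) k x := by
      intro v hc
      induction hc with
      | refl => exact Or.inl ⟨hx, Conn.refl _ _⟩
      | @tail v w _ hst ih =>
        rcases ih with ⟨hv, hc⟩ | h
        · have hw : w ∈ box d (k + 1) := ad_box hst hv
          have hv' : v ∈ box d (k + 1) := box_mono (Nat.le_succ k) hv
          have hst' : Ad (ω ∩ (boxE d (k + 1) : Set (Edg d))) v w := by
            obtain ⟨e, he, hst⟩ := hst
            refine ⟨e, ⟨he, ?_⟩, hst⟩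
            rw [Finset.mem_coe, mem_boxE]
            rcases hst with ⟨h3, h4⟩ | ⟨h3, h4⟩
            · rw [h3, h4]; exact ⟨hv', hw⟩
            · rw [h3, h4]; exact ⟨hw, hv'⟩
          have hc' := Relation.ReflTransGen.tail hc hst'
          by_cases hwN : w ∈ box d k
          · exact Or.inl ⟨hwN, hc'⟩
          · exact Or.inr ⟨w, hwN, hc'⟩
        · exact Or.inr h
    rcases key w hc with ⟨hw', _⟩ | h
    · exact absurd hw' hw
    · exact h
  · exact ⟨x, hx, Conn.refl _ _⟩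

/-! ### Bridges between infinite components -/

/-- the endpoints of `e` are in distinct infinite components of `ω ∖ {e}`. -/
def Br (e : Edg d) (ω : Set (Edg d)) : Prop :=
  InfC (ω \ {e}) (src e) ∧ InfC (ω \ {e}) (tgt e) ∧ ¬ Conn (ω \ {e}) (src e) (tgt e)

/-- local approximation. -/
def Dk (k : ℕ) (e : Edg d) (ω : Set (Edg d)) : Prop :=
  Esc (ω \ {e}) k (src e) ∧ Esc (ω \ {e}) k (tgt e) ∧
    ¬ Conn ((ω \ {e}) ∩ (boxE d k : Set (Edg d))) (src e) (tgt e)

lemma Dk.anti {k k' : ℕ} (h : k ≤ k') {e : Edg d} {ω : Set (Edg d)} (hD : Dk k' e ω) :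
    Dk k e ω := by
  refine ⟨hD.1.anti h, hD.2.1.anti h, fun hc => hD.2.2 (hc.mono ?_)⟩
  exact Set.inter_subset_inter_right _ (by exact_mod_cast boxE_mono h)

lemma br_iff {e : Edg d} {ω : Set (Edg d)} : Br e ω ↔ ∀ k, Dk k e ω := by
  constructor
  · rintro ⟨h1, h2, h3⟩ k
    exact ⟨infC_iff_esc.1 h1 k, infC_iff_esc.1 h2 k, fun hc => h3 (hc.mono Set.inter_subset_left)⟩
  · intro h
    refine ⟨infC_iff_esc.2 fun k => (h k).1, infC_iff_esc.2 fun k => (h k).2.1, fun hc => ?_⟩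
    obtain ⟨k, hk⟩ := conn_finite hc
    exact (h k).2.2 hk

lemma Dk_congr {k : ℕ} {e : Edg d} {ω ω' : Set (Edg d)}
    (h : ∀ e' ∈ boxE d (k + 1), e' ≠ e → (e' ∈ ω ↔ e' ∈ ω')) : Dk k e ω ↔ Dk k e ω' := by
  have h1 : (ω \ {e}) ∩ (boxE d (k + 1) : Set (Edg d)) =
      (ω' \ {e}) ∩ (boxE d (k + 1) : Set (Edg d)) := by
    ext e'
    simp only [Set.mem_inter_iff, Set.mem_sdiff, Set.mem_singleton_iff, Finset.mem_coe]
    constructor
    · rintro ⟨⟨a, b⟩, c⟩; exact ⟨⟨(h e' c b).1 a, b⟩, c⟩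
    · rintro ⟨⟨a, b⟩, c⟩; exact ⟨⟨(h e' c b).2 a, b⟩, c⟩
  have h2 : (ω \ {e}) ∩ (boxE d k : Set (Edg d)) = (ω' \ {e}) ∩ (boxE d k : Set (Edg d)) := by
    ext e'
    simp only [Set.mem_inter_iff, Set.mem_sdiff, Set.mem_singleton_iff, Finset.mem_coe]
    constructor
    · rintro ⟨⟨a, b⟩, c⟩; exact ⟨⟨(h e' (boxE_mono (Nat.le_succ k) c) b).1 a, b⟩, c⟩
    · rintro ⟨⟨a, b⟩, c⟩; exact ⟨⟨(h e' (boxE_mono (Nat.le_succ k) c) b).2 a, b⟩, c⟩
  unfold Dk
  rw [esc_iff, esc_iff (x := tgt e), h1, h2, ← esc_iff, ← esc_iff]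

/-- the corresponding events. -/
def dS (k : ℕ) (e : Edg d) (s : St) : Set (Om d) := {c | c e = s ∧ Dk k e (om c)}

/-- the corresponding events. -/
def bS (e : Edg d) (s : St) : Set (Om d) := {c | c e = s ∧ Br e (om c)}

lemma isLoc_state (e : Edg d) (s : St) : IsLoc {e} {c : Om d | c e = s} := by
  intro c c' h hc
  rw [Set.mem_ofPred_eq] at hc ⊢
  rw [← h e (Finset.mem_singleton_self e)]
  exact hc

lemma isLoc_dS (k : ℕ) (e : Edg d) (s : St) : IsLoc (insert e (boxE d (k + 1))) (dS k e s) := by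
  intro c c' h hc
  refine ⟨?_, ?_⟩
  · rw [← h e (Finset.mem_insert_self _ _)]; exact hc.1
  · refine (Dk_congr fun e' he' _ => ?_).1 hc.2
    simp only [om, Set.mem_ofPred_eq]
    rw [h e' (Finset.mem_insert_of_mem he')]

lemma measurableSet_dS (k : ℕ) (e : Edg d) (s : St) : MeasurableSet (dS k e s) :=
  (isLoc_dS k e s).measurableSet

lemma bS_eq (e : Edg d) (s : St) : bS e s = ⋂ k, dS k e s := by
  ext c
  simp only [bS, dS, Set.mem_ofPred_eq, Set.mem_iInter, br_iff]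
  exact ⟨fun h k => ⟨h.1, h.2 k⟩, fun h => ⟨(h 0).1, fun k => (h k).2⟩⟩

lemma measurableSet_bS (e : Edg d) (s : St) : MeasurableSet (bS e s) := by
  rw [bS_eq]
  exact MeasurableSet.iInter fun k => measurableSet_dS k e s

lemma antitone_dS (e : Edg d) (s : St) : Antitone fun k => dS k e s :=
  fun _ _ h _ hc => ⟨hc.1, hc.2.anti h⟩

lemma tendsto_dS (P : Measure (Om d)) [IsProbabilityMeasure P] (e : Edg d) (s : St) :
    Tendsto (fun k => P.real (dS k e s)) atTop (𝓝 (P.real (bS e s))) := by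
  rw [bS_eq]
  have h1 := tendsto_measure_iInter_atTop (μ := P)
    (fun k => (measurableSet_dS k e s).nullMeasurableSet) (antitone_dS e s)
    ⟨0, measure_ne_top _ _⟩
  exact (ENNReal.tendsto_toReal (measure_ne_top _ _)).comp h1

lemma bS_subset_dS (k : ℕ) (e : Edg d) (s : St) : bS e s ⊆ dS k e s := by
  rw [bS_eq]
  exact Set.iInter_subset _ k

lemma trD_Dk (k : ℕ) (e : Edg d) : TrD (fun c : Om d => ind (Dk k e (om c))) := by
  intro c c' h
  refine ind_congr (Dk_congr fun e' _ _ => ?_)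
  simp only [om, Set.mem_ofPred_eq, h e']

lemma ind_Dk (k : ℕ) (e : Edg d) : Ind e (fun c : Om d => ind (Dk k e (om c))) := by
  intro c s
  refine ind_congr (Dk_congr fun e' _ he' => ?_)
  simp only [om, Set.mem_ofPred_eq, Function.update_of_ne he']

lemma ind_dS (k : ℕ) (e : Edg d) (s : St) (c : Om d) :
    ind (c ∈ dS k e s) = ind (c e = s) * ind (Dk k e (om c)) := by
  rw [← ind_and]
  rfl

end Pool.Agent.Hhelper76.DC
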