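import Mathlib

/-!
# Limits of probability measures with converging clopen probabilities
-/

open MeasureTheory Filter Topology

namespace Pool.Agent.Hhelper76.DC

lemma exists_limit_measure {E : Type*} [MeasurableSpace E] [TopologicalSpace E] [T2Space E]
    [BorelSpace E] [CompactSpace E] [HasOuterApproxClosed E] {X : Type*} {l : Filter X} [l.NeBot]
    (Q : X → Measure E) (hQ : ∀ x, IsProbabilityMeasure (Q x)) {κ : Type*} (C : κ → Set E)
    (hC : ∀ k, IsClopen (C k)) (p : κ → ℝ)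
    (hp : ∀ k, Tendsto (fun x => (Q x).real (C k)) l (𝓝 (p k))) :
    ∃ P : Measure E, IsProbabilityMeasure P ∧ ∀ k, P.real (C k) = p k := by
  let Q' : X → ProbabilityMeasure E := fun x => ⟨Q x, hQ x⟩
  let 𝒰 : Ultrafilter X := Ultrafilter.of l
  have h𝒰 : (𝒰 : Filter X) ≤ l := Ultrafilter.of_le l
  obtain ⟨P, -, hP⟩ := (isCompact_univ : IsCompact (Set.univ : Set (ProbabilityMeasure E)))
    |>.ultrafilter_le_nhds (𝒰.map Q') (by simp)
  have hP' : Tendsto Q' (𝒰 : Filter X) (𝓝 P) := hP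
  refine ⟨P, P.2, fun k => ?_⟩
  have h1 := ProbabilityMeasure.tendsto_measure_of_isClopen_of_tendsto hP' (hC k)
  have h2 : Tendsto (fun x => ((Q' x) (C k) : ℝ)) (𝒰 : Filter X) (𝓝 ((P (C k) : ℝ))) :=
    (NNReal.continuous_coe.tendsto _).comp h1
  have h3 : Tendsto (fun x => (Q x).real (C k)) (𝒰 : Filter X) (𝓝 (p k)) := (hp k).mono_left h𝒰
  exact tendsto_nhds_unique h2 h3

end Pool.Agent.Hhelper76.DC
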