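import Pool.Agent.Hhelper76.DC.Cut

/-!
# Conversion to simple graphs, uniqueness of the law
-/

open Finset Filter Topology MeasureTheory

namespace Pool.Agent.Hhelper76.DC

variable {d : ℕ}

lemma src_ne_tgt (e : Edg d) : src e ≠ tgt e := by
  intro h
  have h1 := congrFun h e.2
  rw [tgt_eq, if_pos rfl] at h1
  omega

lemma graph_adj {ω : Set (Edg d)} {x y : Vtx d} : (graph ω).Adj x y ↔ Ad ω x y := by
  unfold graph Ad
  rw [SimpleGraph.fromRel_adj]
  constructor
  · rintro ⟨_, ⟨e, he, h⟩ | ⟨e, he, h⟩⟩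
    · exact ⟨e, he, Or.inl h⟩
    · exact ⟨e, he, Or.inr h⟩
  · rintro ⟨e, he, ⟨h1, h2⟩ | ⟨h1, h2⟩⟩
    · refine ⟨?_, Or.inl ⟨e, he, h1, h2⟩⟩
      rw [← h1, ← h2]; exact src_ne_tgt e
    · refine ⟨?_, Or.inr ⟨e, he, h1, h2⟩⟩
      rw [← h1, ← h2]; exact (src_ne_tgt e).symm

lemma reachable_iff {ω : Set (Edg d)} {x y : Vtx d} : (graph ω).Reachable x y ↔ Conn ω x y := by
  constructor
  · rintro ⟨w⟩
    induction w with
    | nil => exact Conn.refl _ _
    | cons h _ ih => exact Relation.ReflTransGen.head (graph_adj.1 h) ih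
  · intro h
    induction h with
    | refl => exact SimpleGraph.Reachable.refl _
    | tail _ h ih => exact ih.trans (graph_adj.2 h).reachable

/-- edges touching a finite set of vertices. -/
noncomputable def tch (F : Finset (Vtx d)) : Finset (Edg d) := F.biUnion inc

lemma mem_tch {F : Finset (Vtx d)} {e : Edg d} : e ∈ tch F ↔ src e ∈ F ∨ tgt e ∈ F := by
  simp only [tch, Finset.mem_biUnion, mem_inc]
  constructor
  · rintro ⟨x, hx, rfl | rfl⟩
    · exact Or.inl hx
    · exact Or.inr hx
  · rintro (h | h)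
    · exact ⟨_, h, Or.inl rfl⟩
    · exact ⟨_, h, Or.inr rfl⟩

lemma ind_reach {ω : Set (Edg d)} {C : (graph ω).ConnectedComponent} {F : Finset (Vtx d)}
    {v w : ↥(C.supp \ (F : Set (Vtx d)))}
    (h : ((graph ω).induce (C.supp \ (F : Set (Vtx d)))).Reachable v w) :
    Conn (ω \ (tch F : Set (Edg d))) v.1 w.1 := by
  obtain ⟨p⟩ := h
  induction p with
  | nil => exact Conn.refl _ _
  | @cons a b c h _ ih =>
    refine Relation.ReflTransGen.head ?_ ih
    obtain ⟨e, he, hh⟩ := graph_adj.1 (SimpleGraph.induce_adj.1 h)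
    refine ⟨e, ⟨he, ?_⟩, hh⟩
    rw [Finset.mem_coe, mem_tch]
    rintro (h' | h')
    · rcases hh with ⟨h1, _⟩ | ⟨h1, _⟩
      · rw [h1] at h'; exact a.2.2 h'
      · rw [h1] at h'; exact b.2.2 h'
    · rcases hh with ⟨_, h1⟩ | ⟨_, h1⟩
      · rw [h1] at h'; exact b.2.2 h'
      · rw [h1] at h'; exact a.2.2 h'

lemma reach_ind {ω : Set (Edg d)} {C : (graph ω).ConnectedComponent} {F : Finset (Vtx d)}
    {v : ↥(C.supp \ (F : Set (Vtx d)))} {w : Vtx d}
    (h : Conn (ω \ (tch F : Set (Edg d))) v.1 w) :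
    ∃ hw : w ∈ C.supp \ (F : Set (Vtx d)),
      ((graph ω).induce (C.supp \ (F : Set (Vtx d)))).Reachable v ⟨w, hw⟩ := by
  induction h with
  | refl => exact ⟨v.2, SimpleGraph.Reachable.refl _⟩
  | @tail y z _ hyz ih =>
    obtain ⟨hy, hr⟩ := ih
    obtain ⟨e, ⟨he, heF⟩, hh⟩ := hyz
    rw [Finset.mem_coe, mem_tch, not_or] at heF
    have hadj : (graph ω).Adj y z := graph_adj.2 ⟨e, he, hh⟩
    have hzC : z ∈ C.supp := (SimpleGraph.ConnectedComponent.mem_supp_congr_adj C hadj).1 hy.1
    have hzF : z ∉ (F : Set (Vtx d)) := by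
      rcases hh with ⟨_, h1⟩ | ⟨h1, _⟩
      · rw [← h1]; exact heF.2
      · rw [← h1]; exact heF.1
    refine ⟨⟨hzC, hzF⟩, hr.trans ?_⟩
    exact SimpleGraph.Adj.reachable (SimpleGraph.induce_adj.2 hadj)

/-- infinite components in terms of `InfC`. -/
lemma infinite_supp_iff {ω : Set (Edg d)} {C : (graph ω).ConnectedComponent}
    {F : Finset (Vtx d)} {v : ↥(C.supp \ (F : Set (Vtx d)))} :
    (((graph ω).induce (C.supp \ (F : Set (Vtx d)))).connectedComponentMk v).supp.Infinite ↔
      InfC (ω \ (tch F : Set (Edg d))) v.1 := by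
  have h1 : {w | Conn (ω \ (tch F : Set (Edg d))) v.1 w} = Subtype.val ''
      (((graph ω).induce (C.supp \ (F : Set (Vtx d)))).connectedComponentMk v).supp := by
    ext w
    simp only [Set.mem_ofPred_eq, Set.mem_image, SimpleGraph.ConnectedComponent.mem_supp_iff,
      SimpleGraph.ConnectedComponent.eq]
    constructor
    · intro h
      obtain ⟨hw, hr⟩ := reach_ind h
      exact ⟨⟨w, hw⟩, hr.symm, rfl⟩
    · rintro ⟨w', hw', rfl⟩
      exact ind_reach hw'.symm
  unfold InfC
  rw [h1, Set.infinite_image_iff Subtype.val_injective.injOn]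

/-- **one-endedness from connectivity**. -/
theorem oneEnded_of_conn (ω : Set (Edg d))
    (H : ∀ (S : Finset (Edg d)) (x y : Vtx d), InfC (ω \ S) x → InfC (ω \ S) y →
      Conn (ω \ S) x y)
    (C : (graph ω).ConnectedComponent) (hC : C.supp.Infinite) : OneEnded ω C := by
  classical
  intro F
  obtain ⟨x, hx⟩ : ∃ x, (graph ω).connectedComponentMk x = C := C.exists_rep
  have hsupp : C.supp = {y | Conn ω x y} := by
    ext y
    rw [SimpleGraph.ConnectedComponent.mem_supp_iff, ← hx, SimpleGraph.ConnectedComponent.eq]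
    exact ⟨fun h => (reachable_iff.1 h).symm, fun h => (reachable_iff.2 h).symm⟩
  have hinf : InfC ω x := by rw [hsupp] at hC; exact hC
  -- existence
  let B : Finset (Vtx d) := insert x ((tch F).image src ∪ (tch F).image tgt)
  obtain ⟨v, _, hv1, hv2⟩ := exists_infC hinf (tch F : Set (Edg d)) B
    (Finset.mem_insert_self _ _) (fun e he =>
      ⟨Finset.mem_insert_of_mem (Finset.mem_union_left _ (Finset.mem_image_of_mem _ he)),
        Finset.mem_insert_of_mem (Finset.mem_union_right _ (Finset.mem_image_of_mem _ he))⟩)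
  have hvC : v ∈ C.supp := by rw [hsupp]; exact hv1
  have hvF : v ∉ (F : Set (Vtx d)) := by
    intro hvF
    apply hv2
    refine Set.Finite.subset (Set.finite_singleton v) fun w hw => ?_
    have hw' : Conn (ω \ (tch F : Set (Edg d))) v w := hw
    rcases Relation.ReflTransGen.cases_head hw' with h | ⟨z, ⟨e, ⟨_, heF⟩, hh⟩, _⟩
    · exact h.symm
    · exfalso
      apply heF
      rw [Finset.mem_coe, mem_tch]
      rcases hh with ⟨h1, _⟩ | ⟨_, h1⟩
      · left; rw [h1]; exact hvF
      · right; rw [h1]; exact hvF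
  refine ⟨((graph ω).induce (C.supp \ (F : Set (Vtx d)))).connectedComponentMk
    ⟨v, hvC, hvF⟩, ?_, ?_⟩
  · exact infinite_supp_iff.2 hv2
  · intro D hD
    obtain ⟨w, rfl⟩ : ∃ w, ((graph ω).induce (C.supp \ (F : Set (Vtx d)))).connectedComponentMk w =
      D := D.exists_rep
    have hw := infinite_supp_iff.1 hD
    have hc := H (tch F) w.1 v hw hv2
    obtain ⟨_, hr⟩ := reach_ind hc
    exact SimpleGraph.ConnectedComponent.sound hr

/-! ### Uniqueness of the law -/

/-- cylinder events for edge sets. -/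
def cU (T : Finset (Edg d)) (U : Set (Edg d)) : Set (Set (Edg d)) :=
  {ω | ω ∩ (T : Set (Edg d)) = U}

lemma measurableSet_cU (T : Finset (Edg d)) (U : Set (Edg d)) : MeasurableSet (cU T U) := by
  classical
  by_cases hU : U ⊆ (T : Set (Edg d))
  · have : cU T U = ⋂ e ∈ T, {ω : Set (Edg d) | e ∈ ω ↔ e ∈ U} := by
      ext ω
      simp only [cU, Set.mem_ofPred_eq, Set.mem_iInter]
      constructor
      · rintro rfl e he
        simp [he]
      · intro h
        ext e
        simp only [Set.mem_inter_iff, Finset.mem_coe]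
        constructor
        · rintro ⟨h1, h2⟩; exact (h e h2).1 h1
        · intro h1; exact ⟨(h e (hU h1)).2 h1, hU h1⟩
    rw [this]
    refine Finset.measurableSet_biInter _ fun e _ => ?_
    by_cases he : e ∈ U
    · simpa [he] using measurableSet_setOfPred.2 (measurable_set_mem e)
    · simpa [he] using measurableSet_setOfPred.2 (measurable_set_notMem e)
  · have : cU T U = ∅ := by
      ext ω
      simp only [cU, Set.mem_ofPred_eq, Set.mem_empty_iff_false, iff_false]
      rintro rfl
      exact hU Set.inter_subset_right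
    rw [this]
    exact MeasurableSet.empty

lemma generateFrom_cU : (Set.instMeasurableSpace : MeasurableSpace (Set (Edg d))) =
    MeasurableSpace.generateFrom {S | ∃ T U, cU T U = S} := by
  apply le_antisymm
  · have h1 : @Measurable _ _ (MeasurableSpace.generateFrom {S | ∃ T U, cU (d := d) T U = S})
        Set.instMeasurableSpace (id : Set (Edg d) → Set (Edg d)) := by
      rw [@measurable_set_iff _ _ (MeasurableSpace.generateFrom {S | ∃ T U, cU (d := d) T U = S})]
      intro e
      have h2 : @MeasurableSet _ (MeasurableSpace.generateFrom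
          {S | ∃ T U, cU (d := d) T U = S}) {ω : Set (Edg d) | e ∈ ω} := by
        apply MeasurableSpace.measurableSet_generateFrom
        refine ⟨{e}, {e}, ?_⟩
        ext ω
        simp only [cU, Set.mem_ofPred_eq, Finset.coe_singleton, Set.inter_eq_right,
          Set.singleton_subset_iff]
      exact (@measurableSet_setOfPred (Set (Edg d)) (MeasurableSpace.generateFrom
          {S | ∃ T U, cU (d := d) T U = S}) (fun ω => e ∈ ω)).1 h2
    intro S hS
    exact h1 hS
  · refine MeasurableSpace.generateFrom_le ?_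
    rintro _ ⟨T, U, rfl⟩
    exact measurableSet_cU T U

lemma isPiSystem_cU : IsPiSystem {S | ∃ T U, cU (d := d) T U = S} := by
  classical
  rintro _ ⟨T, U, rfl⟩ _ ⟨T', U', rfl⟩ ⟨ω₀, h1, h2⟩
  refine ⟨T ∪ T', ω₀ ∩ (T ∪ T' : Set (Edg d)), ?_⟩
  simp only [cU, Set.mem_ofPred_eq] at h1 h2
  ext ω
  simp only [cU, Set.mem_ofPred_eq, Set.mem_inter_iff, Finset.coe_union, ← h1, ← h2]
  constructor
  · intro h
    have key : ∀ A : Set (Edg d), A ⊆ (T ∪ T' : Set (Edg d)) → ω ∩ A = ω₀ ∩ A := by
      intro A hA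
      calc ω ∩ A = (ω ∩ (T ∪ T' : Set (Edg d))) ∩ A := by
            rw [Set.inter_assoc, Set.inter_eq_self_of_subset_right hA]
        _ = (ω₀ ∩ (T ∪ T' : Set (Edg d))) ∩ A := by rw [h]
        _ = ω₀ ∩ A := by rw [Set.inter_assoc, Set.inter_eq_self_of_subset_right hA]
    exact ⟨key _ Set.subset_union_left, key _ Set.subset_union_right⟩
  · rintro ⟨h3, h4⟩
    rw [Set.inter_union_distrib_left, Set.inter_union_distrib_left, h3, h4]

lemma ext_cU {μ ν : Measure (Set (Edg d))} [IsProbabilityMeasure μ] [IsProbabilityMeasure ν]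
    (h : ∀ T U, μ.real (cU T U) = ν.real (cU T U)) : μ = ν := by
  refine ext_of_generate_finite _ generateFrom_cU isPiSystem_cU ?_ ?_
  · rintro _ ⟨T, U, rfl⟩
    have h1 := h T U
    rw [Measure.real, Measure.real] at h1
    exact (ENNReal.toReal_eq_toReal_iff' (measure_ne_top _ _) (measure_ne_top _ _)).1 h1
  · simp

/-- the law of the duplicated-current model is unique. -/
theorem law_unique {β : ℝ} {μ ν : Measure (Set (Edg d))} (hμ : IsDuplicatedCurrentLaw d β μ)
    (hν : IsDuplicatedCurrentLaw d β ν) : μ = ν := by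
  obtain ⟨pμ, q, hq1, hq2⟩ := hμ
  obtain ⟨pν, q', hq1', hq2'⟩ := hν
  refine ext_cU fun T U => ?_
  have h1 := hq2 T U
  have h2 := hq2' T U
  have h3 : (fun h : ℝ => q h T U) =ᶠ[𝓝[>] 0] fun h : ℝ => q' h T U := by
    filter_upwards [self_mem_nhdsWithin] with h hh
    exact tendsto_nhds_unique (hq1 h hh T U) (hq1' h hh T U)
  exact tendsto_nhds_unique (h1.congr' h3) h2

end Pool.Agent.Hhelper76.DC
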