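import Pool.Agent.Hhelper76.DC.Third

/-!
# At most one infinite component after a finite deletion
-/

open Finset Filter Topology MeasureTheory

namespace Pool.Agent.Hhelper76.DC

variable {d : ℕ}

/-- two distinct infinite components remain after deletion of `S`. -/
def Two (S : Finset (Edg d)) (x y : Vtx d) (ω : Set (Edg d)) : Prop :=
  InfC (ω \ S) x ∧ InfC (ω \ S) y ∧ ¬ Conn (ω \ S) x y

/-- exceptional event. -/
def NN (r : ℕ) : Set (Om d) := {c | ∃ S : Finset (Edg d), S.card ≤ r ∧ ∃ x y, Two S x y (om c)}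

lemma measurableSet_two (S : Finset (Edg d)) (x y : Vtx d) :
    MeasurableSet {c : Om d | Two S x y (om c)} := by
  have hm : MSet (fun c : Om d => om c \ (S : Set (Edg d))) := mset_om.sdiff _
  exact (hm.infC x).inter ((hm.infC y).inter (hm.conn x y).compl)

lemma measurableSet_NN (r : ℕ) : MeasurableSet (NN r : Set (Om d)) := by
  have : (NN r : Set (Om d)) = ⋃ S ∈ {S : Finset (Edg d) | S.card ≤ r}, ⋃ x, ⋃ y,
      {c : Om d | Two S x y (om c)} := by
    ext c
    simp only [NN, Set.mem_ofPred_eq, Set.mem_iUnion, exists_prop]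
  rw [this]
  exact MeasurableSet.biUnion (Set.to_countable _) fun S _ => MeasurableSet.iUnion fun x =>
    MeasurableSet.iUnion fun y => measurableSet_two S x y

/-! ### The closing map -/

open Classical in
/-- toggle the edges of `O` and close `e₂`, if all edges of `O` are open. -/
noncomputable def tog (O : Finset (Edg d)) (e₂ : Edg d) (c : Om d) : Om d := fun e =>
  if (∀ f ∈ O, (c f).1 = true) ∧ e ∈ O then
    (if e = e₂ then (false, false, false) else
      (true, xor (c e).2.1 (c e₂).2.1, xor (c e).2.2 (c e₂).2.2))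
  else c e

lemma om_tog {O : Finset (Edg d)} {e₂ : Edg d} (he : e₂ ∈ O) {c : Om d}
    (hO : ∀ f ∈ O, (c f).1 = true) : om (tog O e₂ c) = om c \ {e₂} := by
  ext e
  simp only [om, Set.mem_ofPred_eq, Set.mem_sdiff, Set.mem_singleton_iff]
  by_cases h1 : e ∈ O
  · by_cases h2 : e = e₂
    · have : tog O e₂ c e = (false, false, false) := by
        unfold tog
        rw [if_pos ⟨hO, h1⟩, if_pos h2]
      rw [this]
      simp [h2]
    · have : tog O e₂ c e = (true, xor (c e).2.1 (c e₂).2.1, xor (c e).2.2 (c e₂).2.2) := by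
        unfold tog
        rw [if_pos ⟨hO, h1⟩, if_neg h2]
      rw [this]
      simp [h2, hO e h1]
  · have : tog O e₂ c e = c e := by
      unfold tog
      rw [if_neg (fun h => h1 h.2)]
    rw [this]
    have : e ≠ e₂ := by rintro rfl; exact h1 he
    simp [this]

section

variable {u : ℝ} {P : Measure (Om d)} (hP : IsP u P)

include hP

lemma IsP.ac_tog (O : Finset (Edg d)) (hO : ∑ e ∈ O, cE e = 0) (e₂ : Edg d) (he₂ : e₂ ∈ O)
    {S : Set (Om d)} (hS : MeasurableSet S) (h0 : P S = 0) : P (tog O e₂ ⁻¹' S) = 0 := by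
  classical
  have hpos : ∀ c : Om d, (∀ f ∈ O, (c f).1 = true) → ∀ e ∈ O, tog O e₂ c e =
      (if e = e₂ then (false, false, false) else
      (true, xor (c e).2.1 (c e₂).2.1, xor (c e).2.2 (c e₂).2.2)) := by
    intro c hc e he
    unfold tog
    rw [if_pos ⟨hc, he⟩]
  have hneg : ∀ c : Om d, ¬ (∀ f ∈ O, (c f).1 = true) → tog O e₂ c = c := by
    intro c hc
    funext e
    unfold tog
    rw [if_neg (fun h => hc h.1)]
  have hxor : ∀ (a b : Bool) (m : Srs d), sc (xor a b) m = sc a m + sc b m := by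
    intro a b m
    cases a <;> cases b <;> simp [char2]
  have hsum : ∀ b : Bool, ∑ e ∈ O, sc b (cE e) = 0 := by
    intro b
    cases b
    · simp
    · simpa using hO
  refine hP.ac O (tog O e₂) ?_ ?_ ?_ ?_ ?_ hS h0
  · intro c e he
    unfold tog
    rw [if_neg (fun h => he h.2)]
  · intro c c' h e he
    have hiff : (∀ f ∈ O, (c f).1 = true) ↔ (∀ f ∈ O, (c' f).1 = true) := by
      refine forall₂_congr fun f hf => ?_
      rw [h f hf]
    by_cases hc : ∀ f ∈ O, (c f).1 = true
    · rw [hpos c hc e he, hpos c' (hiff.1 hc) e he, h e he, h e₂ he₂]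
    · rw [hneg c hc, hneg c' (fun h' => hc (hiff.2 h')), h e he]
  · intro c
    by_cases hc : ∀ f ∈ O, (c f).1 = true
    · have h1 : B1 O (tog O e₂ c) = ∑ e ∈ O, (sc (c e).2.1 (cE e) + sc (c e₂).2.1 (cE e)) := by
        unfold B1
        refine Finset.sum_congr rfl fun e he => ?_
        rw [hpos c hc e he, ← hxor]
        by_cases h : e = e₂
        · rw [if_pos h, h]; simp
        · rw [if_neg h]
      rw [h1, Finset.sum_add_distrib, hsum, add_zero]
      rfl
    · rw [hneg c hc]
  · intro c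
    by_cases hc : ∀ f ∈ O, (c f).1 = true
    · have h1 : B2 O (tog O e₂ c) = ∑ e ∈ O, (sc (c e).2.2 (cE e) + sc (c e₂).2.2 (cE e)) := by
        unfold B2
        refine Finset.sum_congr rfl fun e he => ?_
        rw [hpos c hc e he, ← hxor]
        by_cases h : e = e₂
        · rw [if_pos h, h]; simp
        · rw [if_neg h]
      rw [h1, Finset.sum_add_distrib, hsum, add_zero]
      rfl
    · rw [hneg c hc]
  · intro c hv
    by_cases hc : ∀ f ∈ O, (c f).1 = true
    · unfold vT
      rw [Finset.prod_ne_zero_iff]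
      intro e he
      rw [hpos c hc e he]
      have hu := hP.u0
      have h1 := (adm0 hP.u0 hP.u1).ne
      by_cases h : e = e₂
      · rw [if_pos h]
        show vv u s0 ≠ 0
        rw [vv_s0]
        exact h1
      · rw [if_neg h]
        simp only [vv]
        split_ifs <;> positivity
    · rw [hneg c hc]; exact hv

lemma IsP.br_null' (hd : 0 < d) : ∀ᵐ c ∂P, ∀ (F : Finset (Edg d)) (e : Edg d),
    ¬ Br e (om (opn F c)) := by
  rw [ae_all_iff]
  intro F
  rw [ae_all_iff]
  intro e
  have h1 := hP.br_null hd e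
  have hS : MeasurableSet {c : Om d | Br e (om c)} := by
    have hm : MSet (fun c : Om d => om c \ {e}) := mset_om.sdiff _
    exact (hm.infC _).inter ((hm.infC _).inter (hm.conn _ _).compl)
  have h2 : P {c : Om d | Br e (om c)} = 0 := by
    rw [ae_iff] at h1
    simpa using h1
  have h3 := hP.ac_opn F hS h2
  rw [ae_iff]
  simpa using h3

omit hP in
/-- if two distinct infinite clusters exist, opening edges yields a bridge. -/
lemma exists_br_of_two {c : Om d} {x y : Vtx d} (hx : InfC (om c) x) (hy : InfC (om c) y)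
    (hn : ¬ Conn (om c) x y) : ∃ (F : Finset (Edg d)) (e : Edg d), Br e (om (opn F c)) := by
  classical
  set k := max (nrm x) (nrm y) with hk
  have hxk : x ∈ bx 0 k := by
    rw [bx_zero]; exact box_mono (by simp [hk]) (mem_box_nrm x)
  have hyk : y ∈ bx 0 k := by
    rw [bx_zero]; exact box_mono (by simp [hk]) (mem_box_nrm y)
  have hfull : Conn (om c ∪ ((Ebx (0 : Vtx d) k : Finset (Edg d)) : Set (Edg d))) x y :=
    (bx_conn hxk hyk).mono Set.subset_union_right
  -- induction on the set of opened edges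
  have key : ∀ G : Finset (Edg d), Conn (om c ∪ (G : Set (Edg d))) x y →
      ∃ (F : Finset (Edg d)) (e : Edg d), Br e (om (opn F c)) := by
    intro G
    induction G using Finset.induction_on with
    | empty =>
      intro h
      simp only [Finset.coe_empty, Set.union_empty] at h
      exact absurd h hn
    | insert e G he ih =>
      intro h
      by_cases hG : Conn (om c ∪ (G : Set (Edg d))) x y
      · exact ih hG
      · refine ⟨insert e G, e, ?_⟩
        have h1 : Conn (insert e (om c ∪ (G : Set (Edg d)))) x y := by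
          refine h.mono ?_
          rw [Finset.coe_insert]
          intro f hf
          rcases hf with hf | hf | hf
          · exact Or.inr (Or.inl hf)
          · exact Or.inl hf
          · exact Or.inr (Or.inr hf)
        have heω : e ∉ om c ∪ (G : Set (Edg d)) := by
          intro heω
          rw [Set.insert_eq_of_mem heω] at h1
          exact hG h1
        have hset : om (opn (insert e G) c) \ {e} = om c ∪ (G : Set (Edg d)) := by
          rw [om_opn, Finset.coe_insert]
          ext f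
          simp only [Set.mem_sdiff, Set.mem_union, Set.mem_insert_iff, Set.mem_singleton_iff,
            Finset.mem_coe] at heω ⊢
          constructor
          · rintro ⟨h1 | h1 | h1, h2⟩
            · exact Or.inl h1
            · exact absurd h1 h2
            · exact Or.inr h1
          · intro h6
            refine ⟨by tauto, ?_⟩
            rintro rfl
            exact heω h6
        have hx' : InfC (om c ∪ (G : Set (Edg d))) x := hx.mono Set.subset_union_left
        have hy' : InfC (om c ∪ (G : Set (Edg d))) y := hy.mono Set.subset_union_left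
        unfold Br
        rw [hset]
        rcases conn_ins h1 with h2 | ⟨h2, h3⟩ | ⟨h2, h3⟩
        · exact absurd h2 hG
        · exact ⟨hx'.of_conn h2, hy'.of_conn h3.symm, fun h4 => hG ((h2.trans h4).trans h3)⟩
        · exact ⟨hy'.of_conn h3.symm, hx'.of_conn h2, fun h4 => hG ((h2.trans h4.symm).trans h3)⟩
  exact key _ hfull

lemma IsP.NN_zero (hd : 0 < d) : P (NN 0) = 0 := by
  have h : ∀ᵐ c ∂P, c ∉ (NN 0 : Set (Om d)) := by
    filter_upwards [hP.br_null' hd] with c hc hmem
    obtain ⟨S, hS, x, y, hx, hy, hn⟩ := hmem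
    have : S = ∅ := Finset.card_eq_zero.1 (Nat.le_zero.1 hS)
    subst this
    simp only [Finset.coe_empty, Set.sdiff_empty] at hx hy hn
    obtain ⟨F, e, hb⟩ := exists_br_of_two hx hy hn
    exact hc F e hb
  exact measure_eq_zero_iff_ae_notMem.2 h

omit hP in
/-- an edge whose re-insertion merges two components. -/
lemma merge {ω : Set (Edg d)} {S : Finset (Edg d)} {e : Edg d} (he : e ∈ S) {x y : Vtx d}
    (h : Conn (ω \ (S.erase e : Finset (Edg d))) x y) (hn : ¬ Conn (ω \ S) x y) :
    e ∈ ω ∧ ((Conn (ω \ S) x (src e) ∧ Conn (ω \ S) (tgt e) y) ∨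
      (Conn (ω \ S) x (tgt e) ∧ Conn (ω \ S) (src e) y)) := by
  have h1 : (ω \ (S.erase e : Finset (Edg d))) \ {e} = ω \ S := by
    ext f
    simp only [Set.mem_sdiff, Finset.coe_erase, Set.mem_singleton_iff, Finset.mem_coe]
    constructor
    · rintro ⟨⟨a, b⟩, c⟩
      exact ⟨a, fun h' => b ⟨h', c⟩⟩
    · rintro ⟨a, b⟩
      exact ⟨⟨a, fun h' => b h'.1⟩, fun h' => b (by rw [h']; exact he)⟩
  rcases conn_del (e := e) h with h2 | ⟨h2, h3⟩ | ⟨h2, h3⟩
  · rw [h1] at h2; exact absurd h2 hn
  · rw [h1] at h3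
    exact ⟨h2.1, Or.inl h3⟩
  · rw [h1] at h3
    exact ⟨h2.1, Or.inr h3⟩

omit hP in
/-- a cycle through two edges of a cut. -/
lemma exists_cycle {ω : Set (Edg d)} {S : Finset (Edg d)} {e₁ e₂ : Edg d} (h1 : e₁ ∈ S)
    (h2 : e₂ ∈ S) (hne : e₁ ≠ e₂) (m1 : e₁ ∈ ω) (m2 : e₂ ∈ ω) {p₁ q₁ p₂ q₂ : Vtx d}
    (hp : Conn (ω \ S) p₁ p₂) (hq : Conn (ω \ S) q₁ q₂)
    (f1 : cE e₁ = dl p₁ + dl q₁) (f2 : cE e₂ = dl p₂ + dl q₂) :
    ∃ O : Finset (Edg d), e₂ ∈ O ∧ (∀ f ∈ O, f ∈ ω) ∧ ∑ e ∈ O, cE e = 0 := by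
  classical
  obtain ⟨K, hK, hKs⟩ := exists_K hp
  obtain ⟨K', hK', hKs'⟩ := exists_K hq
  set D := symmDiff K K' with hD
  have hDs : ∑ e ∈ D, cE e = (dl p₁ + dl p₂) + (dl q₁ + dl q₂) := by
    have h1 := bd_symmDiff char2 (cE (d := d)) K K'
    unfold bd at h1
    rw [h1, hKs, hKs']
  have hDω : ∀ f ∈ D, f ∈ ω \ (S : Set (Edg d)) := by
    intro f hf
    rw [hD, Finset.mem_symmDiff] at hf
    rcases hf with hf | hf
    · exact hK f hf.1
    · exact hK' f hf.1
  have n1 : e₁ ∉ D := fun h => (hDω _ h).2 h1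
  have n2 : e₂ ∉ D := fun h => (hDω _ h).2 h2
  refine ⟨insert e₂ (insert e₁ D), Finset.mem_insert_self _ _, ?_, ?_⟩
  · intro f hf
    rw [Finset.mem_insert, Finset.mem_insert] at hf
    rcases hf with rfl | rfl | hf
    · exact m2
    · exact m1
    · exact (hDω f hf).1
  · rw [Finset.sum_insert (by simp [hne.symm, n2]), Finset.sum_insert n1, hDs, f1, f2]
    have : dl p₂ + dl q₂ + (dl p₁ + dl q₁ + (dl p₁ + dl p₂ + (dl q₁ + dl q₂))) =
        (dl p₂ + dl p₂) + (dl q₂ + dl q₂) + ((dl p₁ + dl p₁) + (dl q₁ + dl q₁)) := by abel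
    rw [this, char2 (dl p₁), char2 (dl p₂), char2 (dl q₁), char2 (dl q₂)]
    simp

/-- the induction step. -/
lemma IsP.NN_succ (hd : 0 < d) (r : ℕ) (ih : P (NN r) = 0) : P (NN (r + 1)) = 0 := by
  classical
  have h1 : ∀ᵐ c ∂P, c ∉ (NN r : Set (Om d)) := measure_eq_zero_iff_ae_notMem.1 ih
  have h2 : ∀ᵐ c ∂P, ∀ (O : Finset (Edg d)) (e₂ : Edg d), (∑ e ∈ O, cE e = 0 ∧ e₂ ∈ O) →
      tog O e₂ c ∉ (NN r : Set (Om d)) := by
    rw [ae_all_iff]
    intro O
    rw [ae_all_iff]
    intro e₂
    by_cases h : ∑ e ∈ O, cE e = 0 ∧ e₂ ∈ O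
    · have := hP.ac_tog O h.1 e₂ h.2 (measurableSet_NN r) ih
      filter_upwards [measure_eq_zero_iff_ae_notMem.1 this] with c hc _
      exact hc
    · exact Eventually.of_forall fun c h' => absurd h' h
  have h3 : ∀ᵐ c ∂P, c ∉ (NN (r + 1) : Set (Om d)) := by
    filter_upwards [h1, h2, ae_all_iff.2 fun e => hP.br_null hd e] with c c1 c2 c3 hmem
    obtain ⟨S, hS, x, y, hx, hy, hn⟩ := hmem
    have hcard : S.card = r + 1 := by
      by_contra hne
      exact c1 ⟨S, by omega, x, y, hx, hy, hn⟩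
    have hmerge : ∀ e ∈ S, e ∈ om c ∧ ((Conn (om c \ S) x (src e) ∧
        Conn (om c \ S) (tgt e) y) ∨ (Conn (om c \ S) x (tgt e) ∧ Conn (om c \ S) (src e) y)) := by
      intro e he
      refine merge he ?_ hn
      by_contra hcon
      have hsub : om c \ (S : Set (Edg d)) ⊆ om c \ ((S.erase e : Finset (Edg d)) : Set (Edg d)) :=
        Set.sdiff_subset_sdiff_right (by exact_mod_cast Finset.erase_subset e S)
      refine c1 ⟨S.erase e, ?_, x, y, hx.mono hsub, hy.mono hsub, hcon⟩
      rw [Finset.card_erase_of_mem he]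
      omega
    by_cases hr : r = 0
    · subst hr
      obtain ⟨e, rfl⟩ := Finset.card_eq_one.1 hcard
      obtain ⟨me, hh⟩ := hmerge e (Finset.mem_singleton_self e)
      simp only [Finset.coe_singleton] at hx hy hn hh
      refine c3 e ?_
      rcases hh with ⟨a, b⟩ | ⟨a, b⟩
      · exact ⟨hx.of_conn a, hy.of_conn b.symm, fun h => hn ((a.trans h).trans b)⟩
      · exact ⟨hy.of_conn b.symm, hx.of_conn a, fun h => hn ((a.trans h.symm).trans b)⟩
    · obtain ⟨e₁, he₁, e₂, he₂, hne⟩ := Finset.one_lt_card.1 (show 1 < S.card by omega)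
      obtain ⟨m1, hh1⟩ := hmerge e₁ he₁
      obtain ⟨m2, hh2⟩ := hmerge e₂ he₂
      have hcyc : ∃ O : Finset (Edg d), e₂ ∈ O ∧ (∀ f ∈ O, f ∈ om c) ∧ ∑ e ∈ O, cE e = 0 := by
        rcases hh1 with ⟨a1, b1⟩ | ⟨a1, b1⟩ <;> rcases hh2 with ⟨a2, b2⟩ | ⟨a2, b2⟩
        · exact exists_cycle he₁ he₂ hne m1 m2 (a1.symm.trans a2) (b1.trans b2.symm) rfl rfl
        · exact exists_cycle he₁ he₂ hne m1 m2 (a1.symm.trans a2) (b1.trans b2.symm) rfl
            (by rw [bC_inl, add_comm])
        · exact exists_cycle he₁ he₂ hne m1 m2 (a1.symm.trans a2) (b1.trans b2.symm)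
            (by rw [bC_inl, add_comm]) rfl
        · exact exists_cycle he₁ he₂ hne m1 m2 (a1.symm.trans a2) (b1.trans b2.symm)
            (by rw [bC_inl, add_comm]) (by rw [bC_inl, add_comm])
      obtain ⟨O, hO1, hO2, hO3⟩ := hcyc
      refine c2 O e₂ ⟨hO3, hO1⟩ ⟨S.erase e₂, ?_, x, y, ?_⟩
      · rw [Finset.card_erase_of_mem he₂]; omega
      · have hset : om (tog O e₂ c) \ ((S.erase e₂ : Finset (Edg d)) : Set (Edg d)) =
            om c \ (S : Set (Edg d)) := by
          rw [om_tog hO1 hO2]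
          ext f
          simp only [Set.mem_sdiff, Finset.coe_erase, Set.mem_singleton_iff, Finset.mem_coe]
          constructor
          · rintro ⟨⟨a, b⟩, c⟩
            exact ⟨a, fun h => c ⟨h, b⟩⟩
          · rintro ⟨a, b⟩
            exact ⟨⟨a, fun h => b (by rw [h]; exact he₂)⟩, fun h => b h.1⟩
        unfold Two
        rw [hset]
        exact ⟨hx, hy, hn⟩
  exact measure_eq_zero_iff_ae_notMem.2 h3

/-- **uniqueness and one-endedness**: almost surely, after deleting finitely many edges there is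
at most one infinite component. -/
theorem IsP.unique_inf (hd : 0 < d) : ∀ᵐ c ∂P, ∀ (S : Finset (Edg d)) (x y : Vtx d),
    InfC (om c \ S) x → InfC (om c \ S) y → Conn (om c \ S) x y := by
  have h1 : ∀ r, P (NN r) = 0 := by
    intro r
    induction r with
    | zero => exact hP.NN_zero hd
    | succ r ih => exact hP.NN_succ hd r ih
  have h2 : ∀ᵐ c ∂P, ∀ r, c ∉ (NN r : Set (Om d)) := by
    rw [ae_all_iff]
    exact fun r => measure_eq_zero_iff_ae_notMem.1 (h1 r)
  filter_upwards [h2] with c hc S x y hx hy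
  by_contra hn
  exact hc S.card ⟨S, le_rfl, x, y, hx, hy, hn⟩

end

end Pool.Agent.Hhelper76.DC
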