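import Mathlib

/-!
# The duplicated-current percolation model on `ℤ^d`

Definitions taken from problem MP_164cef_pr.
-/

open MeasureTheory Filter Topology
open scoped BigOperators

namespace Pool.Agent.Hhelper76.DC

/-- Vertices of `ℤ^d`. -/
abbrev Vtx (d : ℕ) : Type := Fin d → ℤ

/-- Nearest-neighbour edges of `ℤ^d`: the pair `(x, i)` is the edge joining `x` and `x + eᵢ`
(every nearest-neighbour edge is obtained exactly once). -/
abbrev Edg (d : ℕ) : Type := (Fin d → ℤ) × Fin d

variable {d : ℕ}

/-- First endpoint `x` of the edge `(x, i)`. -/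
def src (e : Edg d) : Vtx d := e.1

/-- Second endpoint `x + eᵢ` of the edge `(x, i)`. -/
def tgt (e : Edg d) : Vtx d := e.1 + Pi.single e.2 1

/-- The box `Λ_n = {-n, …, n}^d`. -/
noncomputable def box (d n : ℕ) : Finset (Vtx d) := Fintype.piFinset fun _ => Finset.Icc (-(n : ℤ)) n

/-- The set `E_n` of nearest-neighbour edges of `Λ_n`. -/
noncomputable def boxE (d n : ℕ) : Finset (Edg d) :=
  (box d n ×ˢ Finset.univ).filter fun e => tgt e ∈ box d n

/-- A current: a map from `E_n ∪ {xg : x ∈ Λ_n}` to `ℕ`. The first component gives the values on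
the edges in `E_n`, the second one the values on the ghost edges `xg`. -/
abbrev Current (d n : ℕ) : Type := (boxE d n → ℕ) × (box d n → ℕ)

/-- The sum of a current over all edges (ghost edge included) at the vertex `x`. -/
noncomputable def Current.deg {n : ℕ} (c : Current d n) (x : box d n) : ℕ :=
  (∑ e : boxE d n, if src e.1 = x.1 ∨ tgt e.1 = x.1 then c.1 e else 0) + c.2 x

/-- Sourceless currents. -/
def Sourceless {n : ℕ} (c : Current d n) : Prop := ∀ x : box d n, Even (c.deg x)

/-- The weight `w(n) = ∏_e β^{n(e)} / n(e)! ∏_x (βh)^{n(xg)} / n(xg)!`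
(for `h = 0` it vanishes unless all ghost edges carry `0`). -/
noncomputable def weight {n : ℕ} (β h : ℝ) (c : Current d n) : ℝ :=
  (∏ e : boxE d n, β ^ c.1 e / (Nat.factorial (c.1 e) : ℝ)) *
    ∏ x : box d n, (β * h) ^ c.2 x / (Nat.factorial (c.2 x) : ℝ)

open Classical in
/-- The total weight of the sourceless currents. -/
noncomputable def totalWeight (d n : ℕ) (β h : ℝ) : ℝ :=
  ∑' c : Current d n, if Sourceless c then weight β h c else 0

open Classical in
/-- The probability of the event `A` for a pair `(n₁, n₂)` of independent currents with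
`n₁ ∼ P^∅_{Λ_n,β,h}` and `n₂ ∼ P^∅_{Λ_n,β,0}`. -/
noncomputable def pairProb {n : ℕ} (β h : ℝ) (A : Set (Current d n × Current d n)) : ℝ :=
  (∑' p : Current d n × Current d n,
    if Sourceless p.1 ∧ Sourceless p.2 ∧ p ∈ A then weight β h p.1 * weight β 0 p.2 else 0) /
    (totalWeight d n β h * totalWeight d n β 0)

/-- The set of edges `e ∈ E_n` with `n₁(e) + n₂(e) > 0`. -/
def trace {n : ℕ} (p : Current d n × Current d n) : Set (Edg d) :=
  {e | ∃ he : e ∈ boxE d n, 0 < p.1.1 ⟨e, he⟩ + p.2.1 ⟨e, he⟩}

/-- Finite-dimensional distributions in finite volume: the probability that the trace of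
`n₁ + n₂` intersected with `T` equals `U`. -/
noncomputable def finDim (β h : ℝ) (n : ℕ) (T : Finset (Edg d)) (U : Set (Edg d)) : ℝ :=
  pairProb β h {p : Current d n × Current d n | trace p ∩ (T : Set (Edg d)) = U}

/-- `μ` is the law of the duplicated-current percolation model `ω_β`: a probability measure on
subsets of the edge set of `ℤ^d` whose finite-dimensional distributions are the limits of those
of the trace of `n₁ + n₂`, first as `n → ∞` and then as `h ↘ 0`. -/
def IsDuplicatedCurrentLaw (d : ℕ) (β : ℝ) (μ : Measure (Set (Edg d))) : Prop :=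
  IsProbabilityMeasure μ ∧
  ∃ q : ℝ → Finset (Edg d) → Set (Edg d) → ℝ,
    (∀ h : ℝ, 0 < h → ∀ T U, Tendsto (fun n : ℕ => finDim β h n T U) atTop (𝓝 (q h T U))) ∧
    ∀ T U, Tendsto (fun h : ℝ => q h T U) (𝓝[>] 0) (𝓝 (μ.real {ω | ω ∩ (T : Set (Edg d)) = U}))

/-- The subgraph of `ℤ^d` with edge set `ω`. -/
def graph (ω : Set (Edg d)) : SimpleGraph (Vtx d) :=
  SimpleGraph.fromRel fun x y => ∃ e ∈ ω, src e = x ∧ tgt e = y

/-- The connected component `C` of `ω` has one end: for every finite vertex set `F` the graph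
`C ∖ F` has exactly one infinite connected component. -/
def OneEnded (ω : Set (Edg d)) (C : (graph ω).ConnectedComponent) : Prop :=
  ∀ F : Finset (Vtx d),
    ∃! D : ((graph ω).induce (C.supp \ (F : Set (Vtx d)))).ConnectedComponent, D.supp.Infinite

end Pool.Agent.Hhelper76.DC
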