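import Pool.Agent.Hhelper76.DC.Cn

/-!
# Deterministic lemmas on bridges
-/

open Finset Filter Topology MeasureTheory

namespace Pool.Agent.Hhelper76.DC

variable {d : ℕ}

/-- the Burton-Keane property. -/
def BK2 (ω : Set (Edg d)) : Prop := ∀ (S : Finset (Edg d)) (x y z : Vtx d),
    InfC (ω \ S) x → InfC (ω \ S) y → InfC (ω \ S) z →
    Conn (ω \ S) x y ∨ Conn (ω \ S) x z ∨ Conn (ω \ S) y z

lemma conn_del' {ω : Set (Edg d)} {e : Edg d} {v w : Vtx d} (h1 : ¬ Conn ω v (src e))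
    (h2 : ¬ Conn ω v (tgt e)) (h : Conn ω v w) : Conn (ω \ {e}) v w := by
  rcases conn_del (e := e) h with h | ⟨_, h, _⟩ | ⟨_, h, _⟩
  · exact h
  · exact absurd (h.mono Set.sdiff_subset) h1
  · exact absurd (h.mono Set.sdiff_subset) h2

lemma infC_del {ω : Set (Edg d)} {e : Edg d} {v : Vtx d} (h : InfC ω v)
    (h1 : ¬ Conn ω v (src e)) (h2 : ¬ Conn ω v (tgt e)) : InfC (ω \ {e}) v :=
  Set.Infinite.mono (fun _ hw => conn_del' h1 h2 hw) h

lemma bk_one {ω : Set (Edg d)} (h : BK2 ω) (e : Edg d) {x y z : Vtx d}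
    (hx : InfC (ω \ {e}) x) (hy : InfC (ω \ {e}) y) (hz : InfC (ω \ {e}) z) :
    Conn (ω \ {e}) x y ∨ Conn (ω \ {e}) x z ∨ Conn (ω \ {e}) y z := by
  have := h {e} x y z
  simp only [Finset.coe_singleton] at this
  exact this hx hy hz

/-- a closed bridge and an open bridge do not coexist. -/
lemma closed_open {ω : Set (Edg d)} (h : BK2 ω) {e e' : Edg d} (he : e ∉ ω) (he' : e' ∈ ω)
    (hb : Br e ω) (hb' : Br e' ω) : False := by
  obtain ⟨i1, i2, n⟩ := hb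
  obtain ⟨j1, j2, m⟩ := hb'
  rw [Set.sdiff_singleton_eq_self he] at i1 i2 n
  have key : ∀ v, InfC ω v → ¬ Conn ω v (src e') → False := by
    intro v hv hn
    have hn' : ¬ Conn ω v (tgt e') := fun hc => hn (hc.trans (conn_of_mem he').symm)
    rcases bk_one h e' (infC_del hv hn hn') j1 j2 with hc | hc | hc
    · exact hn (hc.mono Set.sdiff_subset)
    · exact hn' (hc.mono Set.sdiff_subset)
    · exact m hc
  by_cases hc : Conn ω (src e) (src e')
  · by_cases hc' : Conn ω (tgt e) (src e')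
    · exact n (hc.trans hc'.symm)
    · exact key _ i2 hc'
  · exact key _ i1 hc

/-- open bridges are in the same cluster. -/
lemma same_cluster {ω : Set (Edg d)} (h : BK2 ω) {e e' : Edg d} (he : e ∈ ω)
    (hb : Br e ω) (hb' : Br e' ω) : Conn ω (src e) (src e') := by
  obtain ⟨i1, i2, n⟩ := hb
  obtain ⟨j1, _, _⟩ := hb'
  by_contra hc
  have hv : InfC ω (src e') := j1.mono Set.sdiff_subset
  have n1 : ¬ Conn ω (src e') (src e) := fun h => hc h.symm
  have n2 : ¬ Conn ω (src e') (tgt e) := fun h => n1 (h.trans (conn_of_mem he).symm)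
  rcases bk_one h e i1 i2 (infC_del hv n1 n2) with hc | hc | hc
  · exact n hc
  · exact n1 (hc.symm.mono Set.sdiff_subset)
  · exact n2 (hc.symm.mono Set.sdiff_subset)

/-- the outer side of a bridge. -/
lemma outer {ω : Set (Edg d)} {e e₁ e₂ : Edg d} (hb : Br e ω) (h1 : e₁ ∈ ω) (h2 : e₂ ∈ ω)
    (n1 : e₁ ≠ e) (n2 : e₂ ≠ e) (hc : Conn (ω \ {e}) (src e₁) (src e₂)) :
    ∃ p q, ((p = src e ∧ q = tgt e) ∨ (p = tgt e ∧ q = src e)) ∧
      InfC (ω \ {e, e₁, e₂}) p ∧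
      ¬ Conn (ω \ {e}) p (src e₁) ∧ ¬ Conn (ω \ {e}) p (tgt e₁) ∧
      ¬ Conn (ω \ {e}) p (src e₂) ∧ ¬ Conn (ω \ {e}) p (tgt e₂) := by
  obtain ⟨i1, i2, n⟩ := hb
  have a1 : Conn (ω \ {e}) (src e₁) (tgt e₁) := conn_of_mem ⟨h1, n1⟩
  have a2 : Conn (ω \ {e}) (src e₂) (tgt e₂) := conn_of_mem ⟨h2, n2⟩
  have key : ∀ p, InfC (ω \ {e}) p → ¬ Conn (ω \ {e}) p (src e₁) →
      InfC (ω \ {e, e₁, e₂}) p ∧
      ¬ Conn (ω \ {e}) p (src e₁) ∧ ¬ Conn (ω \ {e}) p (tgt e₁) ∧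
      ¬ Conn (ω \ {e}) p (src e₂) ∧ ¬ Conn (ω \ {e}) p (tgt e₂) := by
    intro p hp b1
    have b2 : ¬ Conn (ω \ {e}) p (tgt e₁) := fun h => b1 (h.trans a1.symm)
    have b3 : ¬ Conn (ω \ {e}) p (src e₂) := fun h => b1 (h.trans hc.symm)
    have b4 : ¬ Conn (ω \ {e}) p (tgt e₂) := fun h => b3 (h.trans a2.symm)
    refine ⟨?_, b1, b2, b3, b4⟩
    have c1 := infC_del hp b1 b2
    have c2 := infC_del c1 (fun h => b3 (h.mono Set.sdiff_subset))
      (fun h => b4 (h.mono Set.sdiff_subset))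
    have : ((ω \ {e}) \ {e₁}) \ {e₂} = ω \ {e, e₁, e₂} := by
      ext f
      simp only [Set.mem_sdiff, Set.mem_singleton_iff, Set.mem_insert_iff, not_or]
      tauto
    rwa [this] at c2
  by_cases hp : Conn (ω \ {e}) (src e) (src e₁)
  · refine ⟨tgt e, src e, Or.inr ⟨rfl, rfl⟩, key _ i2 fun h => n (hp.trans h.symm)⟩
  · exact ⟨src e, tgt e, Or.inl ⟨rfl, rfl⟩, key _ i1 hp⟩

/-- among three open bridges one separates the two others. -/
lemma three_bridges {ω : Set (Edg d)} (h : BK2 ω) {e₁ e₂ e₃ : Edg d} (h12 : e₁ ≠ e₂)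
    (h13 : e₁ ≠ e₃) (h23 : e₂ ≠ e₃) (m1 : e₁ ∈ ω) (m2 : e₂ ∈ ω) (m3 : e₃ ∈ ω)
    (b1 : Br e₁ ω) (b2 : Br e₂ ω) (b3 : Br e₃ ω) :
    ¬ Conn (ω \ {e₁}) (src e₂) (src e₃) ∨ ¬ Conn (ω \ {e₂}) (src e₁) (src e₃) ∨
      ¬ Conn (ω \ {e₃}) (src e₁) (src e₂) := by
  by_contra hcon
  push Not at hcon
  obtain ⟨c1, c2, c3⟩ := hcon
  obtain ⟨p₁, _, f1, i1, x1, x2, x3, x4⟩ := outer b1 m2 m3 h12.symm h13.symm c1
  obtain ⟨p₂, _, f2, i2, y1, y2, y3, y4⟩ := outer b2 m1 m3 h12 h23.symm c2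
  obtain ⟨p₃, _, f3, i3, z1, z2, z3, z4⟩ := outer b3 m1 m2 h13 h23 c3
  have s2 : ω \ {e₂, e₁, e₃} = ω \ {e₁, e₂, e₃} := by rw [Set.insert_comm]
  have s3 : ω \ {e₃, e₁, e₂} = ω \ {e₁, e₂, e₃} := by
    congr 1
    ext f; simp only [Set.mem_insert_iff, Set.mem_singleton_iff]; tauto
  rw [s2] at i2
  rw [s3] at i3
  have hS : ω \ {e₁, e₂, e₃} = ω \ (({e₁, e₂, e₃} : Finset (Edg d)) : Set (Edg d)) := by
    simp
  rw [hS] at i1 i2 i3
  have hsub1 : ω \ (({e₁, e₂, e₃} : Finset (Edg d)) : Set (Edg d)) ⊆ ω \ {e₁} :=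
    Set.sdiff_subset_sdiff_right (by simp)
  have hsub2 : ω \ (({e₁, e₂, e₃} : Finset (Edg d)) : Set (Edg d)) ⊆ ω \ {e₂} :=
    Set.sdiff_subset_sdiff_right (by simp)
  rcases h _ p₁ p₂ p₃ i1 i2 i3 with hc | hc | hc
  · have hc' := hc.mono hsub1
    rcases f2 with ⟨rfl, _⟩ | ⟨rfl, _⟩
    · exact x1 hc'
    · exact x2 hc'
  · have hc' := hc.mono hsub1
    rcases f3 with ⟨rfl, _⟩ | ⟨rfl, _⟩
    · exact x3 hc'
    · exact x4 hc'
  · have hc' := hc.mono hsub2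
    rcases f3 with ⟨rfl, _⟩ | ⟨rfl, _⟩
    · exact y3 hc'
    · exact y4 hc'

/-- the middle piece between two open bridges. -/
lemma middle {ω : Set (Edg d)} (h : BK2 ω) {e e' : Edg d} (hne : e ≠ e') (m : e ∈ ω)
    (m' : e' ∈ ω) (b : Br e ω) (b' : Br e' ω) :
    ∃ M : Finset (Vtx d), (∀ f ∈ ω, f ≠ e → f ≠ e' → (src f ∈ M ↔ tgt f ∈ M)) ∧
      ((src e' ∈ M ∧ tgt e' ∉ M) ∨ (src e' ∉ M ∧ tgt e' ∈ M)) := by
  obtain ⟨p, q, f, i, x1, x2, _, _⟩ := outer b m' m' hne.symm hne.symm (Conn.refl _ _)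
  obtain ⟨p', q', f', i', y1, y2, _, _⟩ := outer b' m m hne hne (Conn.refl _ _)
  have s1 : ω \ {e, e', e'} = ω \ {e, e'} := by
    congr 1
    ext f; simp only [Set.mem_insert_iff, Set.mem_singleton_iff]; tauto
  have s2 : ω \ {e', e, e} = ω \ {e, e'} := by
    congr 1
    ext f; simp only [Set.mem_insert_iff, Set.mem_singleton_iff]; tauto
  rw [s1] at i
  rw [s2] at i'
  have s3 : (ω \ {e}) \ {e'} = ω \ {e, e'} := by
    ext f; simp only [Set.mem_sdiff, Set.mem_insert_iff, Set.mem_singleton_iff]; tauto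
  have sub1 : ω \ {e, e'} ⊆ ω \ {e} := Set.sdiff_subset_sdiff_right (by simp)
  have sub2 : ω \ {e, e'} ⊆ ω \ {e'} := Set.sdiff_subset_sdiff_right (by simp)
  have nb := b.2.2
  have nb' := b'.2.2
  -- all four points are connected in `ω`
  have ce : Conn ω (src e) (tgt e) := conn_of_mem m
  have ce' : Conn ω (src e') (tgt e') := conn_of_mem m'
  have cc := same_cluster h m b b'
  have hpq' : ¬ Conn (ω \ {e}) p q' := by
    rcases f' with ⟨_, rfl⟩ | ⟨_, rfl⟩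
    · exact x2
    · exact x1
  have hpp' : ¬ Conn (ω \ {e}) p p' := by
    rcases f' with ⟨rfl, _⟩ | ⟨rfl, _⟩
    · exact x1
    · exact x2
  have hp'q : ¬ Conn (ω \ {e'}) p' q := by
    rcases f with ⟨_, rfl⟩ | ⟨_, rfl⟩
    · exact y2
    · exact y1
  have hpq : ¬ Conn (ω \ {e}) p q := by
    rcases f with ⟨rfl, rfl⟩ | ⟨rfl, rfl⟩
    · exact nb
    · exact fun h => nb h.symm
  have hp'q' : ¬ Conn (ω \ {e'}) p' q' := by
    rcases f' with ⟨rfl, rfl⟩ | ⟨rfl, rfl⟩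
    · exact nb'
    · exact fun h => nb' h.symm
  have c1 : Conn ω q q' := by
    have hq : Conn ω q (src e) := by
      rcases f with ⟨_, rfl⟩ | ⟨_, rfl⟩
      · exact ce.symm
      · exact Conn.refl _ _
    have hq' : Conn ω (src e') q' := by
      rcases f' with ⟨_, rfl⟩ | ⟨_, rfl⟩
      · exact ce'
      · exact Conn.refl _ _
    exact (hq.trans cc).trans hq'
  have c2 : Conn (ω \ {e}) q q' := by
    rcases conn_del (e := e) c1 with hc | ⟨_, h1, h2⟩ | ⟨_, h1, h2⟩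
    · exact hc
    · exfalso
      rcases f with ⟨rfl, _⟩ | ⟨rfl, _⟩
      · exact hpq h1.symm
      · exact hpq' h2
    · exfalso
      rcases f with ⟨rfl, _⟩ | ⟨rfl, _⟩
      · exact hpq' h2
      · exact hpq h1.symm
  have c3 : Conn (ω \ {e, e'}) q q' := by
    rw [← s3]
    rcases conn_del (e := e') c2 with hc | ⟨_, h1, h2⟩ | ⟨_, h1, h2⟩
    · exact hc
    · exfalso
      rw [s3] at h1 h2
      rcases f' with ⟨rfl, _⟩ | ⟨rfl, _⟩
      · exact hp'q (h1.mono sub2).symm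
      · exact hp'q' (h2.mono sub2)
    · exfalso
      rw [s3] at h1 h2
      rcases f' with ⟨rfl, _⟩ | ⟨rfl, _⟩
      · exact hp'q' (h2.mono sub2)
      · exact hp'q (h1.mono sub2).symm
  have hfin : {v | Conn (ω \ {e, e'}) q v}.Finite := by
    by_contra hinf
    have hS : ω \ {e, e'} = ω \ (({e, e'} : Finset (Edg d)) : Set (Edg d)) := by simp
    have hi : InfC (ω \ {e, e'}) q := hinf
    rw [hS] at hi i i'
    rcases h _ p p' q i i' hi with hc | hc | hc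
    · rw [← hS] at hc; exact hpp' (hc.mono sub1)
    · rw [← hS] at hc; exact hpq (hc.mono sub1)
    · rw [← hS] at hc; exact hp'q (hc.mono sub2)
  refine ⟨hfin.toFinset, ?_, ?_⟩
  · intro f hf n1 n2
    simp only [Set.Finite.mem_toFinset, Set.mem_ofPred_eq]
    have : Conn (ω \ {e, e'}) (src f) (tgt f) := conn_of_mem ⟨hf, by simp [n1, n2]⟩
    exact ⟨fun h => h.trans this, fun h => h.trans this.symm⟩
  · simp only [Set.Finite.mem_toFinset, Set.mem_ofPred_eq]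
    have hp'M : ¬ Conn (ω \ {e, e'}) q p' := fun hc => hp'q (hc.mono sub2).symm
    rcases f' with ⟨rfl, rfl⟩ | ⟨rfl, rfl⟩
    · exact Or.inr ⟨hp'M, c3⟩
    · exact Or.inl ⟨c3, hp'M⟩

/-- bridges of type `s10` and `s01` do not coexist. -/
lemma no_both {c : Om d} (h : BK2 (om c)) (hsrc : ∀ x, B2 (inc x) c x = 0)
    (hodd : ∀ f, (c f).2.2 = true → (c f).1 = true) {e e' : Edg d} (he : c e = s10)
    (he' : c e' = s01) (b : Br e (om c)) (b' : Br e' (om c)) : False := by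
  classical
  have hne : e ≠ e' := by
    rintro rfl
    rw [he] at he'
    exact absurd he' (by decide)
  have m : e ∈ om c := by
    show (c e).1 = true
    rw [he]
  have m' : e' ∈ om c := by
    show (c e').1 = true
    rw [he']
  obtain ⟨M, h1, h2⟩ := middle h hne m m' b b'
  let F : Finset (Edg d) := insert e' (M.biUnion inc)
  have hp := parity_sum c M (fun x _ => hsrc x) F (fun x hx =>
    (Finset.subset_biUnion_of_mem inc hx).trans (Finset.subset_insert _ _))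
  have h3 : ∑ f ∈ F, sc (c f).2.2 ((if src f ∈ M then (1 : ZMod 2) else 0) +
      if tgt f ∈ M then 1 else 0) = sc (c e').2.2 ((if src e' ∈ M then (1 : ZMod 2) else 0) +
      if tgt e' ∈ M then 1 else 0) := by
    refine Finset.sum_eq_single e' ?_ ?_
    · intro f _ hf
      by_cases hfe : f = e
      · rw [hfe, he]; rfl
      · cases hb : (c f).2.2
        · rfl
        · have hop := hodd f hb
          have hiff := h1 f hop hfe hf
          by_cases hm : src f ∈ M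
          · rw [if_pos hm, if_pos (hiff.1 hm)]; decide
          · rw [if_neg hm, if_neg (fun h => hm (hiff.2 h))]; decide
    · intro hf
      exact absurd (Finset.mem_insert_self _ _) hf
  rw [h3, he'] at hp
  rcases h2 with ⟨a, b⟩ | ⟨a, b⟩
  · rw [if_pos a, if_neg b] at hp
    exact absurd hp (by decide)
  · rw [if_neg a, if_pos b] at hp
    exact absurd hp (by decide)

end Pool.Agent.Hhelper76.DC
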