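import Pool.Agent.Hhelper76.DC.Fin

/-!
# Finite-volume identities obtained by switching
-/

open Finset Filter Topology MeasureTheory

namespace Pool.Agent.Hhelper76.DC

variable {d : ℕ}

/-- there is a set of open edges of `G` with boundary `D`. -/
def Rch (G : Finset (Edg d)) (D : Srs d) (c : Om d) : Prop :=
  ∃ K ⊆ G, (∀ e ∈ K, (c e).1 = true) ∧ ∑ e ∈ K, cE e = D

/-- `F` depends on the trace only. -/
def TrD (F : Om d → ℝ) : Prop := ∀ c c' : Om d, (∀ e, (c e).1 = (c' e).1) → F c = F c'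

/-- `F` does not depend on the edge `e`. -/
def Ind (e : Edg d) (F : Om d → ℝ) : Prop := ∀ c s, F (Function.update c e s) = F c

lemma TrD.comp {F : Om d → ℝ} (h : TrD F) : TrDep (fun c => F (rs c)) :=
  fun _ _ hc => h _ _ fun e => hc (Sum.inl e)

lemma trD_Rch (G : Finset (Edg d)) (D : Srs d) : TrD (fun c => ind (Rch G D c)) := by
  intro c c' h
  refine ind_congr ?_
  unfold Rch
  simp only [h]

lemma TrD.mul {F G : Om d → ℝ} (hF : TrD F) (hG : TrD G) : TrD (fun c => F c * G c) :=
  fun c c' h => by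
    show F c * G c = F c' * G c'
    rw [hF c c' h, hG c c' h]

lemma Ind.mul {e : Edg d} {F G : Om d → ℝ} (hF : Ind e F) (hG : Ind e G) :
    Ind e (fun c => F c * G c) := fun c s => by
    show F _ * G _ = F c * G c
    rw [hF c s, hG c s]

lemma ind_Rch {e : Edg d} {G : Finset (Edg d)} (he : e ∉ G) (D : Srs d) :
    Ind e (fun c => ind (Rch G D c)) := by
  intro c s
  refine ind_congr ?_
  unfold Rch
  refine exists_congr fun K => and_congr_right fun hK => and_congr_left fun _ =>
    forall₂_congr fun e' he' => ?_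
  rw [Function.update_of_ne]
  rintro rfl
  exact he (hK he')

lemma TT_sub {G : Finset (Edg d)} {J : Finset (Idx d)} (h : ∀ e ∈ G, Sum.inl e ∈ J) :
    TT G ⊆ J := by
  intro i hi
  obtain ⟨e, he, rfl⟩ := Finset.mem_map.1 hi
  exact h e he

lemma bd_TT (K : Finset (Edg d)) : bd bC (TT K) = ∑ e ∈ K, cE e := by
  unfold bd TT
  rw [Finset.sum_map]
  rfl

lemma Rch.reach {G : Finset (Edg d)} {J : Finset (Idx d)} (h : ∀ e ∈ G, Sum.inl e ∈ J)
    {D : Srs d} {c : Idx d → St} (hc : Rch G D (rs c)) : Reach bC J D c := by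
  obtain ⟨K, hK, hop, hD⟩ := hc
  refine ⟨TT K, TT_sub fun e he => h e (hK he), ?_, by rw [bd_TT, hD]⟩
  intro i hi
  obtain ⟨e, he, rfl⟩ := Finset.mem_map.1 hi
  exact hop e he

/-- switching in finite volume. -/
lemma fv_switch (u t : ℝ) {G : Finset (Edg d)} {J : Finset (Idx d)}
    (h : ∀ e ∈ G, Sum.inl e ∈ J) (A B D : Srs d) (F : Om d → ℝ) (hF : TrD F) :
    Ex bC (vm u t) J A B (fun c => ind (Rch G D (rs c)) * F (rs c)) =
      Ex bC (vm u t) J (A + D) (B + D) (fun c => ind (Rch G D (rs c)) * F (rs c)) := by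
  refine switch char2 bC (vm u t) (vm_switchable u t) J A B D _
    ((trD_Rch G D).mul hF).comp fun c hc => ?_
  refine Rch.reach h ?_
  by_contra hn
  exact hc (by rw [ind_neg hn, zero_mul])

/-- if the second current has sources `B` then `Rch B` holds. -/
lemma fv_reach (u t : ℝ) {G : Finset (Edg d)} {J : Finset (Idx d)}
    (h : ∀ e : Edg d, Sum.inl e ∈ J → e ∈ G) (A B : Srs d) (F : Om d → ℝ) :
    Ex bC (vm u t) J A B (fun c => F (rs c)) =
      Ex bC (vm u t) J A B (fun c => ind (Rch G B (rs c)) * F (rs c)) := by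
  classical
  unfold Ex
  refine Finset.sum_congr rfl fun p hp => ?_
  rw [mem_T3] at hp
  by_cases hB : bd bC p.2.2 = B
  · by_cases hE : IsE p.2.2
    · by_cases hsub : p.2.2 ⊆ p.1
      · have : Rch G B (rs (cf p)) := by
          refine ⟨G.filter fun e => Sum.inl e ∈ p.2.2, Finset.filter_subset _ _, ?_, ?_⟩
          · intro e he
            have h1 := (Finset.mem_filter.1 he).2
            simpa [rs, cf] using hsub h1
          · rw [← bd_TT, ← hB]
            congr 1
            ext i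
            constructor
            · intro hi
              obtain ⟨e, he, rfl⟩ := Finset.mem_map.1 hi
              exact (Finset.mem_filter.1 he).2
            · intro hi
              obtain ⟨e, rfl⟩ := hE i hi
              exact Finset.mem_map.2 ⟨e, Finset.mem_filter.2 ⟨h e (hp.2.2 hi), hi⟩, rfl⟩
        beta_reduce
        rw [ind_pos this, one_mul]
      · obtain ⟨i, hi, hi'⟩ := Finset.not_subset.1 hsub
        have : ∏ i ∈ J, vm u t i (cf p i) = 0 := by
          refine Finset.prod_eq_zero (hp.2.2 hi) ?_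
          have : cf p i = (false, decide (i ∈ p.2.1), true) := by simp [cf, hi, hi']
          rw [this, vm_oddOpen u t]
        rw [this, zero_mul, zero_mul]
    · have : ∃ x : Vtx d, Sum.inr x ∈ p.2.2 := by
        by_contra hcon
        push Not at hcon
        apply hE
        rintro (e | x) hi
        · exact ⟨e, rfl⟩
        · exact (hcon x hi).elim
      obtain ⟨x, hx⟩ := this
      have : ∏ i ∈ J, vm u t i (cf p i) = 0 := by
        refine Finset.prod_eq_zero (hp.2.2 hx) ?_
        simp [vm, cf, hx]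
      rw [this, zero_mul, zero_mul]
  · rw [ind_neg hB]; ring

/-- the indices of the box without `e`. -/
noncomputable def Je (n : ℕ) (e : Edg d) : Finset (Idx d) := (JJ d n).erase (Sum.inl e)

/-- normalised expectation in the box without `e`, with sources. -/
noncomputable def We (u t : ℝ) (n : ℕ) (e : Edg d) (A B : Srs d) (F : Om d → ℝ) : ℝ :=
  Ex bC (vm u t) (Je n e) A B (fun c => F (rs c)) / ZZ d u t n

lemma rs_update (c : Idx d → St) (e : Edg d) (s : St) :
    rs (Function.update c (Sum.inl e) s) = Function.update (rs c) e s := by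
  funext e'
  by_cases h : e' = e
  · subst h; simp [rs]
  · rw [rs, Function.update_of_ne (fun h' => h (Sum.inl.inj h')), Function.update_of_ne h]
    rfl

lemma En_single (u t : ℝ) (n : ℕ) {e : Edg d} (he : e ∈ boxE d n) (s : St)
    (F : Om d → ℝ) (hF : Ind e F) :
    En u t n (fun c => ind (c e = s) * F c) =
      vv u s * We u t n e (sc s.2.1 (cE e)) (sc s.2.2 (cE e)) F := by
  unfold En We
  have h1 := Ex_single char2 bC (vm u t) (inl_mem_JJ.2 he) 0 0 s (fun c => F (rs c))
  have h2 : (fun c : Idx d → St => ind (rs c e = s) * F (rs c)) =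
      fun c => ind (c (Sum.inl e) = s) * F (rs c) := rfl
  rw [h2, h1, zero_add, zero_add, mul_div_assoc]
  have h3 : (fun c : Idx d → St => F (rs (Function.update c (Sum.inl e) s))) =
      fun c => F (rs c) := by
    funext c
    rw [rs_update, hF]
  rw [h3]
  rfl

lemma We_one {u t : ℝ} (h : Adm u t) (n : ℕ) {e : Edg d} (he : e ∈ boxE d n) (A B : Srs d) :
    We u t n e A B (fun _ => 1) =
      Rl bC u (cn u t n) A {Sum.inl e} * Rl bC u (cn u 0 n) B {Sum.inl e} := by
  unfold We Je
  rw [Ex_one char2 bC (vm u t) (cpl u t) (cpl u 0) _ (vm_coupling u t _)]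
  have hsub : ({Sum.inl e} : Finset (Idx d)) ⊆ JJ d n := by
    rw [Finset.singleton_subset_iff]; exact inl_mem_JJ.2 he
  have hu : ∀ s : ℝ, ∀ i ∈ ({Sum.inl e} : Finset (Idx d)), cpl u s i = u := by
    intro s i hi
    rw [Finset.mem_singleton] at hi
    subst hi
    rfl
  unfold ZZ
  rw [mul_div_mul_comm, ← Finset.sdiff_singleton_eq_erase,
    cor_sdiff char2 bC _ h.c0 u h.ne _ _ hsub (hu t),
    cor_sdiff char2 bC _ h.zero.c0 u h.ne _ _ hsub (hu 0)]
  rfl

lemma We_switch (u t : ℝ) (n : ℕ) (e : Edg d) (A B D : Srs d) (F : Om d → ℝ) (hF : TrD F) :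
    We u t n e A B (fun c => ind (Rch ((boxE d n).erase e) D c) * F c) =
      We u t n e (A + D) (B + D) (fun c => ind (Rch ((boxE d n).erase e) D c) * F c) := by
  unfold We
  congr 1
  refine fv_switch u t (fun e' he' => ?_) A B D F hF
  rw [Finset.mem_erase] at he'
  rw [Je, Finset.mem_erase]
  exact ⟨fun h => he'.1 (Sum.inl.inj h), inl_mem_JJ.2 he'.2⟩

lemma We_reach (u t : ℝ) (n : ℕ) (e : Edg d) (A B : Srs d) (F : Om d → ℝ) :
    We u t n e A B F =
      We u t n e A B (fun c => ind (Rch ((boxE d n).erase e) B c) * F c) := by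
  unfold We
  congr 1
  refine fv_reach u t (fun e' he' => ?_) A B F
  rw [Je, Finset.mem_erase] at he'
  rw [Finset.mem_erase]
  exact ⟨fun h => he'.1 (by rw [h]), inl_mem_JJ.1 he'.2⟩

lemma We_mono {u t : ℝ} (h : Adm u t) (n : ℕ) (e : Edg d) (A B : Srs d) {F G : Om d → ℝ}
    (hFG : ∀ c, F c ≤ G c) : We u t n e A B F ≤ We u t n e A B G := by
  unfold We
  have := (ZZ_pos (d := d) h n).le
  gcongr
  exact Ex_mono bC (vm u t) (vm_nonneg h) _ _ _ fun c => hFG _

lemma En_mono {u t : ℝ} (h : Adm u t) (n : ℕ) {F G : Om d → ℝ}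
    (hFG : ∀ c, F c ≤ G c) : En u t n F ≤ En u t n G := by
  rw [En_eq, En_eq]
  exact Finset.sum_le_sum fun p _ => mul_le_mul_of_nonneg_left (hFG _) (wt_nonneg h n p)

lemma trD_one : TrD (fun _ : Om d => (1 : ℝ)) := fun _ _ _ => rfl

/-- (a) the two-point function. -/
lemma En_two_point (u t : ℝ) (n : ℕ) (D : Srs d) :
    En u t n (fun c => ind (Rch (boxE d n) D c)) = cn u t n D * cn u 0 n D := by
  unfold En
  have h1 := fv_switch u t (G := boxE d n) (J := JJ d n) (fun e he => inl_mem_JJ.2 he)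
    0 0 D (fun _ => 1) trD_one
  simp only [mul_one, zero_add] at h1
  rw [h1]
  have h2 := fv_reach u t (G := boxE d n) (J := JJ d n) (fun e he => inl_mem_JJ.1 he)
    D D (fun _ => 1)
  simp only [mul_one] at h2
  rw [← h2, Ex_one char2 bC (vm u t) (cpl u t) (cpl u 0) _ (vm_coupling u t _)]
  unfold ZZ cn cor
  rw [mul_div_mul_comm]

/-- closed state -/
abbrev s0 : St := (false, false, false)
/-- open, odd for the first current only -/
abbrev s10 : St := (true, true, false)
/-- open, odd for the second current only -/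
abbrev s01 : St := (true, false, true)
/-- open, odd for both -/
abbrev s11 : St := (true, true, true)
/-- open, even for both -/
abbrev s00 : St := (true, false, false)

lemma vv_s0 (u : ℝ) : vv u s0 = 1 - u ^ 2 := by simp [vv]
lemma vv_s10 (u : ℝ) : vv u s10 = u := by simp [vv]
lemma vv_s01 (u : ℝ) : vv u s01 = u := by simp [vv]
lemma vv_s11 (u : ℝ) : vv u s11 = u ^ 2 := by simp [vv]
lemma vv_s00 (u : ℝ) : vv u s00 = u ^ 2 := by simp [vv]

lemma Rch_erase_iff {G : Finset (Edg d)} {e : Edg d} {D : Srs d} {c : Om d}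
    (hc : (c e).1 = false) : Rch G D c ↔ Rch (G.erase e) D c := by
  constructor
  · rintro ⟨K, hK, hop, hD⟩
    refine ⟨K, fun e' he' => Finset.mem_erase.2 ⟨?_, hK he'⟩, hop, hD⟩
    rintro rfl
    rw [hop _ he'] at hc
    exact Bool.noConfusion hc
  · rintro ⟨K, hK, hop, hD⟩
    exact ⟨K, fun e' he' => Finset.mem_of_mem_erase (hK he'), hop, hD⟩

/-- (b) -/
lemma En_closed_conn {u t : ℝ} (h : Adm u t) (n : ℕ) {e : Edg d} (he : e ∈ boxE d n)
    (D : Srs d) :
    En u t n (fun c => ind (c e = s0) * ind (Rch (boxE d n) D c)) =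
      (1 - u ^ 2) * (Rl bC u (cn u t n) D {Sum.inl e} * Rl bC u (cn u 0 n) D {Sum.inl e}) := by
  have h0 : (fun c : Om d => ind (c e = s0) * ind (Rch (boxE d n) D c)) =
      fun c => ind (c e = s0) * ind (Rch ((boxE d n).erase e) D c) := by
    funext c
    by_cases hc : c e = s0
    · rw [ind_congr (Rch_erase_iff (by rw [hc]))]
    · rw [ind_neg hc, zero_mul, zero_mul]
  rw [h0, En_single u t n he s0 _ (ind_Rch (Finset.notMem_erase _ _) D), vv_s0]
  have h1 := We_switch u t n e 0 0 D (fun _ => 1) trD_one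
  have h2 := We_reach u t n e D D (fun _ => 1)
  simp only [mul_one, zero_add] at h1 h2
  show _ * We u t n e 0 0 _ = _
  rw [h1, ← h2, We_one h n he]

lemma En_closed {u t : ℝ} (h : Adm u t) (n : ℕ) {e : Edg d} (he : e ∈ boxE d n) :
    En u t n (fun c => ind (c e = s0)) =
      (1 - u ^ 2) * (Rl bC u (cn u t n) 0 {Sum.inl e} * Rl bC u (cn u 0 n) 0 {Sum.inl e}) := by
  have h1 := En_single u t n he s0 (fun _ => 1) (fun _ _ => rfl)
  simp only [mul_one] at h1
  rw [h1, vv_s0]
  show _ * We u t n e 0 0 _ = _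
  rw [We_one h n he]

/-- (c) -/
lemma En_s10_conn {u t : ℝ} (h : Adm u t) (n : ℕ) {e : Edg d} (he : e ∈ boxE d n)
    (D : Srs d) :
    En u t n (fun c => ind (c e = s10) * ind (Rch ((boxE d n).erase e) D c)) =
      u * (Rl bC u (cn u t n) (cE e + D) {Sum.inl e} * Rl bC u (cn u 0 n) D {Sum.inl e}) := by
  rw [En_single u t n he s10 _ (ind_Rch (Finset.notMem_erase _ _) D), vv_s10]
  have h1 := We_switch u t n e (cE e) 0 D (fun _ => 1) trD_one
  have h2 := We_reach u t n e (cE e + D) D (fun _ => 1)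
  simp only [mul_one, zero_add] at h1 h2
  show _ * We u t n e (cE e) 0 _ = _
  rw [h1, ← h2, We_one h n he]

lemma En_s10 {u t : ℝ} (h : Adm u t) (n : ℕ) {e : Edg d} (he : e ∈ boxE d n) :
    En u t n (fun c => ind (c e = s10)) =
      u * (Rl bC u (cn u t n) (cE e) {Sum.inl e} * Rl bC u (cn u 0 n) 0 {Sum.inl e}) := by
  have h1 := En_single u t n he s10 (fun _ => 1) (fun _ _ => rfl)
  simp only [mul_one] at h1
  rw [h1, vv_s10]
  show _ * We u t n e (cE e) 0 _ = _
  rw [We_one h n he]

/-- (d) -/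
lemma En_s01_eq (u t : ℝ) (n : ℕ) {e : Edg d} (he : e ∈ boxE d n) (F : Om d → ℝ)
    (hF : Ind e F) (hT : TrD F) :
    En u t n (fun c => ind (c e = s01) * F c) =
      En u t n (fun c => ind (c e = s10) * (ind (Rch ((boxE d n).erase e) (cE e) c) * F c)) := by
  rw [En_single u t n he s01 F hF, En_single u t n he s10 _
    ((ind_Rch (Finset.notMem_erase _ _) _).mul hF), vv_s01, vv_s10]
  show _ * We u t n e 0 (cE e) _ = _ * We u t n e (cE e) 0 _
  rw [We_reach u t n e 0 (cE e) F, We_switch u t n e 0 (cE e) (cE e) F hT, char2, zero_add]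

lemma En_s01_le {u t : ℝ} (h : Adm u t) (n : ℕ) {e : Edg d} (he : e ∈ boxE d n) (F : Om d → ℝ)
    (hF : Ind e F) (hT : TrD F) (h0 : ∀ c, 0 ≤ F c) :
    En u t n (fun c => ind (c e = s01) * F c) ≤ En u t n (fun c => ind (c e = s10) * F c) := by
  rw [En_s01_eq u t n he F hF hT]
  refine En_mono h n fun c => mul_le_mul_of_nonneg_left ?_ (ind_nonneg _)
  exact mul_le_of_le_one_left (h0 c) (ind_le_one _)

/-- (e) -/
lemma En_s11_le {u t : ℝ} (h : Adm u t) (n : ℕ) {e : Edg d} (he : e ∈ boxE d n) (F : Om d → ℝ)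
    (hF : Ind e F) (hT : TrD F) (h0 : ∀ c, 0 ≤ F c) :
    (1 - u ^ 2) * En u t n (fun c => ind (c e = s11) * F c) ≤
      u ^ 2 * En u t n (fun c => ind (c e = s0) * F c) := by
  rw [En_single u t n he s11 F hF, En_single u t n he s0 F hF, vv_s11, vv_s0]
  show _ * (_ * We u t n e (cE e) (cE e) _) ≤ _ * (_ * We u t n e 0 0 _)
  rw [We_reach u t n e (cE e) (cE e) F, We_switch u t n e (cE e) (cE e) (cE e) F hT, char2]
  have h1 : We u t n e 0 0 (fun c => ind (Rch ((boxE d n).erase e) (cE e) c) * F c) ≤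
      We u t n e 0 0 F :=
    We_mono h n e 0 0 fun c => mul_le_of_le_one_left (h0 c) (ind_le_one _)
  have h2 := h.pos
  have h3 := mul_le_mul_of_nonneg_left h1 (mul_nonneg h2.le (sq_nonneg u))
  nlinarith

end Pool.Agent.Hhelper76.DC
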