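import Pool.Agent.Hhelper76.DC.Props

/-!
# Mixing for local events, finite energy, absence of sources
-/

open Finset Filter Topology MeasureTheory

namespace Pool.Agent.Hhelper76.DC

variable {d : ℕ}

section

variable {u : ℝ} {P : Measure (Om d)} (hP : IsP u P)

include hP

lemma IsP.mix_loc (i₀ : Fin d) {T T' : Finset (Edg d)} {S S' : Set (Om d)}
    (hS : IsLoc T S) (hS' : IsLoc T' S') :
    Tendsto (fun k : ℕ => P.real (S ∩ sh (zk i₀ k) ⁻¹' S')) atTop
      (𝓝 (P.real S * P.real S')) := by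
  classical
  have := hP.prob
  set F := ({b | ext T b ∈ S} : Set (T → St)).toFinite.toFinset with hF
  set F' := ({b | ext T' b ∈ S'} : Set (T' → St)).toFinite.toFinset with hF'
  have e1 : ∀ k : ℕ, P.real (S ∩ sh (zk i₀ k) ⁻¹' S') =
      ∑ q ∈ F ×ˢ F', P.real (cyl T (ext T q.1) ∩ sh (zk i₀ k) ⁻¹' cyl T' (ext T' q.2)) := by
    intro k
    have h1 : S ∩ sh (zk i₀ k) ⁻¹' S' =
        ⋃ q ∈ F ×ˢ F', cyl T (ext T q.1) ∩ sh (zk i₀ k) ⁻¹' cyl T' (ext T' q.2) := by
      conv_lhs => rw [loc_eq hS, loc_eq hS']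
      ext c
      simp only [Set.mem_inter_iff, Set.mem_iUnion, Set.mem_preimage, Finset.mem_product,
        exists_prop, Prod.exists]
      constructor
      · rintro ⟨⟨b, hb, hc⟩, ⟨b', hb', hc'⟩⟩
        exact ⟨b, b', ⟨hb, hb'⟩, hc, hc'⟩
      · rintro ⟨b, b', ⟨hb, hb'⟩, hc, hc'⟩
        exact ⟨⟨b, hb, hc⟩, ⟨b', hb', hc'⟩⟩
    rw [h1, measureReal_biUnion_finset]
    · rintro ⟨b, b'⟩ _ ⟨a, a'⟩ _ hne
      rw [Function.onFun, Set.disjoint_left]
      rintro c ⟨hc1, hc2⟩ ⟨hc3, hc4⟩
      apply hne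
      have q1 : b = a := by
        by_contra h
        exact Set.disjoint_left.1 (cyl_disjoint h) hc1 hc3
      have q2 : b' = a' := by
        by_contra h
        exact Set.disjoint_left.1 (cyl_disjoint h) hc2 hc4
      rw [q1, q2]
    · intro q _
      exact (measurableSet_cyl _ _).inter (measurable_sh _ (measurableSet_cyl _ _))
  simp_rw [e1]
  rw [real_loc hS P, real_loc hS' P, Finset.sum_mul_sum, ← Finset.sum_product']
  exact tendsto_finsetSum _ fun q _ => hP.mix_cyl i₀ T T' _ _

/-! ### Finite energy -/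

omit hP in
/-- replace the configuration on `T` by `m`. -/
noncomputable def rep (T : Finset (Edg d)) (m : Om d) (c : Om d) : Om d := T.piecewise m c

omit hP in
lemma measurable_rep (T : Finset (Edg d)) (m : Om d) : Measurable (rep T m) := by
  refine measurable_pi_lambda _ fun e => ?_
  by_cases he : e ∈ T
  · simp only [rep, Finset.piecewise_eq_of_mem _ _ _ he]
    exact measurable_const
  · simp only [rep, Finset.piecewise_eq_of_notMem _ _ _ he]
    exact measurable_pi_apply e

omit hP in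
lemma piecewise_union_sdiff (T T' : Finset (Edg d)) : T ∪ (T' \ T) = T ∪ T' := by
  simp

omit hP in
lemma cyl_inter' (T T' : Finset (Edg d)) (m m' : Om d) (h : ∀ e ∈ T ∩ T', m e = m' e) :
    cyl T m ∩ cyl T' m' = cyl (T ∪ (T' \ T)) (T.piecewise m m') := by
  rw [← cyl_inter Finset.disjoint_sdiff]
  ext c
  simp only [Set.mem_inter_iff, cyl, Set.mem_ofPred_eq, Finset.mem_sdiff]
  refine and_congr_right fun h1 => ⟨fun h2 e he => h2 e he.1, fun h2 e he => ?_⟩
  by_cases heT : e ∈ T
  · rw [h1 e heT]; exact h e (Finset.mem_inter.2 ⟨heT, he⟩)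
  · exact h2 e ⟨he, heT⟩

omit hP in
/-- total weight of a pattern. -/
noncomputable def vT (u : ℝ) (T : Finset (Edg d)) (m : Om d) : ℝ := ∏ e ∈ T, vv u (m e)

omit hP in
lemma vT_nonneg {u : ℝ} (h0 : 0 < u) (h1 : u < 1) (T : Finset (Edg d)) (m : Om d) :
    0 ≤ vT u T m := Finset.prod_nonneg fun _ _ => vv_nonneg h0.le h1.le _

/-- the finite energy identity on cylinders. -/
lemma IsP.fe_cyl (T : Finset (Edg d)) (m m' : Om d) (h1 : B1 T m = B1 T m')
    (h2 : B2 T m = B2 T m') (T₂ : Finset (Edg d)) (m₂ : Om d) :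
    vT u T m' * P.real (cyl T m ∩ rep T m' ⁻¹' cyl T₂ m₂) =
      vT u T m * P.real (cyl T m' ∩ cyl T₂ m₂) := by
  classical
  by_cases hc : ∀ e ∈ T ∩ T₂, m' e = m₂ e
  · have e1 : cyl T m ∩ rep T m' ⁻¹' cyl T₂ m₂ = cyl (T ∪ (T₂ \ T)) (T.piecewise m m₂) := by
      rw [← cyl_inter Finset.disjoint_sdiff]
      ext c
      simp only [Set.mem_inter_iff, cyl, Set.mem_ofPred_eq, Set.mem_preimage, Finset.mem_sdiff]
      refine and_congr_right fun h1 => ⟨fun h2 e he => ?_, fun h2 e he => ?_⟩
      · have := h2 e he.1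
        rwa [rep, Finset.piecewise_eq_of_notMem _ _ _ he.2] at this
      · by_cases heT : e ∈ T
        · rw [rep, Finset.piecewise_eq_of_mem _ _ _ heT]
          exact hc e (Finset.mem_inter.2 ⟨heT, he⟩)
        · rw [rep, Finset.piecewise_eq_of_notMem _ _ _ heT]
          exact h2 e ⟨he, heT⟩
    rw [e1, cyl_inter' T T₂ m' m₂ hc, hP.eq, hP.eq, pcyl, pcyl,
      prod_piecewise Finset.disjoint_sdiff m _ (fun _ s => vv u s),
      prod_piecewise Finset.disjoint_sdiff m' _ (fun _ s => vv u s),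
      B1_piecewise Finset.disjoint_sdiff, B1_piecewise Finset.disjoint_sdiff,
      B2_piecewise Finset.disjoint_sdiff, B2_piecewise Finset.disjoint_sdiff, h1, h2]
    unfold vT
    ring
  · push Not at hc
    obtain ⟨e, he, hne⟩ := hc
    rw [Finset.mem_inter] at he
    have e1 : cyl T m ∩ rep T m' ⁻¹' cyl T₂ m₂ = ∅ := by
      ext c
      simp only [Set.mem_inter_iff, cyl, Set.mem_ofPred_eq, Set.mem_preimage,
        Set.mem_empty_iff_false, iff_false, not_and, not_forall]
      intro _
      refine ⟨e, he.2, ?_⟩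
      rw [rep, Finset.piecewise_eq_of_mem _ _ _ he.1]
      exact hne
    have e2 : cyl T m' ∩ cyl T₂ m₂ = ∅ := by
      ext c
      simp only [Set.mem_inter_iff, cyl, Set.mem_ofPred_eq, Set.mem_empty_iff_false, iff_false,
        not_and]
      intro h h'
      exact hne ((h e he.1).symm.trans (h' e he.2))
    rw [e1, e2]
    simp

/-- the finite energy identity. -/
lemma IsP.fe (T : Finset (Edg d)) (m m' : Om d) (h1 : B1 T m = B1 T m')
    (h2 : B2 T m = B2 T m') {S : Set (Om d)} (hS : MeasurableSet S) :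
    vT u T m' * P.real (cyl T m ∩ rep T m' ⁻¹' S) = vT u T m * P.real (cyl T m' ∩ S) := by
  have := hP.prob
  have hv := vT_nonneg hP.u0 hP.u1 T m
  have hv' := vT_nonneg hP.u0 hP.u1 T m'
  let μ : Measure (Om d) := ENNReal.ofReal (vT u T m') • (P.restrict (cyl T m)).map (rep T m')
  let ν : Measure (Om d) := ENNReal.ofReal (vT u T m) • P.restrict (cyl T m')
  have hμ : ∀ {S : Set (Om d)}, MeasurableSet S →
      μ.real S = vT u T m' * P.real (cyl T m ∩ rep T m' ⁻¹' S) := by
    intro S hS
    rw [measureReal_ennreal_smul_apply, ENNReal.toReal_ofReal hv',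
      map_measureReal_apply (measurable_rep T m') hS,
      measureReal_restrict_apply (measurable_rep T m' hS), Set.inter_comm]
  have hν : ∀ {S : Set (Om d)}, MeasurableSet S →
      ν.real S = vT u T m * P.real (cyl T m' ∩ S) := by
    intro S hS
    rw [measureReal_ennreal_smul_apply, ENNReal.toReal_ofReal hv,
      measureReal_restrict_apply hS, Set.inter_comm]
  have fμ : IsFiniteMeasure μ := by
    constructor
    simp only [μ, Measure.smul_apply, smul_eq_mul]
    exact ENNReal.mul_lt_top ENNReal.ofReal_lt_top (measure_lt_top _ _)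
  have fν : IsFiniteMeasure ν := by
    constructor
    simp only [ν, Measure.smul_apply, smul_eq_mul]
    exact ENNReal.mul_lt_top ENNReal.ofReal_lt_top (measure_lt_top _ _)
  have : μ = ν := by
    refine ext_cyl fun T₂ m₂ => ?_
    rw [hμ (measurableSet_cyl _ _), hν (measurableSet_cyl _ _)]
    exact hP.fe_cyl T m m' h1 h2 T₂ m₂
  rw [← hμ hS, ← hν hS, this]

/-- **finite energy**: a modification of the configuration on a finite set of edges which
preserves the sources and positivity of the weights maps null sets to null sets. -/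
lemma IsP.ac (T : Finset (Edg d)) (Φ : Om d → Om d)
    (hout : ∀ c, ∀ e ∉ T, Φ c e = c e)
    (hin : ∀ c c' : Om d, (∀ e ∈ T, c e = c' e) → ∀ e ∈ T, Φ c e = Φ c' e)
    (h1 : ∀ c, B1 T (Φ c) = B1 T c) (h2 : ∀ c, B2 T (Φ c) = B2 T c)
    (hv : ∀ c, vT u T c ≠ 0 → vT u T (Φ c) ≠ 0) {S : Set (Om d)} (hS : MeasurableSet S)
    (h0 : P S = 0) : P (Φ ⁻¹' S) = 0 := by
  have := hP.prob
  have hcover : Φ ⁻¹' S ⊆ ⋃ b : (T → St), cyl T (ext T b) ∩ Φ ⁻¹' S := by
    intro c hc
    rw [Set.mem_iUnion]
    exact ⟨fun e => c e.1, fun e he => by rw [ext_apply _ he], hc⟩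
  refine measure_mono_null hcover ?_
  rw [measure_iUnion_null_iff]
  intro b
  set m := ext T b
  by_cases hz : vT u T m = 0
  · refine measure_mono_null Set.inter_subset_left ?_
    have : P.real (cyl T m) = 0 := by
      rw [hP.eq, pcyl]
      have : ∏ e ∈ T, vv u (m e) = 0 := hz
      rw [this, zero_mul]
    rwa [measureReal_eq_zero_iff] at this
  · have e1 : cyl T m ∩ Φ ⁻¹' S = cyl T m ∩ rep T (Φ m) ⁻¹' S := by
      ext c
      simp only [Set.mem_inter_iff, Set.mem_preimage]
      refine and_congr_right fun hc => ?_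
      have : Φ c = rep T (Φ m) c := by
        funext e
        by_cases he : e ∈ T
        · rw [rep, Finset.piecewise_eq_of_mem _ _ _ he]
          exact hin c m hc e he
        · rw [rep, Finset.piecewise_eq_of_notMem _ _ _ he]
          exact hout c e he
      rw [this]
    rw [e1]
    have e2 := hP.fe T m (Φ m) (h1 m).symm (h2 m).symm hS
    have e3 : P.real (cyl T (Φ m) ∩ S) = 0 := by
      rw [measureReal_eq_zero_iff]
      exact measure_mono_null Set.inter_subset_right h0
    rw [e3, mul_zero] at e2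
    have e4 := (mul_eq_zero.1 e2).resolve_left (hv m hz)
    rwa [measureReal_eq_zero_iff] at e4

/-- patterns with zero weight do not occur. -/
lemma IsP.ae_vT (T : Finset (Edg d)) : ∀ᵐ c ∂P, vT u T c ≠ 0 := by
  have := hP.prob
  rw [ae_iff]
  have hcover : {c : Om d | ¬ vT u T c ≠ 0} ⊆
      ⋃ b ∈ {b : (T → St) | vT u T (ext T b) = 0}, cyl T (ext T b) := by
    intro c hc
    simp only [not_not, Set.mem_ofPred_eq] at hc
    simp only [Set.mem_iUnion, exists_prop, Set.mem_ofPred_eq]
    refine ⟨fun e => c e.1, ?_, fun e he => by rw [ext_apply _ he]⟩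
    rw [← hc]
    exact Finset.prod_congr rfl fun e he => by rw [ext_apply _ he]
  refine measure_mono_null hcover ?_
  rw [measure_biUnion_null_iff (Set.to_countable _)]
  intro b hb
  have : P.real (cyl T (ext T b)) = 0 := by
    rw [hP.eq, pcyl]
    have : ∏ e ∈ T, vv u (ext T b e) = 0 := hb
    rw [this, zero_mul]
  rwa [measureReal_eq_zero_iff] at this

end

end Pool.Agent.Hhelper76.DC
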