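import Pool.Agent.Hhelper76.DC.Pat

/-!
# The key inequality in infinite volume
-/

open Finset Filter Topology MeasureTheory

namespace Pool.Agent.Hhelper76.DC

variable {d : ℕ}

lemma Lim.sqrt {φ : ℝ → ℕ → ℝ} {a : ℝ} (h : Lim φ a) :
    Lim (fun t n => Real.sqrt (φ t n)) (Real.sqrt a) := by
  obtain ⟨ψ, h1, h2⟩ := h
  exact ⟨fun t => Real.sqrt (ψ t), fun t ht => (h1 t ht).sqrt, h2.sqrt⟩

lemma Lim.sub {φ φ' : ℝ → ℕ → ℝ} {a a' : ℝ} (h : Lim φ a) (h' : Lim φ' a') :
    Lim (fun t n => φ t n - φ' t n) (a - a') := by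
  obtain ⟨ψ, h1, h2⟩ := h
  obtain ⟨ψ', h1', h2'⟩ := h'
  exact ⟨fun t => ψ t - ψ' t, fun t ht => (h1 t ht).sub (h1' t ht), h2.sub h2'⟩

/-- the event that `e` is in state `s`. -/
def st (e : Edg d) (s : St) : Set (Om d) := {c | c e = s}

/-- the variance of the number of edges in state `s` in infinite volume. -/
noncomputable def VarP (P : Measure (Om d)) (K : Finset (Edg d)) (s : St) : ℝ :=
  ∑ e ∈ K, ∑ e' ∈ K, (P.real (st e s ∩ st e' s) - P.real (st e s) * P.real (st e' s))

lemma isLoc_st (e : Edg d) (s : St) : IsLoc {e} (st e s) := isLoc_state e s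

lemma measurableSet_st (e : Edg d) (s : St) : MeasurableSet (st e s) := (isLoc_st e s).measurableSet

lemma Var_eq {u t : ℝ} (h : Adm u t) (n : ℕ) (K : Finset (Edg d)) (s : St) :
    Var u t n (cnt K s) = ∑ e ∈ K, ∑ e' ∈ K, ((Qm u t n).real (st e s ∩ st e' s) -
      (Qm u t n).real (st e s) * (Qm u t n).real (st e' s)) := by
  have h1 : ∀ e : Edg d, (Qm u t n).real (st e s) = En u t n (fun c => ind (c e = s)) := fun e =>
    Qm_real h n (measurableSet_st e s)
  have h2 : ∀ e e' : Edg d, (Qm u t n).real (st e s ∩ st e' s) =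
      En u t n (fun c => ind (c e = s) * ind (c e' = s)) := by
    intro e e'
    rw [Qm_real h n ((measurableSet_st e s).inter (measurableSet_st e' s))]
    congr 1
    funext c
    rw [← ind_and]
    rfl
  simp_rw [h1, h2]
  unfold Var
  have e1 : (fun c : Om d => cnt K s c ^ 2) =
      fun c => ∑ e ∈ K, ∑ e' ∈ K, ind (c e = s) * ind (c e' = s) := by
    funext c
    unfold cnt
    rw [pow_two, Finset.sum_mul_sum]
  have e2 : En u t n (cnt K s) = ∑ e ∈ K, En u t n (fun c => ind (c e = s)) := by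
    rw [← En_sum]
    rfl
  rw [e1, e2, En_sum, pow_two, Finset.sum_mul_sum, ← Finset.sum_sub_distrib]
  refine Finset.sum_congr rfl fun e _ => ?_
  rw [En_sum, ← Finset.sum_sub_distrib]

section

variable {u : ℝ} {P : Measure (Om d)} (hP : IsP u P)

include hP

lemma IsP.lim_Var (K : Finset (Edg d)) (s : St) :
    Lim (fun t n => Var u t n (cnt K s)) (VarP P K s) := by
  have := hP.prob
  have h1 : Lim (fun t n => ∑ e ∈ K, ∑ e' ∈ K, ((Qm u t n).real (st e s ∩ st e' s) -
      (Qm u t n).real (st e s) * (Qm u t n).real (st e' s))) (VarP P K s) := by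
    refine Lim.sum _ fun e _ => Lim.sum _ fun e' _ => ?_
    exact (Lim_loc hP.u0 hP.u1 P hP.eq ((isLoc_st e s).inter (isLoc_st e' s))).sub
      ((Lim_loc hP.u0 hP.u1 P hP.eq (isLoc_st e s)).mul
        (Lim_loc hP.u0 hP.u1 P hP.eq (isLoc_st e' s)))
  exact h1.congr fun t ht => Eventually.of_forall fun n =>
    (Var_eq (adm_of hP.u0 hP.u1 ht) n K s).symm

omit hP in
/-- local separation event. -/
def Gk (k : ℕ) (e : Edg d) (a b : Vtx d) : Set (Om d) :=
  {c | c ∈ dS k e s10 ∧ Conn (om c ∩ (boxE d k : Set (Edg d))) a b ∧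
    ¬ Conn ((om c \ {e}) ∩ (boxE d k : Set (Edg d))) a b}

omit hP in
/-- separation event. -/
def Sp (e : Edg d) (a b : Vtx d) : Set (Om d) :=
  {c | c ∈ bS e s10 ∧ Conn (om c) a b ∧ ¬ Conn (om c \ {e}) a b}

omit hP in
lemma measurableSet_Sp (e : Edg d) (a b : Vtx d) : MeasurableSet (Sp e a b) := by
  have : Sp e a b = bS e s10 ∩ ({c | Conn (om c) a b} ∩ {c | Conn (om c \ {e}) a b}ᶜ) := rfl
  rw [this]
  have hm : MSet (fun c : Om d => om c \ {e}) := mset_om.sdiff _
  exact (measurableSet_bS e s10).inter ((mset_om.conn _ _).inter (hm.conn _ _).compl)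

omit hP in
lemma isLoc_Gk (k : ℕ) (e : Edg d) (a b : Vtx d) :
    IsLoc (insert e (boxE d (k + 1))) (Gk k e a b) := by
  intro c c' h hc
  have h1 : ∀ f ∈ boxE d (k + 1), (f ∈ om c ↔ f ∈ om c') := by
    intro f hf
    simp only [om, Set.mem_ofPred_eq]
    rw [h f (Finset.mem_insert_of_mem hf)]
  have h2 : om c ∩ (boxE d k : Set (Edg d)) = om c' ∩ (boxE d k : Set (Edg d)) := by
    ext f
    simp only [Set.mem_inter_iff, Finset.mem_coe]
    exact and_congr_left fun hf => h1 f (boxE_mono (Nat.le_succ k) hf)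
  have h3 : (om c \ {e}) ∩ (boxE d k : Set (Edg d)) = (om c' \ {e}) ∩ (boxE d k : Set (Edg d)) := by
    ext f
    simp only [Set.mem_inter_iff, Finset.mem_coe, Set.mem_sdiff]
    exact and_congr_left fun hf => and_congr_left fun _ => h1 f (boxE_mono (Nat.le_succ k) hf)
  refine ⟨isLoc_dS k e s10 c c' h hc.1, ?_, ?_⟩
  · rw [← h2]; exact hc.2.1
  · rw [← h3]; exact hc.2.2

omit hP in
lemma fv_sep {t : ℝ} (h : Adm u t) (k n : ℕ) (hkn : k ≤ n) (e : Edg d) (he : e ∈ boxE d n)
    (a b : Vtx d) :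
    (Qm u t n).real (Gk k e a b) - (Qm u t n).real (dS k e s01) ≤
      En u t n (piv n (dl a + dl b) e) := by
  classical
  rw [Qm_real h n (isLoc_Gk k e a b).measurableSet, Qm_real h n (measurableSet_dS k e s01)]
  simp_rw [ind_dS]
  rw [En_s01_eq u t n he _ (ind_Dk k e) (trD_Dk k e), sub_le_iff_le_add, ← En_add]
  refine En_mono h n fun c => ?_
  rw [piv_eq]
  by_cases hc : c ∈ Gk k e a b
  · rw [ind_pos hc]
    obtain ⟨⟨h1, h2⟩, h3, h4⟩ := hc
    by_cases hr : Rch ((boxE d n).erase e) (cE e) c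
    · rw [ind_pos h1, ind_pos hr, ind_pos h2]
      have := ind_nonneg (c e = s10 ∧ Rch (boxE d n) (dl a + dl b) c ∧
        ¬ Rch ((boxE d n).erase e) (dl a + dl b) c)
      linarith
    · have hkn' : (boxE d k : Set (Edg d)) ⊆ boxE d n := by exact_mod_cast boxE_mono hkn
      have g1 : Rch (boxE d n) (dl a + dl b) c :=
        rch_iff.2 (h3.mono (Set.inter_subset_inter_right _ hkn'))
      have g2 : ¬ Rch ((boxE d n).erase e) (dl a + dl b) c := by
        intro hr'
        apply hr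
        rw [bC_inl]
        have r1 := rch_iff.1 hr'
        rw [rch_iff]
        have hsub : (om c ∩ (boxE d k : Set (Edg d))) \ {e} ⊆
            om c ∩ (((boxE d n).erase e : Finset (Edg d)) : Set (Edg d)) := by
          rintro f ⟨⟨f1, f2⟩, f3⟩
          refine ⟨f1, ?_⟩
          rw [Finset.coe_erase]
          exact ⟨hkn' f2, f3⟩
        rcases conn_del (e := e) h3 with q | ⟨_, q1, q2⟩ | ⟨_, q1, q2⟩
        · exfalso
          apply h4
          refine q.mono ?_
          rintro f ⟨⟨f1, f2⟩, f3⟩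
          exact ⟨⟨f1, f3⟩, f2⟩
        · exact ((q1.mono hsub).symm.trans r1).trans (q2.mono hsub).symm
        · exact ((q2.mono hsub).trans r1.symm).trans (q1.mono hsub)
      rw [ind_pos ⟨h1, g1, g2⟩]
      have := mul_nonneg (ind_nonneg (c e = s10)) (mul_nonneg
        (ind_nonneg (Rch ((boxE d n).erase e) (cE e) c)) (ind_nonneg (Dk k e (om c))))
      linarith
  · rw [ind_neg hc]
    have h5 := mul_nonneg (ind_nonneg (c e = s10)) (mul_nonneg
      (ind_nonneg (Rch ((boxE d n).erase e) (cE e) c)) (ind_nonneg (Dk k e (om c))))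
    have h6 := ind_nonneg (c e = s10 ∧ Rch (boxE d n) (dl a + dl b) c ∧
        ¬ Rch ((boxE d n).erase e) (dl a + dl b) c)
    linarith

/-- local version of the key inequality in infinite volume. -/
lemma IsP.key_loc (k : ℕ) (a b : Vtx d) (K : Finset (Edg d)) :
    ∑ e ∈ K, (P.real (Gk k e a b) - P.real (dS k e s01)) ≤
      Real.sqrt (VarP P K s10) + 2 / (1 - u ^ 2) * Real.sqrt (VarP P K s0) := by
  have := hP.prob
  have l1 : Lim (fun t n => ∑ e ∈ K, ((Qm u t n).real (Gk k e a b) -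
      (Qm u t n).real (dS k e s01))) (∑ e ∈ K, (P.real (Gk k e a b) - P.real (dS k e s01))) :=
    Lim.sum _ fun e _ => (Lim_loc hP.u0 hP.u1 P hP.eq (isLoc_Gk k e a b)).sub
      (Lim_loc hP.u0 hP.u1 P hP.eq (isLoc_dS k e s01))
  have l2 : Lim (fun t n => Real.sqrt (Var u t n (cnt K s10)) +
      2 / (1 - u ^ 2) * Real.sqrt (Var u t n (cnt K s0)))
      (Real.sqrt (VarP P K s10) + 2 / (1 - u ^ 2) * Real.sqrt (VarP P K s0)) :=
    (hP.lim_Var K s10).sqrt.add ((Lim.const _).mul (hP.lim_Var K s0).sqrt)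
  refine l1.le l2 fun t ht => ?_
  have hadm := adm_of hP.u0 hP.u1 ht
  filter_upwards [eventually_subset_boxE K, eventually_ge_atTop k] with n hn hkn
  refine le_trans (Finset.sum_le_sum fun e he => ?_) (key_ineq hadm n (dl a + dl b) K hn)
  exact fv_sep hadm k n hkn e (hn he) a b

/-- **the key inequality in infinite volume**. -/
lemma IsP.key_inf (hd : 0 < d) (a b : Vtx d) (K : Finset (Edg d)) :
    ∑ e ∈ K, P.real (Sp e a b) ≤
      Real.sqrt (VarP P K s10) + 2 / (1 - u ^ 2) * Real.sqrt (VarP P K s0) := by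
  have := hP.prob
  let Ek : ℕ → Edg d → Set (Om d) := fun k e =>
    Sp e a b ∩ {c | Conn (om c ∩ (boxE d k : Set (Edg d))) a b}
  have h1 : ∀ e, Tendsto (fun k => P.real (Ek k e)) atTop (𝓝 (P.real (Sp e a b))) := by
    intro e
    have hmono : Monotone fun k => Ek k e := by
      intro k k' hk c hc
      refine ⟨hc.1, Conn.mono ?_ hc.2⟩
      exact Set.inter_subset_inter_right _ (by exact_mod_cast boxE_mono hk)
    have hU : ⋃ k, Ek k e = Sp e a b := by
      ext c
      simp only [Ek, Set.mem_iUnion, Set.mem_inter_iff, Set.mem_ofPred_eq]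
      constructor
      · rintro ⟨k, h, _⟩; exact h
      · intro h
        obtain ⟨k, hk⟩ := conn_finite h.2.1
        exact ⟨k, h, hk⟩
    have h2 := tendsto_measure_iUnion_atTop (μ := P) hmono
    rw [hU] at h2
    exact (ENNReal.tendsto_toReal (measure_ne_top _ _)).comp h2
  have h2 : Tendsto (fun k => ∑ e ∈ K, (P.real (Ek k e) - P.real (dS k e s01))) atTop
      (𝓝 (∑ e ∈ K, (P.real (Sp e a b) - P.real (bS e s01)))) :=
    tendsto_finsetSum _ fun e _ => (h1 e).sub (tendsto_dS P e s01)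
  have h3 : ∑ e ∈ K, (P.real (Sp e a b) - P.real (bS e s01)) = ∑ e ∈ K, P.real (Sp e a b) :=
    Finset.sum_congr rfl fun e _ => by rw [hP.delta_zero hd, sub_zero]
  rw [h3] at h2
  refine le_of_tendsto' h2 fun k => ?_
  refine le_trans (Finset.sum_le_sum fun e _ => ?_) (hP.key_loc k a b K)
  refine sub_le_sub_right (measureReal_mono ?_) _
  rintro c ⟨⟨c1, c2, c3⟩, c4⟩
  exact ⟨bS_subset_dS k e s10 c1, c4, fun h => c3 (h.mono Set.inter_subset_left)⟩

end

end Pool.Agent.Hhelper76.DC
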