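import Pool.Agent.Hhelper76.DC.FV

/-!
# The key inequality on pivotal edges
-/

open Finset Filter Topology MeasureTheory

namespace Pool.Agent.Hhelper76.DC

variable {d : ℕ}

section Cov

variable {κ : Type*} (K : Finset κ) (w : κ → ℝ) (hw : ∀ k ∈ K, 0 ≤ w k) (h1 : ∑ k ∈ K, w k = 1)

include hw h1

lemma cov_sq_le (X Y : κ → ℝ) (hY : ∀ k ∈ K, |Y k| ≤ 1) :
    (∑ k ∈ K, w k * (X k * Y k) - (∑ k ∈ K, w k * X k) * ∑ k ∈ K, w k * Y k) ^ 2 ≤
      ∑ k ∈ K, w k * X k ^ 2 - (∑ k ∈ K, w k * X k) ^ 2 := by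
  set μ := ∑ k ∈ K, w k * X k with hμ
  have e1 : ∑ k ∈ K, w k * (X k * Y k) - μ * ∑ k ∈ K, w k * Y k =
      ∑ k ∈ K, (Real.sqrt (w k) * (X k - μ)) * (Real.sqrt (w k) * Y k) := by
    rw [Finset.mul_sum, ← Finset.sum_sub_distrib]
    refine Finset.sum_congr rfl fun k hk => ?_
    have := Real.mul_self_sqrt (hw k hk)
    calc w k * (X k * Y k) - μ * (w k * Y k) = w k * ((X k - μ) * Y k) := by ring
      _ = (Real.sqrt (w k) * Real.sqrt (w k)) * ((X k - μ) * Y k) := by rw [this]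
      _ = _ := by ring
  have e2 : ∑ k ∈ K, w k * X k ^ 2 - μ ^ 2 = ∑ k ∈ K, (Real.sqrt (w k) * (X k - μ)) ^ 2 := by
    have : ∀ k ∈ K, (Real.sqrt (w k) * (X k - μ)) ^ 2 =
        w k * X k ^ 2 - 2 * μ * (w k * X k) + μ ^ 2 * w k := by
      intro k hk
      rw [mul_pow, Real.sq_sqrt (hw k hk)]; ring
    rw [Finset.sum_congr rfl this, Finset.sum_add_distrib, Finset.sum_sub_distrib,
      ← Finset.mul_sum, ← Finset.mul_sum, h1, ← hμ]
    ring
  have e3 : ∑ k ∈ K, (Real.sqrt (w k) * Y k) ^ 2 ≤ 1 := by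
    rw [← h1]
    refine Finset.sum_le_sum fun k hk => ?_
    rw [mul_pow, Real.sq_sqrt (hw k hk)]
    have : Y k ^ 2 ≤ 1 := by
      rw [← sq_abs]
      have := hY k hk
      have h0 := abs_nonneg (Y k)
      nlinarith
    exact mul_le_of_le_one_right (hw k hk) this
  rw [e1, e2]
  refine (Finset.sum_mul_sq_le_sq_mul_sq _ _ _).trans ?_
  exact mul_le_of_le_one_right (Finset.sum_nonneg fun _ _ => sq_nonneg _) e3

end Cov

/-- variance in finite volume. -/
noncomputable def Var (u t : ℝ) (n : ℕ) (X : Om d → ℝ) : ℝ :=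
  En u t n (fun c => X c ^ 2) - (En u t n X) ^ 2

lemma wt_sum {u t : ℝ} (h : Adm u t) (n : ℕ) : ∑ p ∈ T3 (JJ d n), wt u t n p = 1 := by
  have := En_one (d := d) h n
  rw [En_eq] at this
  simpa using this

lemma abs_cov_le {u t : ℝ} (h : Adm u t) (n : ℕ) (X Y : Om d → ℝ) (hY : ∀ c, |Y c| ≤ 1) :
    |En u t n (fun c => X c * Y c) - En u t n X * En u t n Y| ≤ Real.sqrt (Var u t n X) := by
  have h1 := cov_sq_le (T3 (JJ d n)) (wt u t n) (fun p _ => wt_nonneg h n p) (wt_sum h n)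
    (fun p => X (rs (cf p))) (fun p => Y (rs (cf p))) (fun p _ => hY _)
  have h2 : (En u t n (fun c => X c * Y c) - En u t n X * En u t n Y) ^ 2 ≤ Var u t n X := by
    unfold Var
    rw [En_eq, En_eq, En_eq, En_eq]
    exact h1
  rw [← Real.sqrt_sq_eq_abs]
  exact Real.sqrt_le_sqrt h2

lemma En_add (u t : ℝ) (n : ℕ) (F G : Om d → ℝ) :
    En u t n (fun c => F c + G c) = En u t n F + En u t n G := by
  rw [En_eq, En_eq, En_eq, ← Finset.sum_add_distrib]
  exact Finset.sum_congr rfl fun p _ => by ring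

lemma En_sum (u t : ℝ) (n : ℕ) {κ : Type*} (K : Finset κ) (F : κ → Om d → ℝ) :
    En u t n (fun c => ∑ k ∈ K, F k c) = ∑ k ∈ K, En u t n (F k) := by
  simp only [En_eq]
  rw [Finset.sum_comm]
  exact Finset.sum_congr rfl fun p _ => by rw [Finset.mul_sum]

lemma En_sub (u t : ℝ) (n : ℕ) (F G : Om d → ℝ) :
    En u t n (fun c => F c - G c) = En u t n F - En u t n G := by
  rw [En_eq, En_eq, En_eq, ← Finset.sum_sub_distrib]
  exact Finset.sum_congr rfl fun p _ => by ring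

lemma Rl_single (u : ℝ) (hu : 1 - u ^ 2 ≠ 0) (f : Srs d → ℝ) (A : Srs d) (i : Idx d) :
    Rl bC u f A {i} = (f A - u * f (A + bC i)) / (1 - u ^ 2) := by
  have := Rl_insert bC u f A (Finset.notMem_empty i) hu
  rw [insert_empty_eq] at this
  rw [this, Rl_empty, Rl_empty]

lemma cn_zero {u t : ℝ} (h : Adm u t) (n : ℕ) : cn u t n (0 : Srs d) = 1 :=
  div_self (Zpos h _).ne'

lemma cn_mul_le {u t : ℝ} (h : Adm u t) (n : ℕ) (A B : Srs d) :
    cn u t n A * cn u t n B ≤ cn u t n (A + B) := cor_mul_le char2 _ _ h.c0 h.c1 _ _ _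

lemma Rl_cn_nonneg {u t : ℝ} (h : Adm u t) (n : ℕ) {e : Edg d} (he : e ∈ boxE d n)
    (A : Srs d) : 0 ≤ Rl bC u (cn u t n) A {Sum.inl e} := by
  have hsub : ({Sum.inl e} : Finset (Idx d)) ⊆ JJ d n := by
    rw [Finset.singleton_subset_iff]; exact inl_mem_JJ.2 he
  have hu : ∀ i ∈ ({Sum.inl e} : Finset (Idx d)), cpl u t i = u := by
    intro i hi
    rw [Finset.mem_singleton] at hi
    subst hi
    rfl
  have := cor_sdiff char2 bC (cpl u t) h.c0 u h.ne (JJ d n) {Sum.inl e} hsub hu A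
  unfold cn
  rw [← this]
  exact div_nonneg (Z_nonneg _ _ h.c0 _ _) (Zpos h _).le

lemma Rl_cn_le_one {u t : ℝ} (h : Adm u t) (n : ℕ) {e : Edg d} (he : e ∈ boxE d n)
    (A : Srs d) : Rl bC u (cn u t n) A {Sum.inl e} ≤ 1 := by
  have hsub : ({Sum.inl e} : Finset (Idx d)) ⊆ JJ d n := by
    rw [Finset.singleton_subset_iff]; exact inl_mem_JJ.2 he
  have hu : ∀ i ∈ ({Sum.inl e} : Finset (Idx d)), cpl u t i = u := by
    intro i hi
    rw [Finset.mem_singleton] at hi
    subst hi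
    rfl
  have := cor_sdiff char2 bC (cpl u t) h.c0 u h.ne (JJ d n) {Sum.inl e} hsub hu A
  unfold cn
  rw [← this]
  refine div_le_one_of_le₀ ?_ (Zpos h _).le
  exact (Z_le_Z_zero char2 _ _ h.c0 h.c1 _ _).trans (Z_mono _ _ h.c0 Finset.sdiff_subset _)

lemma Rch.mono {G G' : Finset (Edg d)} (hG : G ⊆ G') {D : Srs d} {c : Om d}
    (h : Rch G D c) : Rch G' D c := by
  obtain ⟨K, hK, h1, h2⟩ := h
  exact ⟨K, hK.trans hG, h1, h2⟩

/-- pivotality indicator. -/
noncomputable def piv (n : ℕ) (D : Srs d) (e : Edg d) (c : Om d) : ℝ :=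
  ind (c e = s10) * (ind (Rch (boxE d n) D c) - ind (Rch ((boxE d n).erase e) D c))

lemma piv_eq (n : ℕ) (D : Srs d) (e : Edg d) (c : Om d) :
    piv n D e c = ind (c e = s10 ∧ Rch (boxE d n) D c ∧ ¬ Rch ((boxE d n).erase e) D c) := by
  unfold piv
  by_cases h1 : c e = s10
  · by_cases h2 : Rch ((boxE d n).erase e) D c
    · have h3 := h2.mono (Finset.erase_subset e (boxE d n))
      rw [ind_pos h1, ind_pos h2, ind_pos h3, ind_neg (fun h => h.2.2 h2)]
      ring
    · by_cases h3 : Rch (boxE d n) D c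
      · rw [ind_pos h1, ind_neg h2, ind_pos h3, ind_pos ⟨h1, h3, h2⟩]
        ring
      · rw [ind_pos h1, ind_neg h2, ind_neg h3, ind_neg (fun h => h3 h.2.1)]
        ring
  · have h4 : ¬ (c e = s10 ∧ Rch (boxE d n) D c ∧ ¬ Rch ((boxE d n).erase e) D c) :=
      fun h => h1 h.1
    rw [ind_neg h1, ind_neg h4]
    ring

/-- number of edges of `K` in state `s`. -/
noncomputable def cnt (K : Finset (Edg d)) (s : St) (c : Om d) : ℝ := ∑ e ∈ K, ind (c e = s)

/-- **key inequality**. -/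
theorem key_ineq {u t : ℝ} (h : Adm u t) (n : ℕ) (D : Srs d) (K : Finset (Edg d))
    (hK : K ⊆ boxE d n) :
    ∑ e ∈ K, En u t n (piv n D e) ≤
      Real.sqrt (Var u t n (cnt K s10)) + 2 / (1 - u ^ 2) * Real.sqrt (Var u t n (cnt K s0)) := by
  have hpos := h.pos
  have hu0 := h.u0
  have hu1 := h.u1
  set Y : Om d → ℝ := fun c => ind (Rch (boxE d n) D c) with hY
  have hY1 : ∀ c, |Y c| ≤ 1 := fun c => by
    rw [abs_of_nonneg (ind_nonneg _)]; exact ind_le_one _
  set F := cn u t n D with hF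
  set F₀ := cn u 0 n D with hF₀
  have hF0 : 0 ≤ F := cn_nonneg h n D
  have hF₀0 : 0 ≤ F₀ := cn_nonneg h.zero n D
  have hYF : En u t n Y = F * F₀ := En_two_point u t n D
  -- abbreviations
  set ρ : Edg d → ℝ := fun e => Rl bC u (cn u t n) 0 {Sum.inl e} with hρ
  set ρ₀ : Edg d → ℝ := fun e => Rl bC u (cn u 0 n) 0 {Sum.inl e} with hρ₀
  set y : Edg d → ℝ := fun e => F₀ * ρ₀ e - Rl bC u (cn u 0 n) D {Sum.inl e} with hy
  set x : Edg d → ℝ := fun e => F * ρ e - Rl bC u (cn u t n) D {Sum.inl e} with hx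
  have xnn : ∀ e, 0 ≤ x e := by
    intro e
    simp only [hx, hρ]
    rw [Rl_single u h.ne, Rl_single u h.ne, zero_add, cn_zero h]
    have h1 := cn_mul_le h n D (bC (Sum.inl e))
    have h2 : F * ((1 - u * cn u t n (bC (Sum.inl e))) / (1 - u ^ 2)) -
        (cn u t n D - u * cn u t n (D + bC (Sum.inl e))) / (1 - u ^ 2) =
        u * (cn u t n (D + bC (Sum.inl e)) - F * cn u t n (bC (Sum.inl e))) / (1 - u ^ 2) := by
      rw [hF]; field_simp; ring
    rw [h2]
    exact div_nonneg (mul_nonneg hu0.le (by linarith)) hpos.le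
  have ynn : ∀ e, 0 ≤ y e := by
    intro e
    simp only [hy, hρ₀]
    rw [Rl_single u h.ne, Rl_single u h.ne, zero_add, cn_zero h.zero]
    have h1 := cn_mul_le h.zero n D (bC (Sum.inl e))
    have h2 : F₀ * ((1 - u * cn u 0 n (bC (Sum.inl e))) / (1 - u ^ 2)) -
        (cn u 0 n D - u * cn u 0 n (D + bC (Sum.inl e))) / (1 - u ^ 2) =
        u * (cn u 0 n (D + bC (Sum.inl e)) - F₀ * cn u 0 n (bC (Sum.inl e))) / (1 - u ^ 2) := by
      rw [hF₀]; field_simp; ring
    rw [h2]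
    exact div_nonneg (mul_nonneg hu0.le (by linarith)) hpos.le
  have ρhalf : ∀ e, 1 / 2 ≤ ρ e := by
    intro e
    simp only [hρ]
    rw [Rl_single u h.ne, zero_add, cn_zero h, div_le_div_iff₀ two_pos hpos]
    have h1 := cn_le_one h n (bC (Sum.inl e))
    nlinarith
  -- closed edges
  have c1 : ∀ e ∈ K, (1 - u ^ 2) / 2 * (F * y e) ≤
      En u t n (fun c => ind (c e = s0)) * En u t n Y -
        En u t n (fun c => ind (c e = s0) * Y c) := by
    intro e he
    rw [En_closed h n (hK he), hYF, En_closed_conn h n (hK he) D]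
    have r1 : Rl bC u (cn u t n) D {Sum.inl e} = F * ρ e - x e := by simp only [hx]; ring
    have r2 : Rl bC u (cn u 0 n) D {Sum.inl e} = F₀ * ρ₀ e - y e := by simp only [hy]; ring
    have p1 : 0 ≤ F * ρ e - x e := r1 ▸ Rl_cn_nonneg h n (hK he) D
    have p2 : 0 ≤ F₀ * ρ₀ e - y e := r2 ▸ Rl_cn_nonneg h.zero n (hK he) D
    rw [r1, r2]
    have q1 : F * ρ e * y e ≤ ρ e * ρ₀ e * (F * F₀) - (F * ρ e - x e) * (F₀ * ρ₀ e - y e) := by
      have := mul_nonneg (xnn e) p2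
      nlinarith
    have q2 : F * y e / 2 ≤ F * ρ e * y e := by
      have := mul_le_mul_of_nonneg_left (ρhalf e) (mul_nonneg hF0 (ynn e))
      nlinarith
    have q3 := mul_le_mul_of_nonneg_left (q2.trans q1) hpos.le
    show (1 - u ^ 2) / 2 * (F * y e) ≤ (1 - u ^ 2) * (ρ e * ρ₀ e) * (F * F₀) -
      (1 - u ^ 2) * ((F * ρ e - x e) * (F₀ * ρ₀ e - y e))
    nlinarith
  have c2 : (1 - u ^ 2) / 2 * ∑ e ∈ K, F * y e ≤ Real.sqrt (Var u t n (cnt K s0)) := by
    have a1 := abs_cov_le h n (cnt K s0) Y hY1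
    have a2 : En u t n (fun c => cnt K s0 c * Y c) =
        ∑ e ∈ K, En u t n (fun c => ind (c e = s0) * Y c) := by
      rw [← En_sum]
      congr 1
      funext c
      rw [cnt, Finset.sum_mul]
    have a3 : En u t n (cnt K s0) = ∑ e ∈ K, En u t n (fun c => ind (c e = s0)) := by
      rw [← En_sum]
      rfl
    rw [a2, a3, abs_le] at a1
    rw [Finset.mul_sum]
    refine (Finset.sum_le_sum c1).trans ?_
    rw [Finset.sum_sub_distrib, ← Finset.sum_mul]
    linarith [a1.1]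
  -- the edges in state `s10`
  have d1 : ∀ e ∈ K, En u t n (fun c => ind (c e = s10)) * En u t n Y - F * y e ≤
      En u t n (fun c => ind (c e = s10) * ind (Rch ((boxE d n).erase e) D c)) := by
    intro e he
    rw [En_s10 h n (hK he), hYF, En_s10_conn h n (hK he) D]
    have r2 : Rl bC u (cn u 0 n) D {Sum.inl e} = F₀ * ρ₀ e - y e := by simp only [hy]; ring
    have p2 : 0 ≤ F₀ * ρ₀ e - y e := r2 ▸ Rl_cn_nonneg h.zero n (hK he) D
    have r3 : F * Rl bC u (cn u t n) (cE e) {Sum.inl e} ≤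
        Rl bC u (cn u t n) (cE e + D) {Sum.inl e} := by
      rw [Rl_single u h.ne, Rl_single u h.ne]
      have b1 : cE e + bC (Sum.inl e) = 0 := char2 _
      have b2 : cE e + D + bC (Sum.inl e) = D := by
        rw [add_right_comm, b1, zero_add]
      rw [b1, b2, cn_zero h, ← mul_div_assoc]
      refine div_le_div_of_nonneg_right ?_ hpos.le
      have := cn_mul_le h n (cE e) D
      rw [← hF]
      nlinarith
    have r4 := Rl_cn_nonneg h n (hK he) (cE e)
    have r5 := Rl_cn_le_one h n (hK he) (cE e)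
    rw [r2]
    set R := Rl bC u (cn u t n) (cE e) {Sum.inl e} with hR
    have q1 : u * (F * R * (F₀ * ρ₀ e - y e)) ≤
        u * (Rl bC u (cn u t n) (cE e + D) {Sum.inl e} * (F₀ * ρ₀ e - y e)) :=
      mul_le_mul_of_nonneg_left (mul_le_mul_of_nonneg_right r3 p2) hu0.le
    have q2 : u * R ≤ 1 := by nlinarith
    have q3 := mul_le_mul_of_nonneg_right q2 (mul_nonneg hF0 (ynn e))
    show u * (R * ρ₀ e) * (F * F₀) - F * y e ≤ _
    nlinarith
  have d2 : En u t n (fun c => cnt K s10 c * Y c) ≤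
      (∑ e ∈ K, En u t n (fun c => ind (c e = s10))) * En u t n Y +
        Real.sqrt (Var u t n (cnt K s10)) := by
    have a1 := abs_cov_le h n (cnt K s10) Y hY1
    have a3 : En u t n (cnt K s10) = ∑ e ∈ K, En u t n (fun c => ind (c e = s10)) := by
      rw [← En_sum]
      rfl
    rw [a3, abs_le] at a1
    linarith [a1.2]
  have d3 : ∑ e ∈ K, En u t n (piv n D e) = En u t n (fun c => cnt K s10 c * Y c) -
      ∑ e ∈ K, En u t n (fun c => ind (c e = s10) * ind (Rch ((boxE d n).erase e) D c)) := by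
    rw [← En_sum, ← En_sum, ← En_sub]
    congr 1
    funext c
    simp only [piv, cnt, hY]
    rw [Finset.sum_mul, ← Finset.sum_sub_distrib]
    exact Finset.sum_congr rfl fun e _ => by ring
  rw [d3]
  have d4 := Finset.sum_le_sum d1
  rw [Finset.sum_sub_distrib, ← Finset.sum_mul] at d4
  have c3 : ∑ e ∈ K, F * y e ≤ 2 / (1 - u ^ 2) * Real.sqrt (Var u t n (cnt K s0)) := by
    rw [div_mul_eq_mul_div, le_div_iff₀ hpos]
    nlinarith
  linarith

end Pool.Agent.Hhelper76.DC
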