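import Pool.Agent.Hhelper76.DC.Defs
import Pool.Agent.Hhelper76.DC.Alg

/-!
# Infinite-volume correlation functions on `ℤ^d`: existence, translation invariance, mixing
-/

open Finset Filter Topology

namespace Pool.Agent.Hhelper76.DC

variable {d : ℕ}

/-- indices of interactions: edges and ghost edges. -/
abbrev Idx (d : ℕ) : Type := Edg d ⊕ Vtx d

/-- sources. -/
abbrev Srs (d : ℕ) : Type := Vtx d → ZMod 2

/-- the point source. -/
def dl (x : Vtx d) : Srs d := Pi.single x 1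

/-- boundary of an interaction. -/
def bC : Idx d → Srs d := Sum.elim (fun e => dl (src e) + dl (tgt e)) dl

/-- couplings `u` on the edges, `t` on the ghost edges. -/
def cpl (u t : ℝ) : Idx d → ℝ := Sum.elim (fun _ => u) (fun _ => t)

/-- all interactions of the box `Λ_n`. -/
noncomputable def JJ (d n : ℕ) : Finset (Idx d) := (boxE d n).disjSum (box d n)

lemma char2 (m : Srs d) : m + m = 0 := CharTwo.add_self_eq_zero m

lemma mem_box {n : ℕ} {x : Vtx d} : x ∈ box d n ↔ ∀ i, -(n : ℤ) ≤ x i ∧ x i ≤ n := by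
  simp [box]

lemma mem_boxE {n : ℕ} {e : Edg d} : e ∈ boxE d n ↔ src e ∈ box d n ∧ tgt e ∈ box d n := by
  simp [boxE, src]

lemma box_mono {n m : ℕ} (h : n ≤ m) : box d n ⊆ box d m := by
  intro x hx
  rw [mem_box] at hx ⊢
  intro i
  have := hx i
  have h' : (n : ℤ) ≤ m := by exact_mod_cast h
  constructor <;> linarith [this.1, this.2]

lemma boxE_mono {n m : ℕ} (h : n ≤ m) : boxE d n ⊆ boxE d m := by
  intro e he
  rw [mem_boxE] at he ⊢
  exact ⟨box_mono h he.1, box_mono h he.2⟩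

lemma JJ_mono {n m : ℕ} (h : n ≤ m) : JJ d n ⊆ JJ d m := by
  intro i hi
  rw [JJ, Finset.mem_disjSum] at hi ⊢
  rcases hi with ⟨a, ha, rfl⟩ | ⟨b, hb, rfl⟩
  · exact Or.inl ⟨a, boxE_mono h ha, rfl⟩
  · exact Or.inr ⟨b, box_mono h hb, rfl⟩

lemma inl_mem_JJ {n : ℕ} {e : Edg d} : (Sum.inl e : Idx d) ∈ JJ d n ↔ e ∈ boxE d n := by
  simp [JJ]

lemma inr_mem_JJ {n : ℕ} {x : Vtx d} : (Sum.inr x : Idx d) ∈ JJ d n ↔ x ∈ box d n := by
  simp [JJ]

/-- admissible couplings. -/
structure Adm (u t : ℝ) : Prop where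
  u0 : 0 < u
  u1 : u < 1
  t0 : 0 ≤ t
  t1 : t ≤ 1

lemma Adm.ne {u t : ℝ} (h : Adm u t) : 1 - u ^ 2 ≠ 0 := by
  have := h.u0; have := h.u1
  nlinarith

lemma Adm.pos {u t : ℝ} (h : Adm u t) : 0 < 1 - u ^ 2 := by
  have := h.u0; have := h.u1
  nlinarith

lemma Adm.c0 {u t : ℝ} (h : Adm u t) (i : Idx d) : 0 ≤ cpl u t i := by
  cases i
  · exact h.u0.le
  · exact h.t0

lemma Adm.c1 {u t : ℝ} (h : Adm u t) (i : Idx d) : cpl u t i ≤ 1 := by
  cases i
  · exact h.u1.le
  · exact h.t1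

/-- finite volume correlation function. -/
noncomputable def cn (u t : ℝ) (n : ℕ) (A : Srs d) : ℝ := cor bC (cpl u t) (JJ d n) A

/-- infinite volume correlation function. -/
noncomputable def ci (u t : ℝ) (A : Srs d) : ℝ := ⨆ n, cn u t n A

section

variable {u t : ℝ} (h : Adm u t)

include h

lemma cn_nonneg (n : ℕ) (A : Srs d) : 0 ≤ cn u t n A := cor_nonneg _ _ h.c0 _ _

lemma cn_le_one (n : ℕ) (A : Srs d) : cn u t n A ≤ 1 := cor_le_one char2 _ _ h.c0 h.c1 _ _

lemma cn_mono {n m : ℕ} (hnm : n ≤ m) (A : Srs d) : cn u t n A ≤ cn u t m A :=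
  cor_mono char2 _ _ h.c0 h.c1 (JJ_mono hnm) _

lemma cn_bdd (A : Srs d) : BddAbove (Set.range fun n => cn u t n A) :=
  ⟨1, by rintro _ ⟨n, rfl⟩; exact cn_le_one h n A⟩

lemma tendsto_cn (A : Srs d) : Tendsto (fun n => cn u t n A) atTop (𝓝 (ci u t A)) :=
  tendsto_atTop_ciSup (fun _ _ hnm => cn_mono h hnm A) (cn_bdd h A)

lemma cn_le_ci (n : ℕ) (A : Srs d) : cn u t n A ≤ ci u t A := le_ciSup (cn_bdd h A) n

lemma ci_nonneg (A : Srs d) : 0 ≤ ci u t A := (cn_nonneg h 0 A).trans (cn_le_ci h 0 A)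

lemma ci_le_one (A : Srs d) : ci u t A ≤ 1 := ciSup_le fun n => cn_le_one h n A

lemma ci_mul_le (A B : Srs d) : ci u t A * ci u t B ≤ ci u t (A + B) := by
  refine le_of_tendsto_of_tendsto' ((tendsto_cn h A).mul (tendsto_cn h B))
    (tendsto_cn h (A + B)) fun n => ?_
  exact cor_mul_le char2 _ _ h.c0 h.c1 _ _ _

end

lemma ci_mono_t {u t t' : ℝ} (h : Adm u t) (h' : Adm u t') (htt : t ≤ t') (A : Srs d) :
    ci u t A ≤ ci u t' A := by
  refine le_of_tendsto_of_tendsto' (tendsto_cn h A) (tendsto_cn h' A) fun n => ?_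
  refine cor_mono_coupling char2 _ _ _ h.c0 h'.c1 (fun i => ?_) _ _
  cases i
  · exact le_rfl
  · exact htt

/-! ### Translations -/

/-- translation of an index. -/
def trI (z : Vtx d) : Idx d ↪ Idx d where
  toFun := Sum.map (fun e => (e.1 + z, e.2)) (fun x => x + z)
  inj' := by
    rintro (⟨x, i⟩ | x) (⟨y, j⟩ | y) hxy
    · simpa using hxy
    · simp at hxy
    · simp at hxy
    · simpa using hxy

/-- translation of the sources. -/
def trS (z : Vtx d) : Srs d →+ Srs d where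
  toFun A := fun x => A (x - z)
  map_zero' := rfl
  map_add' _ _ := rfl

lemma trS_injective (z : Vtx d) : Function.Injective (trS z) := by
  intro A B hAB
  funext x
  have := congrFun hAB (x + z)
  simpa [trS] using this

lemma trS_dl (z x : Vtx d) : trS z (dl x) = dl (x + z) := by
  funext y
  simp only [trS, AddMonoidHom.coe_mk, ZeroHom.coe_mk, dl, Pi.single_apply]
  congr 1
  rw [sub_eq_iff_eq_add]

lemma bC_trI (z : Vtx d) (i : Idx d) : bC (trI z i) = trS z (bC i) := by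
  rcases i with ⟨x, i⟩ | x
  · have h1 : src ((x + z, i) : Edg d) = src ((x, i) : Edg d) + z := rfl
    have h2 : tgt ((x + z, i) : Edg d) = tgt ((x, i) : Edg d) + z := by
      simp only [tgt]; abel
    show dl (src ((x + z, i) : Edg d)) + dl (tgt ((x + z, i) : Edg d)) =
      trS z (dl (src ((x, i) : Edg d)) + dl (tgt ((x, i) : Edg d)))
    rw [h1, h2, map_add, trS_dl, trS_dl]
  · exact (trS_dl z x).symm

lemma bd_trI (z : Vtx d) (T : Finset (Idx d)) :
    bd bC (T.map (trI z)) = trS z (bd bC T) := by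
  unfold bd
  rw [Finset.sum_map, map_sum]
  exact Finset.sum_congr rfl fun i _ => bC_trI z i

lemma cpl_trI (u t : ℝ) (z : Vtx d) (i : Idx d) : cpl u t (trI z i) = cpl u t i := by
  cases i <;> rfl

lemma cor_trI (u t : ℝ) (z : Vtx d) (J : Finset (Idx d)) (A : Srs d) :
    cor bC (cpl u t) (J.map (trI z)) (trS z A) = cor bC (cpl u t) J A := by
  unfold cor
  have h0 : (0 : Srs d) = trS z 0 := (map_zero _).symm
  conv_lhs => rw [h0]
  rw [Z_map (trI z) (trS z) (trS_injective z) bC bC (bC_trI z) _ _ (cpl_trI u t z),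
    Z_map (trI z) (trS z) (trS_injective z) bC bC (bC_trI z) _ _ (cpl_trI u t z)]

/-- a bound for the coordinates of a vertex. -/
def nrm (z : Vtx d) : ℕ := ∑ i, (z i).natAbs

lemma le_nrm (z : Vtx d) (i : Fin d) : -(nrm z : ℤ) ≤ z i ∧ z i ≤ nrm z := by
  have h1 : (z i).natAbs ≤ nrm z :=
    Finset.single_le_sum (f := fun i => (z i).natAbs) (fun _ _ => Nat.zero_le _)
      (Finset.mem_univ i)
  omega

lemma add_mem_box {n : ℕ} {x : Vtx d} (hx : x ∈ box d n) (z : Vtx d) :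
    x + z ∈ box d (n + nrm z) := by
  rw [mem_box] at hx ⊢
  intro i
  have h1 := hx i
  have h2 := le_nrm z i
  rw [Pi.add_apply]
  push_cast
  constructor <;> linarith [h1.1, h1.2, h2.1, h2.2]

lemma tgt_tr (z : Vtx d) (e : Edg d) : tgt ((e.1 + z, e.2) : Edg d) = tgt e + z := by
  simp only [tgt]; abel

lemma JJ_trI (n : ℕ) (z : Vtx d) : (JJ d n).map (trI z) ⊆ JJ d (n + nrm z) := by
  intro i hi
  obtain ⟨j, hj, rfl⟩ := Finset.mem_map.1 hi
  rcases j with e | x
  · rw [inl_mem_JJ, mem_boxE] at hj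
    show Sum.inl _ ∈ _
    rw [inl_mem_JJ, mem_boxE]
    refine ⟨add_mem_box hj.1 z, ?_⟩
    rw [tgt_tr]
    exact add_mem_box hj.2 z
  · rw [inr_mem_JJ] at hj
    show Sum.inr _ ∈ _
    rw [inr_mem_JJ]
    exact add_mem_box hj z

lemma ci_trS_le {u t : ℝ} (h : Adm u t) (z : Vtx d) (A : Srs d) :
    ci u t A ≤ ci u t (trS z A) := by
  refine ciSup_le fun n => ?_
  have h1 : cn u t n A = cor bC (cpl u t) ((JJ d n).map (trI z)) (trS z A) :=
    (cor_trI u t z _ A).symm
  rw [h1]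
  exact (cor_mono char2 _ _ h.c0 h.c1 (JJ_trI n z) _).trans (cn_le_ci h _ _)

lemma trS_neg (z : Vtx d) (A : Srs d) : trS (-z) (trS z A) = A := by
  funext x
  simp [trS]

lemma ci_trS {u t : ℝ} (h : Adm u t) (z : Vtx d) (A : Srs d) :
    ci u t (trS z A) = ci u t A := by
  refine le_antisymm ?_ (ci_trS_le h z A)
  have := ci_trS_le h (-z) (trS z A)
  rwa [trS_neg] at this

/-! ### Mixing -/

/-- the sequence of translations `k e₁`. -/
def zk (i₀ : Fin d) (k : ℕ) : Vtx d := Pi.single i₀ (k : ℤ)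

/-- `T` consists of edges. -/
def IsE (T : Finset (Idx d)) : Prop := ∀ i ∈ T, ∃ e : Edg d, i = Sum.inl e

lemma Rl_tendsto {X : Type*} {l : Filter X} (u : ℝ) (f : X → Srs d → ℝ) (g : Srs d → ℝ)
    (hfg : ∀ A, Tendsto (fun x => f x A) l (𝓝 (g A))) (A : Srs d) (T : Finset (Idx d)) :
    Tendsto (fun x => Rl bC u (f x) A T) l (𝓝 (Rl bC u g A T)) := by
  unfold Rl
  exact (tendsto_finsetSum _ fun S _ => (hfg _).const_mul _).const_mul _

lemma Rl_trS (u : ℝ) (f : Srs d → ℝ) (z : Vtx d) (hf : ∀ A, f (trS z A) = f A) (A : Srs d)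
    (T : Finset (Idx d)) :
    Rl bC u f (trS z A) (T.map (trI z)) = Rl bC u f A T := by
  unfold Rl
  rw [Finset.card_map]
  congr 1
  symm
  refine Finset.sum_bij (fun S _ => S.map (trI z)) ?_ ?_ ?_ ?_
  · intro S hS
    rw [Finset.mem_powerset] at hS ⊢
    exact Finset.map_subset_map.2 hS
  · intro S _ S' _ h
    exact Finset.map_injective _ h
  · intro S hS
    rw [Finset.mem_powerset] at hS
    refine ⟨T.filter fun i => trI z i ∈ S, by simp, ?_⟩
    ext k
    simp only [Finset.mem_map, Finset.mem_filter]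
    constructor
    · rintro ⟨i, ⟨_, hi⟩, rfl⟩; exact hi
    · intro hk
      obtain ⟨i, hi, rfl⟩ := Finset.mem_map.1 (hS hk)
      exact ⟨i, ⟨hi, hk⟩, rfl⟩
  · intro S _
    rw [bd_trI, Finset.card_map, ← map_add, hf]

lemma sandwich_ci {u t : ℝ} (h : Adm u t) (A : Srs d) (T : Finset (Idx d)) (hT : IsE T)
    (n₀ : ℕ) (hd : Disjoint T (JJ d n₀)) :
    |Rl bC u (ci u t) A T - ci u t A * Rl bC u (ci u t) 0 T| ≤ ci u t A - cn u t n₀ A := by
  have h1 : Tendsto (fun n => |Rl bC u (cn u t n) A T - cn u t n A * Rl bC u (cn u t n) 0 T|)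
      atTop (𝓝 |Rl bC u (ci u t) A T - ci u t A * Rl bC u (ci u t) 0 T|) :=
    (((Rl_tendsto u _ _ (tendsto_cn h) A T).sub
      ((tendsto_cn h A).mul (Rl_tendsto u _ _ (tendsto_cn h) 0 T)))).abs
  have h2 : Tendsto (fun n => cn u t n A - cn u t n₀ A) atTop
      (𝓝 (ci u t A - cn u t n₀ A)) := (tendsto_cn h A).sub_const _
  refine le_of_tendsto_of_tendsto h1 h2 ?_
  -- eventually `T ⊆ JJ n`
  have h3 : ∀ᶠ n in atTop, T ⊆ JJ d n := by
    have : ∀ i ∈ T, ∀ᶠ n in atTop, i ∈ JJ d n := by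
      intro i hi
      obtain ⟨e, rfl⟩ := hT i hi
      have hs : src e ∈ box d (nrm (src e)) := mem_box.2 fun i => le_nrm _ i
      have ht : tgt e ∈ box d (nrm (tgt e)) := mem_box.2 fun i => le_nrm _ i
      filter_upwards [eventually_ge_atTop (nrm (src e)), eventually_ge_atTop (nrm (tgt e))]
        with n h1 h2
      rw [inl_mem_JJ, mem_boxE]
      exact ⟨box_mono h1 hs, box_mono h2 ht⟩
    have h4 := (Filter.eventually_all_finset T).2 this
    filter_upwards [h4] with n hn i hi using hn i hi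
  filter_upwards [h3, eventually_ge_atTop n₀] with n hn hn0
  refine Rl_cor_sandwich char2 bC (cpl u t) h.c0 h.c1 u h.ne (JJ d n) (JJ d n₀) T hn ?_ ?_ A
  · intro i hi
    rw [Finset.mem_sdiff]
    exact ⟨JJ_mono hn0 hi, fun hiT => (Finset.disjoint_left.1 hd) hiT hi⟩
  · intro i hi
    obtain ⟨e, rfl⟩ := hT i hi
    rfl

lemma IsE.map {T : Finset (Idx d)} (hT : IsE T) (z : Vtx d) : IsE (T.map (trI z)) := by
  intro i hi
  obtain ⟨j, hj, rfl⟩ := Finset.mem_map.1 hi
  obtain ⟨e, rfl⟩ := hT j hj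
  exact ⟨_, rfl⟩

lemma eventually_disjoint (i₀ : Fin d) {T : Finset (Idx d)} (n₀ : ℕ) :
    ∀ᶠ k : ℕ in atTop, Disjoint (T.map (trI (zk i₀ k))) (JJ d n₀) := by
  have : ∀ i ∈ T, ∀ᶠ k : ℕ in atTop, trI (zk i₀ k) i ∉ JJ d n₀ := by
    intro i _
    rcases i with e | x
    · filter_upwards [eventually_gt_atTop (n₀ + nrm (src e))] with k hk hmem
      have hmem' : (Sum.inl (e.1 + zk i₀ k, e.2) : Idx d) ∈ JJ d n₀ := hmem
      rw [inl_mem_JJ, mem_boxE, mem_box] at hmem'
      have h1 := (hmem'.1 i₀).2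
      have h2 := (le_nrm (src e) i₀).1
      simp only [src, Pi.add_apply, zk, Pi.single_eq_same] at h1 h2
      have h3 : ((n₀ + nrm (src e) : ℕ) : ℤ) < k := by exact_mod_cast hk
      push_cast at h3
      simp only [src] at h3
      linarith
    · filter_upwards [eventually_gt_atTop (n₀ + nrm x)] with k hk hmem
      have hmem' : (Sum.inr (x + zk i₀ k) : Idx d) ∈ JJ d n₀ := hmem
      rw [inr_mem_JJ, mem_box] at hmem'
      have h1 := (hmem' i₀).2
      have h2 := (le_nrm x i₀).1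
      simp only [Pi.add_apply, zk, Pi.single_eq_same] at h1
      have h3 : ((n₀ + nrm x : ℕ) : ℤ) < k := by exact_mod_cast hk
      push_cast at h3
      linarith
  have h4 := (Filter.eventually_all_finset T).2 this
  filter_upwards [h4] with k hk
  rw [Finset.disjoint_left]
  intro i hi hi'
  obtain ⟨j, hj, rfl⟩ := Finset.mem_map.1 hi
  exact hk j hj hi'

/-- mixing for the removal of far away edges. -/
lemma mix_base {u t : ℝ} (h : Adm u t) (i₀ : Fin d) (A : Srs d) (T : Finset (Idx d))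
    (hT : IsE T) :
    Tendsto (fun k : ℕ => Rl bC u (ci u t) A (T.map (trI (zk i₀ k)))) atTop
      (𝓝 (ci u t A * Rl bC u (ci u t) 0 T)) := by
  rw [Metric.tendsto_atTop]
  intro ε hε
  obtain ⟨n₀, hn₀⟩ : ∃ n₀, ci u t A - cn u t n₀ A < ε := by
    have := (tendsto_cn h A).const_sub (ci u t A)
    rw [sub_self] at this
    exact ((this.eventually (gt_mem_nhds hε)).exists)
  obtain ⟨N, hN⟩ := Filter.eventually_atTop.1 (eventually_disjoint i₀ (T := T) n₀)
  refine ⟨N, fun k hk => ?_⟩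
  have h1 := sandwich_ci h A _ (hT.map (zk i₀ k)) n₀ (hN k hk)
  have h2 : Rl bC u (ci u t) 0 (T.map (trI (zk i₀ k))) = Rl bC u (ci u t) 0 T := by
    have := Rl_trS u (ci u t) (zk i₀ k) (ci_trS h _) 0 T
    rwa [map_zero] at this
  rw [h2] at h1
  rw [Real.dist_eq]
  exact lt_of_le_of_lt h1 hn₀

lemma mix_step {u t : ℝ} (h : Adm u t) (i₀ : Fin d) (A : Srs d) (D : Finset (Idx d))
    (hD : IsE D) : ∀ (T : Finset (Idx d)), IsE T →
    Tendsto (fun k : ℕ => Rl bC u (ci u t) (A + trS (zk i₀ k) (bd bC D))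
      (T.map (trI (zk i₀ k)))) atTop (𝓝 (ci u t A * Rl bC u (ci u t) (bd bC D) T)) := by
  classical
  have hu : 1 - u ^ 2 ≠ 0 := h.ne
  have hu0 : u ≠ 0 := h.u0.ne'
  induction D using Finset.induction_on with
  | empty =>
    intro T hT
    have := mix_base h i₀ A T hT
    simpa [bd] using this
  | insert e D he ih =>
    have hD' : IsE D := fun i hi => hD i (Finset.mem_insert_of_mem hi)
    have ih' := ih hD'
    have hbd : bd bC (insert e D) = bd bC D + bC e := by
      simp [bd, Finset.sum_insert he, add_comm]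
    -- the case `e ∈ T`
    have case1 : ∀ T : Finset (Idx d), IsE T → e ∉ T →
        Tendsto (fun k : ℕ => Rl bC u (ci u t) (A + trS (zk i₀ k) (bd bC (insert e D)))
          ((insert e T).map (trI (zk i₀ k)))) atTop
          (𝓝 (ci u t A * Rl bC u (ci u t) (bd bC (insert e D)) (insert e T))) := by
      intro T hT heT
      have hT' : IsE (insert e T) := by
        intro i hi
        rcases Finset.mem_insert.1 hi with rfl | hi
        · exact hD i (Finset.mem_insert_self _ _)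
        · exact hT i hi
      have a1 := ih' T hT
      have a2 := ih' (insert e T) hT'
      have e1 : ∀ k : ℕ, Rl bC u (ci u t) (A + trS (zk i₀ k) (bd bC (insert e D)))
          ((insert e T).map (trI (zk i₀ k))) =
          (Rl bC u (ci u t) (A + trS (zk i₀ k) (bd bC D)) (T.map (trI (zk i₀ k))) -
            Rl bC u (ci u t) (A + trS (zk i₀ k) (bd bC D))
              ((insert e T).map (trI (zk i₀ k)))) / u := by
        intro k
        have hne : trI (zk i₀ k) e ∉ T.map (trI (zk i₀ k)) := by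
          rw [Finset.mem_map']; exact heT
        have := Rl_split char2 bC u (ci u t) (A + trS (zk i₀ k) (bd bC D)) hne hu
        rw [Finset.map_insert, this, hbd, map_add, ← add_assoc, bC_trI]
        field_simp
        ring
      have e2 : Rl bC u (ci u t) (bd bC (insert e D)) (insert e T) =
          (Rl bC u (ci u t) (bd bC D) T - Rl bC u (ci u t) (bd bC D) (insert e T)) / u := by
        have := Rl_split char2 bC u (ci u t) (bd bC D) heT hu
        rw [this, hbd]
        field_simp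
        ring
      simp_rw [e1]
      rw [e2, ← mul_div_assoc, mul_sub]
      exact (a1.sub a2).div_const u
    intro T hT
    by_cases heT : e ∈ T
    · have := case1 (T.erase e) (fun i hi => hT i (Finset.mem_of_mem_erase hi))
        (Finset.notMem_erase e T)
      rwa [Finset.insert_erase heT] at this
    · have c1 := case1 T hT heT
      have hT' : IsE (insert e T) := by
        intro i hi
        rcases Finset.mem_insert.1 hi with rfl | hi
        · exact hD i (Finset.mem_insert_self _ _)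
        · exact hT i hi
      have a2 := ih' (insert e T) hT'
      have e1 : ∀ k : ℕ, Rl bC u (ci u t) (A + trS (zk i₀ k) (bd bC (insert e D)))
          (T.map (trI (zk i₀ k))) =
          Rl bC u (ci u t) (A + trS (zk i₀ k) (bd bC (insert e D)))
          ((insert e T).map (trI (zk i₀ k))) + u * Rl bC u (ci u t)
            (A + trS (zk i₀ k) (bd bC D)) ((insert e T).map (trI (zk i₀ k))) := by
        intro k
        have hne : trI (zk i₀ k) e ∉ T.map (trI (zk i₀ k)) := by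
          rw [Finset.mem_map']; exact heT
        have := Rl_split char2 bC u (ci u t) (A + trS (zk i₀ k) (bd bC (insert e D))) hne hu
        rw [this, Finset.map_insert]
        congr 3
        rw [hbd, map_add, bC_trI, ← add_assoc, add_assoc (A + _), char2, add_zero]
      have e2 : Rl bC u (ci u t) (bd bC (insert e D)) T =
          Rl bC u (ci u t) (bd bC (insert e D)) (insert e T) +
            u * Rl bC u (ci u t) (bd bC D) (insert e T) := by
        have := Rl_split char2 bC u (ci u t) (bd bC (insert e D)) heT hu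
        rw [this]
        congr 3
        rw [hbd, add_assoc, char2, add_zero]
      simp_rw [e1]
      rw [e2, mul_add, mul_left_comm]
      exact c1.add (a2.const_mul u)

/-- **mixing** of the infinite volume correlation functions. -/
lemma mix_ci {u t : ℝ} (h : Adm u t) (i₀ : Fin d) (A : Srs d) (D : Finset (Idx d))
    (hD : IsE D) :
    Tendsto (fun k : ℕ => ci u t (A + trS (zk i₀ k) (bd bC D))) atTop
      (𝓝 (ci u t A * ci u t (bd bC D))) := by
  have := mix_step h i₀ A D hD ∅ (by intro i hi; simp at hi)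
  simpa [Rl_empty] using this

/-! ### The limit `t ↘ 0` -/

/-- the correlation function in the limit `t ↘ 0`. -/
noncomputable def cp (u : ℝ) (A : Srs d) : ℝ := ⨅ t : Set.Ioc (0 : ℝ) 1, ci u t.1 A

lemma adm_of {u : ℝ} (hu0 : 0 < u) (hu1 : u < 1) {t : ℝ} (ht : t ∈ Set.Ioc (0 : ℝ) 1) :
    Adm u t := ⟨hu0, hu1, ht.1.le, ht.2⟩

section

variable {u : ℝ} (hu0 : 0 < u) (hu1 : u < 1)

include hu0 hu1

lemma cp_bdd (A : Srs d) : BddBelow (Set.range fun t : Set.Ioc (0 : ℝ) 1 => ci u t.1 A) :=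
  ⟨0, by rintro _ ⟨t, rfl⟩; exact ci_nonneg (adm_of hu0 hu1 t.2) A⟩

lemma cp_le (A : Srs d) {t : ℝ} (ht : t ∈ Set.Ioc (0 : ℝ) 1) : cp u A ≤ ci u t A :=
  ciInf_le (cp_bdd hu0 hu1 A) ⟨t, ht⟩

lemma cp_nonneg (A : Srs d) : 0 ≤ cp u A := by
  haveI : Nonempty (Set.Ioc (0 : ℝ) 1) := ⟨⟨1, by norm_num⟩⟩
  exact le_ciInf fun t => ci_nonneg (adm_of hu0 hu1 t.2) A

lemma tendsto_cp (A : Srs d) : Tendsto (fun t : ℝ => ci u t A) (𝓝[>] 0) (𝓝 (cp u A)) := by
  haveI : Nonempty (Set.Ioc (0 : ℝ) 1) := ⟨⟨1, by norm_num⟩⟩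
  rw [tendsto_order]
  constructor
  · intro a ha
    have : Set.Ioc (0 : ℝ) 1 ∈ 𝓝[>] (0 : ℝ) := Ioc_mem_nhdsGT one_pos
    filter_upwards [this] with t ht
    exact lt_of_lt_of_le ha (cp_le hu0 hu1 A ht)
  · intro a ha
    obtain ⟨t₀, ht₀⟩ := exists_lt_of_ciInf_lt ha
    have : Set.Ioc (0 : ℝ) t₀.1 ∈ 𝓝[>] (0 : ℝ) := Ioc_mem_nhdsGT t₀.2.1
    filter_upwards [this] with t ht
    have ht' : t ∈ Set.Ioc (0 : ℝ) 1 := ⟨ht.1, ht.2.trans t₀.2.2⟩
    exact lt_of_le_of_lt (ci_mono_t (adm_of hu0 hu1 ht') (adm_of hu0 hu1 t₀.2) ht.2 A) ht₀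

lemma cp_mul_le (A B : Srs d) : cp u A * cp u B ≤ cp u (A + B) := by
  haveI : Nonempty (Set.Ioc (0 : ℝ) 1) := ⟨⟨1, by norm_num⟩⟩
  refine le_ciInf fun t => ?_
  refine le_trans ?_ (ci_mul_le (adm_of hu0 hu1 t.2) A B)
  exact mul_le_mul (cp_le hu0 hu1 A t.2) (cp_le hu0 hu1 B t.2) (cp_nonneg hu0 hu1 B)
    (ci_nonneg (adm_of hu0 hu1 t.2) A)

lemma cp_trS (z : Vtx d) (A : Srs d) : cp u (trS z A) = cp u A := by
  unfold cp
  congr 1
  funext t
  exact ci_trS (adm_of hu0 hu1 t.2) z A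

lemma mix_cp (i₀ : Fin d) (A : Srs d) (D : Finset (Idx d)) (hD : IsE D) :
    Tendsto (fun k : ℕ => cp u (A + trS (zk i₀ k) (bd bC D))) atTop
      (𝓝 (cp u A * cp u (bd bC D))) := by
  rw [tendsto_order]
  constructor
  · intro a ha
    refine Filter.Eventually.of_forall fun k => lt_of_lt_of_le ha ?_
    have := cp_mul_le hu0 hu1 A (trS (zk i₀ k) (bd bC D))
    rwa [cp_trS hu0 hu1] at this
  · intro a ha
    have h1 := (tendsto_cp hu0 hu1 A).mul (tendsto_cp hu0 hu1 (bd bC D))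
    have h2 : ∀ᶠ t : ℝ in 𝓝[>] 0, ci u t A * ci u t (bd bC D) < a := h1.eventually (gt_mem_nhds ha)
    have h3 : Set.Ioc (0 : ℝ) 1 ∈ 𝓝[>] (0 : ℝ) := Ioc_mem_nhdsGT one_pos
    obtain ⟨t, ht, ht'⟩ := (h2.and h3).exists
    have h4 := (mix_ci (adm_of hu0 hu1 ht') i₀ A D hD).eventually (gt_mem_nhds ht)
    filter_upwards [h4] with k hk
    exact lt_of_le_of_lt (cp_le hu0 hu1 _ ht') hk

end

end Pool.Agent.Hhelper76.DC
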