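import Pool.Agent.Hhelper76.DC.Lattice
import Pool.Agent.Hhelper76.DC.Compact

/-!
# The finite-volume measures of the triple model and their infinite-volume limit
-/

open Finset Filter Topology MeasureTheory

namespace Pool.Agent.Hhelper76.DC

variable {d : ℕ}

/-- configurations of the triple model. -/
abbrev Om (d : ℕ) : Type := Edg d → St

/-- weights of the model. -/
noncomputable def vm (u t : ℝ) : Idx d → St → ℝ :=
  Sum.elim (fun _ => vv u)
    (fun _ s => if s.1 then 0 else if s.2.2 then 0 else if s.2.1 then t else 1)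

lemma vm_coupling (u t : ℝ) (J : Finset (Idx d)) :
    HasCoupling (vm u t) (cpl u t) (cpl u 0) J := by
  intro i _ s₁ s₂
  rcases i with e | x
  · cases s₁ <;> cases s₂ <;> simp [vm, vv, cpl] <;> ring
  · cases s₁ <;> cases s₂ <;> simp [vm, cpl]

lemma vm_switchable (u t : ℝ) : Switchable (vm u t : Idx d → St → ℝ) := by
  intro i s₁ s₂
  rcases i with e | x
  · cases s₁ <;> cases s₂ <;> simp [vm, vv]
  · simp [vm]

lemma vm_oddOpen (u t : ℝ) : OddOpen (vm u t : Idx d → St → ℝ) := by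
  intro i s₁
  rcases i with e | x
  · cases s₁ <;> simp [vm, vv]
  · simp [vm]

lemma vm_nonneg {u t : ℝ} (h : Adm u t) (i : Idx d) (s : St) : 0 ≤ vm u t i s := by
  rcases i with e | x
  · exact vv_nonneg h.u0.le h.u1.le s
  · simp only [vm, Sum.elim_inr]
    have := h.t0
    split_ifs <;> simp [this]

/-- the normalising constant. -/
noncomputable def ZZ (d : ℕ) (u t : ℝ) (n : ℕ) : ℝ :=
  Z bC (cpl u t) (JJ d n) 0 * Z bC (cpl u 0) (JJ d n) 0

lemma Adm.zero {u t : ℝ} (h : Adm u t) : Adm u 0 := ⟨h.u0, h.u1, le_rfl, zero_le_one⟩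

lemma Zpos {u t : ℝ} (h : Adm u t) (J : Finset (Idx d)) : 0 < Z bC (cpl u t) J 0 :=
  lt_of_lt_of_le one_pos (one_le_Z bC _ h.c0 J)

lemma ZZ_pos {u t : ℝ} (h : Adm u t) (n : ℕ) : 0 < ZZ d u t n :=
  mul_pos (Zpos h _) (Zpos h.zero _)

/-- restriction of a configuration to the edges. -/
def rs (c : Idx d → St) : Om d := fun e => c (Sum.inl e)

/-- finite-volume expectation. -/
noncomputable def En (u t : ℝ) (n : ℕ) (F : Om d → ℝ) : ℝ :=
  Ex bC (vm u t) (JJ d n) 0 0 (fun c => F (rs c)) / ZZ d u t n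

/-- weight of a triple of sets. -/
noncomputable def wt (u t : ℝ) (n : ℕ) (p : Finset (Idx d) × Finset (Idx d) × Finset (Idx d)) :
    ℝ := (∏ i ∈ JJ d n, vm u t i (cf p i)) * (ind (bd bC p.2.1 = 0) * ind (bd bC p.2.2 = 0)) /
      ZZ d u t n

lemma wt_nonneg {u t : ℝ} (h : Adm u t) (n : ℕ)
    (p : Finset (Idx d) × Finset (Idx d) × Finset (Idx d)) : 0 ≤ wt u t n p :=
  div_nonneg (mul_nonneg (Finset.prod_nonneg fun i _ => vm_nonneg h i _)
    (mul_nonneg (ind_nonneg _) (ind_nonneg _))) (ZZ_pos h n).le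

/-- the finite-volume measure. -/
noncomputable def Qm (u t : ℝ) (n : ℕ) : Measure (Om d) :=
  ∑ p ∈ T3 (JJ d n), ENNReal.ofReal (wt u t n p) • Measure.dirac (rs (cf p))

lemma En_eq (u t : ℝ) (n : ℕ) (F : Om d → ℝ) :
    En u t n F = ∑ p ∈ T3 (JJ d n), wt u t n p * F (rs (cf p)) := by
  unfold En Ex wt
  rw [Finset.sum_div]
  refine Finset.sum_congr rfl fun p _ => by ring

lemma Qm_real {u t : ℝ} (h : Adm u t) (n : ℕ) {S : Set (Om d)} (hS : MeasurableSet S) :
    (Qm u t n).real S = En u t n (fun c => ind (c ∈ S)) := by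
  rw [En_eq, Measure.real, Qm, Measure.coe_finset_sum, Finset.sum_apply,
    ENNReal.toReal_sum]
  · refine Finset.sum_congr rfl fun p _ => ?_
    rw [Measure.smul_apply, smul_eq_mul, ENNReal.toReal_mul,
      ENNReal.toReal_ofReal (wt_nonneg h n p), Measure.dirac_apply' _ hS]
    congr 1
    by_cases hm : rs (cf p) ∈ S
    · rw [ind_pos hm, Set.indicator_of_mem hm]; simp
    · rw [ind_neg hm, Set.indicator_of_notMem hm]; simp
  · intro p _
    rw [Measure.smul_apply, smul_eq_mul]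
    exact ENNReal.mul_ne_top ENNReal.ofReal_ne_top (measure_ne_top _ _)

lemma En_one {u t : ℝ} (h : Adm u t) (n : ℕ) : En (d := d) u t n (fun _ => 1) = 1 := by
  unfold En
  rw [Ex_one char2 bC (vm u t) (cpl u t) (cpl u 0) (JJ d n) (vm_coupling u t _)]
  exact div_self (ZZ_pos h n).ne'

lemma Qm_prob {u t : ℝ} (h : Adm u t) (n : ℕ) : IsProbabilityMeasure (Qm (d := d) u t n) := by
  have h1 : (Qm (d := d) u t n).real Set.univ = 1 := by
    rw [Qm_real h n MeasurableSet.univ, ← En_one (d := d) h n]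
    congr 1
    funext c
    exact ind_pos (Set.mem_univ c)
  constructor
  have h2 : (Qm (d := d) u t n) Set.univ ≠ ⊤ := by
    intro htop
    rw [Measure.real, htop] at h1
    simp at h1
  rw [Measure.real] at h1
  rw [← ENNReal.ofReal_toReal h2, h1, ENNReal.ofReal_one]

/-- cylinder sets. -/
def cyl (T : Finset (Edg d)) (m : Om d) : Set (Om d) := {c | ∀ e ∈ T, c e = m e}

lemma cyl_eq (T : Finset (Edg d)) (m : Om d) :
    cyl T m = ⋂ e ∈ T, (fun c : Om d => c e) ⁻¹' {m e} := by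
  ext c; simp [cyl]

lemma isClopen_cyl (T : Finset (Edg d)) (m : Om d) : IsClopen (cyl T m) := by
  rw [cyl_eq]
  exact Set.Finite.isClopen_biInter (Finset.finite_toSet T) fun e _ =>
    (isClopen_discrete _).preimage (continuous_apply e)

lemma measurableSet_cyl (T : Finset (Edg d)) (m : Om d) : MeasurableSet (cyl T m) :=
  (isClopen_cyl T m).isOpen.measurableSet

/-- boundary of an edge. -/
def cE (e : Edg d) : Srs d := bC (Sum.inl e)

/-- boundary of the pattern `m` on `T` for the first current. -/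
def B1 (T : Finset (Edg d)) (m : Om d) : Srs d := ∑ e ∈ T, sc (m e).2.1 (cE e)
/-- boundary of the pattern `m` on `T` for the second current. -/
def B2 (T : Finset (Edg d)) (m : Om d) : Srs d := ∑ e ∈ T, sc (m e).2.2 (cE e)

/-- edges as indices. -/
def TT (T : Finset (Edg d)) : Finset (Idx d) := T.map Function.Embedding.inl

lemma isE_TT (T : Finset (Edg d)) : IsE (TT T) := by
  intro i hi
  obtain ⟨e, _, rfl⟩ := Finset.mem_map.1 hi
  exact ⟨e, rfl⟩

/-- the probability of a cylinder. -/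
noncomputable def pcyl (u : ℝ) (f g : Srs d → ℝ) (T : Finset (Edg d)) (m : Om d) : ℝ :=
  (∏ e ∈ T, vv u (m e)) * (Rl bC u f (B1 T m) (TT T) * Rl bC u g (B2 T m) (TT T))

/-- extension of a pattern to all indices. -/
def xt (m : Om d) : Idx d → St := Sum.elim m (fun _ => (false, false, false))

lemma En_cyl {u t : ℝ} (h : Adm u t) (n : ℕ) (T : Finset (Edg d)) (hT : T ⊆ boxE d n)
    (m : Om d) :
    En u t n (fun c => ind (c ∈ cyl T m)) = pcyl u (cn u t n) (cn u 0 n) T m := by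
  have hTJ : TT T ⊆ JJ d n := by
    intro i hi
    obtain ⟨e, he, rfl⟩ := Finset.mem_map.1 hi
    exact inl_mem_JJ.2 (hT he)
  have h1 : Ex bC (vm u t) (JJ d n) 0 0 (fun c => ind (rs c ∈ cyl T m)) =
      Ex bC (vm u t) (JJ d n) 0 0 (fun c => ind (∀ i ∈ TT T, c i = xt m i)) := by
    refine Ex_congr _ _ _ _ _ fun c => ind_congr ⟨fun hc i hi => ?_, fun hc e he => ?_⟩
    · obtain ⟨e, he, rfl⟩ := Finset.mem_map.1 hi
      exact hc e he
    · exact hc (Sum.inl e) (Finset.mem_map.2 ⟨e, he, rfl⟩)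
  unfold En
  rw [h1, Ex_cyl char2 bC (vm u t) (TT T) (xt m) hTJ,
    Ex_one char2 bC (vm u t) (cpl u t) (cpl u 0) _ (vm_coupling u t _)]
  have hu : ∀ s : ℝ, ∀ i ∈ TT T, cpl u s i = u := by
    intro s i hi
    obtain ⟨e, he, rfl⟩ := Finset.mem_map.1 hi
    rfl
  have e1 : bd₁ bC (TT T) (xt m) = B1 T m := by
    simp only [bd₁, TT, Finset.sum_map, B1]; rfl
  have e2 : bd₂ bC (TT T) (xt m) = B2 T m := by
    simp only [bd₂, TT, Finset.sum_map, B2]; rfl
  have e3 : ∏ i ∈ TT T, vm u t i (xt m i) = ∏ e ∈ T, vv u (m e) := by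
    simp only [TT, Finset.prod_map]; rfl
  rw [e1, e2, e3, zero_add, zero_add, pcyl, mul_div_assoc]
  congr 1
  unfold ZZ
  rw [mul_div_mul_comm, cor_sdiff char2 bC _ h.c0 u h.ne _ _ hTJ (hu t),
    cor_sdiff char2 bC _ h.zero.c0 u h.ne _ _ hTJ (hu 0)]
  rfl

/-! ### Iterated limits -/

/-- iterated limit, first `n → ∞` and then `t ↘ 0`. -/
def Lim (φ : ℝ → ℕ → ℝ) (a : ℝ) : Prop :=
  ∃ ψ : ℝ → ℝ, (∀ t ∈ Set.Ioc (0 : ℝ) 1, Tendsto (φ t) atTop (𝓝 (ψ t))) ∧
    Tendsto ψ (𝓝[>] 0) (𝓝 a)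

lemma Ioc_mem : Set.Ioc (0 : ℝ) 1 ∈ 𝓝[>] (0 : ℝ) := Ioc_mem_nhdsGT one_pos

lemma Lim.add {φ φ' : ℝ → ℕ → ℝ} {a a' : ℝ} (h : Lim φ a) (h' : Lim φ' a') :
    Lim (fun t n => φ t n + φ' t n) (a + a') := by
  obtain ⟨ψ, h1, h2⟩ := h
  obtain ⟨ψ', h1', h2'⟩ := h'
  exact ⟨fun t => ψ t + ψ' t, fun t ht => (h1 t ht).add (h1' t ht), h2.add h2'⟩

lemma Lim.mul {φ φ' : ℝ → ℕ → ℝ} {a a' : ℝ} (h : Lim φ a) (h' : Lim φ' a') :
    Lim (fun t n => φ t n * φ' t n) (a * a') := by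
  obtain ⟨ψ, h1, h2⟩ := h
  obtain ⟨ψ', h1', h2'⟩ := h'
  exact ⟨fun t => ψ t * ψ' t, fun t ht => (h1 t ht).mul (h1' t ht), h2.mul h2'⟩

lemma Lim.const (a : ℝ) : Lim (fun _ _ => a) a :=
  ⟨fun _ => a, fun _ _ => tendsto_const_nhds, tendsto_const_nhds⟩

lemma Lim.sum {κ : Type*} (K : Finset κ) {φ : κ → ℝ → ℕ → ℝ} {a : κ → ℝ}
    (h : ∀ k ∈ K, Lim (φ k) (a k)) : Lim (fun t n => ∑ k ∈ K, φ k t n) (∑ k ∈ K, a k) := by
  classical
  induction K using Finset.induction_on with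
  | empty => simpa using Lim.const 0
  | insert k K hk ih =>
    simp only [Finset.sum_insert hk]
    exact (h k (Finset.mem_insert_self _ _)).add
      (ih fun j hj => h j (Finset.mem_insert_of_mem hj))

lemma Lim.le {φ φ' : ℝ → ℕ → ℝ} {a a' : ℝ} (h : Lim φ a) (h' : Lim φ' a')
    (hle : ∀ t ∈ Set.Ioc (0 : ℝ) 1, ∀ᶠ n in atTop, φ t n ≤ φ' t n) : a ≤ a' := by
  obtain ⟨ψ, h1, h2⟩ := h
  obtain ⟨ψ', h1', h2'⟩ := h'
  refine le_of_tendsto_of_tendsto h2 h2' ?_
  filter_upwards [Ioc_mem] with t ht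
  exact le_of_tendsto_of_tendsto (h1 t ht) (h1' t ht) (hle t ht)

lemma Lim.unique {φ : ℝ → ℕ → ℝ} {a a' : ℝ} (h : Lim φ a) (h' : Lim φ a') : a = a' :=
  le_antisymm (h.le h' fun _ _ => Eventually.of_forall fun _ => le_rfl)
    (h'.le h fun _ _ => Eventually.of_forall fun _ => le_rfl)

lemma Lim.congr {φ φ' : ℝ → ℕ → ℝ} {a : ℝ} (h : Lim φ a)
    (he : ∀ t ∈ Set.Ioc (0 : ℝ) 1, ∀ᶠ n in atTop, φ t n = φ' t n) : Lim φ' a := by
  obtain ⟨ψ, h1, h2⟩ := h
  exact ⟨ψ, fun t ht => (h1 t ht).congr' (he t ht), h2⟩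

lemma eventually_subset_boxE (T : Finset (Edg d)) : ∀ᶠ n in atTop, T ⊆ boxE d n := by
  have : ∀ e ∈ T, ∀ᶠ n in atTop, e ∈ boxE d n := by
    intro e _
    have hs : src e ∈ box d (nrm (src e)) := mem_box.2 fun i => le_nrm _ i
    have ht : tgt e ∈ box d (nrm (tgt e)) := mem_box.2 fun i => le_nrm _ i
    filter_upwards [eventually_ge_atTop (nrm (src e)), eventually_ge_atTop (nrm (tgt e))]
      with n h1 h2
    rw [mem_boxE]
    exact ⟨box_mono h1 hs, box_mono h2 ht⟩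
  have h4 := (Filter.eventually_all_finset T).2 this
  filter_upwards [h4] with n hn i hi using hn i hi

section

variable {u : ℝ} (hu0 : 0 < u) (hu1 : u < 1)

include hu0 hu1

lemma Lim_cn (A : Srs d) : Lim (fun t n => cn u t n A) (cp u A) :=
  ⟨fun t => ci u t A, fun _ ht => tendsto_cn (adm_of hu0 hu1 ht) A, tendsto_cp hu0 hu1 A⟩

lemma adm0 : Adm u 0 := ⟨hu0, hu1, le_rfl, zero_le_one⟩

lemma Lim_cn0 (A : Srs d) : Lim (fun _ n => cn u 0 n A) (ci u 0 A) :=
  ⟨fun _ => ci u 0 A, fun _ _ => tendsto_cn (adm0 hu0 hu1) A, tendsto_const_nhds⟩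

omit hu0 hu1 in
lemma Lim_Rl {f : ℝ → ℕ → Srs d → ℝ} {g : Srs d → ℝ}
    (hf : ∀ A, Lim (fun t n => f t n A) (g A)) (A : Srs d) (T : Finset (Idx d)) :
    Lim (fun t n => Rl bC u (f t n) A T) (Rl bC u g A T) := by
  unfold Rl
  exact (Lim.const _).mul (Lim.sum _ fun S _ => (Lim.const _).mul (hf _))

lemma Lim_pcyl (T : Finset (Edg d)) (m : Om d) :
    Lim (fun t n => pcyl u (cn u t n) (cn u 0 n) T m) (pcyl u (cp u) (ci u 0) T m) :=
  (Lim.const _).mul ((Lim_Rl (Lim_cn hu0 hu1) _ _).mul (Lim_Rl (Lim_cn0 hu0 hu1) _ _))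

lemma Lim_Qm_cyl (T : Finset (Edg d)) (m : Om d) :
    Lim (fun t n => (Qm u t n).real (cyl T m)) (pcyl u (cp u) (ci u 0) T m) := by
  refine (Lim_pcyl hu0 hu1 T m).congr fun t ht => ?_
  filter_upwards [eventually_subset_boxE T] with n hn
  rw [Qm_real (adm_of hu0 hu1 ht) n (measurableSet_cyl T m),
    En_cyl (adm_of hu0 hu1 ht) n T hn m]

/-- **existence of the infinite-volume measure**. -/
theorem exists_P : ∃ P : Measure (Om d), IsProbabilityMeasure P ∧
    ∀ T m, P.real (cyl T m) = pcyl u (cp u) (ci u 0) T m := by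
  -- first limit
  have h1 : ∀ t : Set.Ioc (0 : ℝ) 1, ∃ P : Measure (Om d), IsProbabilityMeasure P ∧
      ∀ k : Finset (Edg d) × Om d, P.real (cyl k.1 k.2) =
        pcyl u (ci u t.1) (ci u 0) k.1 k.2 := by
    intro t
    have ht := adm_of hu0 hu1 t.2
    refine exists_limit_measure (l := atTop) (fun n : ℕ => Qm u t.1 n) (fun n => Qm_prob ht n)
      (fun k : Finset (Edg d) × Om d => cyl k.1 k.2) (fun k => isClopen_cyl _ _) _ fun k => ?_
    have h2 : Tendsto (fun n => pcyl u (cn u t.1 n) (cn u 0 n) k.1 k.2) atTop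
        (𝓝 (pcyl u (ci u t.1) (ci u 0) k.1 k.2)) :=
      ((Rl_tendsto u _ _ (tendsto_cn ht) _ _).mul
        (Rl_tendsto u _ _ (tendsto_cn ht.zero) _ _)).const_mul _
    refine h2.congr' ?_
    filter_upwards [eventually_subset_boxE k.1] with n hn
    rw [Qm_real ht n (measurableSet_cyl _ _), En_cyl ht n k.1 hn k.2]
  choose P hP1 hP2 using h1
  -- second limit
  let Q : ℝ → Measure (Om d) := fun t =>
    if h : t ∈ Set.Ioc (0 : ℝ) 1 then P ⟨t, h⟩ else P ⟨1, by norm_num⟩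
  have hQ : ∀ t, IsProbabilityMeasure (Q t) := by
    intro t
    by_cases h : t ∈ Set.Ioc (0 : ℝ) 1
    · simp only [Q, h, dite_true]; exact hP1 _
    · simp only [Q, h, dite_false]; exact hP1 _
  obtain ⟨R, hR1, hR2⟩ := exists_limit_measure (l := 𝓝[>] (0 : ℝ)) Q hQ
    (fun k : Finset (Edg d) × Om d => cyl k.1 k.2) (fun k => isClopen_cyl _ _)
    (fun k => pcyl u (cp u) (ci u 0) k.1 k.2) (fun k => by
      have h2 : Tendsto (fun t => pcyl u (ci u t) (ci u 0) k.1 k.2) (𝓝[>] 0)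
          (𝓝 (pcyl u (cp u) (ci u 0) k.1 k.2)) :=
        ((Rl_tendsto u _ _ (tendsto_cp hu0 hu1) _ _).mul tendsto_const_nhds).const_mul _
      refine h2.congr' ?_
      filter_upwards [Ioc_mem] with t ht
      simp only [Q, ht, dite_true]
      exact (hP2 ⟨t, ht⟩ k).symm)
  exact ⟨R, hR1, fun T m => hR2 (T, m)⟩

end

/-! ### Local events -/

/-- the event `S` only depends on the edges in `T`. -/
def IsLoc (T : Finset (Edg d)) (S : Set (Om d)) : Prop :=
  ∀ c c' : Om d, (∀ e ∈ T, c e = c' e) → c ∈ S → c' ∈ S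

lemma IsLoc.iff {T : Finset (Edg d)} {S : Set (Om d)} (h : IsLoc T S) {c c' : Om d}
    (hc : ∀ e ∈ T, c e = c' e) : c ∈ S ↔ c' ∈ S :=
  ⟨h c c' hc, h c' c fun e he => (hc e he).symm⟩

open Classical in
/-- extension of a pattern on `T`. -/
noncomputable def ext (T : Finset (Edg d)) (b : T → St) : Om d := fun e =>
  if h : e ∈ T then b ⟨e, h⟩ else (false, false, false)

lemma ext_apply {T : Finset (Edg d)} (b : T → St) {e : Edg d} (he : e ∈ T) :
    ext T b e = b ⟨e, he⟩ := by simp [ext, he]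

lemma loc_eq {T : Finset (Edg d)} {S : Set (Om d)} (hS : IsLoc T S) :
    S = ⋃ b ∈ ({b | ext T b ∈ S} : Set (T → St)).toFinite.toFinset, cyl T (ext T b) := by
  ext c
  simp only [Set.Finite.mem_toFinset, Set.mem_ofPred_eq, Set.mem_iUnion, exists_prop]
  constructor
  · intro hc
    refine ⟨fun e => c e.1, ?_, ?_⟩
    · exact hS c _ (fun e he => by rw [ext_apply _ he]) hc
    · intro e he; rw [ext_apply _ he]
  · rintro ⟨b, hb, hc⟩
    exact hS _ _ (fun e he => (hc e he).symm) hb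

lemma IsLoc.measurableSet {T : Finset (Edg d)} {S : Set (Om d)} (hS : IsLoc T S) :
    MeasurableSet S := by
  rw [loc_eq hS]
  exact Finset.measurableSet_biUnion _ fun b _ => measurableSet_cyl _ _

lemma cyl_disjoint {T : Finset (Edg d)} {b b' : T → St} (h : b ≠ b') :
    Disjoint (cyl T (ext T b)) (cyl T (ext T b')) := by
  rw [Set.disjoint_left]
  intro c hc hc'
  refine h (funext fun e => ?_)
  have h1 := hc e.1 e.2
  have h2 := hc' e.1 e.2
  rw [ext_apply _ e.2] at h1 h2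
  exact h1.symm.trans h2

lemma real_loc {T : Finset (Edg d)} {S : Set (Om d)} (hS : IsLoc T S) (Q : Measure (Om d))
    [IsFiniteMeasure Q] :
    Q.real S = ∑ b ∈ ({b | ext T b ∈ S} : Set (T → St)).toFinite.toFinset,
      Q.real (cyl T (ext T b)) := by
  conv_lhs => rw [loc_eq hS]
  rw [measureReal_biUnion_finset]
  · intro b _ b' _ h
    exact cyl_disjoint h
  · intro b _
    exact measurableSet_cyl _ _

/-- local events have converging probabilities. -/
lemma Lim_loc {u : ℝ} (hu0 : 0 < u) (hu1 : u < 1) (P : Measure (Om d)) [IsProbabilityMeasure P]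
    (hP : ∀ T m, P.real (cyl T m) = pcyl u (cp u) (ci u 0) T m)
    {T : Finset (Edg d)} {S : Set (Om d)} (hS : IsLoc T S) :
    Lim (fun t n => (Qm u t n).real S) (P.real S) := by
  rw [real_loc hS P]
  have h1 : Lim (fun t n => ∑ b ∈ ({b | ext T b ∈ S} : Set (T → St)).toFinite.toFinset,
      (Qm u t n).real (cyl T (ext T b)))
      (∑ b ∈ ({b | ext T b ∈ S} : Set (T → St)).toFinite.toFinset, P.real (cyl T (ext T b))) := by
    refine Lim.sum _ fun b _ => ?_
    rw [hP]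
    exact Lim_Qm_cyl hu0 hu1 T _
  refine h1.congr fun t ht => Eventually.of_forall fun n => ?_
  have := Qm_prob (d := d) (adm_of hu0 hu1 ht) n
  exact (real_loc hS _).symm

end Pool.Agent.Hhelper76.DC
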