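import Pool.Agent.Hhelper76.DC.Det

/-!
# The types of bridges
-/

open Finset Filter Topology MeasureTheory

namespace Pool.Agent.Hhelper76.DC

variable {d : ℕ}

lemma tω_sdiff' (z : Vtx d) (e : Edg d) (ω : Set (Edg d)) :
    tω z (ω \ {trE z e}) = tω z ω \ {e} := by
  ext f
  simp only [tω, Set.mem_ofPred_eq, Set.mem_sdiff, Set.mem_singleton_iff,
    (trE z).injective.eq_iff]

lemma br_tω {z : Vtx d} {e : Edg d} {ω : Set (Edg d)} : Br e (tω z ω) ↔ Br (trE z e) ω := by
  unfold Br
  rw [← tω_sdiff', infC_tω, infC_tω, conn_tω, src_trE, tgt_trE]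

lemma sh_bS (z : Vtx d) (e : Edg d) (s : St) : sh z ⁻¹' bS e s = bS (trE z e) s := by
  ext c
  simp only [Set.mem_preimage, bS, Set.mem_ofPred_eq, om_sh, br_tω]
  rfl

section

variable {u : ℝ} {P : Measure (Om d)} (hP : IsP u P)

include hP

lemma IsP.odd_open (e : Edg d) : ∀ᵐ c ∂P, (c e).2.2 = true → (c e).1 = true := by
  filter_upwards [hP.ae_vT {e}] with c hc h
  by_contra hcon
  apply hc
  unfold vT
  rw [Finset.prod_singleton]
  rw [Bool.not_eq_true] at hcon
  simp [vv, h, hcon]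

/-- the product lemma. -/
lemma IsP.bS_mul (i₀ : Fin d) (e : Edg d) (s s' : St)
    (h : ∀ᶠ k : ℕ in atTop, P.real (bS e s ∩ bS (trE (zk i₀ k) e) s') = 0) :
    P.real (bS e s) * P.real (bS e s') = 0 := by
  have := hP.prob
  have h1 : ∀ j, P.real (dS j e s) * P.real (dS j e s') ≤
      (P.real (dS j e s) - P.real (bS e s)) + (P.real (dS j e s') - P.real (bS e s')) := by
    intro j
    have hm := hP.mix_loc i₀ (isLoc_dS j e s) (isLoc_dS j e s')
    refine le_of_tendsto hm ?_
    filter_upwards [h] with k hk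
    have hsub : dS j e s ∩ sh (zk i₀ k) ⁻¹' dS j e s' ⊆
        (bS e s ∩ bS (trE (zk i₀ k) e) s') ∪
        ((dS j e s \ bS e s) ∪ sh (zk i₀ k) ⁻¹' (dS j e s' \ bS e s')) := by
      rintro c ⟨hc1, hc2⟩
      by_cases g1 : c ∈ bS e s
      · by_cases g2 : c ∈ sh (zk i₀ k) ⁻¹' bS e s'
        · left
          rw [sh_bS] at g2
          exact ⟨g1, g2⟩
        · right; right
          exact ⟨hc2, g2⟩
      · right; left
        exact ⟨hc1, g1⟩
    have e1 := measureReal_mono (μ := P) hsub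
    have e2 := measureReal_union_le (μ := P) (bS e s ∩ bS (trE (zk i₀ k) e) s')
      ((dS j e s \ bS e s) ∪ sh (zk i₀ k) ⁻¹' (dS j e s' \ bS e s'))
    have e3 := measureReal_union_le (μ := P) (dS j e s \ bS e s)
      (sh (zk i₀ k) ⁻¹' (dS j e s' \ bS e s'))
    have e4 : P.real (sh (zk i₀ k) ⁻¹' (dS j e s' \ bS e s')) = P.real (dS j e s' \ bS e s') :=
      hP.real_sh _ (MeasurableSet.diff (measurableSet_dS j e s') (measurableSet_bS e s'))
    have e5 : P.real (dS j e s \ bS e s) = P.real (dS j e s) - P.real (bS e s) :=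
      measureReal_sdiff (bS_subset_dS j e s) (measurableSet_bS e s)
    have e6 : P.real (dS j e s' \ bS e s') = P.real (dS j e s') - P.real (bS e s') :=
      measureReal_sdiff (bS_subset_dS j e s') (measurableSet_bS e s')
    linarith
  have h2 : P.real (bS e s) * P.real (bS e s') ≤ (P.real (bS e s) - P.real (bS e s)) +
      (P.real (bS e s') - P.real (bS e s')) :=
    le_of_tendsto_of_tendsto' ((tendsto_dS P e s).mul (tendsto_dS P e s'))
      (((tendsto_dS P e s).sub_const _).add ((tendsto_dS P e s').sub_const _)) h1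
  have h3 : 0 ≤ P.real (bS e s) * P.real (bS e s') := mul_nonneg measureReal_nonneg
    measureReal_nonneg
  linarith

/-- the limit of finite-volume comparisons. -/
lemma IsP.compare (e : Edg d) (s s' : St) (a b : ℝ)
    (h : ∀ t, Adm u t → ∀ k, ∀ᶠ n in atTop,
      a * En u t n (fun c => ind (c e = s) * ind (Dk k e (om c))) ≤
      b * En u t n (fun c => ind (c e = s') * ind (Dk k e (om c)))) :
    a * P.real (bS e s) ≤ b * P.real (bS e s') := by
  have := hP.prob
  refine le_of_tendsto_of_tendsto' ((tendsto_dS P e s).const_mul a)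
    ((tendsto_dS P e s').const_mul b) fun k => ?_
  have l1 := (Lim.const a).mul (Lim_loc hP.u0 hP.u1 P hP.eq (isLoc_dS k e s))
  have l2 := (Lim.const b).mul (Lim_loc hP.u0 hP.u1 P hP.eq (isLoc_dS k e s'))
  refine l1.le l2 fun t ht => ?_
  have hadm := adm_of hP.u0 hP.u1 ht
  filter_upwards [h t hadm k] with n hn
  rw [Qm_real hadm n (measurableSet_dS k e s), Qm_real hadm n (measurableSet_dS k e s')]
  simp_rw [ind_dS]
  exact hn

lemma IsP.eps_le (e : Edg d) : (1 - u ^ 2) * P.real (bS e s11) ≤ u ^ 2 * P.real (bS e s0) := by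
  refine hP.compare e s11 s0 _ _ fun t ht k => ?_
  filter_upwards [eventually_subset_boxE {e}] with n hn
  exact En_s11_le ht n (hn (Finset.mem_singleton_self e)) _ (ind_Dk k e) (trD_Dk k e)
    fun c => ind_nonneg _

lemma IsP.delta_le (e : Edg d) : P.real (bS e s01) ≤ P.real (bS e s10) := by
  have := hP.compare e s01 s10 1 1 fun t ht k => by
    filter_upwards [eventually_subset_boxE {e}] with n hn
    rw [one_mul, one_mul]
    exact En_s01_le ht n (hn (Finset.mem_singleton_self e)) _ (ind_Dk k e) (trD_Dk k e)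
      fun c => ind_nonneg _
  linarith

lemma IsP.beta_eq (e : Edg d) : (1 - u ^ 2) * P.real (bS e s00) = u ^ 2 * P.real (bS e s0) := by
  have hS : MeasurableSet {c : Om d | Br e (om c)} := by
    have : {c : Om d | Br e (om c)} =
        {c : Om d | InfC (om c \ {e}) (src e)} ∩ ({c : Om d | InfC (om c \ {e}) (tgt e)} ∩
          {c : Om d | Conn (om c \ {e}) (src e) (tgt e)}ᶜ) := rfl
    rw [this]
    have hm : MSet (fun c : Om d => om c \ {e}) := mset_om.sdiff _
    exact (hm.infC _).inter ((hm.infC _).inter (hm.conn _ _).compl)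
  have h1 := hP.fe {e} (fun _ => s00) (fun _ => s0) (by simp [B1]) (by simp [B2]) hS
  have e1 : vT u {e} (fun _ => s0) = 1 - u ^ 2 := by
    unfold vT
    rw [Finset.prod_singleton]
    exact vv_s0 u
  have e2 : vT u {e} (fun _ => s00) = u ^ 2 := by
    unfold vT
    rw [Finset.prod_singleton]
    exact vv_s00 u
  have e3 : cyl {e} (fun _ => s0) ∩ {c : Om d | Br e (om c)} = bS e s0 := by
    ext c
    simp [cyl, bS]
  have e4 : cyl {e} (fun _ => s00) ∩ rep {e} (fun _ => s0) ⁻¹' {c : Om d | Br e (om c)} =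
      bS e s00 := by
    ext c
    simp only [cyl, bS, Set.mem_inter_iff, Set.mem_ofPred_eq, Finset.mem_singleton, forall_eq,
      Set.mem_preimage]
    refine and_congr_right fun _ => ?_
    have : om (rep {e} (fun _ => s0) c) \ {e} = om c \ {e} := by
      ext f
      simp only [om, rep, Set.mem_sdiff, Set.mem_ofPred_eq, Set.mem_singleton_iff]
      refine and_congr_left fun hf => ?_
      rw [Finset.piecewise_eq_of_notMem _ _ _ (by simpa using hf)]
    unfold Br
    rw [this]
  rw [e1, e2, e3, e4] at h1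
  exact h1

omit hP in
lemma zk_trE_ne (i₀ : Fin d) (e : Edg d) {k : ℕ} (hk : 1 ≤ k) : trE (zk i₀ k) e ≠ e := by
  intro h
  have h1 : e.1 + zk i₀ k = e.1 := congrArg Prod.fst h
  have h2 : zk i₀ k = 0 := by simpa using h1
  have h3 := congrFun h2 i₀
  rw [zk, Pi.single_eq_same, Pi.zero_apply] at h3
  omega

lemma IsP.bk2 (hd : 0 < d) : ∀ᵐ c ∂P, BK2 (om c) := hP.bk hd

/-- types `s0`, `s00` and `s11` are null. -/
lemma IsP.alpha_zero (hd : 0 < d) (e : Edg d) : P.real (bS e s0) = 0 := by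
  have := hP.prob
  have h0 := adm0 hP.u0 hP.u1
  have h1 := hP.bS_mul ⟨0, hd⟩ e s0 s00 (by
    filter_upwards [eventually_ge_atTop 1] with k hk
    rw [measureReal_eq_zero_iff]
    have : ∀ᵐ c ∂P, c ∉ bS e s0 ∩ bS (trE (zk ⟨0, hd⟩ k) e) s00 := by
      filter_upwards [hP.bk2 hd] with c hc hmem
      obtain ⟨⟨a1, a2⟩, ⟨b1, b2⟩⟩ := hmem
      refine closed_open hc (e := e) (e' := trE (zk ⟨0, hd⟩ k) e) ?_ ?_ a2 b2
      · simp [om, a1]
      · simp [om, b1]
    exact measure_eq_zero_iff_ae_notMem.2 this)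
  have h2 := hP.beta_eq e
  have h3 := h0.pos
  have hu := hP.u0
  rcases mul_eq_zero.1 h1 with h | h
  · exact h
  · rw [h, mul_zero] at h2
    have h4 : u ^ 2 ≠ 0 := by positivity
    exact (mul_eq_zero.1 h2.symm).resolve_left h4

lemma IsP.beta_zero (hd : 0 < d) (e : Edg d) : P.real (bS e s00) = 0 := by
  have h2 := hP.beta_eq e
  rw [hP.alpha_zero hd e, mul_zero] at h2
  exact (mul_eq_zero.1 h2).resolve_left (adm0 hP.u0 hP.u1).ne

lemma IsP.eps_zero (hd : 0 < d) (e : Edg d) : P.real (bS e s11) = 0 := by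
  have h2 := hP.eps_le e
  rw [hP.alpha_zero hd e, mul_zero] at h2
  have h3 := (adm0 hP.u0 hP.u1).pos
  have h4 : 0 ≤ P.real (bS e s11) := measureReal_nonneg
  by_contra hne
  have h5 : 0 < P.real (bS e s11) := lt_of_le_of_ne h4 (Ne.symm hne)
  have := mul_pos h3 h5
  linarith

lemma IsP.delta_zero (hd : 0 < d) (e : Edg d) : P.real (bS e s01) = 0 := by
  have := hP.prob
  have h1 := hP.bS_mul ⟨0, hd⟩ e s10 s01 (by
    filter_upwards [eventually_ge_atTop 1] with k hk
    rw [measureReal_eq_zero_iff]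
    have : ∀ᵐ c ∂P, c ∉ bS e s10 ∩ bS (trE (zk ⟨0, hd⟩ k) e) s01 := by
      filter_upwards [hP.bk2 hd, ae_all_iff.2 fun x => hP.nosrc x,
        ae_all_iff.2 fun e => hP.odd_open e] with c hc hs ho hmem
      exact no_both hc hs ho hmem.1.1 hmem.2.1 hmem.1.2 hmem.2.2
    exact measure_eq_zero_iff_ae_notMem.2 this)
  have h2 := hP.delta_le e
  have h3 : 0 ≤ P.real (bS e s01) := measureReal_nonneg
  rcases mul_eq_zero.1 h1 with h | h
  · linarith
  · exact h

end

end Pool.Agent.Hhelper76.DC
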