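import Pool.Agent.Hhelper76.DC.Key

/-!
# Connectivity in subgraphs of `ℤ^d`
-/

open Finset Filter Topology MeasureTheory

namespace Pool.Agent.Hhelper76.DC

variable {d : ℕ}

/-- adjacency in the subgraph with edge set `ω`. -/
def Ad (ω : Set (Edg d)) (x y : Vtx d) : Prop :=
  ∃ e ∈ ω, (src e = x ∧ tgt e = y) ∨ (src e = y ∧ tgt e = x)

/-- connectivity in the subgraph with edge set `ω`. -/
def Conn (ω : Set (Edg d)) : Vtx d → Vtx d → Prop := Relation.ReflTransGen (Ad ω)

/-- the component of `x` is infinite. -/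
def InfC (ω : Set (Edg d)) (x : Vtx d) : Prop := {y | Conn ω x y}.Infinite

lemma Ad.symm {ω : Set (Edg d)} {x y : Vtx d} (h : Ad ω x y) : Ad ω y x := by
  obtain ⟨e, he, h | h⟩ := h
  · exact ⟨e, he, Or.inr h⟩
  · exact ⟨e, he, Or.inl h⟩

lemma Conn.refl (ω : Set (Edg d)) (x : Vtx d) : Conn ω x x := Relation.ReflTransGen.refl

lemma Conn.symm {ω : Set (Edg d)} {x y : Vtx d} (h : Conn ω x y) : Conn ω y x := by
  induction h with
  | refl => exact Relation.ReflTransGen.refl
  | tail _ h ih => exact Relation.ReflTransGen.head h.symm ih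

lemma Conn.trans {ω : Set (Edg d)} {x y z : Vtx d} (h : Conn ω x y) (h' : Conn ω y z) :
    Conn ω x z := Relation.ReflTransGen.trans h h'

lemma Ad.mono {ω ω' : Set (Edg d)} (hω : ω ⊆ ω') {x y : Vtx d} (h : Ad ω x y) : Ad ω' x y := by
  obtain ⟨e, he, h⟩ := h
  exact ⟨e, hω he, h⟩

lemma Conn.mono {ω ω' : Set (Edg d)} (hω : ω ⊆ ω') {x y : Vtx d} (h : Conn ω x y) :
    Conn ω' x y := Relation.ReflTransGen.mono (fun _ _ h => h.mono hω) _ _ h

lemma conn_of_mem {ω : Set (Edg d)} {e : Edg d} (he : e ∈ ω) : Conn ω (src e) (tgt e) :=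
  Relation.ReflTransGen.single ⟨e, he, Or.inl ⟨rfl, rfl⟩⟩

lemma InfC.mono {ω ω' : Set (Edg d)} (hω : ω ⊆ ω') {x : Vtx d} (h : InfC ω x) : InfC ω' x :=
  Set.Infinite.mono (fun _ hy => Conn.mono hω hy) h

lemma InfC.of_conn {ω : Set (Edg d)} {x y : Vtx d} (h : InfC ω x) (hxy : Conn ω x y) :
    InfC ω y :=
  Set.Infinite.mono (fun _ hz => hxy.symm.trans hz) h

lemma mem_box_nrm (x : Vtx d) : x ∈ box d (nrm x) := mem_box.2 fun i => le_nrm x i

lemma infC_iff {ω : Set (Edg d)} {x : Vtx d} :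
    InfC ω x ↔ ∀ k : ℕ, ∃ y, y ∉ box d k ∧ Conn ω x y := by
  constructor
  · intro h k
    by_contra hcon
    push Not at hcon
    refine h ((box d k).finite_toSet.subset fun y hy => ?_)
    by_contra hy'
    exact hcon y hy' hy
  · intro h hfin
    obtain ⟨k, hk⟩ : ∃ k : ℕ, ∀ y ∈ {y | Conn ω x y}, y ∈ box d k := by
      refine ⟨hfin.toFinset.sup nrm, fun y hy => ?_⟩
      exact box_mono (Finset.le_sup (f := nrm) (hfin.mem_toFinset.2 hy)) (mem_box_nrm y)
    obtain ⟨y, hy, hc⟩ := h k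
    exact hy (hk y hc)

/-! ### Measurability -/

section Meas

variable {Ω : Type*} [MeasurableSpace Ω]

/-- a random edge set. -/
def MSet (g : Ω → Set (Edg d)) : Prop := ∀ e, MeasurableSet {c | e ∈ g c}

lemma MSet.ad {g : Ω → Set (Edg d)} (hg : MSet g) (x y : Vtx d) :
    MeasurableSet {c | Ad (g c) x y} := by
  have : {c | Ad (g c) x y} =
      ⋃ e ∈ {e : Edg d | (src e = x ∧ tgt e = y) ∨ (src e = y ∧ tgt e = x)}, {c | e ∈ g c} := by
    ext c
    simp only [Ad, Set.mem_ofPred_eq, Set.mem_iUnion, exists_prop]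
    constructor
    · rintro ⟨e, he, h⟩; exact ⟨e, h, he⟩
    · rintro ⟨e, h, he⟩; exact ⟨e, he, h⟩
  rw [this]
  exact MeasurableSet.biUnion (Set.to_countable _) fun e _ => hg e

/-- connected in at most `n` steps. -/
def CN (ω : Set (Edg d)) : ℕ → Vtx d → Vtx d → Prop
  | 0, x, y => x = y
  | n + 1, x, y => ∃ z, CN ω n x z ∧ Ad ω z y

lemma conn_iff_CN {ω : Set (Edg d)} {x y : Vtx d} : Conn ω x y ↔ ∃ n, CN ω n x y := by
  constructor
  · intro h
    induction h with
    | refl => exact ⟨0, rfl⟩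
    | tail _ h ih =>
      obtain ⟨n, hn⟩ := ih
      exact ⟨n + 1, _, hn, h⟩
  · rintro ⟨n, hn⟩
    induction n generalizing y with
    | zero => rw [show x = y from hn]; exact Conn.refl _ _
    | succ n ih =>
      obtain ⟨z, hz, hzy⟩ := hn
      exact Relation.ReflTransGen.tail (ih hz) hzy

lemma MSet.cn {g : Ω → Set (Edg d)} (hg : MSet g) (n : ℕ) (x y : Vtx d) :
    MeasurableSet {c | CN (g c) n x y} := by
  induction n generalizing y with
  | zero =>
    by_cases h : x = y
    · simp [CN, h]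
    · simp [CN, h]
  | succ n ih =>
    have : {c | CN (g c) (n + 1) x y} = ⋃ z, {c | CN (g c) n x z} ∩ {c | Ad (g c) z y} := by
      ext c
      simp [CN]
    rw [this]
    exact MeasurableSet.iUnion fun z => (ih z).inter (hg.ad z y)

lemma MSet.conn {g : Ω → Set (Edg d)} (hg : MSet g) (x y : Vtx d) :
    MeasurableSet {c | Conn (g c) x y} := by
  have : {c | Conn (g c) x y} = ⋃ n, {c | CN (g c) n x y} := by
    ext c
    simp [conn_iff_CN]
  rw [this]
  exact MeasurableSet.iUnion fun n => hg.cn n x y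

lemma MSet.infC {g : Ω → Set (Edg d)} (hg : MSet g) (x : Vtx d) :
    MeasurableSet {c | InfC (g c) x} := by
  have : {c | InfC (g c) x} = ⋂ k : ℕ, ⋃ y ∈ {y : Vtx d | y ∉ box d k}, {c | Conn (g c) x y} := by
    ext c
    simp only [infC_iff, Set.mem_ofPred_eq, Set.mem_iInter, Set.mem_iUnion, exists_prop]
  rw [this]
  exact MeasurableSet.iInter fun k => MeasurableSet.biUnion (Set.to_countable _) fun y _ =>
    hg.conn x y

lemma MSet.sdiff {g : Ω → Set (Edg d)} (hg : MSet g) (S : Set (Edg d)) :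
    MSet (fun c => g c \ S) := by
  intro e
  by_cases he : e ∈ S
  · simp [he]
  · simpa [he] using hg e

lemma MSet.inter {g : Ω → Set (Edg d)} (hg : MSet g) (S : Set (Edg d)) :
    MSet (fun c => g c ∩ S) := by
  intro e
  by_cases he : e ∈ S
  · simpa [he] using hg e
  · simp [he]

end Meas

/-- the open edges of a configuration. -/
def om (c : Om d) : Set (Edg d) := {e | (c e).1 = true}

lemma mset_om : MSet (om : Om d → Set (Edg d)) := by
  intro e
  have : {c : Om d | e ∈ om c} = (fun c : Om d => c e) ⁻¹' {s | s.1 = true} := rfl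
  rw [this]
  exact measurable_pi_apply e (Set.to_countable _).measurableSet

/-! ### Algebraic description of connectivity -/

lemma bC_inl (e : Edg d) : cE e = dl (src e) + dl (tgt e) := rfl

lemma rch_of_conn {G : Finset (Edg d)} {c : Om d} {a b : Vtx d}
    (h : Conn (om c ∩ (G : Set (Edg d))) a b) : Rch G (dl a + dl b) c := by
  classical
  induction h with
  | refl => exact ⟨∅, by simp, by simp, by simp [char2]⟩
  | @tail y z _ hst ih =>
    obtain ⟨K, hK, hop, hD⟩ := ih
    obtain ⟨e, ⟨he1, he2⟩, hst⟩ := hst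
    refine ⟨symmDiff K {e}, ?_, ?_, ?_⟩
    · intro e' he'
      rw [Finset.mem_symmDiff, Finset.mem_singleton] at he'
      rcases he' with he' | he'
      · exact hK he'.1
      · rw [he'.1]; exact he2
    · intro e' he'
      rw [Finset.mem_symmDiff, Finset.mem_singleton] at he'
      rcases he' with he' | he'
      · exact hop _ he'.1
      · rw [he'.1]; exact he1
    · have h1 := bd_symmDiff char2 (cE (d := d)) K {e}
      unfold bd at h1
      rw [h1, hD, Finset.sum_singleton, bC_inl]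
      rcases hst with ⟨h1, h2⟩ | ⟨h1, h2⟩
      · rw [h1, h2, add_assoc, ← add_assoc (dl y), char2, zero_add]
      · rw [h1, h2, add_comm (dl z), add_assoc, ← add_assoc (dl y), char2, zero_add]

lemma conn_of_rch {G : Finset (Edg d)} {c : Om d} {a b : Vtx d}
    (h : Rch G (dl a + dl b) c) : Conn (om c ∩ (G : Set (Edg d))) a b := by
  classical
  obtain ⟨K, hK, hop, hD⟩ := h
  by_contra hcon
  let V₀ : Finset (Vtx d) := insert a (K.image src ∪ K.image tgt)
  let M : Finset (Vtx d) := V₀.filter fun v => Conn (om c ∩ (G : Set (Edg d))) a v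
  have ha : a ∈ M := Finset.mem_filter.2 ⟨Finset.mem_insert_self _ _, Conn.refl _ _⟩
  have hb : b ∉ M := fun hb => hcon (Finset.mem_filter.1 hb).2
  have hφ : ∀ x : Vtx d, ∑ v ∈ M, dl x v = if x ∈ M then 1 else 0 := by
    intro x
    unfold dl
    simp only [Pi.single_apply]
    rw [Finset.sum_ite_eq']
  have h1 : ∑ v ∈ M, (∑ e ∈ K, cE e) v = 0 := by
    simp only [Finset.sum_apply]
    rw [Finset.sum_comm]
    refine Finset.sum_eq_zero fun e he => ?_
    simp only [bC_inl, Pi.add_apply]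
    rw [Finset.sum_add_distrib, hφ, hφ]
    have hs : src e ∈ V₀ := Finset.mem_insert_of_mem
      (Finset.mem_union_left _ (Finset.mem_image_of_mem _ he))
    have ht : tgt e ∈ V₀ := Finset.mem_insert_of_mem
      (Finset.mem_union_right _ (Finset.mem_image_of_mem _ he))
    have hconn : Conn (om c ∩ (G : Set (Edg d))) (src e) (tgt e) :=
      conn_of_mem ⟨hop e he, hK he⟩
    have hiff : src e ∈ M ↔ tgt e ∈ M := by
      simp only [M, Finset.mem_filter, hs, ht, true_and]
      exact ⟨fun h => h.trans hconn, fun h => h.trans hconn.symm⟩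
    by_cases hm : src e ∈ M
    · rw [if_pos hm, if_pos (hiff.1 hm)]; decide
    · rw [if_neg hm, if_neg (fun h => hm (hiff.2 h))]; decide
  rw [hD] at h1
  simp only [Pi.add_apply] at h1
  rw [Finset.sum_add_distrib, hφ, hφ, if_pos ha, if_neg hb] at h1
  exact absurd h1 (by decide)

lemma rch_iff {G : Finset (Edg d)} {c : Om d} {a b : Vtx d} :
    Rch G (dl a + dl b) c ↔ Conn (om c ∩ (G : Set (Edg d))) a b :=
  ⟨conn_of_rch, rch_of_conn⟩

/-! ### Finite modifications and infinite components -/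

/-- removing finitely many edges keeps an infinite piece. -/
lemma exists_infC {ω : Set (Edg d)} {x : Vtx d} (h : InfC ω x) (F : Set (Edg d))
    (B : Finset (Vtx d)) (hx : x ∈ B) (hF : ∀ e ∈ F, src e ∈ B ∧ tgt e ∈ B) :
    ∃ x' ∈ B, Conn ω x x' ∧ InfC (ω \ F) x' := by
  classical
  have h1 : ∀ y, Conn ω x y → ∃ x' ∈ B, Conn ω x x' ∧ Conn (ω \ F) x' y := by
    intro y hy
    induction hy with
    | refl => exact ⟨x, hx, Conn.refl _ _, Conn.refl _ _⟩
    | @tail y z hxy hst ih =>
      obtain ⟨x', hx', h1, h2⟩ := ih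
      obtain ⟨e, he, hst⟩ := hst
      by_cases heF : e ∈ F
      · have hz : z ∈ B := by
          rcases hst with ⟨_, h⟩ | ⟨h, _⟩
          · rw [← h]; exact (hF e heF).2
          · rw [← h]; exact (hF e heF).1
        exact ⟨z, hz, Relation.ReflTransGen.tail hxy ⟨e, he, hst⟩, Conn.refl _ _⟩
      · exact ⟨x', hx', h1, Relation.ReflTransGen.tail h2 ⟨e, ⟨he, heF⟩, hst⟩⟩
  by_contra hcon
  push Not at hcon
  refine h (Set.Finite.subset (s := ⋃ x' ∈ (B.filter fun x' => Conn ω x x' : Finset (Vtx d)),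
    {y | Conn (ω \ F) x' y}) ?_ ?_)
  · refine Set.Finite.biUnion (Finset.finite_toSet _) fun x' hx' => ?_
    have hx'' := Finset.mem_filter.1 hx'
    have := hcon x' hx''.1 hx''.2
    rw [InfC, Set.not_infinite] at this
    exact this
  · intro y hy
    obtain ⟨x', hx', h2, h3⟩ := h1 y hy
    simp only [Set.mem_iUnion]
    exact ⟨x', Finset.mem_filter.2 ⟨hx', h2⟩, h3⟩

end Pool.Agent.Hhelper76.DC
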