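import Pool.Agent.Hhelper76.DC.Meas

/-!
# Translation invariance, mixing and finite energy of the infinite-volume measure
-/

open Finset Filter Topology MeasureTheory

namespace Pool.Agent.Hhelper76.DC

variable {d : ℕ}

/-- `P` is the infinite-volume measure of the triple model. -/
structure IsP (u : ℝ) (P : Measure (Om d)) : Prop where
  u0 : 0 < u
  u1 : u < 1
  prob : IsProbabilityMeasure P
  eq : ∀ T m, P.real (cyl T m) = pcyl u (cp u) (ci u 0) T m

lemma ext_cyl {μ ν : Measure (Om d)} [IsFiniteMeasure μ] [IsFiniteMeasure ν]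
    (h : ∀ T m, μ.real (cyl T m) = ν.real (cyl T m)) : μ = ν := by
  have hloc : ∀ (T : Finset (Edg d)) (S : Set (Om d)), IsLoc T S → μ S = ν S := by
    intro T S hS
    have h1 : μ.real S = ν.real S := by
      rw [real_loc hS μ, real_loc hS ν]
      exact Finset.sum_congr rfl fun b _ => h _ _
    rw [Measure.real, Measure.real] at h1
    exact (ENNReal.toReal_eq_toReal_iff' (measure_ne_top _ _) (measure_ne_top _ _)).1 h1
  refine ext_of_generate_finite (measurableCylinders fun _ : Edg d => St)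
    generateFrom_measurableCylinders.symm isPiSystem_measurableCylinders ?_ ?_
  · intro s hs
    obtain ⟨T, S, _, rfl⟩ := (mem_measurableCylinders s).1 hs
    refine hloc T _ fun c c' hc hm => ?_
    rw [mem_cylinder] at hm ⊢
    have : T.restrict c' = T.restrict c := by
      funext e
      exact (hc e.1 e.2).symm
    rw [this]
    exact hm
  · exact hloc ∅ _ fun _ _ _ _ => Set.mem_univ _

/-! ### Translations -/

/-- translation of an edge. -/
def trE (z : Vtx d) : Edg d ↪ Edg d where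
  toFun e := (e.1 + z, e.2)
  inj' := by
    rintro ⟨x, i⟩ ⟨y, j⟩ h
    simpa using h

/-- shift of a configuration. -/
def sh (z : Vtx d) (c : Om d) : Om d := fun e => c (trE z e)

lemma measurable_sh (z : Vtx d) : Measurable (sh z : Om d → Om d) :=
  measurable_pi_lambda _ fun _ => measurable_pi_apply _

lemma trE_neg (z : Vtx d) (e : Edg d) : trE (-z) (trE z e) = e :=
  Prod.ext (add_neg_cancel_right e.1 z) rfl

lemma trE_neg' (z : Vtx d) (e : Edg d) : trE z (trE (-z) e) = e :=
  Prod.ext (neg_add_cancel_right e.1 z) rfl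

lemma sh_preimage_cyl (z : Vtx d) (T : Finset (Edg d)) (m : Om d) :
    sh z ⁻¹' cyl T m = cyl (T.map (trE z)) (sh (-z) m) := by
  ext c
  simp only [Set.mem_preimage, cyl, Set.mem_ofPred_eq, sh]
  constructor
  · intro h e he
    obtain ⟨e', he', rfl⟩ := Finset.mem_map.1 he
    rw [h e' he', trE_neg]
  · intro h e he
    rw [h _ (Finset.mem_map_of_mem _ he), trE_neg]

lemma cE_trE (z : Vtx d) (e : Edg d) : cE (trE z e) = trS z (cE e) :=
  bC_trI z (Sum.inl e)

lemma TT_trE (z : Vtx d) (T : Finset (Edg d)) : TT (T.map (trE z)) = (TT T).map (trI z) := by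
  unfold TT
  rw [Finset.map_map, Finset.map_map]
  rfl

lemma sc_map {M N : Type*} [AddCommGroup M] [AddCommGroup N] (f : M →+ N) (b : Bool) (m : M) :
    f (sc b m) = sc b (f m) := by
  cases b <;> simp

lemma B1_trE (z : Vtx d) (T : Finset (Edg d)) (m : Om d) :
    B1 (T.map (trE z)) (sh (-z) m) = trS z (B1 T m) := by
  unfold B1
  rw [Finset.sum_map, map_sum]
  refine Finset.sum_congr rfl fun e _ => ?_
  rw [sh, trE_neg, cE_trE, sc_map]

lemma B2_trE (z : Vtx d) (T : Finset (Edg d)) (m : Om d) :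
    B2 (T.map (trE z)) (sh (-z) m) = trS z (B2 T m) := by
  unfold B2
  rw [Finset.sum_map, map_sum]
  refine Finset.sum_congr rfl fun e _ => ?_
  rw [sh, trE_neg, cE_trE, sc_map]

lemma pcyl_trE {u : ℝ} {f g : Srs d → ℝ} (z : Vtx d) (hf : ∀ A, f (trS z A) = f A)
    (hg : ∀ A, g (trS z A) = g A) (T : Finset (Edg d)) (m : Om d) :
    pcyl u f g (T.map (trE z)) (sh (-z) m) = pcyl u f g T m := by
  unfold pcyl
  rw [B1_trE, B2_trE, TT_trE, Rl_trS u f z hf, Rl_trS u g z hg, Finset.prod_map]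
  congr 1
  exact Finset.prod_congr rfl fun e _ => by rw [sh, trE_neg]

/-- **translation invariance**. -/
lemma IsP.map_sh {u : ℝ} {P : Measure (Om d)} (hP : IsP u P) (z : Vtx d) :
    P.map (sh z) = P := by
  have := hP.prob
  have h1 : IsProbabilityMeasure (P.map (sh z)) :=
    Measure.isProbabilityMeasure_map (measurable_sh z).aemeasurable
  refine ext_cyl fun T m => ?_
  rw [map_measureReal_apply (measurable_sh z) (measurableSet_cyl T m), sh_preimage_cyl,
    hP.eq, hP.eq, pcyl_trE z (cp_trS hP.u0 hP.u1 z) (ci_trS (adm0 hP.u0 hP.u1) z)]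

lemma IsP.real_sh {u : ℝ} {P : Measure (Om d)} (hP : IsP u P) (z : Vtx d) {S : Set (Om d)}
    (hS : MeasurableSet S) : P.real (sh z ⁻¹' S) = P.real S := by
  have h := hP.map_sh z
  rw [← map_measureReal_apply (measurable_sh z) hS, h]

/-! ### Mixing -/

lemma Rl_union (u : ℝ) (hu : 1 - u ^ 2 ≠ 0) (f : Srs d → ℝ) (A : Srs d)
    (T T' : Finset (Idx d)) (hd : Disjoint T T') :
    Rl bC u f A (T ∪ T') = Rl bC u (fun A' => Rl bC u f A' T') A T := by
  classical
  induction T using Finset.induction_on generalizing A with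
  | empty => rw [Finset.empty_union, Rl_empty]
  | insert e T he ih =>
    rw [Finset.disjoint_insert_left] at hd
    have hne : e ∉ T ∪ T' := by simp [he, hd.1]
    rw [Finset.insert_union, Rl_insert bC u f A hne hu, ih A hd.2, ih (A + bC e) hd.2,
      Rl_insert bC u _ A he hu]

/-- sources which are boundaries of sets of edges. -/
def EvenS (B : Srs d) : Prop := ∃ D : Finset (Idx d), IsE D ∧ bd bC D = B

lemma EvenS.add {B B' : Srs d} (h : EvenS B) (h' : EvenS B') : EvenS (B + B') := by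
  classical
  obtain ⟨D, hD, rfl⟩ := h
  obtain ⟨D', hD', rfl⟩ := h'
  refine ⟨symmDiff D D', fun i hi => ?_, bd_symmDiff char2 bC D D'⟩
  rw [Finset.mem_symmDiff] at hi
  rcases hi with hi | hi
  · exact hD i hi.1
  · exact hD' i hi.1

lemma evenS_bd {D : Finset (Idx d)} (hD : IsE D) : EvenS (bd bC D) := ⟨D, hD, rfl⟩

lemma evenS_zero : EvenS (0 : Srs d) := ⟨∅, by intro i hi; simp at hi, by simp [bd]⟩

lemma evenS_cE (e : Edg d) : EvenS (cE e) :=
  ⟨{Sum.inl e}, by intro i hi; exact ⟨e, by simpa using hi⟩, by simp [bd, cE]⟩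

lemma evenS_sc (b : Bool) {B : Srs d} (h : EvenS B) : EvenS (sc b B) := by
  cases b
  · exact evenS_zero
  · exact h

lemma evenS_sum {κ : Type*} (K : Finset κ) (B : κ → Srs d) (h : ∀ k ∈ K, EvenS (B k)) :
    EvenS (∑ k ∈ K, B k) := by
  classical
  induction K using Finset.induction_on with
  | empty => simpa using evenS_zero
  | insert k K hk ih =>
    rw [Finset.sum_insert hk]
    exact (h k (Finset.mem_insert_self _ _)).add (ih fun j hj => h j (Finset.mem_insert_of_mem hj))

lemma evenS_B1 (T : Finset (Edg d)) (m : Om d) : EvenS (B1 T m) :=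
  evenS_sum _ _ fun e _ => evenS_sc _ (evenS_cE e)

lemma evenS_B2 (T : Finset (Edg d)) (m : Om d) : EvenS (B2 T m) :=
  evenS_sum _ _ fun e _ => evenS_sc _ (evenS_cE e)

lemma IsE.subset {T S : Finset (Idx d)} (hT : IsE T) (h : S ⊆ T) : IsE S :=
  fun i hi => hT i (h hi)

lemma Rl_shift (u : ℝ) (f : Srs d → ℝ) (A B : Srs d) (T : Finset (Idx d)) :
    Rl bC u f (A + B) T = Rl bC u (fun A' => f (A' + B)) A T := by
  unfold Rl
  congr 1
  exact Finset.sum_congr rfl fun S _ => by rw [add_right_comm]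

/-- mixing of the removal functionals. -/
lemma Rl_mix {u : ℝ} (hu : 1 - u ^ 2 ≠ 0) (f : Srs d → ℝ) (i₀ : Fin d)
    (hf : ∀ A B, EvenS B → Tendsto (fun k : ℕ => f (A + trS (zk i₀ k) B)) atTop
      (𝓝 (f A * f B)))
    (A B : Srs d) (hB : EvenS B) (T T' : Finset (Idx d)) (hT' : IsE T')
    (hd : ∀ᶠ k : ℕ in atTop, Disjoint T (T'.map (trI (zk i₀ k)))) :
    Tendsto (fun k : ℕ => Rl bC u f (A + trS (zk i₀ k) B) (T ∪ T'.map (trI (zk i₀ k)))) atTop
      (𝓝 (Rl bC u f A T * Rl bC u f B T')) := by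
  classical
  have h1 : ∀ A' : Srs d, Tendsto (fun k : ℕ => Rl bC u f (A' + trS (zk i₀ k) B)
      (T'.map (trI (zk i₀ k)))) atTop (𝓝 (f A' * Rl bC u f B T')) := by
    intro A'
    have e1 : ∀ k : ℕ, Rl bC u f (A' + trS (zk i₀ k) B) (T'.map (trI (zk i₀ k))) =
        ((1 - u ^ 2) ^ T'.card)⁻¹ * ∑ S ∈ T'.powerset,
          (-u) ^ S.card * f (A' + trS (zk i₀ k) (B + bd bC S)) := by
      intro k
      unfold Rl
      rw [Finset.card_map]
      congr 1
      symm
      refine Finset.sum_bij (fun S _ => S.map (trI (zk i₀ k))) ?_ ?_ ?_ ?_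
      · intro S hS
        rw [Finset.mem_powerset] at hS ⊢
        exact Finset.map_subset_map.2 hS
      · intro S _ S' _ h
        exact Finset.map_injective _ h
      · intro S hS
        rw [Finset.mem_powerset] at hS
        refine ⟨T'.filter fun i => trI (zk i₀ k) i ∈ S, by simp, ?_⟩
        ext j
        simp only [Finset.mem_map, Finset.mem_filter]
        constructor
        · rintro ⟨i, ⟨_, hi⟩, rfl⟩; exact hi
        · intro hj
          obtain ⟨i, hi, rfl⟩ := Finset.mem_map.1 (hS hj)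
          exact ⟨i, ⟨hi, hj⟩, rfl⟩
      · intro S _
        rw [bd_trI, Finset.card_map, map_add, add_assoc]
    simp_rw [e1]
    have e2 : f A' * Rl bC u f B T' = ((1 - u ^ 2) ^ T'.card)⁻¹ * ∑ S ∈ T'.powerset,
          (-u) ^ S.card * (f A' * f (B + bd bC S)) := by
      unfold Rl
      rw [← mul_assoc, mul_comm (f A'), mul_assoc, Finset.mul_sum]
      congr 1
      exact Finset.sum_congr rfl fun S _ => by ring
    rw [e2]
    refine (tendsto_finsetSum _ fun S hS => (hf A' _ ?_).const_mul _).const_mul _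
    exact hB.add (evenS_bd (hT'.subset (Finset.mem_powerset.1 hS)))
  have h2 : Tendsto (fun k : ℕ => Rl bC u (fun A' => Rl bC u f (A' + trS (zk i₀ k) B)
      (T'.map (trI (zk i₀ k)))) A T) atTop
      (𝓝 (Rl bC u (fun A' => f A' * Rl bC u f B T') A T)) :=
    Rl_tendsto u (fun (k : ℕ) A' => Rl bC u f (A' + trS (zk i₀ k) B)
      (T'.map (trI (zk i₀ k)))) _ h1 A T
  have e3 : Rl bC u (fun A' => f A' * Rl bC u f B T') A T = Rl bC u f A T * Rl bC u f B T' := by
    unfold Rl
    rw [mul_assoc, Finset.sum_mul]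
    congr 1
    exact Finset.sum_congr rfl fun S _ => by ring
  rw [e3] at h2
  refine h2.congr' ?_
  filter_upwards [hd] with k hk
  rw [Rl_union u hu f _ T _ hk, Rl_shift]

lemma eventually_disjoint' (i₀ : Fin d) (T T' : Finset (Edg d)) :
    ∀ᶠ k : ℕ in atTop, Disjoint T (T'.map (trE (zk i₀ k))) := by
  obtain ⟨n, hn⟩ := (eventually_subset_boxE T).exists
  filter_upwards [eventually_disjoint i₀ (T := TT T') n] with k hk
  rw [Finset.disjoint_left] at hk ⊢
  intro e he he'
  have h1 : (Sum.inl e : Idx d) ∈ (TT T').map (trI (zk i₀ k)) := by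
    rw [← TT_trE]
    exact Finset.mem_map_of_mem _ he'
  exact hk h1 (inl_mem_JJ.2 (hn he))

lemma cyl_inter {T T' : Finset (Edg d)} (hd : Disjoint T T') (m m' : Om d) :
    cyl T m ∩ cyl T' m' = cyl (T ∪ T') (T.piecewise m m') := by
  ext c
  simp only [Set.mem_inter_iff, cyl, Set.mem_ofPred_eq, Finset.mem_union]
  constructor
  · rintro ⟨h1, h2⟩ e he
    by_cases heT : e ∈ T
    · rw [Finset.piecewise_eq_of_mem _ _ _ heT]; exact h1 e heT
    · rw [Finset.piecewise_eq_of_notMem _ _ _ heT]; exact h2 e (he.resolve_left heT)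
  · intro h
    refine ⟨fun e he => ?_, fun e he => ?_⟩
    · rw [h e (Or.inl he), Finset.piecewise_eq_of_mem _ _ _ he]
    · rw [h e (Or.inr he), Finset.piecewise_eq_of_notMem _ _ _
        (fun h' => Finset.disjoint_left.1 hd h' he)]

lemma sum_piecewise {R : Type*} [AddCommMonoid R] {T T' : Finset (Edg d)} (hd : Disjoint T T')
    (m m' : Om d) (F : Edg d → St → R) :
    ∑ e ∈ T ∪ T', F e (T.piecewise m m' e) = ∑ e ∈ T, F e (m e) + ∑ e ∈ T', F e (m' e) := by
  rw [Finset.sum_union hd]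
  congr 1
  · exact Finset.sum_congr rfl fun e he => by rw [Finset.piecewise_eq_of_mem _ _ _ he]
  · exact Finset.sum_congr rfl fun e he => by
      rw [Finset.piecewise_eq_of_notMem _ _ _ (fun h' => Finset.disjoint_left.1 hd h' he)]

lemma prod_piecewise {T T' : Finset (Edg d)} (hd : Disjoint T T')
    (m m' : Om d) (F : Edg d → St → ℝ) :
    ∏ e ∈ T ∪ T', F e (T.piecewise m m' e) = (∏ e ∈ T, F e (m e)) * ∏ e ∈ T', F e (m' e) := by
  rw [Finset.prod_union hd]
  congr 1
  · exact Finset.prod_congr rfl fun e he => by rw [Finset.piecewise_eq_of_mem _ _ _ he]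
  · exact Finset.prod_congr rfl fun e he => by
      rw [Finset.piecewise_eq_of_notMem _ _ _ (fun h' => Finset.disjoint_left.1 hd h' he)]

lemma B1_piecewise {T T' : Finset (Edg d)} (hd : Disjoint T T') (m m' : Om d) :
    B1 (T ∪ T') (T.piecewise m m') = B1 T m + B1 T' m' :=
  sum_piecewise hd m m' fun e s => sc s.2.1 (cE e)

lemma B2_piecewise {T T' : Finset (Edg d)} (hd : Disjoint T T') (m m' : Om d) :
    B2 (T ∪ T') (T.piecewise m m') = B2 T m + B2 T' m' :=
  sum_piecewise hd m m' fun e s => sc s.2.2 (cE e)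

lemma TT_union (T T' : Finset (Edg d)) : TT (T ∪ T') = TT T ∪ TT T' := Finset.map_union _ _

lemma TT_disjoint {T T' : Finset (Edg d)} (hd : Disjoint T T') : Disjoint (TT T) (TT T') := by
  unfold TT
  exact (Finset.disjoint_map _).2 hd

section

variable {u : ℝ} {P : Measure (Om d)} (hP : IsP u P)

include hP

lemma IsP.mix_cyl (i₀ : Fin d) (T T' : Finset (Edg d)) (m m' : Om d) :
    Tendsto (fun k : ℕ => P.real (cyl T m ∩ sh (zk i₀ k) ⁻¹' cyl T' m')) atTop
      (𝓝 (P.real (cyl T m) * P.real (cyl T' m'))) := by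
  have hu : 1 - u ^ 2 ≠ 0 := (adm0 hP.u0 hP.u1).ne
  have hd := eventually_disjoint' i₀ T T'
  have hdI : ∀ᶠ k : ℕ in atTop, Disjoint (TT T) ((TT T').map (trI (zk i₀ k))) := by
    filter_upwards [hd] with k hk
    rw [← TT_trE]
    exact TT_disjoint hk
  have m1 := Rl_mix hu (cp u) i₀ (fun A B ⟨D, hD, hDB⟩ => by
      rw [← hDB]; exact mix_cp hP.u0 hP.u1 i₀ A D hD) (B1 T m) (B1 T' m') (evenS_B1 T' m')
    (TT T) (TT T') (isE_TT T') hdI
  have m2 := Rl_mix hu (ci u 0) i₀ (fun A B ⟨D, hD, hDB⟩ => by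
      rw [← hDB]; exact mix_ci (adm0 hP.u0 hP.u1) i₀ A D hD) (B2 T m) (B2 T' m')
    (evenS_B2 T' m') (TT T) (TT T') (isE_TT T') hdI
  have m3 := (m1.mul m2).const_mul ((∏ e ∈ T, vv u (m e)) * ∏ e ∈ T', vv u (m' e))
  have e3 : P.real (cyl T m) * P.real (cyl T' m') =
      (∏ e ∈ T, vv u (m e)) * (∏ e ∈ T', vv u (m' e)) *
      (Rl bC u (cp u) (B1 T m) (TT T) * Rl bC u (cp u) (B1 T' m') (TT T') *
        (Rl bC u (ci u 0) (B2 T m) (TT T) * Rl bC u (ci u 0) (B2 T' m') (TT T'))) := by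
    rw [hP.eq, hP.eq, pcyl, pcyl]; ring
  rw [e3]
  refine m3.congr' ?_
  filter_upwards [hd] with k hk
  rw [sh_preimage_cyl, cyl_inter hk, hP.eq, pcyl, prod_piecewise hk m _ (fun _ s => vv u s),
    B1_piecewise hk, B2_piecewise hk, B1_trE, B2_trE, TT_union, TT_trE, Finset.prod_map]
  congr 2
  exact Finset.prod_congr rfl fun e _ => by rw [sh, trE_neg]

omit hP in
lemma IsLoc.inter {T T' : Finset (Edg d)} {S S' : Set (Om d)} (h : IsLoc T S)
    (h' : IsLoc T' S') : IsLoc (T ∪ T') (S ∩ S') := fun c c' hc hm =>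
  ⟨h c c' (fun e he => hc e (Finset.mem_union_left _ he)) hm.1,
    h' c c' (fun e he => hc e (Finset.mem_union_right _ he)) hm.2⟩

end

end Pool.Agent.Hhelper76.DC
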