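import Pool.Agent.Hhelper76.DC.BKm

/-!
# The second current has no sources
-/

open Finset Filter Topology MeasureTheory

namespace Pool.Agent.Hhelper76.DC

variable {d : ℕ}

/-- edges incident to `x`. -/
noncomputable def inc (x : Vtx d) : Finset (Edg d) :=
  (Finset.univ.image fun i : Fin d => ((x, i) : Edg d)) ∪
    Finset.univ.image fun i : Fin d => ((x - Pi.single i 1, i) : Edg d)

lemma mem_inc {x : Vtx d} {e : Edg d} : e ∈ inc x ↔ src e = x ∨ tgt e = x := by
  obtain ⟨y, i⟩ := e
  simp only [inc, Finset.mem_union, Finset.mem_image, Finset.mem_univ, true_and, src, tgt,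
    Prod.mk.injEq]
  constructor
  · rintro (⟨j, h1, h2⟩ | ⟨j, h1, h2⟩)
    · exact Or.inl h1.symm
    · right
      subst h2
      rw [← h1, sub_add_cancel]
  · rintro (h | h)
    · exact Or.inl ⟨i, h.symm, rfl⟩
    · right
      exact ⟨i, by rw [← h, add_sub_cancel_right], rfl⟩

lemma dl_apply_ne {x y : Vtx d} (h : y ≠ x) : dl y x = 0 := by
  unfold dl
  rw [Pi.single_eq_of_ne (Ne.symm h)]

lemma dl_apply_self (x : Vtx d) : dl x x = 1 := by
  unfold dl
  rw [Pi.single_eq_same]

lemma bd_apply_zero {S : Finset (Idx d)} {x : Vtx d} (h : ∀ i ∈ S, bC i x = 0) :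
    bd bC S x = 0 := by
  unfold bd
  rw [Finset.sum_apply]
  exact Finset.sum_eq_zero h

/-- no sources: finite-volume partition function vanish. -/
lemma Z_src_zero (u : ℝ) (n : ℕ) (x : Vtx d) (T : Finset (Edg d)) (hT : inc x ⊆ T)
    (B : Srs d) (hB : B x ≠ 0) : Z bC (cpl u 0) (JJ d n \ TT T) B = 0 := by
  unfold Z
  refine Finset.sum_eq_zero fun S hS => ?_
  rw [Finset.mem_powerset] at hS
  by_cases hx : Sum.inr x ∈ S
  · have : ∏ i ∈ S, cpl u 0 i = 0 := Finset.prod_eq_zero hx (by simp [cpl])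
    rw [this, mul_zero]
  · have hne : ¬ (bd bC S = B) := by
      intro h
      apply hB
      rw [← h]
      refine bd_apply_zero fun i hi => ?_
      rcases i with e | y
      · have he : e ∉ T := by
          intro he
          have := (Finset.mem_sdiff.1 (hS hi)).2
          exact this (Finset.mem_map.2 ⟨e, he, rfl⟩)
        have he' : e ∉ inc x := fun h => he (hT h)
        rw [mem_inc] at he'
        push Not at he'
        simp only [bC, Sum.elim_inl, Pi.add_apply]
        rw [dl_apply_ne he'.1, dl_apply_ne he'.2, add_zero]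
      · have : y ≠ x := by
          rintro rfl
          exact hx hi
        simp only [bC, Sum.elim_inr]
        exact dl_apply_ne this
    rw [ind_neg hne, zero_mul]

section

variable {u : ℝ} {P : Measure (Om d)} (hP : IsP u P)

include hP

lemma IsP.nosrc_cyl (x : Vtx d) (T : Finset (Edg d)) (hT : inc x ⊆ T) (m : Om d)
    (hB : B2 T m x ≠ 0) : P.real (cyl T m) = 0 := by
  have h0 := adm0 hP.u0 hP.u1
  rw [hP.eq, pcyl]
  have h1 : Tendsto (fun n => Rl bC u (cn u 0 n) (B2 T m) (TT T)) atTop
      (𝓝 (Rl bC u (ci u 0) (B2 T m) (TT T))) :=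
    Rl_tendsto u _ _ (tendsto_cn h0) _ _
  have h2 : ∀ᶠ n in atTop, Rl bC u (cn u 0 n) (B2 T m) (TT T) = 0 := by
    filter_upwards [eventually_subset_boxE T] with n hn
    have hTJ : TT T ⊆ JJ d n := TT_sub fun e he => inl_mem_JJ.2 (hn he)
    have hu : ∀ i ∈ TT T, cpl u 0 i = u := by
      intro i hi
      obtain ⟨e, he, rfl⟩ := Finset.mem_map.1 hi
      rfl
    have := cor_sdiff char2 bC _ h0.c0 u h0.ne _ _ hTJ hu (B2 T m)
    unfold cn
    rw [← this, Z_src_zero u n x T hT _ hB, zero_div]
  have h3 : Rl bC u (ci u 0) (B2 T m) (TT T) = 0 :=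
    tendsto_nhds_unique h1 (tendsto_const_nhds.congr' (by
      filter_upwards [h2] with n hn using hn.symm))
  rw [h3, mul_zero, mul_zero]

/-- the second current has no sources. -/
lemma IsP.nosrc (x : Vtx d) : ∀ᵐ c ∂P, B2 (inc x) c x = 0 := by
  have := hP.prob
  rw [ae_iff]
  have hcover : {c : Om d | ¬ B2 (inc x) c x = 0} ⊆
      ⋃ b ∈ {b : (inc x → St) | B2 (inc x) (ext (inc x) b) x ≠ 0}, cyl (inc x) (ext (inc x) b) := by
    intro c hc
    simp only [Set.mem_ofPred_eq] at hc
    simp only [Set.mem_iUnion, exists_prop, Set.mem_ofPred_eq]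
    refine ⟨fun e => c e.1, ?_, fun e he => by rw [ext_apply _ he]⟩
    have h1 : B2 (inc x) (ext (inc x) fun e => c e.1) = B2 (inc x) c := by
      unfold B2
      exact Finset.sum_congr rfl fun e he => by rw [ext_apply _ he]
    rw [h1]
    exact hc
  refine measure_mono_null hcover ?_
  rw [measure_biUnion_null_iff (Set.to_countable _)]
  intro b hb
  have := hP.nosrc_cyl x (inc x) (Finset.Subset.refl _) _ hb
  rwa [measureReal_eq_zero_iff] at this

end

/-- parity of the second current through the boundary of a finite set of vertices. -/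
lemma parity_sum (c : Om d) (M : Finset (Vtx d)) (hM : ∀ x ∈ M, B2 (inc x) c x = 0)
    (F : Finset (Edg d)) (hF : ∀ x ∈ M, inc x ⊆ F) :
    ∑ e ∈ F, sc (c e).2.2 ((if src e ∈ M then (1 : ZMod 2) else 0) +
      if tgt e ∈ M then 1 else 0) = 0 := by
  classical
  have h1 : ∀ x ∈ M, B2 F c x = 0 := by
    intro x hx
    rw [← hM x hx]
    unfold B2
    rw [Finset.sum_apply, Finset.sum_apply]
    refine (Finset.sum_subset (hF x hx) fun e _ he => ?_).symm
    rw [mem_inc] at he
    push Not at he
    cases (c e).2.2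
    · rfl
    · simp only [sc_true, bC_inl, Pi.add_apply]
      rw [dl_apply_ne he.1, dl_apply_ne he.2, add_zero]
  have h2 : ∑ x ∈ M, B2 F c x = 0 := Finset.sum_eq_zero h1
  unfold B2 at h2
  simp only [Finset.sum_apply] at h2
  rw [Finset.sum_comm] at h2
  refine Eq.trans (Finset.sum_congr rfl fun e _ => ?_) h2
  have hφ : ∀ x : Vtx d, ∑ v ∈ M, dl x v = if x ∈ M then 1 else 0 := by
    intro x
    unfold dl
    simp only [Pi.single_apply]
    rw [Finset.sum_ite_eq']
  cases (c e).2.2
  · simp
  · simp only [sc_true, bC_inl, Pi.add_apply]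
    rw [Finset.sum_add_distrib, hφ, hφ]

end Pool.Agent.Hhelper76.DC
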