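import Pool.Agent.Hhelper76.DC.Gam

/-!
# There are no bridges between infinite components
-/

open Finset Filter Topology MeasureTheory

namespace Pool.Agent.Hhelper76.DC

variable {d : ℕ}

lemma measurable_ind {S : Set (Om d)} (hS : MeasurableSet S) :
    Measurable fun c => ind (c ∈ S) := by
  classical
  have : (fun c => ind (c ∈ S)) = S.indicator (fun _ => (1 : ℝ)) := by
    funext c
    by_cases h : c ∈ S
    · rw [ind_pos h, Set.indicator_of_mem h]
    · rw [ind_neg h, Set.indicator_of_notMem h]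
  rw [this]
  exact measurable_const.indicator hS

lemma integrable_bdd (P : Measure (Om d)) [IsProbabilityMeasure P] {f : Om d → ℝ}
    (hf : Measurable f) (C : ℝ) (hC : ∀ c, |f c| ≤ C) : Integrable f P :=
  Integrable.of_bound hf.aestronglyMeasurable C (Filter.Eventually.of_forall hC)

lemma integrable_ind (P : Measure (Om d)) [IsProbabilityMeasure P] {S : Set (Om d)}
    (hS : MeasurableSet S) : Integrable (fun c => ind (c ∈ S)) P :=
  integrable_bdd P (measurable_ind hS) 1 fun c => by
    rw [abs_of_nonneg (ind_nonneg _)]; exact ind_le_one _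

lemma integral_ind (P : Measure (Om d)) [IsProbabilityMeasure P] {S : Set (Om d)}
    (hS : MeasurableSet S) : ∫ c, ind (c ∈ S) ∂P = P.real S := by
  classical
  have : (fun c => ind (c ∈ S)) = S.indicator (fun _ => (1 : ℝ)) := by
    funext c
    by_cases h : c ∈ S
    · rw [ind_pos h, Set.indicator_of_mem h]
    · rw [ind_neg h, Set.indicator_of_notMem h]
  rw [this, integral_indicator hS, setIntegral_const, smul_eq_mul, mul_one]

/-- the translated edges. -/
def eI (i₀ : Fin d) (L : ℕ) (e : Edg d) (i : ℕ) : Edg d := trE (zk i₀ (L * i)) e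

lemma zk_add (i₀ : Fin d) (a b : ℕ) : zk i₀ (a + b) = zk i₀ a + zk i₀ b := by
  unfold zk
  rw [← Pi.single_add]
  push_cast
  rfl

lemma trE_add (z z' : Vtx d) (e : Edg d) : trE (z + z') e = trE z (trE z' e) :=
  Prod.ext (by show e.1 + (z + z') = e.1 + z' + z; abel) rfl

lemma eI_inj (i₀ : Fin d) {L : ℕ} (hL : 1 ≤ L) (e : Edg d) : Function.Injective (eI i₀ L e) := by
  intro i j h
  have h1 : e.1 + zk i₀ (L * i) = e.1 + zk i₀ (L * j) := congrArg Prod.fst h
  have h2 : zk i₀ (L * i) = zk i₀ (L * j) := add_left_cancel h1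
  have h3 := congrFun h2 i₀
  rw [zk, zk, Pi.single_eq_same, Pi.single_eq_same] at h3
  have h4 : L * i = L * j := by exact_mod_cast h3
  exact Nat.eq_of_mul_eq_mul_left hL h4

lemma sh_st (z : Vtx d) (e : Edg d) (s : St) : sh z ⁻¹' st e s = st (trE z e) s := rfl

section

variable {u : ℝ} {P : Measure (Om d)} (hP : IsP u P)

include hP

/-- the variance bound by mixing. -/
lemma IsP.var_bound (i₀ : Fin d) (e : Edg d) (s : St) {ε : ℝ} (hε : 0 < ε) :
    ∀ᶠ L : ℕ in atTop, ∀ M : ℕ,
      VarP P ((Finset.range M).image (eI i₀ L e)) s ≤ M + M ^ 2 * ε := by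
  classical
  have := hP.prob
  have hm := hP.mix_loc i₀ (isLoc_st e s) (isLoc_st e s)
  have h1 : ∀ᶠ k : ℕ in atTop, P.real (st e s ∩ st (trE (zk i₀ k) e) s) ≤
      P.real (st e s) * P.real (st e s) + ε := by
    have h2 := hm.eventually (gt_mem_nhds (show P.real (st e s) * P.real (st e s) <
      P.real (st e s) * P.real (st e s) + ε by linarith))
    filter_upwards [h2] with k hk
    rw [sh_st] at hk
    exact hk.le
  obtain ⟨k₀, hk₀⟩ := eventually_atTop.1 h1
  filter_upwards [eventually_ge_atTop (max k₀ 1)] with L hL M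
  have hL1 : 1 ≤ L := le_trans (le_max_right _ _) hL
  have hL0 : k₀ ≤ L := le_trans (le_max_left _ _) hL
  have hinj := eI_inj i₀ hL1 e
  have hst : ∀ i, P.real (st (eI i₀ L e i) s) = P.real (st e s) := by
    intro i
    rw [eI, ← sh_st]
    exact hP.real_sh _ (measurableSet_st e s)
  have hpair : ∀ i j, i < j → P.real (st (eI i₀ L e i) s ∩ st (eI i₀ L e j) s) ≤
      P.real (st e s) * P.real (st e s) + ε := by
    intro i j hij
    obtain ⟨r, rfl⟩ := Nat.exists_eq_add_of_lt hij
    have e1 : eI i₀ L e (i + r + 1) = trE (zk i₀ (L * i)) (trE (zk i₀ (L * (r + 1))) e) := by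
      rw [eI, ← trE_add, ← zk_add]
      congr 2
      ring
    have e2 : st (eI i₀ L e i) s ∩ st (eI i₀ L e (i + r + 1)) s =
        sh (zk i₀ (L * i)) ⁻¹' (st e s ∩ st (trE (zk i₀ (L * (r + 1))) e) s) := by
      rw [Set.preimage_inter, sh_st, sh_st, e1]
      rfl
    rw [e2, hP.real_sh _ ((measurableSet_st e s).inter (measurableSet_st _ s))]
    refine hk₀ _ ?_
    calc k₀ ≤ L := hL0
      _ = L * 1 := (mul_one L).symm
      _ ≤ L * (r + 1) := Nat.mul_le_mul_left _ (by omega)
  unfold VarP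
  rw [Finset.sum_image (fun i _ j _ h => hinj h)]
  have hrow : ∀ i ∈ Finset.range M, ∑ e' ∈ (Finset.range M).image (eI i₀ L e),
      (P.real (st (eI i₀ L e i) s ∩ st e' s) - P.real (st (eI i₀ L e i) s) * P.real (st e' s)) ≤
      1 + M * ε := by
    intro i hi
    rw [Finset.sum_image (fun i _ j _ h => hinj h)]
    have hterm : ∀ j ∈ Finset.range M,
        (P.real (st (eI i₀ L e i) s ∩ st (eI i₀ L e j) s) -
          P.real (st (eI i₀ L e i) s) * P.real (st (eI i₀ L e j) s)) ≤
        (if i = j then 1 else 0) + ε := by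
      intro j _
      rw [hst, hst]
      by_cases hij : i = j
      · rw [if_pos hij]
        have h3 : P.real (st (eI i₀ L e i) s ∩ st (eI i₀ L e j) s) ≤ 1 := measureReal_le_one
        have h4 : 0 ≤ P.real (st e s) * P.real (st e s) := mul_nonneg measureReal_nonneg
          measureReal_nonneg
        linarith
      · rw [if_neg hij]
        rcases lt_or_gt_of_ne hij with h | h
        · have := hpair i j h
          linarith
        · have := hpair j i h
          rw [Set.inter_comm] at this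
          linarith
    refine (Finset.sum_le_sum hterm).trans ?_
    rw [Finset.sum_add_distrib, Finset.sum_ite_eq, if_pos hi, Finset.sum_const,
      Finset.card_range, nsmul_eq_mul]
  refine (Finset.sum_le_sum hrow).trans ?_
  rw [Finset.sum_const, Finset.card_range, nsmul_eq_mul]
  apply le_of_eq
  ring

/-- third moment inequality. -/
lemma IsP.third (hd : 0 < d) (i₀ : Fin d) (e : Edg d) {L : ℕ} (hL : 1 ≤ L) (M : ℕ) (B : ℝ)
    (hB : ∀ a b, ∑ f ∈ (Finset.range M).image (eI i₀ L e), P.real (Sp f a b) ≤ B) :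
    (M * P.real (bS e s10)) ^ 3 ≤ 3 * M ^ 2 * (B + 1) := by
  classical
  have := hP.prob
  have hinj := eI_inj i₀ hL e
  let g : ℕ → Om d → ℝ := fun i c => ind (c ∈ bS (eI i₀ L e i) s10)
  let X : ℕ → ℕ → ℕ → Om d → ℝ := fun i j k c =>
    ind (c ∈ Sp (eI i₀ L e i) (src (eI i₀ L e j)) (src (eI i₀ L e k)))
  let δ : ℕ → ℕ → ℝ := fun i j => if i = j then 1 else 0
  have g0 : ∀ i c, 0 ≤ g i c := fun i c => ind_nonneg _
  have g1 : ∀ i c, g i c ≤ 1 := fun i c => ind_le_one _
  have X0 : ∀ i j k c, 0 ≤ X i j k c := fun i j k c => ind_nonneg _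
  have δ0 : ∀ i j, 0 ≤ δ i j := by intro i j; simp only [δ]; split_ifs <;> norm_num
  have hpt : ∀ᵐ c ∂P, ∀ i j k, g i c * g j c * g k c ≤
      X i j k c + X j i k c + X k i j c + (δ i j + δ i k + δ j k) := by
    filter_upwards [hP.bk2 hd] with c hc i j k
    have hle1 : g i c * g j c * g k c ≤ 1 := by
      have a1 := mul_le_one₀ (g1 i c) (g0 j c) (g1 j c)
      exact mul_le_one₀ a1 (g0 k c) (g1 k c)
    by_cases hdist : i ≠ j ∧ i ≠ k ∧ j ≠ k
    · by_cases hmem : c ∈ bS (eI i₀ L e i) s10 ∧ c ∈ bS (eI i₀ L e j) s10 ∧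
        c ∈ bS (eI i₀ L e k) s10
      · obtain ⟨mi, mj, mk⟩ := hmem
        have oi : eI i₀ L e i ∈ om c := by show (c _).1 = true; rw [mi.1]
        have oj : eI i₀ L e j ∈ om c := by show (c _).1 = true; rw [mj.1]
        have ok : eI i₀ L e k ∈ om c := by show (c _).1 = true; rw [mk.1]
        have h3 := three_bridges hc (hinj.ne hdist.1) (hinj.ne hdist.2.1) (hinj.ne hdist.2.2)
          oi oj ok mi.2 mj.2 mk.2
        have cij := same_cluster hc oi mi.2 mj.2
        have cik := same_cluster hc oi mi.2 mk.2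
        have cjk := same_cluster hc oj mj.2 mk.2
        have key : X i j k c = 1 ∨ X j i k c = 1 ∨ X k i j c = 1 := by
          rcases h3 with h3 | h3 | h3
          · exact Or.inl (ind_pos ⟨mi, cjk, h3⟩)
          · exact Or.inr (Or.inl (ind_pos ⟨mj, cik, h3⟩))
          · exact Or.inr (Or.inr (ind_pos ⟨mk, cij, h3⟩))
        have := X0 i j k c
        have := X0 j i k c
        have := X0 k i j c
        have := δ0 i j
        have := δ0 i k
        have := δ0 j k
        rcases key with h | h | h <;> linarith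
      · have hz : g i c * g j c * g k c = 0 := by
          by_cases a1 : c ∈ bS (eI i₀ L e i) s10
          · by_cases a2 : c ∈ bS (eI i₀ L e j) s10
            · have a3 : c ∉ bS (eI i₀ L e k) s10 := fun a3 => hmem ⟨a1, a2, a3⟩
              have : g k c = 0 := ind_neg a3
              rw [this, mul_zero]
            · have : g j c = 0 := ind_neg a2
              rw [this, mul_zero, zero_mul]
          · have : g i c = 0 := ind_neg a1
            rw [this, zero_mul, zero_mul]
        rw [hz]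
        have := X0 i j k c
        have := X0 j i k c
        have := X0 k i j c
        have := δ0 i j
        have := δ0 i k
        have := δ0 j k
        linarith
    · have hδ : 1 ≤ δ i j + δ i k + δ j k := by
        have := δ0 i j
        have := δ0 i k
        have := δ0 j k
        by_cases h1 : i = j
        · have : δ i j = 1 := if_pos h1
          linarith
        · by_cases h2 : i = k
          · have : δ i k = 1 := if_pos h2
            linarith
          · by_cases h3 : j = k
            · have : δ j k = 1 := if_pos h3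
              linarith
            · exact absurd ⟨h1, h2, h3⟩ hdist
      have := X0 i j k c
      have := X0 j i k c
      have := X0 k i j c
      linarith
  set R := Finset.range M with hR
  let N : Om d → ℝ := fun c => ∑ i ∈ R, g i c
  have gm : ∀ i, Measurable (g i) := fun i => measurable_ind (measurableSet_bS _ _)
  have Xm : ∀ i j k, Measurable (X i j k) := fun i j k => measurable_ind (measurableSet_Sp _ _ _)
  have gI : ∀ i, Integrable (g i) P := fun i => integrable_ind P (measurableSet_bS _ _)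
  have XI : ∀ i j k, Integrable (X i j k) P := fun i j k =>
    integrable_ind P (measurableSet_Sp _ _ _)
  have gval : ∀ i, ∫ c, g i c ∂P = P.real (bS e s10) := by
    intro i
    rw [integral_ind P (measurableSet_bS _ _), eI, ← sh_bS]
    exact hP.real_sh _ (measurableSet_bS e s10)
  have Xsum : ∀ j k, ∑ i ∈ R, ∫ c, X i j k c ∂P ≤ B := by
    intro j k
    have h2 := hB (src (eI i₀ L e j)) (src (eI i₀ L e k))
    rw [Finset.sum_image (fun i _ j _ h => hinj h)] at h2
    refine le_trans (le_of_eq (Finset.sum_congr rfl fun i _ => ?_)) h2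
    exact integral_ind P (measurableSet_Sp _ _ _)
  have NI : Integrable N P := integrable_finsetSum _ fun i _ => gI i
  have NE : ∫ c, N c ∂P = M * P.real (bS e s10) := by
    rw [integral_finsetSum _ fun i _ => gI i]
    rw [Finset.sum_congr rfl fun i _ => gval i, Finset.sum_const, hR, Finset.card_range,
      nsmul_eq_mul]
  have Nm : Measurable N := Finset.measurable_sum _ fun i _ => gm i
  have N0 : ∀ c, 0 ≤ N c := fun c => Finset.sum_nonneg fun i _ => g0 i c
  have NM : ∀ c, N c ≤ M := by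
    intro c
    calc N c ≤ ∑ i ∈ R, (1 : ℝ) := Finset.sum_le_sum fun i _ => g1 i c
      _ = M := by rw [Finset.sum_const, hR, Finset.card_range, nsmul_eq_mul, mul_one]
  have N3I : Integrable (fun c => N c ^ 3) P := by
    refine integrable_bdd P (Nm.pow_const 3) ((M : ℝ) ^ 3) fun c => ?_
    rw [abs_of_nonneg (pow_nonneg (N0 c) 3)]
    exact pow_le_pow_left₀ (N0 c) (NM c) 3
  -- upper bound of the third moment
  let Y : Om d → ℝ := fun c => ∑ i ∈ R, ∑ j ∈ R, ∑ k ∈ R,
    (X i j k c + X j i k c + X k i j c + (δ i j + δ i k + δ j k))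
  have YI : Integrable Y P := by
    refine integrable_finsetSum _ fun i _ => integrable_finsetSum _ fun j _ =>
      integrable_finsetSum _ fun k _ => ?_
    exact (((XI i j k).add (XI j i k)).add (XI k i j)).add (integrable_const _)
  have hNY : ∀ᵐ c ∂P, N c ^ 3 ≤ Y c := by
    filter_upwards [hpt] with c hc
    have e1 : N c ^ 3 = ∑ i ∈ R, ∑ j ∈ R, ∑ k ∈ R, g i c * g j c * g k c := by
      have : N c ^ 3 = (N c * N c) * N c := by ring
      rw [this]
      simp only [N]
      rw [Finset.sum_mul_sum, Finset.sum_mul]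
      refine Finset.sum_congr rfl fun i _ => ?_
      rw [Finset.sum_mul]
      refine Finset.sum_congr rfl fun j _ => ?_
      rw [Finset.mul_sum]
    rw [e1]
    exact Finset.sum_le_sum fun i _ => Finset.sum_le_sum fun j _ => Finset.sum_le_sum
      fun k _ => hc i j k
  have hup : ∫ c, N c ^ 3 ∂P ≤ ∫ c, Y c ∂P := integral_mono_ae N3I YI hNY
  have hY : ∫ c, Y c ∂P ≤ 3 * M ^ 2 * (B + 1) := by
    have e1 : ∫ c, Y c ∂P = ∑ i ∈ R, ∑ j ∈ R, ∑ k ∈ R,
        ((∫ c, X i j k c ∂P) + (∫ c, X j i k c ∂P) + (∫ c, X k i j c ∂P) +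
          (δ i j + δ i k + δ j k)) := by
      have IT : ∀ i j k, Integrable (fun c => X i j k c + X j i k c + X k i j c +
          (δ i j + δ i k + δ j k)) P := fun i j k =>
        (((XI i j k).add (XI j i k)).add (XI k i j)).add (integrable_const _)
      have IT2 : ∀ i j, Integrable (fun c => ∑ k ∈ R, (X i j k c + X j i k c + X k i j c +
          (δ i j + δ i k + δ j k))) P := fun i j => integrable_finsetSum _ fun k _ => IT i j k
      have IT3 : ∀ i, Integrable (fun c => ∑ j ∈ R, ∑ k ∈ R, (X i j k c + X j i k c +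
          X k i j c + (δ i j + δ i k + δ j k))) P := fun i =>
        integrable_finsetSum _ fun j _ => IT2 i j
      simp only [Y]
      rw [integral_finsetSum _ fun i _ => IT3 i]
      refine Finset.sum_congr rfl fun i _ => ?_
      rw [integral_finsetSum _ fun j _ => IT2 i j]
      refine Finset.sum_congr rfl fun j _ => ?_
      rw [integral_finsetSum _ fun k _ => IT i j k]
      refine Finset.sum_congr rfl fun k _ => ?_
      have a1 := integral_add (μ := P) (((XI i j k).add (XI j i k)).add (XI k i j))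
        (integrable_const (δ i j + δ i k + δ j k))
      have a2 := integral_add (μ := P) ((XI i j k).add (XI j i k)) (XI k i j)
      have a3 := integral_add (μ := P) (XI i j k) (XI j i k)
      simp only [Pi.add_apply] at a1 a2 a3
      rw [a1, a2, a3, integral_const]
      simp
    rw [e1]
    simp only [Finset.sum_add_distrib]
    have b1 : ∑ i ∈ R, ∑ j ∈ R, ∑ k ∈ R, ∫ c, X i j k c ∂P ≤ M ^ 2 * B := by
      have : ∑ i ∈ R, ∑ j ∈ R, ∑ k ∈ R, ∫ c, X i j k c ∂P =
          ∑ j ∈ R, ∑ k ∈ R, ∑ i ∈ R, ∫ c, X i j k c ∂P := by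
        rw [Finset.sum_comm]
        exact Finset.sum_congr rfl fun j _ => Finset.sum_comm
      rw [this]
      calc ∑ j ∈ R, ∑ k ∈ R, ∑ i ∈ R, ∫ c, X i j k c ∂P ≤ ∑ j ∈ R, ∑ k ∈ R, B :=
            Finset.sum_le_sum fun j _ => Finset.sum_le_sum fun k _ => Xsum j k
        _ = M ^ 2 * B := by
            rw [Finset.sum_const, Finset.sum_const, hR, Finset.card_range]
            simp only [nsmul_eq_mul]
            ring
    have b2 : ∑ i ∈ R, ∑ j ∈ R, ∑ k ∈ R, ∫ c, X j i k c ∂P ≤ M ^ 2 * B := by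
      calc ∑ i ∈ R, ∑ j ∈ R, ∑ k ∈ R, ∫ c, X j i k c ∂P
          = ∑ i ∈ R, ∑ k ∈ R, ∑ j ∈ R, ∫ c, X j i k c ∂P :=
            Finset.sum_congr rfl fun i _ => Finset.sum_comm
        _ ≤ ∑ j ∈ R, ∑ k ∈ R, B :=
            Finset.sum_le_sum fun j _ => Finset.sum_le_sum fun k _ => Xsum j k
        _ = M ^ 2 * B := by
            rw [Finset.sum_const, Finset.sum_const, hR, Finset.card_range]
            simp only [nsmul_eq_mul]
            ring
    have b3 : ∑ i ∈ R, ∑ j ∈ R, ∑ k ∈ R, ∫ c, X k i j c ∂P ≤ M ^ 2 * B := by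
      calc ∑ i ∈ R, ∑ j ∈ R, ∑ k ∈ R, ∫ c, X k i j c ∂P ≤ ∑ j ∈ R, ∑ k ∈ R, B :=
            Finset.sum_le_sum fun j _ => Finset.sum_le_sum fun k _ => Xsum j k
        _ = M ^ 2 * B := by
            rw [Finset.sum_const, Finset.sum_const, hR, Finset.card_range]
            simp only [nsmul_eq_mul]
            ring
    have δrow : ∀ i ∈ R, ∑ j ∈ R, δ i j = 1 := by
      intro i hi
      simp only [δ]
      rw [Finset.sum_ite_eq, if_pos hi]
    have b4 : ∑ i ∈ R, ∑ j ∈ R, ∑ k ∈ R, δ i j = M ^ 2 := by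
      calc ∑ i ∈ R, ∑ j ∈ R, ∑ k ∈ R, δ i j = ∑ k ∈ R, ∑ i ∈ R, ∑ j ∈ R, δ i j := by
            rw [Finset.sum_comm (s := R) (t := R) (f := fun k i => ∑ j ∈ R, δ i j)]
            exact Finset.sum_congr rfl fun i _ => Finset.sum_comm
        _ = ∑ k ∈ R, ∑ i ∈ R, (1 : ℝ) :=
            Finset.sum_congr rfl fun k _ => Finset.sum_congr rfl fun i hi => δrow i hi
        _ = M ^ 2 := by
            rw [Finset.sum_const, Finset.sum_const, hR, Finset.card_range]
            simp only [nsmul_eq_mul]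
            ring
    have b5 : ∑ i ∈ R, ∑ j ∈ R, ∑ k ∈ R, δ i k = M ^ 2 := by
      calc ∑ i ∈ R, ∑ j ∈ R, ∑ k ∈ R, δ i k = ∑ i ∈ R, ∑ j ∈ R, (1 : ℝ) :=
            Finset.sum_congr rfl fun i hi => Finset.sum_congr rfl fun j _ => δrow i hi
        _ = M ^ 2 := by
            rw [Finset.sum_const, Finset.sum_const, hR, Finset.card_range]
            simp only [nsmul_eq_mul]
            ring
    have b6 : ∑ i ∈ R, ∑ j ∈ R, ∑ k ∈ R, δ j k = M ^ 2 := by
      calc ∑ i ∈ R, ∑ j ∈ R, ∑ k ∈ R, δ j k = ∑ i ∈ R, ∑ j ∈ R, (1 : ℝ) :=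
            Finset.sum_congr rfl fun i _ => Finset.sum_congr rfl fun j hj => δrow j hj
        _ = M ^ 2 := by
            rw [Finset.sum_const, Finset.sum_const, hR, Finset.card_range]
            simp only [nsmul_eq_mul]
            ring
    rw [b4, b5, b6]
    linarith
  -- lower bound
  set m := M * P.real (bS e s10) with hm
  have hm0 : 0 ≤ m := mul_nonneg (Nat.cast_nonneg _) measureReal_nonneg
  have hlow : m ^ 3 ≤ ∫ c, N c ^ 3 ∂P := by
    have h1 : ∫ c, (3 * m ^ 2 * N c - 2 * m ^ 3) ∂P ≤ ∫ c, N c ^ 3 ∂P := by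
      refine integral_mono ((NI.const_mul _).sub (integrable_const _)) N3I fun c => ?_
      have h2 : 0 ≤ (N c - m) ^ 2 * (N c + 2 * m) :=
        mul_nonneg (sq_nonneg _) (by have := N0 c; linarith)
      show 3 * m ^ 2 * N c - 2 * m ^ 3 ≤ N c ^ 3
      nlinarith
    rw [integral_sub (NI.const_mul _) (integrable_const _), integral_const_mul, NE,
      integral_const] at h1
    simp only [probReal_univ, one_smul] at h1
    calc m ^ 3 = 3 * m ^ 2 * m - 2 * m ^ 3 := by ring
      _ ≤ _ := h1
  linarith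

/-- type `s10` is null. -/
lemma IsP.gamma_zero (hd : 0 < d) (e : Edg d) : P.real (bS e s10) = 0 := by
  classical
  have := hP.prob
  by_contra hne
  set p := P.real (bS e s10) with hp
  have hp0 : 0 < p := lt_of_le_of_ne measureReal_nonneg (Ne.symm hne)
  have hpos := (adm0 hP.u0 hP.u1).pos
  set C := 1 + 2 / (1 - u ^ 2) with hC
  have hC1 : 1 ≤ C := by
    have : 0 ≤ 2 / (1 - u ^ 2) := by positivity
    linarith
  have key : ∀ M : ℕ, 1 ≤ M → M * p ^ 3 ≤ 3 * (Real.sqrt (2 * M) * C + 1) := by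
    intro M hM
    have hM' : (0 : ℝ) < M := by exact_mod_cast hM
    have hε : (0 : ℝ) < 1 / M := by positivity
    have v1 := hP.var_bound ⟨0, hd⟩ e s10 hε
    have v2 := hP.var_bound ⟨0, hd⟩ e s0 hε
    obtain ⟨L, hL1, hL2, hL3⟩ := (v1.and (v2.and (eventually_ge_atTop 1))).exists
    have e1 : (M : ℝ) + (M : ℝ) ^ 2 * (1 / M) = 2 * M := by field_simp; ring
    have w1 := hL1 M
    have w2 := hL2 M
    rw [e1] at w1 w2
    set K := (Finset.range M).image (eI ⟨0, hd⟩ L e) with hK
    have hB : ∀ a b, ∑ f ∈ K, P.real (Sp f a b) ≤ Real.sqrt (2 * M) * C := by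
      intro a b
      refine (hP.key_inf hd a b K).trans ?_
      have s1 := Real.sqrt_le_sqrt w1
      have s2 := Real.sqrt_le_sqrt w2
      have s3 : 0 ≤ 2 / (1 - u ^ 2) := by positivity
      have s4 := mul_le_mul_of_nonneg_left s2 s3
      rw [hC]
      linarith
    have h3 := hP.third hd ⟨0, hd⟩ e hL3 M _ hB
    have h4 : (M : ℝ) ^ 2 * (M * p ^ 3) ≤ (M : ℝ) ^ 2 * (3 * (Real.sqrt (2 * M) * C + 1)) := by
      calc (M : ℝ) ^ 2 * (M * p ^ 3) = (M * p) ^ 3 := by ring
        _ ≤ _ := h3
        _ = _ := by ring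
    exact le_of_mul_le_mul_left h4 (by positivity)
  -- choose `M = 2 k ^ 2`
  have key2 : ∀ k : ℕ, 1 ≤ k → (k : ℝ) * p ^ 3 ≤ 3 * (C + 1) := by
    intro k hk
    have hk' : (1 : ℝ) ≤ k := by exact_mod_cast hk
    have h1 := key (2 * k ^ 2) (by have := Nat.one_le_pow 2 k hk; omega)
    have e1 : Real.sqrt (2 * ((2 * k ^ 2 : ℕ) : ℝ)) = 2 * k := by
      have : 2 * ((2 * k ^ 2 : ℕ) : ℝ) = (2 * k) ^ 2 := by push_cast; ring
      rw [this, Real.sqrt_sq (by positivity)]
    rw [e1] at h1
    push_cast at h1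
    have hp3 : 0 < p ^ 3 := by positivity
    have h2 : (2 * k : ℝ) * (k * p ^ 3) ≤ (2 * k) * (3 * (C + 1)) := by
      calc (2 * k : ℝ) * (k * p ^ 3) = 2 * k ^ 2 * p ^ 3 := by ring
        _ ≤ 3 * (2 * k * C + 1) := h1
        _ ≤ (2 * k) * (3 * (C + 1)) := by nlinarith
    exact le_of_mul_le_mul_left h2 (by positivity)
  obtain ⟨k, hk⟩ := exists_nat_gt (3 * (C + 1) / p ^ 3)
  have hp3 : 0 < p ^ 3 := by positivity
  have h1 := key2 (k + 1) (by omega)
  rw [div_lt_iff₀ hp3] at hk
  push_cast at h1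
  nlinarith

/-- **no bridges between infinite components**. -/
theorem IsP.br_null (hd : 0 < d) (e : Edg d) : ∀ᵐ c ∂P, ¬ Br e (om c) := by
  have := hP.prob
  have hz : ∀ s, P.real (bS e s) = 0 → ∀ᵐ c ∂P, c ∉ bS e s := by
    intro s hs
    rw [measureReal_eq_zero_iff] at hs
    exact measure_eq_zero_iff_ae_notMem.1 hs
  filter_upwards [hP.ae_vT {e}, hz _ (hP.alpha_zero hd e), hz _ (hP.beta_zero hd e),
    hz _ (hP.gamma_zero hd e), hz _ (hP.delta_zero hd e), hz _ (hP.eps_zero hd e)]
    with c h0 h1 h2 h3 h4 h5 hb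
  unfold vT at h0
  rw [Finset.prod_singleton] at h0
  rcases hce : c e with ⟨b1, b2, b3⟩
  cases b1 <;> cases b2 <;> cases b3
  · exact h1 ⟨hce, hb⟩
  · rw [hce] at h0; simp [vv] at h0
  · rw [hce] at h0; simp [vv] at h0
  · rw [hce] at h0; simp [vv] at h0
  · exact h2 ⟨hce, hb⟩
  · exact h4 ⟨hce, hb⟩
  · exact h3 ⟨hce, hb⟩
  · exact h5 ⟨hce, hb⟩

end

end Pool.Agent.Hhelper76.DC
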